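import Pool.Agent.Helper909_ea.Herm

/-! Block sums of lattices with elementary abelian groups of automorphisms, and the lattice
`A_{p-1}^*` with its automorphism of order `p`. -/

set_option autoImplicit false

open MeasureTheory Metric Filter Set
open scoped Topology InnerProductSpace Pointwise

namespace Pool.Agent.Helper909EA

open Pool.Agent.H818R2
open Pool.Agent.H160R3.Herm (minSq hermite bsum det_bsum sum_bsum minSq_smul_le pow_value
  exists_lt_value hermite_ge minSq_le minSq_nonneg le_minSq)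

/-- a group `(ℤ/p)^k` of linear maps which preserve the integer vectors and the form `|A v|^2` -/
def HasSym (p k : ℕ) {n : ℕ} (A : Matrix (Fin n) (Fin n) ℝ) : Prop :=
  ∃ U : Multiplicative (Fin k → ZMod p) →* Module.End ℝ (Fin n → ℝ), Function.Injective U ∧
    (∀ g, ∀ w : Fin n → ℤ, ∃ w' : Fin n → ℤ, U g (fun j => (w j : ℝ)) = fun j => (w' j : ℝ)) ∧
    ∀ g v, ∑ i, (A.mulVec (U g v)) i ^ 2 = ∑ i, (A.mulVec v) i ^ 2

lemma latt_span {n : ℕ} {A : Matrix (Fin n) (Fin n) ℝ} (hA : A.det ≠ 0) :
    Submodule.span ℝ (latt A : Set (EuclideanSpace ℝ (Fin n))) = ⊤ := by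
  rw [eq_top_iff]
  intro z _
  obtain ⟨u, hu⟩ := amap_surj hA z
  have h1 : u = ∑ j, u j • (fun i => (((Pi.single j 1 : Fin n → ℤ) i : ℤ) : ℝ)) := by
    funext i
    rw [Finset.sum_apply, Finset.sum_eq_single i]
    · simp
    · intro j _ hji
      simp [Pi.single_apply, hji.symm]
    · simp
  rw [hu, h1, map_sum]
  apply Submodule.sum_mem
  intro j _
  rw [map_smul]
  apply Submodule.smul_mem
  apply Submodule.subset_span
  exact ⟨Pi.single j 1, rfl⟩

lemma amap_inj {n : ℕ} {A : Matrix (Fin n) (Fin n) ℝ} (hA : A.det ≠ 0) :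
    Function.Injective (amap A) := by
  intro u v huv
  have h1 : A.mulVec u = A.mulVec v := congrArg WithLp.ofLp huv
  exact Matrix.mulVec_injective_of_isUnit ((Matrix.isUnit_iff_isUnit_det _).2
          (isUnit_iff_ne_zero.2 hA)) h1

/-- the coordinates of a lattice -/
noncomputable def eqv {n : ℕ} {A : Matrix (Fin n) (Fin n) ℝ} (hA : A.det ≠ 0) :
    (Fin n → ℝ) ≃ₗ[ℝ] EuclideanSpace ℝ (Fin n) :=
  LinearEquiv.ofBijective (amap A) ⟨amap_inj hA, fun z => (amap_surj hA z).imp fun _ h => h.symm⟩

lemma eqv_apply {n : ℕ} {A : Matrix (Fin n) (Fin n) ℝ} (hA : A.det ≠ 0) (u : Fin n → ℝ) :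
    eqv hA u = amap A u := rfl

lemma norm_eqv {n : ℕ} {A : Matrix (Fin n) (Fin n) ℝ} (hA : A.det ≠ 0)
    (x : EuclideanSpace ℝ (Fin n)) (L : Module.End ℝ (Fin n → ℝ))
    (hL : ∀ v, ∑ i, (A.mulVec (L v)) i ^ 2 = ∑ i, (A.mulVec v) i ^ 2) :
    ‖eqv hA (L ((eqv hA).symm x))‖ = ‖x‖ := by
  rw [← sq_eq_sq₀ (norm_nonneg _) (norm_nonneg _), eqv_apply, norm_sq_amap, hL, ← norm_sq_amap,
    ← eqv_apply hA, LinearEquiv.apply_symm_apply]

lemma latt_discrete {n : ℕ} {A : Matrix (Fin n) (Fin n) ℝ} (hA : A.det ≠ 0) :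
    DiscreteTopology (latt A) := by
  set T := LinearMap.toContinuousLinearMap (eqv hA).symm.toLinearMap with hT
  have hK : 0 < ‖T‖ + 1 := by positivity
  apply DiscreteTopology.of_forall_le_norm (r := 1 / (‖T‖ + 1)) (by positivity)
  rintro ⟨_, w, rfl⟩ hx
  have hw : w ≠ 0 := by
    rintro rfl
    apply hx
    apply Subtype.ext
    have : (fun j : Fin n => (((0 : Fin n → ℤ) j : ℤ) : ℝ)) = 0 := by funext j; simp
    simp only [this, map_zero]
    rfl
  obtain ⟨i, hi⟩ := Function.ne_iff.1 hw
  have h1 : T (amap A (fun j => (w j : ℝ))) = fun j => (w j : ℝ) := by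
    change (eqv hA).symm (eqv hA _) = _
    rw [LinearEquiv.symm_apply_apply]
  have h2 := T.le_opNorm (amap A (fun j => (w j : ℝ)))
  rw [h1] at h2
  have h3 : (1 : ℝ) ≤ ‖(fun j => (w j : ℝ))‖ := by
    refine le_trans ?_ (norm_le_pi_norm _ i)
    rw [Real.norm_eq_abs]
    have : (1 : ℤ) ≤ |w i| := Int.one_le_abs hi
    exact_mod_cast this
  change 1 / (‖T‖ + 1) ≤ ‖amap A (fun j => (w j : ℝ))‖
  rw [div_le_iff₀ hK]
  have h4 := norm_nonneg (amap A (fun j => (w j : ℝ)))
  nlinarith

/-- from integral symmetries to isometries -/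
lemma elem_of_sym {p k n : ℕ} {A : Matrix (Fin n) (Fin n) ℝ} (hA : A.det ≠ 0)
    (h : HasSym p k A) : HasElemAbelian p k n (latt A) := by
  obtain ⟨U, hinj, hint, hform⟩ := h
  have hmul : ∀ (g h : Multiplicative (Fin k → ZMod p)) (v : Fin n → ℝ),
      U g (U h v) = U (g * h) v := by
    intro g h v
    rw [map_mul]; rfl
  refine ⟨latt_span hA, latt_discrete hA, ?_⟩
  · refine ⟨{
      toFun := fun g => {
        toFun := fun x => eqv hA (U g ((eqv hA).symm x))
        invFun := fun x => eqv hA (U g⁻¹ ((eqv hA).symm x))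
        map_add' := by intro x y; simp
        map_smul' := by intro c x; simp
        left_inv := by
          intro x
          simp only [LinearEquiv.symm_apply_apply]
          rw [hmul, inv_mul_cancel, map_one]
          simp
        right_inv := by
          intro x
          simp only [LinearEquiv.symm_apply_apply]
          rw [hmul, mul_inv_cancel, map_one]
          simp
        norm_map' := by
          intro x
          exact norm_eqv hA x (U g) (hform g) }
      map_one' := by
        ext x : 1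
        change eqv hA (U 1 ((eqv hA).symm x)) = x
        rw [map_one]
        simp
      map_mul' := by
        intro g h
        ext x : 1
        change eqv hA (U (g * h) ((eqv hA).symm x)) =
          eqv hA (U g ((eqv hA).symm (eqv hA (U h ((eqv hA).symm x)))))
        rw [LinearEquiv.symm_apply_apply, hmul] }, ?_, ?_⟩
    · intro g h hgh
      apply hinj
      refine LinearMap.ext fun v => ?_
      have h1 : eqv hA (U g ((eqv hA).symm (eqv hA v))) =
          eqv hA (U h ((eqv hA).symm (eqv hA v))) :=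
        congrArg (fun T => T (eqv hA v)) hgh
      rw [LinearEquiv.symm_apply_apply] at h1
      exact (eqv hA).injective h1
    · rintro g _ ⟨w, rfl⟩
      obtain ⟨w', hw'⟩ := hint g w
      refine ⟨w', ?_⟩
      change eqv hA (U g ((eqv hA).symm (eqv hA _))) = _
      rw [LinearEquiv.symm_apply_apply, hw']
      rfl

/-- the trivial group -/
lemma hasSym_zero (p : ℕ) {n : ℕ} (A : Matrix (Fin n) (Fin n) ℝ) : HasSym p 0 A := by
  refine ⟨1, ?_, ?_, ?_⟩
  · intro a b _
    apply Multiplicative.toAdd.injective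
    exact Subsingleton.elim _ _
  · intro g w
    exact ⟨w, by simp⟩
  · intro g v
    simp

/-- block maps -/
noncomputable def bmap {n m : ℕ} (S : Module.End ℝ (Fin n → ℝ)) (T : Module.End ℝ (Fin m → ℝ)) :
    Module.End ℝ (Fin (n + m) → ℝ) where
  toFun v := Fin.append (S (fun i => v (Fin.castAdd m i))) (T (fun j => v (Fin.natAdd n j)))
  map_add' u v := by
    have h1 : (fun i => (u + v) (Fin.castAdd m i)) =
        (fun i => u (Fin.castAdd m i)) + (fun i => v (Fin.castAdd m i)) := rfl
    have h2 : (fun j => (u + v) (Fin.natAdd n j)) =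
        (fun j => u (Fin.natAdd n j)) + (fun j => v (Fin.natAdd n j)) := rfl
    rw [h1, h2, map_add, map_add]
    funext i
    refine Fin.addCases (fun i => ?_) (fun j => ?_) i
    · simp
    · simp
  map_smul' c v := by
    have h1 : (fun i => (c • v) (Fin.castAdd m i)) = c • (fun i => v (Fin.castAdd m i)) := rfl
    have h2 : (fun j => (c • v) (Fin.natAdd n j)) = c • (fun j => v (Fin.natAdd n j)) := rfl
    rw [h1, h2, map_smul, map_smul]
    funext i
    refine Fin.addCases (fun i => ?_) (fun j => ?_) i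
    · simp
    · simp

lemma bmap_cast {n m : ℕ} (S : Module.End ℝ (Fin n → ℝ)) (T : Module.End ℝ (Fin m → ℝ))
    (v : Fin (n + m) → ℝ) (i : Fin n) :
    bmap S T v (Fin.castAdd m i) = S (fun i => v (Fin.castAdd m i)) i := by
  simp [bmap]

lemma bmap_nat {n m : ℕ} (S : Module.End ℝ (Fin n → ℝ)) (T : Module.End ℝ (Fin m → ℝ))
    (v : Fin (n + m) → ℝ) (j : Fin m) :
    bmap S T v (Fin.natAdd n j) = T (fun j => v (Fin.natAdd n j)) j := by
  simp [bmap]

lemma bmap_cast' {n m : ℕ} (S : Module.End ℝ (Fin n → ℝ)) (T : Module.End ℝ (Fin m → ℝ))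
    (v : Fin (n + m) → ℝ) :
    (fun i => bmap S T v (Fin.castAdd m i)) = S (fun i => v (Fin.castAdd m i)) := by
  funext i
  rw [bmap_cast]

lemma bmap_nat' {n m : ℕ} (S : Module.End ℝ (Fin n → ℝ)) (T : Module.End ℝ (Fin m → ℝ))
    (v : Fin (n + m) → ℝ) :
    (fun j => bmap S T v (Fin.natAdd n j)) = T (fun j => v (Fin.natAdd n j)) := by
  funext i
  rw [bmap_nat]

/-- block sums -/
lemma hasSym_bsum {p k l n m : ℕ} {A : Matrix (Fin n) (Fin n) ℝ} {B : Matrix (Fin m) (Fin m) ℝ}
    (hA : HasSym p k A) (hB : HasSym p l B) : HasSym p (k + l) (bsum A B) := by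
  obtain ⟨U, hU, hUi, hUf⟩ := hA
  obtain ⟨V, hV, hVi, hVf⟩ := hB
  set a : Multiplicative (Fin (k + l) → ZMod p) → Multiplicative (Fin k → ZMod p) :=
    fun g => Multiplicative.ofAdd (fun i => Multiplicative.toAdd g (Fin.castAdd l i)) with ha
  set b : Multiplicative (Fin (k + l) → ZMod p) → Multiplicative (Fin l → ZMod p) :=
    fun g => Multiplicative.ofAdd (fun i => Multiplicative.toAdd g (Fin.natAdd k i)) with hb
  have ha1 : a 1 = 1 := rfl
  have hb1 : b 1 = 1 := rfl
  have ham : ∀ g h, a (g * h) = a g * a h := fun g h => rfl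
  have hbm : ∀ g h, b (g * h) = b g * b h := fun g h => rfl
  refine ⟨{
    toFun := fun g => bmap (U (a g)) (V (b g))
    map_one' := ?_
    map_mul' := ?_ }, ?_, ?_, ?_⟩
  · rw [ha1, hb1, map_one, map_one]
    refine LinearMap.ext fun v => ?_
    funext i
    refine Fin.addCases (fun i => ?_) (fun j => ?_) i
    · rw [bmap_cast]; rfl
    · rw [bmap_nat]; rfl
  · intro g h
    rw [ham, hbm, map_mul, map_mul]
    refine LinearMap.ext fun v => ?_
    funext i
    change _ = bmap (U (a g)) (V (b g)) (bmap (U (a h)) (V (b h)) v) i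
    refine Fin.addCases (fun i => ?_) (fun j => ?_) i
    · rw [bmap_cast, bmap_cast, bmap_cast']; rfl
    · rw [bmap_nat, bmap_nat, bmap_nat']; rfl
  · intro g h hgh
    have hgh' : bmap (U (a g)) (V (b g)) = bmap (U (a h)) (V (b h)) := hgh
    have h1 : a g = a h := by
      apply hU
      refine LinearMap.ext fun v => ?_
      funext i
      have := congrArg (fun T => T (Fin.append v 0) (Fin.castAdd m i)) hgh'
      simp only [bmap_cast, Fin.append_left] at this
      exact this
    have h2 : b g = b h := by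
      apply hV
      refine LinearMap.ext fun v => ?_
      funext i
      have := congrArg (fun T => T (Fin.append 0 v) (Fin.natAdd n i)) hgh'
      simp only [bmap_nat, Fin.append_right] at this
      exact this
    apply Multiplicative.toAdd.injective
    funext i
    refine Fin.addCases (fun i => ?_) (fun j => ?_) i
    · exact congrFun (congrArg Multiplicative.toAdd h1) i
    · exact congrFun (congrArg Multiplicative.toAdd h2) j
  · intro g w
    obtain ⟨w1, hw1⟩ := hUi (a g) (fun i => w (Fin.castAdd m i))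
    obtain ⟨w2, hw2⟩ := hVi (b g) (fun i => w (Fin.natAdd n i))
    refine ⟨Fin.append w1 w2, ?_⟩
    change bmap (U (a g)) (V (b g)) _ = _
    funext i
    refine Fin.addCases (fun i => ?_) (fun j => ?_) i
    · rw [bmap_cast, hw1, Fin.append_left]
    · rw [bmap_nat, hw2, Fin.append_right]
  · intro g v
    change ∑ i, ((bsum A B).mulVec (bmap (U (a g)) (V (b g)) v)) i ^ 2 = _
    rw [sum_bsum, sum_bsum, bmap_cast', bmap_nat', hUf, hVf]

end Pool.Agent.Helper909EA
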