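import Mathlib

/-! Isolating a point of a spanning set of a vector space by few linear functionals. -/

set_option autoImplicit false

open Module

namespace Pool.Agent.Helper909EA

variable {K V : Type*} [Field K] [AddCommGroup V] [Module K V] [FiniteDimensional K V]

lemma exists_functional (W : Submodule K V) {b : V} (hb : b ∉ W) :
    ∃ f : Dual K V, f b ≠ 0 ∧ ∀ w ∈ W, f w = 0 := by
  obtain ⟨f, hf, hW⟩ := Submodule.exists_dual_map_eq_bot_of_notMem hb inferInstance
  refine ⟨f, hf, fun w hw => ?_⟩
  have : f w ∈ W.map f := Submodule.mem_map_of_mem hw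
  rw [hW] at this
  simpa using this

lemma exists_erase (S : Finset V) (hS : LinearIndependent K (fun x : S => (x : V))) {b : V}
    (hb0 : b ≠ 0) (hb : b ∈ Submodule.span K (S : Set V)) :
    ∃ c ∈ S, b ∉ Submodule.span K ((S : Set V) \ {c}) := by
  classical
  have hr : Set.range (fun x : S => (x : V)) = (S : Set V) := by
    ext x; simp
  have hb' : b ∈ Submodule.span K (Set.range (fun x : S => (x : V))) := by rw [hr]; exact hb
  rw [Finsupp.mem_span_range_iff_exists_finsupp] at hb'
  obtain ⟨l, hl⟩ := hb'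
  have hl' : Finsupp.linearCombination K (fun x : S => (x : V)) l = b := by
    rw [Finsupp.linearCombination_apply]; exact hl
  have hl0 : l ≠ 0 := by
    rintro rfl
    apply hb0
    rw [← hl']; simp
  obtain ⟨c, hc⟩ := Finsupp.ne_iff.1 hl0
  refine ⟨c, c.2, fun hmem => ?_⟩
  have he : (S : Set V) \ {(c : V)} = (fun x : S => (x : V)) '' {c}ᶜ := by
    ext x
    simp only [Set.mem_diff, Finset.mem_coe, Set.mem_singleton_iff, Set.mem_image,
      Set.mem_compl_iff]
    constructor
    · rintro ⟨h1, h2⟩
      exact ⟨⟨x, h1⟩, fun h => h2 (by rw [← h]), rfl⟩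
    · rintro ⟨y, hy, rfl⟩
      exact ⟨y.2, fun h => hy (Subtype.ext h)⟩
  rw [he, Finsupp.mem_span_image_iff_linearCombination] at hmem
  obtain ⟨l2, hl2, hl2b⟩ := hmem
  have heq : l2 = l := by
    apply hS
    rw [hl2b, hl']
  rw [heq, Finsupp.mem_supported] at hl2
  have : c ∈ (l.support : Set S) := by
    simp only [Finset.mem_coe, Finsupp.mem_support_iff]
    exact hc
  exact hl2 this rfl

lemma two_queries (S : Finset V) (hS : LinearIndependent K (fun x : S => (x : V))) {b : V}
    (hb0 : b ≠ 0) (hp : ∀ x ∈ S, b ∉ Submodule.span K {x}) :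
    ∃ f f' : Dual K V, f b ≠ 0 ∧ f' b ≠ 0 ∧ ∀ x ∈ S, f x = 0 ∨ f' x = 0 := by
  by_cases hb : b ∈ Submodule.span K (S : Set V)
  · obtain ⟨c, hc, hcb⟩ := exists_erase S hS hb0 hb
    obtain ⟨f, hf, hf0⟩ := exists_functional _ hcb
    obtain ⟨f', hf', hf0'⟩ := exists_functional _ (hp c hc)
    refine ⟨f, f', hf, hf', fun x hx => ?_⟩
    by_cases hxc : x = c
    · right
      rw [hxc]
      exact hf0' c (Submodule.mem_span_singleton_self c)
    · left
      exact hf0 x (Submodule.subset_span ⟨hx, hxc⟩)
  · obtain ⟨f, hf, hf0⟩ := exists_functional _ hb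
    exact ⟨f, f, hf, hf, fun x hx => Or.inl (hf0 x (Submodule.subset_span hx))⟩

lemma levels (t : ℕ) : ∀ X : Finset V, ∃ Z ⊆ X,
    (t + 1) * finrank K (Submodule.span K (Z : Set V)) ≤ X.card ∧
    ∀ b : V, b ≠ 0 → (∀ x ∈ X, x ≠ b → b ∉ Submodule.span K {x}) →
      ∃ l : List (Dual K V), l.length = 2 * t ∧ (∀ e ∈ l, e b ≠ 0) ∧
        ∀ x ∈ X, x ≠ b → x ∉ Z → ∃ e ∈ l, e x = 0 := by
  classical
  induction t with
  | zero =>
    intro X
    refine ⟨X, subset_rfl, ?_, ?_⟩
    · rw [zero_add, one_mul]
      exact finrank_span_finset_le_card X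
    · intro b _ _
      exact ⟨[], rfl, by simp, fun x hx _ hxZ => absurd hx hxZ⟩
  | succ t ih =>
    intro X
    obtain ⟨I, hIX, hIspan, hI⟩ := exists_linearIndependent K (X : Set V)
    have hIfin : I.Finite := X.finite_toSet.subset hIX
    set J : Finset V := hIfin.toFinset with hJ
    have hJI : (J : Set V) = I := by simp [hJ]
    have hJX : J ⊆ X := by
      intro x hx
      have : x ∈ (J : Set V) := hx
      rw [hJI] at this
      exact hIX this
    have hJind : LinearIndependent K (fun x : J => (x : V)) := by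
      have h1 : LinearIndependent K (fun x : (J : Set V) => (x : V)) := by
        rw [hJI]; exact hI
      exact h1
    obtain ⟨Z, hZ, hZcard, hZb⟩ := ih (X \ J)
    refine ⟨Z, hZ.trans Finset.sdiff_subset, ?_, ?_⟩
    · have h1 : finrank K (Submodule.span K (Z : Set V)) ≤ J.card := by
        have h2 : finrank K (Submodule.span K (J : Set V)) = J.card :=
          finrank_span_finset_eq_card hJind
        rw [← h2, hJI, hIspan]
        apply Submodule.finrank_mono
        apply Submodule.span_mono
        exact_mod_cast hZ.trans Finset.sdiff_subset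
      have h3 : (X \ J).card + J.card = X.card := Finset.card_sdiff_add_card_eq_card hJX
      nlinarith
    · intro b hb0 hb
      obtain ⟨l, hl1, hl2, hl3⟩ := hZb b hb0 (fun x hx hxb => hb x (Finset.sdiff_subset hx) hxb)
      have hJ2 : LinearIndependent K (fun x : (J.erase b : Finset V) => (x : V)) := by
        have h1 : LinearIndepOn K id (J : Set V) := hJind
        have h2 : LinearIndepOn K id ((J.erase b : Finset V) : Set V) :=
          h1.mono (by exact_mod_cast Finset.erase_subset b J)
        exact h2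
      obtain ⟨f, f', hf, hf', hff⟩ := two_queries (J.erase b) hJ2 hb0
        (fun x hx => hb x (hJX (Finset.mem_of_mem_erase hx)) (Finset.ne_of_mem_erase hx))
      refine ⟨f :: f' :: l, ?_, ?_, ?_⟩
      · simp only [List.length_cons, hl1]; ring
      · intro e he
        simp only [List.mem_cons] at he
        rcases he with rfl | rfl | he
        · exact hf
        · exact hf'
        · exact hl2 e he
      · intro x hx hxb hxZ
        by_cases hxJ : x ∈ J
        · rcases hff x (Finset.mem_erase.2 ⟨hxb, hxJ⟩) with h | h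
          · exact ⟨f, by simp, h⟩
          · exact ⟨f', by simp, h⟩
        · obtain ⟨e, he, hex⟩ := hl3 x (Finset.mem_sdiff.2 ⟨hx, hxJ⟩) hxb hxZ
          exact ⟨e, by simp [he], hex⟩

/-- In a finite spanning set `X` without proportional vectors all points except few can be
isolated by `2 t + 1` linear functionals. -/
theorem isolating (X : Finset V) (hX : Submodule.span K (X : Set V) = ⊤)
    (hp : ∀ x ∈ X, ∀ y ∈ X, x ≠ y → x ≠ 0 → x ∉ Submodule.span K {y}) (t : ℕ) :
    ∃ Y ⊆ X, (t + 1) * finrank K V ≤ (t + 1) * Y.card + X.card ∧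
      ∀ b ∈ Y, ∃ l : List (Dual K V), l.length = 2 * t + 1 ∧ (∀ e ∈ l, e b ≠ 0) ∧
        ∀ x ∈ X, x ≠ b → ∃ e ∈ l, e x = 0 := by
  classical
  obtain ⟨Z, hZ, hZcard, hZb⟩ := levels (K := K) t X
  refine ⟨X.filter (fun x => x ∉ Submodule.span K (Z : Set V)), Finset.filter_subset _ _, ?_, ?_⟩
  · set Y := X.filter (fun x => x ∉ Submodule.span K (Z : Set V)) with hY
    have h1 : (⊤ : Submodule K V) ≤ Submodule.span K (Y : Set V) ⊔ Submodule.span K (Z : Set V) := by
      rw [← hX, Submodule.span_le]
      intro x hx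
      by_cases hxZ : x ∈ Submodule.span K (Z : Set V)
      · exact Submodule.mem_sup_right hxZ
      · apply Submodule.mem_sup_left
        apply Submodule.subset_span
        rw [hY]
        exact_mod_cast Finset.mem_filter.2 ⟨hx, hxZ⟩
    have h2 : finrank K V ≤ Y.card + finrank K (Submodule.span K (Z : Set V)) := by
      calc finrank K V = finrank K (⊤ : Submodule K V) := finrank_top K V |>.symm
        _ ≤ finrank K ↥(Submodule.span K (Y : Set V) ⊔ Submodule.span K (Z : Set V)) :=
            Submodule.finrank_mono h1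
        _ ≤ finrank K (Submodule.span K (Y : Set V)) + finrank K (Submodule.span K (Z : Set V)) :=
            Submodule.finrank_add_le_finrank_add_finrank _ _
        _ ≤ _ := by gcongr; exact finrank_span_finset_le_card Y
    nlinarith
  · intro b hb
    rw [Finset.mem_filter] at hb
    obtain ⟨hbX, hbZ⟩ := hb
    have hb0 : b ≠ 0 := by
      rintro rfl
      exact hbZ (Submodule.zero_mem _)
    obtain ⟨l, hl1, hl2, hl3⟩ := hZb b hb0 (fun x hx hxb => hp b hbX x hx hxb.symm hb0)
    obtain ⟨f, hf, hf0⟩ := exists_functional _ hbZ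
    refine ⟨f :: l, by simp [hl1], ?_, ?_⟩
    · intro e he
      rcases List.mem_cons.1 he with rfl | he
      · exact hf
      · exact hl2 e he
    · intro x hx hxb
      by_cases hxZ : x ∈ Z
      · exact ⟨f, by simp, hf0 x (Submodule.subset_span hxZ)⟩
      · obtain ⟨e, he, hex⟩ := hl3 x hx hxb hxZ
        exact ⟨e, by simp [he], hex⟩

end Pool.Agent.Helper909EA
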