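import Pool.Agent.Helper909_ea.Block

/-! The lattice `A_q^*` (scaled by `√(q+1)`) and its cyclic automorphism of order `q + 1`. -/

set_option autoImplicit false

open MeasureTheory Metric Filter Set
open scoped Topology InnerProductSpace Pointwise

namespace Pool.Agent.Helper909EA

open Pool.Agent.H160R3.Herm (minSq hermite bsum det_bsum sum_bsum minSq_smul_le pow_value
  exists_lt_value hermite_ge minSq_le minSq_nonneg le_minSq)

variable {q : ℕ}

/-- extension by zero at zero -/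
def ext0 (v : Fin q → ℝ) : Fin (q + 1) → ℝ := Fin.cons 0 v

lemma ext0_zero (v : Fin q → ℝ) : ext0 v 0 = 0 := by simp [ext0]

lemma ext0_succ (v : Fin q → ℝ) (i : Fin q) : ext0 v i.succ = v i := by simp [ext0]

lemma ext0_add (u v : Fin q → ℝ) (j : Fin (q + 1)) : ext0 (u + v) j = ext0 u j + ext0 v j := by
  refine Fin.cases ?_ (fun i => ?_) j
  · simp [ext0_zero]
  · simp [ext0_succ]

lemma ext0_smul (c : ℝ) (v : Fin q → ℝ) (j : Fin (q + 1)) : ext0 (c • v) j = c * ext0 v j := by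
  refine Fin.cases ?_ (fun i => ?_) j
  · simp [ext0_zero]
  · simp [ext0_succ]

/-- the cyclic shift by `a`, in normalised coordinates -/
def shift (a : Fin (q + 1)) : Module.End ℝ (Fin q → ℝ) where
  toFun v i := ext0 v (i.succ - a) - ext0 v (-a)
  map_add' u v := by
    funext i
    simp only [ext0_add, Pi.add_apply]
    ring
  map_smul' c v := by
    funext i
    simp only [ext0_smul, Pi.smul_apply, RingHom.id_apply, smul_eq_mul]
    ring

lemma shift_apply (a : Fin (q + 1)) (v : Fin q → ℝ) (i : Fin q) :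
    shift a v i = ext0 v (i.succ - a) - ext0 v (-a) := rfl

lemma ext0_shift (a : Fin (q + 1)) (v : Fin q → ℝ) (j : Fin (q + 1)) :
    ext0 (shift a v) j = ext0 v (j - a) - ext0 v (-a) := by
  refine Fin.cases ?_ (fun i => ?_) j
  · rw [ext0_zero, zero_sub, sub_self]
  · rw [ext0_succ, shift_apply]

lemma shift_zero : shift (0 : Fin (q + 1)) = 1 := by
  refine LinearMap.ext fun v => ?_
  funext i
  rw [shift_apply, sub_zero, neg_zero, ext0_zero, ext0_succ, sub_zero]
  rfl

lemma shift_add (a b : Fin (q + 1)) : shift (a + b) = shift a * shift b := by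
  refine LinearMap.ext fun v => ?_
  funext i
  change _ = shift a (shift b v) i
  rw [shift_apply, shift_apply, ext0_shift, ext0_shift]
  have h1 : i.succ - a - b = i.succ - (a + b) := by abel
  have h2 : -a - b = -(a + b) := by abel
  rw [h1, h2]
  ring

lemma shift_inj {c : Fin (q + 1)} (h : shift c = 1) : c = 0 := by
  by_contra hc
  obtain ⟨i, hi⟩ := Fin.exists_succ_eq.2 hc
  have h1 : shift c (fun _ => 1) i = 1 := by rw [h]; rfl
  have h3 : ∀ j : Fin (q + 1), 0 ≤ ext0 (fun _ => (1 : ℝ)) j := by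
    intro j
    refine Fin.cases ?_ (fun i => ?_) j
    · rw [ext0_zero]
    · rw [ext0_succ]; exact zero_le_one
  rw [shift_apply, hi, sub_self, ext0_zero] at h1
  have := h3 (-c)
  linarith

/-- the form `(q+1) Σ v_i² - (Σ v_i)²` -/
def form (v : Fin q → ℝ) : ℝ := ((q : ℝ) + 1) * ∑ i, v i ^ 2 - (∑ i, v i) ^ 2

lemma form_ext (v : Fin q → ℝ) :
    form v = ((q : ℝ) + 1) * ∑ j, ext0 v j ^ 2 - (∑ j, ext0 v j) ^ 2 := by
  rw [Fin.sum_univ_succ, Fin.sum_univ_succ]
  simp only [ext0_zero, ext0_succ, form]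
  ring

lemma form_shift (a : Fin (q + 1)) (v : Fin q → ℝ) : form (shift a v) = form v := by
  rw [form_ext, form_ext]
  simp only [ext0_shift]
  set c := ext0 v (-a) with hc
  have hsum1 : ∑ j, ext0 v (j - a) = ∑ j, ext0 v j :=
    Equiv.sum_comp (Equiv.subRight a) (fun j => ext0 v j)
  have hsum2 : ∑ j, ext0 v (j - a) ^ 2 = ∑ j, ext0 v j ^ 2 :=
    Equiv.sum_comp (Equiv.subRight a) (fun j => ext0 v j ^ 2)
  have h1 : ∑ j, (ext0 v (j - a) - c) = ∑ j, ext0 v j - ((q : ℝ) + 1) * c := by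
    rw [Finset.sum_sub_distrib, Finset.sum_const, Finset.card_univ, Fintype.card_fin]
    rw [hsum1]
    simp
  have h2 : ∑ j, (ext0 v (j - a) - c) ^ 2 =
      ∑ j, ext0 v j ^ 2 - 2 * c * ∑ j, ext0 v j + ((q : ℝ) + 1) * c ^ 2 := by
    have h3 : ∀ j, (ext0 v (j - a) - c) ^ 2 =
        ext0 v (j - a) ^ 2 - 2 * c * ext0 v (j - a) + c ^ 2 := fun j => by ring
    simp only [h3]
    rw [Finset.sum_add_distrib, Finset.sum_sub_distrib, Finset.sum_const, Finset.card_univ,
      Fintype.card_fin, ← Finset.mul_sum, hsum1, hsum2]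
    simp
  rw [h1, h2]
  ring

/-- the basis matrix -/
noncomputable def cmat (q : ℕ) : Matrix (Fin q) (Fin q) ℝ :=
  √((q : ℝ) + 1) • 1 - (1 / (√((q : ℝ) + 1) + 1)) • Matrix.of fun _ _ => 1

lemma cmat_mulVec (v : Fin q → ℝ) (i : Fin q) :
    (cmat q).mulVec v i = √((q : ℝ) + 1) * v i - (1 / (√((q : ℝ) + 1) + 1)) * ∑ j, v j := by
  unfold cmat
  rw [Matrix.sub_mulVec, Matrix.smul_mulVec, Matrix.smul_mulVec, Matrix.one_mulVec]
  simp [Matrix.mulVec, dotProduct]

lemma cmat_form (v : Fin q → ℝ) : ∑ i, ((cmat q).mulVec v i) ^ 2 = form v := by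
  simp only [cmat_mulVec]
  set s := √((q : ℝ) + 1) with hs
  have hs0 : 0 ≤ s := Real.sqrt_nonneg _
  have hs2 : s ^ 2 = (q : ℝ) + 1 := Real.sq_sqrt (by positivity)
  set S := ∑ j, v j with hS
  set c := 1 / (s + 1) with hc
  have hc1 : c * (s + 1) = 1 := by
    rw [hc]; field_simp
  have h3 : ∀ j, (s * v j - c * S) ^ 2 =
      s ^ 2 * v j ^ 2 - 2 * s * c * S * v j + (c * S) ^ 2 := fun j => by ring
  simp only [h3]
  rw [Finset.sum_add_distrib, Finset.sum_sub_distrib, Finset.sum_const, Finset.card_univ,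
    Fintype.card_fin, ← Finset.mul_sum, ← Finset.mul_sum, ← hS, hs2]
  unfold form
  rw [← hS, nsmul_eq_mul]
  have hq : (q : ℝ) = s ^ 2 - 1 := by linarith
  have h4 : 2 * s * c * S * S - (q : ℝ) * (c * S) ^ 2 = S ^ 2 := by
    rw [hq]
    have h5 : 2 * s * c - (s ^ 2 - 1) * c ^ 2 = 1 := by
      have h6 : (s ^ 2 - 1) * c ^ 2 = (s - 1) * c * (c * (s + 1)) := by ring
      rw [h6, hc1, mul_one]
      have h7 : 2 * s * c - (s - 1) * c = c * (s + 1) := by ring
      rw [h7, hc1]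
    calc 2 * s * c * S * S - (s ^ 2 - 1) * (c * S) ^ 2
        = (2 * s * c - (s ^ 2 - 1) * c ^ 2) * S ^ 2 := by ring
      _ = S ^ 2 := by rw [h5, one_mul]
  linarith

lemma cmat_det (hq : 0 < q) : (cmat q).det * √((q : ℝ) + 1) = √((q : ℝ) + 1) ^ q := by
  set s := √((q : ℝ) + 1) with hs
  have hs1 : 0 < s := Real.sqrt_pos.2 (by positivity)
  have hs2 : s ^ 2 = (q : ℝ) + 1 := Real.sq_sqrt (by positivity)
  have h1 : cmat q = s • (1 + Matrix.replicateCol Unit (fun _ : Fin q => -(1 / (s * (s + 1)))) *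
      Matrix.replicateRow Unit (fun _ : Fin q => (1 : ℝ))) := by
    ext i j
    unfold cmat
    rw [← hs]
    simp only [Matrix.sub_apply, Matrix.smul_apply, Matrix.of_apply, smul_eq_mul, Matrix.add_apply,
      Matrix.mul_apply, Finset.univ_unique, Matrix.replicateCol_apply, Matrix.replicateRow_apply,
      Finset.sum_singleton, mul_one]
    field_simp
    ring
  rw [h1, Matrix.det_smul, Fintype.card_fin, Matrix.det_one_add_replicateCol_mul_replicateRow]
  have h2 : (fun _ : Fin q => (1 : ℝ)) ⬝ᵥ (fun _ : Fin q => -(1 / (s * (s + 1)))) =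
      -((q : ℝ) / (s * (s + 1))) := by
    simp only [dotProduct, one_mul, Finset.sum_const, Finset.card_univ, Fintype.card_fin,
      nsmul_eq_mul]
    field_simp
  rw [h2]
  have hq' : (q : ℝ) = (s - 1) * (s + 1) := by linarith [hs2, (show (s-1)*(s+1) = s^2 - 1 by ring)]
  rw [hq']
  field_simp
  ring

lemma form_ge {w : Fin q → ℤ} (hw : w ≠ 0) : (q : ℝ) ≤ form (fun j => (w j : ℝ)) := by
  classical
  set T := Finset.univ.filter (fun i => w i ≠ 0) with hT
  have hTne : T.Nonempty := by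
    obtain ⟨i, hi⟩ := Function.ne_iff.1 hw
    exact ⟨i, by rw [hT, Finset.mem_filter]; exact ⟨Finset.mem_univ _, hi⟩⟩
  have hs1 : (1 : ℝ) ≤ T.card := by exact_mod_cast hTne.card_pos
  have hsq : (T.card : ℝ) ≤ q := by
    have := Finset.card_le_univ T
    rw [Fintype.card_fin] at this
    exact_mod_cast this
  have h1 : ∑ i, ((w i : ℤ) : ℝ) ^ 2 = ∑ i ∈ T, ((w i : ℤ) : ℝ) ^ 2 := by
    symm
    apply Finset.sum_subset (Finset.subset_univ _)
    intro i _ hi
    rw [hT, Finset.mem_filter, not_and, not_not] at hi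
    rw [hi (Finset.mem_univ _)]
    simp
  have h2 : ∑ i, ((w i : ℤ) : ℝ) = ∑ i ∈ T, ((w i : ℤ) : ℝ) := by
    symm
    apply Finset.sum_subset (Finset.subset_univ _)
    intro i _ hi
    rw [hT, Finset.mem_filter, not_and, not_not] at hi
    rw [hi (Finset.mem_univ _)]
    simp
  have h3 : (T.card : ℝ) ≤ ∑ i ∈ T, ((w i : ℤ) : ℝ) ^ 2 := by
    rw [Finset.card_eq_sum_ones, Nat.cast_sum]
    apply Finset.sum_le_sum
    intro i hi
    have hi' : w i ≠ 0 := by
      rw [hT, Finset.mem_filter] at hi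
      exact hi.2
    have : (1 : ℤ) ≤ w i ^ 2 := by
      have := sq_pos_of_ne_zero hi'
      omega
    push_cast
    exact_mod_cast this
  have h4 : (∑ i ∈ T, ((w i : ℤ) : ℝ)) ^ 2 ≤ T.card * ∑ i ∈ T, ((w i : ℤ) : ℝ) ^ 2 :=
    sq_sum_le_card_mul_sum_sq
  unfold form
  rw [h1, h2]
  set a : ℝ := ∑ i ∈ T, ((w i : ℤ) : ℝ) ^ 2 with ha
  have h5 : ((q : ℝ) + 1 - T.card) * T.card ≤ ((q : ℝ) + 1 - T.card) * a :=
    mul_le_mul_of_nonneg_left h3 (by linarith)
  nlinarith

/-- the cyclic group acts on the lattice -/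
lemma hasSym_cmat (c : ℝ) : HasSym (q + 1) 1 (c • cmat q) := by
  set e := (ZMod.finEquiv (q + 1)).symm with he
  refine ⟨{
    toFun := fun g => shift (e (Multiplicative.toAdd g 0))
    map_one' := by
      have h1 : (Multiplicative.toAdd (1 : Multiplicative (Fin 1 → ZMod (q + 1)))) 0 = 0 := rfl
      rw [h1, map_zero, shift_zero]
    map_mul' := by
      intro g h
      have h1 : (Multiplicative.toAdd (g * h)) 0 =
          Multiplicative.toAdd g 0 + Multiplicative.toAdd h 0 := rfl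
      rw [h1, map_add, shift_add] }, ?_, ?_, ?_⟩
  · rw [injective_iff_map_eq_one]
    intro g hg
    have h1 : shift (e (Multiplicative.toAdd g 0)) = 1 := hg
    have h2 := shift_inj h1
    rw [map_eq_zero_iff _ e.injective] at h2
    apply Multiplicative.toAdd.injective
    funext i
    rw [Subsingleton.elim i 0, h2]
    rfl
  · intro g w
    set a := e (Multiplicative.toAdd g 0) with ha
    refine ⟨fun i => (Fin.cons 0 w : Fin (q + 1) → ℤ) (i.succ - a) -
      (Fin.cons 0 w : Fin (q + 1) → ℤ) (-a), ?_⟩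
    have h1 : ∀ j : Fin (q + 1), ext0 (fun j => ((w j : ℤ) : ℝ)) j =
        (((Fin.cons 0 w : Fin (q + 1) → ℤ) j : ℤ) : ℝ) := by
      intro j
      refine Fin.cases ?_ (fun i => ?_) j
      · simp [ext0_zero]
      · simp [ext0_succ]
    funext i
    change shift a _ i = _
    rw [shift_apply, h1, h1]
    push_cast
    rfl
  · intro g v
    change ∑ i, ((c • cmat q).mulVec (shift (e (Multiplicative.toAdd g 0)) v) i) ^ 2 = _
    simp only [Matrix.smul_mulVec, Pi.smul_apply, smul_eq_mul, mul_pow]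
    rw [← Finset.mul_sum, ← Finset.mul_sum, cmat_form, cmat_form, form_shift]

/-- the block: minimum one, determinant bounded -/
lemma good_block (hq : 0 < q) : ∃ B : Matrix (Fin q) (Fin q) ℝ, B.det ≠ 0 ∧
    (∀ w : Fin q → ℤ, w ≠ 0 → 1 ≤ ∑ i, (B.mulVec (fun j => (w j : ℝ))) i ^ 2) ∧
    |B.det| ^ 2 ≤ 2 ^ q ∧ HasSym (q + 1) 1 B := by
  have hqr : (0 : ℝ) < q := by exact_mod_cast hq
  have hsq : 0 < √(q : ℝ) := Real.sqrt_pos.2 hqr
  have hs1 : 0 < √((q : ℝ) + 1) := Real.sqrt_pos.2 (by positivity)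
  have hd := cmat_det hq
  have hd0 : (cmat q).det ≠ 0 := by
    intro h0
    rw [h0, zero_mul] at hd
    have : 0 < √((q : ℝ) + 1) ^ q := by positivity
    linarith
  refine ⟨(1 / √(q : ℝ)) • cmat q, ?_, ?_, ?_, hasSym_cmat _⟩
  · rw [Matrix.det_smul]
    exact mul_ne_zero (by positivity) hd0
  · intro w hw
    simp only [Matrix.smul_mulVec, Pi.smul_apply, smul_eq_mul, mul_pow]
    rw [← Finset.mul_sum, cmat_form, div_pow, one_pow, Real.sq_sqrt hqr.le]
    have := form_ge hw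
    rw [one_div, inv_mul_eq_div, le_div_iff₀ hqr, one_mul]
    exact this
  · rw [Matrix.det_smul, Fintype.card_fin, sq_abs, mul_pow, ← pow_mul, mul_comm q 2, pow_mul,
      div_pow, one_pow, Real.sq_sqrt hqr.le]
    have h1 : (cmat q).det ^ 2 * ((q : ℝ) + 1) = ((q : ℝ) + 1) ^ q := by
      have := congrArg (fun x => x ^ 2) hd
      simp only [mul_pow] at this
      rw [Real.sq_sqrt (by positivity), ← pow_mul, mul_comm q 2, pow_mul,
        Real.sq_sqrt (by positivity)] at this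
      exact this
    have h2 : ((q : ℝ) + 1) ^ q ≤ (2 * q) ^ q := by
      apply pow_le_pow_left₀ (by positivity)
      have : (1 : ℝ) ≤ q := by exact_mod_cast hq
      linarith
    have h3 : (cmat q).det ^ 2 ≤ (2 * q) ^ q := by
      have : (cmat q).det ^ 2 ≤ (cmat q).det ^ 2 * ((q : ℝ) + 1) :=
        le_mul_of_one_le_right (sq_nonneg _) (by linarith)
      linarith
    have h4 : (0 : ℝ) < (q : ℝ) ^ q := by positivity
    rw [one_div, inv_pow, inv_mul_eq_div, div_le_iff₀ h4, ← mul_pow]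
    exact h3

/-- dense lattices with the group `(ℤ/p)^k`, by induction on `k` -/
lemma blocks (hq : 0 < q) (m : ℕ) : ∀ (k N : ℕ), N = m + q * k →
    ∃ A : Matrix (Fin N) (Fin N) ℝ, A.det ≠ 0 ∧
    (∀ w : Fin N → ℤ, w ≠ 0 → 1 ≤ ∑ i, (A.mulVec (fun j => (w j : ℝ))) i ^ 2) ∧
    |A.det| ^ 2 * (m : ℝ) ^ m ≤ 145 ^ m * 2 ^ (q * k) ∧ HasSym (q + 1) k A := by
  intro k
  induction k with
  | zero =>
    intro N hN
    obtain ⟨A, hA, hAmin, hAdet⟩ := good_lattice m
    rw [mul_zero, add_zero] at hN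
    subst hN
    exact ⟨A, hA, hAmin, by simpa using hAdet, hasSym_zero _ _⟩
  | succ k ih =>
    intro N hN
    obtain ⟨A, hA, hAmin, hAdet, hAs⟩ := ih (m + q * k) rfl
    obtain ⟨B, hB, hBmin, hBdet, hBs⟩ := good_block hq
    have hN' : N = (m + q * k) + q := by rw [hN]; ring
    subst hN'
    refine ⟨bsum A B, ?_, ?_, ?_, hasSym_bsum hAs hBs⟩
    · rw [det_bsum]; exact mul_ne_zero hA hB
    · intro w hw
      rw [sum_bsum]
      have h1 : 0 ≤ ∑ i, (A.mulVec (fun j => ((w (Fin.castAdd q j) : ℤ) : ℝ))) i ^ 2 := by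
        positivity
      have h2 : 0 ≤ ∑ i, (B.mulVec (fun j => ((w (Fin.natAdd (m + q * k) j) : ℤ) : ℝ))) i ^ 2 := by
        positivity
      by_cases hw1 : (fun j => w (Fin.castAdd q j)) = 0
      · have hw2 : (fun j => w (Fin.natAdd (m + q * k) j)) ≠ 0 := by
          intro hcon
          apply hw
          funext j
          refine Fin.addCases (fun i => ?_) (fun j => ?_) j
          · exact congrFun hw1 i
          · exact congrFun hcon j
        have h3 := hBmin _ hw2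
        linarith
      · have h3 := hAmin _ hw1
        linarith
    · rw [det_bsum, abs_mul, mul_pow]
      calc |A.det| ^ 2 * |B.det| ^ 2 * (m : ℝ) ^ m = (|A.det| ^ 2 * (m : ℝ) ^ m) * |B.det| ^ 2 := by
            ring
        _ ≤ (145 ^ m * 2 ^ (q * k)) * 2 ^ q := by gcongr
        _ = _ := by
            rw [mul_add, mul_one, pow_add]
            ring

/-- the lower bound for the Hermite invariant, all primes -/
theorem herm_lower {p k n : ℕ} (hp : p.Prime) (hn : 0 < n) (hk : (p - 1) * k ≤ n) :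
    ∃ A : Matrix (Fin n) (Fin n) ℝ, A.det ≠ 0 ∧ HasSym p k A ∧
      (n : ℝ) ^ (1 - ((p : ℝ) - 1) * k / n) / 400 ≤ herm A := by
  obtain ⟨q, rfl⟩ : ∃ q, p = q + 1 := ⟨p - 1, by have := hp.pos; omega⟩
  have hq : 0 < q := by have := hp.two_le; omega
  rw [Nat.add_sub_cancel] at hk
  obtain ⟨m, hm⟩ : ∃ m, n = m + q * k := ⟨n - q * k, by omega⟩
  obtain ⟨A, hA, hAmin, hAdet, hAs⟩ := blocks hq m k n hm
  refine ⟨A, hA, hAs, ?_⟩
  have hnr : (0 : ℝ) < n := by exact_mod_cast hn
  have hd : 0 < |A.det| := abs_pos.2 hA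
  have hmin : 1 ≤ minSq A := le_minSq hn A 1 hAmin
  -- the determinant
  have h1 : |A.det| ^ 2 * (n : ℝ) ^ m ≤ 400 ^ n := by
    rcases Nat.eq_zero_or_pos m with h0 | hm0
    · subst h0
      simp only [pow_zero, mul_one, one_mul, zero_add] at hAdet hm ⊢
      rw [← hm] at hAdet
      exact hAdet.trans (pow_le_pow_left₀ (by norm_num) (by norm_num) n)
    · have h2 := pow_le_exp m (q * k) hm0
      have he : Real.exp ((q * k : ℕ) : ℝ) ≤ (2.7182818286 : ℝ) ^ (q * k) := by
        rw [← Real.exp_one_rpow, Real.rpow_natCast]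
        exact pow_le_pow_left₀ (Real.exp_pos 1).le Real.exp_one_lt_d9.le _
      rw [← hm] at h2
      calc |A.det| ^ 2 * (n : ℝ) ^ m
          ≤ |A.det| ^ 2 * ((m : ℝ) ^ m * Real.exp ((q * k : ℕ) : ℝ)) := by gcongr
        _ = (|A.det| ^ 2 * (m : ℝ) ^ m) * Real.exp ((q * k : ℕ) : ℝ) := by ring
        _ ≤ (145 ^ m * 2 ^ (q * k)) * (2.7182818286 : ℝ) ^ (q * k) := by gcongr
        _ = 145 ^ m * (2 * 2.7182818286 : ℝ) ^ (q * k) := by rw [mul_pow]; ring
        _ ≤ 400 ^ m * 400 ^ (q * k) := by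
            gcongr
            · norm_num
            · norm_num
        _ = 400 ^ n := by rw [← pow_add, ← hm]
  have h2 : ((n : ℝ) ^ (1 - (((q + 1 : ℕ) : ℝ) - 1) * k / n) / 400) ^ n ≤ herm A ^ n := by
    unfold herm
    rw [pow_value hn _ _ hd, div_pow, ← Real.rpow_natCast, ← Real.rpow_mul hnr.le]
    have h3 : (1 - (((q + 1 : ℕ) : ℝ) - 1) * k / n) * (n : ℝ) = (m : ℕ) := by
      have h4 : (n : ℝ) = m + q * k := by exact_mod_cast hm
      field_simp
      rw [h4]
      push_cast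
      ring
    rw [h3, Real.rpow_natCast, div_le_div_iff₀ (by positivity) (by positivity)]
    have h4 : (1 : ℝ) ≤ minSq A ^ n := one_le_pow₀ hmin
    calc (n : ℝ) ^ m * |A.det| ^ 2 = |A.det| ^ 2 * (n : ℝ) ^ m := by ring
      _ ≤ 400 ^ n := h1
      _ ≤ minSq A ^ n * 400 ^ n := le_mul_of_one_le_left (by positivity) h4
  exact le_of_pow_le_pow_left₀ hn.ne' (herm_nonneg A) h2

end Pool.Agent.Helper909EA
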