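import Pool.Agent.Helper909_ea.Vol

/-! The density of a packing whose translation group admits many separating operators. -/

set_option autoImplicit false

open MeasureTheory Metric Filter Set
open scoped Topology InnerProductSpace

namespace Pool.Agent.Helper909EA

open Pool.Agent.H818R2

section
variable {E : Type*} [NormedAddCommGroup E] [InnerProductSpace ℝ E] [FiniteDimensional ℝ E]
  [MeasurableSpace E] [BorelSpace E]

/-- no nonzero vector of the group in the difference body of the box -/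
lemma key_box {ι κ : Type} [Fintype κ] [DecidableEq ι]
    (n s : ℕ) (hn : 0 < n) (hs : s ≤ n)
    (b : OrthonormalBasis (κ ⊕ Fin s) ℝ E) (c : κ → ι) (D : ℕ) (hD : 0 < D)
    (hcD : ∀ i, (Finset.univ.filter (fun j => c j = i)).card ≤ D)
    (M : ι → E →ₗ[ℝ] E) (q : ℝ) (hq : 1 ≤ q)
    (hMn : ∀ i x, ‖M i x‖ ≤ q * ‖x‖)
    (hM1 : ∀ j, M (c j) (b (Sum.inl j)) = q • b (Sum.inl j))
    (hM0 : ∀ i j, c j ≠ i → M i (b (Sum.inl j)) = 0)
    (hM2 : ∀ j x, ⟪b (Sum.inl j), M (c j) x⟫_ℝ = q * ⟪b (Sum.inl j), x⟫_ℝ)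
    (Λ : AddSubgroup E) (hΛ : ∀ i, ∀ x ∈ Λ, M i x ∈ Λ)
    (hmin : ∀ x ∈ Λ, x ≠ 0 → 2 ≤ ‖x‖) {x : E} (hx : x ∈ Λ)
    (h1 : ∀ j, |⟪b (Sum.inl j), x⟫_ℝ| < 1 / (q * √D))
    (h2 : ∀ l, |⟪b (Sum.inr l), x⟫_ℝ| < 1 / (q * √n)) : x = 0 := by
  classical
  by_contra hx0
  have hq0 : 0 < q := by linarith
  have hnr : (0 : ℝ) < n := by exact_mod_cast hn
  have hDr : (0 : ℝ) < D := by exact_mod_cast hD
  have hexp : x = ∑ j, ⟪b (Sum.inl j), x⟫_ℝ • b (Sum.inl j) +
      ∑ l, ⟪b (Sum.inr l), x⟫_ℝ • b (Sum.inr l) := by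
    conv_lhs => rw [← b.sum_repr' x]
    rw [Fintype.sum_sum_type]
  set w : E := ∑ l, ⟪b (Sum.inr l), x⟫_ℝ • b (Sum.inr l) with hw
  have horth : ∀ {α : Type} (F : Finset α) (e : α → κ ⊕ Fin s) (_ : Function.Injective e),
      ‖∑ l ∈ F, ⟪b (e l), x⟫_ℝ • b (e l)‖ ^ 2 = ∑ l ∈ F, ⟪b (e l), x⟫_ℝ ^ 2 := by
    intro α F e he
    have ho : Orthonormal ℝ (fun l => b (e l)) := b.orthonormal.comp e he
    rw [← real_inner_self_eq_norm_sq, ho.inner_sum]
    apply Finset.sum_congr rfl
    intro l _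
    simp [sq]
  have hwn : ‖w‖ ≤ 1 / q := by
    rw [← sq_le_sq₀ (norm_nonneg _) (by positivity), hw, horth Finset.univ _ Sum.inr_injective]
    calc ∑ l : Fin s, ⟪b (Sum.inr l), x⟫_ℝ ^ 2 ≤ ∑ l : Fin s, (1 / (q * √n)) ^ 2 := by
          apply Finset.sum_le_sum
          intro l _
          rw [sq_le_sq, abs_of_pos (show 0 < 1 / (q * √n) by positivity)]
          exact (h2 l).le
      _ = s * (1 / (q * √n)) ^ 2 := by simp
      _ ≤ n * (1 / (q * √n)) ^ 2 := by gcongr
      _ = (1 / q) ^ 2 := by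
          rw [div_pow, mul_pow, Real.sq_sqrt hnr.le]
          field_simp
  by_cases hall : ∀ i, M i x = 0
  · have h3 : ∀ j, ⟪b (Sum.inl j), x⟫_ℝ = 0 := by
      intro j
      have := hM2 j x
      rw [hall, inner_zero_right] at this
      rcases mul_eq_zero.1 this.symm with h | h
      · exact absurd h hq0.ne'
      · exact h
    have h4 : x = w := by
      conv_lhs => rw [hexp]
      simp [h3]
    have h5 := hmin x hx hx0
    rw [h4] at h5
    have h6 : 1 / q ≤ 1 := by
      rw [div_le_one hq0]; exact hq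
    linarith
  · push Not at hall
    obtain ⟨i, hi⟩ := hall
    have h3 := hmin _ (hΛ i x hx) hi
    have h4 : M i x = q • (∑ j ∈ Finset.univ.filter (fun j => c j = i),
        ⟪b (Sum.inl j), x⟫_ℝ • b (Sum.inl j)) + M i w := by
      conv_lhs => rw [hexp, map_add, map_sum]
      congr 1
      rw [Finset.sum_filter, Finset.smul_sum]
      apply Finset.sum_congr rfl
      intro j _
      by_cases hj : c j = i
      · rw [if_pos hj, map_smul, ← hj, hM1, smul_comm]
      · rw [if_neg hj, map_smul, hM0 i j hj, smul_zero, smul_zero]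
    have h5 : ‖∑ j ∈ Finset.univ.filter (fun j => c j = i),
        ⟪b (Sum.inl j), x⟫_ℝ • b (Sum.inl j)‖ < 1 / q := by
      rw [← sq_lt_sq₀ (norm_nonneg _) (by positivity), horth _ _ Sum.inl_injective]
      rcases (Finset.univ.filter (fun j => c j = i)).eq_empty_or_nonempty with he | hne
      · rw [he]; simp only [Finset.sum_empty]; positivity
      · calc ∑ j ∈ Finset.univ.filter (fun j => c j = i), ⟪b (Sum.inl j), x⟫_ℝ ^ 2
            < ∑ j ∈ Finset.univ.filter (fun j => c j = i), (1 / (q * √D)) ^ 2 := by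
              apply Finset.sum_lt_sum_of_nonempty hne
              intro j _
              rw [sq_lt_sq, abs_of_pos (show 0 < 1 / (q * √D) by positivity)]
              exact h1 j
          _ = (Finset.univ.filter (fun j => c j = i)).card * (1 / (q * √D)) ^ 2 := by simp
          _ ≤ D * (1 / (q * √D)) ^ 2 := by
              gcongr
              exact hcD i
          _ = (1 / q) ^ 2 := by
              rw [div_pow, mul_pow, Real.sq_sqrt hDr.le]
              field_simp
    have h6 : ‖M i x‖ < 2 := by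
      rw [h4]
      calc ‖q • (∑ j ∈ Finset.univ.filter (fun j => c j = i),
            ⟪b (Sum.inl j), x⟫_ℝ • b (Sum.inl j)) + M i w‖
          ≤ ‖q • (∑ j ∈ Finset.univ.filter (fun j => c j = i),
            ⟪b (Sum.inl j), x⟫_ℝ • b (Sum.inl j))‖ + ‖M i w‖ := norm_add_le _ _
        _ ≤ q * ‖(∑ j ∈ Finset.univ.filter (fun j => c j = i),
            ⟪b (Sum.inl j), x⟫_ℝ • b (Sum.inl j))‖ + q * ‖w‖ := by
            rw [norm_smul, Real.norm_eq_abs, abs_of_pos hq0]
            gcongr
            exact hMn i w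
        _ < q * (1 / q) + q * (1 / q) := by
            apply add_lt_add_of_lt_of_le
            · exact mul_lt_mul_of_pos_left h5 hq0
            · exact mul_le_mul_of_nonneg_left hwn hq0.le
        _ = 2 := by
            rw [mul_one_div_cancel hq0.ne']; norm_num
    linarith

/-- The density bound. -/
theorem packing_bound {ι κ : Type} [Fintype κ] [DecidableEq ι]
    (u : κ → E) (hu : Orthonormal ℝ u) (c : κ → ι) (D : ℕ) (hD : 0 < D)
    (hcD : ∀ i, (Finset.univ.filter (fun j => c j = i)).card ≤ D)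
    (M : ι → E →ₗ[ℝ] E) (q : ℝ) (hq : 1 ≤ q)
    (hMn : ∀ i x, ‖M i x‖ ≤ q * ‖x‖)
    (hM1 : ∀ j, M (c j) (u j) = q • u j) (hM0 : ∀ i j, c j ≠ i → M i (u j) = 0)
    (hM2 : ∀ j x, ⟪u j, M (c j) x⟫_ℝ = q * ⟪u j, x⟫_ℝ)
    (Λ : AddSubgroup E) (hΛ : ∀ i, ∀ x ∈ Λ, M i x ∈ Λ)
    (hmin : ∀ x ∈ Λ, x ≠ 0 → 2 ≤ ‖x‖) (n : ℕ) (hnE : Module.finrank ℝ E = n) (hn : 0 < n)
    (X : Set E) (hX : IsPacking X 1) (S : Finset E) (hXS : ∀ x ∈ X, ∃ y ∈ S, x - y ∈ Λ) :
    Fintype.card κ ≤ n ∧
    upperDensity X 1 ≤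
      S.card * vb E * (q ^ n * √D ^ Fintype.card κ * √n ^ (n - Fintype.card κ)) := by
  classical
  have hq0 : 0 < q := by linarith
  have hnr : (0 : ℝ) < n := by exact_mod_cast hn
  have hDr : (0 : ℝ) < D := by exact_mod_cast hD
  have hr : Fintype.card κ ≤ n := by
    rw [← hnE]
    exact hu.linearIndependent.fintype_card_le_finrank
  refine ⟨hr, ?_⟩
  set s := n - Fintype.card κ with hs
  have hcardι : Module.finrank ℝ E = Fintype.card (κ ⊕ Fin s) := by
    rw [Fintype.card_sum, Fintype.card_fin, hnE]; omega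
  have hv : Orthonormal ℝ ((Set.range (Sum.inl : κ → κ ⊕ Fin s)).domRestrict
      (Sum.elim u (fun _ => (0 : E)))) := by
    have he : ∀ y : Set.range (Sum.inl : κ → κ ⊕ Fin s), ∃ j : κ, Sum.inl j = y.1 := fun y => y.2
    choose g hg using he
    have hginj : Function.Injective g := by
      intro y y' h
      apply Subtype.ext
      rw [← hg y, ← hg y', h]
    have : (Set.range (Sum.inl : κ → κ ⊕ Fin s)).domRestrict
      (Sum.elim u (fun _ => (0 : E))) = fun y => u (g y) := by
      funext y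
      rw [Set.domRestrict_apply, ← hg y, Sum.elim_inl]
    rw [this]
    exact hu.comp g hginj
  obtain ⟨b, hb⟩ := Orthonormal.exists_orthonormalBasis_extension_of_card_eq hcardι hv
  have hb' : ∀ j, b (Sum.inl j) = u j := fun j => by
    rw [hb (Sum.inl j) ⟨j, rfl⟩, Sum.elim_inl]
  set h : κ ⊕ Fin s → ℝ := Sum.elim (fun _ => 1 / (2 * (q * √D))) (fun _ => 1 / (2 * (q * √n)))
    with hh
  have hpos : ∀ i, 0 < h i := by
    intro i
    rcases i with i | i
    · simp only [hh, Sum.elim_inl]; positivity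
    · simp only [hh, Sum.elim_inr]; positivity
  have hvol : volume.real (box b h)
      = (1 / (q * √D)) ^ Fintype.card κ * (1 / (q * √n)) ^ s := by
    rw [box_volume b h hpos, Fintype.prod_sum_type]
    simp only [hh, Sum.elim_inl, Sum.elim_inr, Finset.prod_const, Finset.card_univ,
      Fintype.card_fin]
    congr 1
    · congr 1
      field_simp
    · congr 1
      field_simp
  have hvol0 : 0 < volume.real (box b h) := by
    rw [hvol]; positivity
  have hmain := upperDensity_le' hX (box_meas b h) (a := ∑ i, |h i|) (by positivity)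
    (box_bounded b h) hvol0 (N := S.card) (by
      intro z P hP hPz
      choose! y hyS hyΛ using hXS
      apply Finset.card_le_card_of_injOn y (fun x hx => hyS x (hP hx))
      intro x hx x' hx' hxx'
      have h3 : x - x' ∈ Λ := by
        have h4 := Λ.sub_mem (hyΛ x (hP hx)) (hyΛ x' (hP hx'))
        rw [hxx'] at h4
        simpa using h4
      have h5 : ∀ i, |⟪b i, x - x'⟫_ℝ| < 2 * h i := by
        intro i
        have h6 := hPz x hx i
        have h7 := hPz x' hx' i
        have h8 : ⟪b i, x - x'⟫_ℝ = ⟪b i, x - z⟫_ℝ - ⟪b i, x' - z⟫_ℝ := by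
          rw [← inner_sub_right]; congr 1; abel
        rw [h8]
        calc |⟪b i, x - z⟫_ℝ - ⟪b i, x' - z⟫_ℝ| ≤ |⟪b i, x - z⟫_ℝ| + |⟪b i, x' - z⟫_ℝ| :=
              abs_sub _ _
          _ < 2 * h i := by linarith
      have h9 := key_box n s hn (Nat.sub_le _ _) b c D hD hcD M q hq hMn
        (fun j => by rw [hb']; exact hM1 j) (fun i j hij => by rw [hb']; exact hM0 i j hij)
        (fun j x => by rw [hb']; exact hM2 j x) Λ hΛ hmin h3
        (fun j => by
          have := h5 (Sum.inl j)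
          simp only [hh, Sum.elim_inl] at this
          calc _ < _ := this
            _ = _ := by field_simp)
        (fun l => by
          have := h5 (Sum.inr l)
          simp only [hh, Sum.elim_inr] at this
          calc _ < _ := this
            _ = _ := by field_simp)
      exact sub_eq_zero.1 h9)
  refine hmain.trans (le_of_eq ?_)
  rw [hvol, div_eq_mul_inv]
  congr 1
  have hsr : n = Fintype.card κ + s := by omega
  rw [mul_inv, one_div, one_div, inv_pow, inv_pow, inv_inv, inv_inv, mul_pow, mul_pow]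
  conv_rhs => rw [hsr, pow_add]
  have e : √((Fintype.card κ + s : ℕ) : ℝ) = √(n : ℝ) := by rw [← hsr]
  rw [e]
  ring

end

end Pool.Agent.Helper909EA
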