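import Pool.Agent.Helper909_ea.Sym

/-! A sharper density bound: only the isolated components are charged for the norm of the
isolating operators. -/

set_option autoImplicit false

open MeasureTheory Metric Filter Set
open scoped Topology InnerProductSpace

namespace Pool.Agent.Helper909EA

open Pool.Agent.H818R2

section
variable {E : Type*} [NormedAddCommGroup E] [InnerProductSpace ℝ E] [FiniteDimensional ℝ E]
  [MeasurableSpace E] [BorelSpace E]

/-- The density bound from one box. -/
theorem packing_box {κ : Type} [Fintype κ]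
    (u : κ → E) (hu : Orthonormal ℝ u) {a : ℝ} (ha : 0 < a)
    (Λ : AddSubgroup E) (key : ∀ x ∈ Λ, (∀ j, |⟪u j, x⟫_ℝ| < a) → ∀ j, ⟪u j, x⟫_ℝ = 0)
    (hmin : ∀ x ∈ Λ, x ≠ 0 → 2 ≤ ‖x‖) (n : ℕ) (hnE : Module.finrank ℝ E = n) (hn : 0 < n)
    (X : Set E) (hX : IsPacking X 1) (S : Finset E) (hXS : ∀ x ∈ X, ∃ y ∈ S, x - y ∈ Λ) :
    Fintype.card κ ≤ n ∧
    upperDensity X 1 ≤
      S.card * vb E * ((1 / a) ^ Fintype.card κ * √n ^ (n - Fintype.card κ)) := by
  classical
  have hnr : (0 : ℝ) < n := by exact_mod_cast hn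
  have hr : Fintype.card κ ≤ n := by
    rw [← hnE]
    exact hu.linearIndependent.fintype_card_le_finrank
  refine ⟨hr, ?_⟩
  set s := n - Fintype.card κ with hs
  have hcardι : Module.finrank ℝ E = Fintype.card (κ ⊕ Fin s) := by
    rw [Fintype.card_sum, Fintype.card_fin, hnE]; omega
  have hv : Orthonormal ℝ ((Set.range (Sum.inl : κ → κ ⊕ Fin s)).domRestrict
      (Sum.elim u (fun _ => (0 : E)))) := by
    have he : ∀ y : Set.range (Sum.inl : κ → κ ⊕ Fin s), ∃ j : κ, Sum.inl j = y.1 := fun y => y.2
    choose g hg using he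
    have hginj : Function.Injective g := by
      intro y y' h
      apply Subtype.ext
      rw [← hg y, ← hg y', h]
    have : (Set.range (Sum.inl : κ → κ ⊕ Fin s)).domRestrict
      (Sum.elim u (fun _ => (0 : E))) = fun y => u (g y) := by
      funext y
      rw [Set.domRestrict_apply, ← hg y, Sum.elim_inl]
    rw [this]
    exact hu.comp g hginj
  obtain ⟨b, hb⟩ := Orthonormal.exists_orthonormalBasis_extension_of_card_eq hcardι hv
  have hb' : ∀ j, b (Sum.inl j) = u j := fun j => by
    rw [hb (Sum.inl j) ⟨j, rfl⟩, Sum.elim_inl]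
  set h : κ ⊕ Fin s → ℝ := Sum.elim (fun _ => a / 2) (fun _ => 1 / (2 * √n))
    with hh
  have hpos : ∀ i, 0 < h i := by
    intro i
    rcases i with i | i
    · simp only [hh, Sum.elim_inl]; positivity
    · simp only [hh, Sum.elim_inr]; positivity
  have hvol : volume.real (box b h)
      = a ^ Fintype.card κ * (1 / √n) ^ s := by
    rw [box_volume b h hpos, Fintype.prod_sum_type]
    simp only [hh, Sum.elim_inl, Sum.elim_inr, Finset.prod_const, Finset.card_univ,
      Fintype.card_fin]
    congr 1
    · congr 1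
      ring
    · congr 1
      field_simp
  have hvol0 : 0 < volume.real (box b h) := by
    rw [hvol]; positivity
  have hmain := upperDensity_le' hX (box_meas b h) (a := ∑ i, |h i|) (by positivity)
    (box_bounded b h) hvol0 (N := S.card) (by
      intro z P hP hPz
      choose! y hyS hyΛ using hXS
      apply Finset.card_le_card_of_injOn y (fun x hx => hyS x (hP hx))
      intro x hx x' hx' hxx'
      have h3 : x - x' ∈ Λ := by
        have h4 := Λ.sub_mem (hyΛ x (hP hx)) (hyΛ x' (hP hx'))
        rw [hxx'] at h4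
        simpa using h4
      have h5 : ∀ i, |⟪b i, x - x'⟫_ℝ| < 2 * h i := by
        intro i
        have h6 := hPz x hx i
        have h7 := hPz x' hx' i
        have h8 : ⟪b i, x - x'⟫_ℝ = ⟪b i, x - z⟫_ℝ - ⟪b i, x' - z⟫_ℝ := by
          rw [← inner_sub_right]; congr 1; abel
        rw [h8]
        calc |⟪b i, x - z⟫_ℝ - ⟪b i, x' - z⟫_ℝ| ≤ |⟪b i, x - z⟫_ℝ| + |⟪b i, x' - z⟫_ℝ| :=
              abs_sub _ _
          _ < 2 * h i := by linarith
      have h9 : ∀ j, ⟪u j, x - x'⟫_ℝ = 0 := key _ h3 (by
        intro j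
        have := h5 (Sum.inl j)
        simp only [hh, Sum.elim_inl, hb'] at this
        linarith)
      rw [← sub_eq_zero]
      by_contra hne
      have h10 := hmin _ h3 hne
      have h11 : ‖x - x'‖ ^ 2 ≤ 1 := by
        rw [← b.sum_sq_norm_inner_right, Fintype.sum_sum_type]
        have h12 : ∑ j, ‖⟪b (Sum.inl j), x - x'⟫_ℝ‖ ^ 2 = 0 := by
          apply Finset.sum_eq_zero
          intro j _
          rw [hb', h9 j]
          simp
        rw [h12, zero_add]
        calc ∑ l : Fin s, ‖⟪b (Sum.inr l), x - x'⟫_ℝ‖ ^ 2 ≤ ∑ _l : Fin s, (1 / √n) ^ 2 := by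
              apply Finset.sum_le_sum
              intro l _
              have h13 := h5 (Sum.inr l)
              simp only [hh, Sum.elim_inr] at h13
              rw [Real.norm_eq_abs, sq_abs, sq_le_sq, abs_of_pos (show 0 < 1 / √n by positivity)]
              refine h13.le.trans (le_of_eq ?_)
              field_simp
          _ = s * (1 / n) := by
              rw [Finset.sum_const, Finset.card_univ, Fintype.card_fin, nsmul_eq_mul, div_pow,
                one_pow, Real.sq_sqrt hnr.le]
          _ ≤ n * (1 / n) := by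
              gcongr
              exact Nat.sub_le _ _
          _ = 1 := by field_simp
      nlinarith)
  refine hmain.trans (le_of_eq ?_)
  rw [hvol, div_eq_mul_inv]
  congr 1
  rw [mul_inv, one_div, one_div, inv_pow, inv_pow, inv_inv]

end

/-- the sharper bound for packings of radius one -/
theorem bound_one2 {p k : ℕ} [hp : Fact p.Prime] {n : ℕ} (hn : 0 < n) (t : ℕ)
    (f : Multiplicative (Fin k → ZMod p) →*
      (EuclideanSpace ℝ (Fin n) ≃ₗᵢ[ℝ] EuclideanSpace ℝ (Fin n)))
    (hf : Function.Injective f) (Λ : AddSubgroup (EuclideanSpace ℝ (Fin n)))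
    (hspan : Submodule.span ℝ (Λ : Set (EuclideanSpace ℝ (Fin n))) = ⊤)
    (hΛ : ∀ g, ∀ x ∈ Λ, f g x ∈ Λ) (hmin : ∀ x ∈ Λ, x ≠ 0 → 2 ≤ ‖x‖)
    (X : Set (EuclideanSpace ℝ (Fin n))) (hX : IsPacking X 1)
    (S : Finset (EuclideanSpace ℝ (Fin n))) (hXS : ∀ x ∈ X, ∃ y ∈ S, x - y ∈ Λ) :
    ∃ m : ℕ, m ≤ n ∧ (t + 1) * ((p - 1) * k) ≤ (t + 1) * m + p * n ∧
      upperDensity X 1 ≤ S.card * (5 ^ n *
        √((p : ℝ) ^ (4 * t + 2) * (((p : ℝ) - 1) * (t + 1)) / n) ^ m) := by
  classical
  obtain ⟨ι, _, _, V, M, hcard, hne, horth, hMn, hM1, hM0, hM2, hMΛ, hMV, hVN, hVU⟩ :=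
    rep_structure f hf t
  rw [finrank_euclideanSpace_fin] at hcard
  have hp1 : 0 < p - 1 := by have := hp.out.two_le; omega
  have hp0 := p_pos (p := p)
  have hnr : (0 : ℝ) < n := by exact_mod_cast hn
  have hpc : ((p - 1 : ℕ) : ℝ) = (p : ℝ) - 1 := by
    rw [Nat.cast_sub hp.out.one_lt.le]; simp
  have hdim : ∀ i, p - 1 ≤ Module.finrank ℝ (V i) := by
    intro i
    obtain ⟨v, hv, hv0⟩ := Submodule.exists_mem_ne_zero_of_ne_bot (hne i)
    have h1 : ∃ x ∈ Λ, M i x ≠ 0 := by
      by_contra hcon
      push Not at hcon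
      have h2 : Submodule.span ℝ (Λ : Set (EuclideanSpace ℝ (Fin n))) ≤ LinearMap.ker (M i) := by
        rw [Submodule.span_le]
        intro x hx
        exact LinearMap.mem_ker.2 (hcon x hx)
      rw [hspan] at h2
      have h3 := LinearMap.mem_ker.1 (h2 (Submodule.mem_top (x := v)))
      rw [hM1 i v hv] at h3
      exact hv0 ((smul_eq_zero.1 h3).resolve_left (by positivity))
    obtain ⟨x, hx, hx0⟩ := h1
    obtain ⟨a, ha⟩ := hVN i
    exact dim_ge f Λ hΛ hmin (V i) a ha (hVU i) (hMΛ Λ hΛ i x hx) (hMV i x) hx0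
  set D := (p - 1) * (t + 1) with hD
  have hD0 : 0 < D := Nat.mul_pos hp1 (by omega)
  have hDr : (0 : ℝ) < D := by exact_mod_cast hD0
  set F : Finset ι := Finset.univ.filter (fun i => Module.finrank ℝ (V i) ≤ D) with hF
  set q : ℝ := (p : ℝ) ^ (2 * t + 1) with hq
  have hq0 : 0 < q := by positivity
  -- the orthonormal system
  set u : (Σ i : F, Fin (Module.finrank ℝ (V i.1))) → EuclideanSpace ℝ (Fin n) := fun j =>
    ((stdOrthonormalBasis ℝ (V j.1.1)) j.2 : V j.1.1) with hu
  have huV : ∀ j, u j ∈ V j.1.1 := fun j => Submodule.coe_mem _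
  have hortho : Orthonormal ℝ u := by
    constructor
    · intro j
      rw [hu]
      simp only [Submodule.coe_norm]
      exact (stdOrthonormalBasis ℝ (V j.1.1)).norm_eq_one _
    · intro j l hjl
      by_cases h1 : j.1.1 = l.1.1
      · obtain ⟨⟨j1, hj1⟩, j2⟩ := j
        obtain ⟨⟨l1, hl1⟩, l2⟩ := l
        simp only at h1
        subst h1
        have h2 : j2 ≠ l2 := fun h => hjl (by rw [h])
        rw [hu]
        simp only
        rw [← Submodule.coe_inner]
        exact (stdOrthonormalBasis ℝ (V j1)).orthonormal.2 h2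
      · exact horth j.1.1 l.1.1 h1 _ (huV j) _ (huV l)
  have hbox := packing_box u hortho (a := 1 / (q * √D)) (by positivity) Λ (by
    intro x hx hj
    have h1 : ∀ i : F, M i.1 x = 0 := by
      intro i
      by_contra hne0
      have h2 := hmin _ (hMΛ Λ hΛ i.1 x hx) hne0
      have h3 : ‖M i.1 x‖ ^ 2 ≤ 1 := by
        set y : V i.1 := ⟨M i.1 x, hMV i.1 x⟩ with hy
        have h4 : ‖M i.1 x‖ = ‖y‖ := rfl
        rw [h4, ← (stdOrthonormalBasis ℝ (V i.1)).sum_sq_norm_inner_right y]
        have h5 : ∀ l, ⟪(stdOrthonormalBasis ℝ (V i.1)) l, y⟫_ℝ =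
            q * ⟪u ⟨i, l⟩, x⟫_ℝ := by
          intro l
          exact hM2 i.1 _ (huV ⟨i, l⟩) x
        calc ∑ l, ‖⟪(stdOrthonormalBasis ℝ (V i.1)) l, y⟫_ℝ‖ ^ 2
            ≤ ∑ _l : Fin (Module.finrank ℝ (V i.1)), (1 / √D) ^ 2 := by
              apply Finset.sum_le_sum
              intro l _
              rw [h5, Real.norm_eq_abs, sq_abs, sq_le_sq, abs_of_pos (show 0 < 1 / √D by positivity),
                abs_mul, abs_of_pos hq0]
              calc q * |⟪u ⟨i, l⟩, x⟫_ℝ| ≤ q * (1 / (q * √D)) :=
                    mul_le_mul_of_nonneg_left (hj ⟨i, l⟩).le hq0.le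
                _ = 1 / √D := by field_simp
          _ = Module.finrank ℝ (V i.1) * (1 / D) := by
              rw [Finset.sum_const, Finset.card_univ, Fintype.card_fin, nsmul_eq_mul, div_pow,
                one_pow, Real.sq_sqrt hDr.le]
          _ ≤ D * (1 / D) := by
              gcongr
              exact (Finset.mem_filter.1 i.2).2
          _ = 1 := by field_simp
      nlinarith
    intro j
    have h2 := hM2 j.1.1 _ (huV j) x
    rw [h1 j.1, inner_zero_right] at h2
    exact (mul_eq_zero.1 h2.symm).resolve_left hq0.ne') hmin n finrank_euclideanSpace_fin hn X hX S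
      hXS
  obtain ⟨hm, hb⟩ := hbox
  set m := Fintype.card (Σ i : F, Fin (Module.finrank ℝ (V i.1))) with hmdef
  have hmsum : m = ∑ i : F, Module.finrank ℝ (V i.1) := by
    rw [hmdef, Fintype.card_sigma]
    simp
  have hmF : (p - 1) * F.card ≤ m := by
    rw [hmsum]
    calc (p - 1) * F.card = ∑ _i : F, (p - 1) := by
          rw [Finset.sum_const, Finset.card_univ, Fintype.card_coe, smul_eq_mul, mul_comm]
      _ ≤ _ := Finset.sum_le_sum fun i _ => hdim i.1
  refine ⟨m, hm, ?_, hb.trans ?_⟩
  · -- the number of large components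
    set G : Finset ι := Finset.univ.filter (fun i => ¬ Module.finrank ℝ (V i) ≤ D) with hG
    have hFG : F.card + G.card = Fintype.card ι := by
      have := Finset.card_filter_add_card_filter_not (s := (Finset.univ : Finset ι))
        (fun i => Module.finrank ℝ (V i) ≤ D)
      rw [Finset.card_univ] at this
      exact this
    have hGn : D * G.card ≤ n := by
      -- orthonormal system of the large components
      set w : (Σ i : G, Fin (Module.finrank ℝ (V i.1))) → EuclideanSpace ℝ (Fin n) := fun j =>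
        ((stdOrthonormalBasis ℝ (V j.1.1)) j.2 : V j.1.1) with hw
      have hwV : ∀ j, w j ∈ V j.1.1 := fun j => Submodule.coe_mem _
      have hwo : Orthonormal ℝ w := by
        constructor
        · intro j
          rw [hw]
          simp only [Submodule.coe_norm]
          exact (stdOrthonormalBasis ℝ (V j.1.1)).norm_eq_one _
        · intro j l hjl
          by_cases h1 : j.1.1 = l.1.1
          · obtain ⟨⟨j1, hj1⟩, j2⟩ := j
            obtain ⟨⟨l1, hl1⟩, l2⟩ := l
            simp only at h1
            subst h1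
            have h2 : j2 ≠ l2 := fun h => hjl (by rw [h])
            rw [hw]
            simp only
            rw [← Submodule.coe_inner]
            exact (stdOrthonormalBasis ℝ (V j1)).orthonormal.2 h2
          · exact horth j.1.1 l.1.1 h1 _ (hwV j) _ (hwV l)
      have h1 := hwo.linearIndependent.fintype_card_le_finrank
      rw [finrank_euclideanSpace_fin, Fintype.card_sigma] at h1
      refine le_trans ?_ h1
      calc D * G.card = ∑ _i : G, D := by
            rw [Finset.sum_const, Finset.card_univ, Fintype.card_coe, smul_eq_mul, mul_comm]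
        _ ≤ _ := by
            apply Finset.sum_le_sum
            intro i _
            rw [Fintype.card_fin]
            have := (Finset.mem_filter.1 i.2).2
            omega
    calc (t + 1) * ((p - 1) * k) = (p - 1) * ((t + 1) * k) := by ring
      _ ≤ (p - 1) * ((t + 1) * Fintype.card ι + n) := Nat.mul_le_mul_left _ hcard
      _ = (t + 1) * ((p - 1) * F.card) + D * G.card + (p - 1) * n := by
          rw [← hFG, hD]; ring
      _ ≤ (t + 1) * m + n + (p - 1) * n := by
          gcongr
      _ = (t + 1) * m + p * n := by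
          have : p = (p - 1) + 1 := by omega
          conv_rhs => rw [this]
          ring
  · rw [mul_assoc]
    apply mul_le_mul_of_nonneg_left _ (by positivity)
    have h1 := vb_le hn
    have hvb : 0 < vb (EuclideanSpace ℝ (Fin n)) := vb_pos
    have h4 : √(n : ℝ) ^ n = √(n : ℝ) ^ m * √(n : ℝ) ^ (n - m) := by
      rw [← pow_add]; congr 1; omega
    have hsn : 0 < √(n : ℝ) := Real.sqrt_pos.2 hnr
    have h5 : √((p : ℝ) ^ (4 * t + 2) * (((p : ℝ) - 1) * (t + 1)) / n) = q * √D / √n := by
      rw [Real.sqrt_div (by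
        have : (0 : ℝ) ≤ (p : ℝ) - 1 := by rw [← hpc]; positivity
        positivity)]
      congr 1
      have h6 : (((p : ℝ) - 1) * (t + 1)) = (D : ℝ) := by
        rw [hD, ← hpc]; push_cast; ring
      rw [h6, Real.sqrt_mul (by positivity)]
      congr 1
      rw [show 4 * t + 2 = (2 * t + 1) * 2 by ring, pow_mul, Real.sqrt_sq (by positivity)]
    rw [h5, one_div_one_div, div_pow]
    calc vb (EuclideanSpace ℝ (Fin n)) * ((q * √D) ^ m * √n ^ (n - m))
        = (vb (EuclideanSpace ℝ (Fin n)) * √n ^ n) * ((q * √D) ^ m / √n ^ m) := by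
          rw [h4]; field_simp
      _ ≤ 5 ^ n * ((q * √D) ^ m / √n ^ m) := by gcongr

end Pool.Agent.Helper909EA
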