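import Pool.Agent.Helper909_ea.Struct

/-! A nontrivial component of a lattice with an automorphism of prime order `p` has dimension at
least `p - 1`. -/

set_option autoImplicit false

open Module Module.End LinearMap
open scoped InnerProductSpace

namespace Pool.Agent.Helper909EA

section
variable {E : Type*} [NormedAddCommGroup E] [InnerProductSpace ℝ E]
variable {p k : ℕ} [hp : Fact p.Prime]
variable (f : Multiplicative (Fin k → ZMod p) →* (E ≃ₗᵢ[ℝ] E))

lemma U_pow (a : Fin k → ZMod p) (j : ℕ) (x : E) :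
    ((U f a : Module.End ℝ E) ^ j) x = U f ((j : ZMod p) • a) x := by
  induction j with
  | zero => rw [pow_zero, Nat.cast_zero, zero_smul, U_zero]; rfl
  | succ j ih =>
    rw [pow_succ', Module.End.mul_apply, ih, Nat.cast_succ, add_smul, one_smul, add_comm, U_add]

lemma N_range (a : Fin k → ZMod p) (x : E) :
    N f a x = ∑ j ∈ Finset.range p, ((U f a : Module.End ℝ E) ^ j) x := by
  rw [N_apply]
  symm
  refine Finset.sum_bij' (fun (j : ℕ) _ => (j : ZMod p)) (fun (j : ZMod p) _ => j.val)
    (by simp) ?_ ?_ ?_ ?_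
  · intro j _
    exact Finset.mem_range.2 (ZMod.val_lt j)
  · intro j hj
    exact ZMod.val_cast_of_lt (Finset.mem_range.1 hj)
  · intro j _
    exact ZMod.natCast_zmod_val j
  · intro j _
    exact U_pow f a j x

open Polynomial in
lemma int_indep (a : Fin k → ZMod p) {w : E} (hw0 : w ≠ 0) (hNw : N f a w = 0) :
    LinearIndependent ℤ (fun j : Fin (p - 1) => ((U f a : Module.End ℝ E) ^ (j : ℕ)) w) := by
  rw [Fintype.linearIndependent_iff]
  intro c hc
  by_contra hcon
  push Not at hcon
  obtain ⟨j0, hj0⟩ := hcon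
  set g : Module.End ℝ E := U f a with hg
  set h : ℤ[X] := ∑ j : Fin (p - 1), C (c j) * X ^ (j : ℕ) with hh
  have hcoef : ∀ j : Fin (p - 1), h.coeff (j : ℕ) = c j := by
    intro j
    rw [hh, finsetSum_coeff]
    simp only [coeff_C_mul, coeff_X_pow]
    rw [Finset.sum_eq_single j]
    · simp
    · intro i _ hij
      have : ¬ ((j : ℕ) = (i : ℕ)) := fun h => hij (Fin.ext h.symm)
      simp [this]
    · simp
  have hp1 : 0 < p - 1 := by have := hp.out.two_le; omega
  have hdeg : h.degree < ((p - 1 : ℕ) : WithBot ℕ) := by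
    rw [hh]
    refine lt_of_le_of_lt (degree_sum_le _ _) ?_
    rw [Finset.sup_lt_iff (by exact WithBot.bot_lt_coe _)]
    intro j _
    refine lt_of_le_of_lt (degree_C_mul_X_pow_le _ _) ?_
    exact_mod_cast j.2
  have hne : h ≠ 0 := by
    intro h0
    apply hj0
    rw [← hcoef j0, h0, coeff_zero]
  set hQ : ℚ[X] := h.map (Int.castRingHom ℚ) with hhQ
  have hQne : hQ ≠ 0 := by
    rw [hhQ, Polynomial.map_ne_zero_iff (RingHom.injective_int _)]
    exact hne
  have hQdeg : hQ.degree < ((p - 1 : ℕ) : WithBot ℕ) :=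
    lt_of_le_of_lt degree_map_le hdeg
  have hirr := cyclotomic.irreducible_rat hp.out.pos
  have hnd : ¬ cyclotomic p ℚ ∣ hQ := by
    apply Monic.not_dvd_of_degree_lt (cyclotomic.monic p ℚ) hQne
    rw [degree_cyclotomic, Nat.totient_prime hp.out]
    exact hQdeg
  obtain ⟨u, v, huv⟩ := (hirr.coprime_iff_not_dvd.2 hnd)
  have hR := congrArg (Polynomial.map (algebraMap ℚ ℝ)) huv
  rw [Polynomial.map_add, Polynomial.map_mul, Polynomial.map_mul, Polynomial.map_one,
    map_cyclotomic, hhQ, Polynomial.map_map] at hR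
  have hR2 := congrArg (fun P : ℝ[X] => (aeval g P) w) hR
  simp only [map_add, map_mul, map_one, LinearMap.add_apply, Module.End.mul_apply,
    Module.End.one_apply] at hR2
  have h1 : (aeval g (cyclotomic p ℝ)) w = 0 := by
    rw [cyclotomic_prime, map_sum, LinearMap.sum_apply]
    simp only [map_pow, aeval_X]
    rw [← N_range, hNw]
  have h2 : (aeval g (h.map ((algebraMap ℚ ℝ).comp (Int.castRingHom ℚ)))) w = 0 := by
    rw [hh, Polynomial.map_sum, map_sum, LinearMap.sum_apply, ← hc]
    apply Finset.sum_congr rfl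
    intro j _
    rw [Polynomial.map_mul, Polynomial.map_pow, map_C, map_X, map_mul, map_pow, aeval_X, aeval_C,
      Module.End.mul_apply, Module.algebraMap_end_apply]
    simp only [eq_intCast, map_intCast]
    exact Int.cast_smul_eq_zsmul ℝ (c j) _
  rw [h1, h2, map_zero, map_zero, add_zero] at hR2
  exact hw0 hR2.symm

variable [FiniteDimensional ℝ E]

lemma dim_ge (Λ : AddSubgroup E) (hΛ : ∀ g, ∀ x ∈ Λ, f g x ∈ Λ)
    (hmin : ∀ x ∈ Λ, x ≠ 0 → 2 ≤ ‖x‖) (V : Submodule ℝ E) (a : Fin k → ZMod p)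
    (hVa : ∀ v ∈ V, N f a v = 0) (hVU : ∀ v ∈ V, ∀ b, U f b v ∈ V) {w : E} (hw : w ∈ Λ)
    (hwV : w ∈ V) (hw0 : w ≠ 0) : p - 1 ≤ finrank ℝ V := by
  have hind := int_indep f a hw0 (hVa w hwV)
  set y : Fin (p - 1) → E := fun j => ((U f a : Module.End ℝ E) ^ (j : ℕ)) w with hy
  have hyΛ : ∀ j, y j ∈ Λ := by
    intro j
    rw [hy]
    simp only [U_pow]
    exact hΛ _ _ hw
  have hyV : ∀ j, y j ∈ V := by
    intro j
    rw [hy]
    simp only [U_pow]
    exact hVU w hwV _
  have hsub : ∀ x ∈ Submodule.span ℤ (Set.range y), x ∈ Λ := by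
    have : Submodule.span ℤ (Set.range y) ≤ AddSubgroup.toIntSubmodule Λ := by
      rw [Submodule.span_le]
      rintro _ ⟨j, rfl⟩
      exact hyΛ j
    intro x hx
    exact this hx
  have hdisc : DiscreteTopology (Submodule.span ℤ (Set.range y)) := by
    apply DiscreteTopology.of_forall_le_norm (r := 2) (by norm_num)
    intro x hx
    exact hmin _ (hsub _ x.2) (fun h => hx (Subtype.ext h))
  have h1 := Real.finrank_eq_int_finrank_of_discrete hdisc
  have h2 : Set.finrank ℤ (Set.range y) = p - 1 := by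
    rw [Set.finrank, finrank_span_eq_card hind, Fintype.card_fin]
  have h3 : Set.finrank ℝ (Set.range y) ≤ finrank ℝ V := by
    rw [Set.finrank]
    apply Submodule.finrank_mono
    rw [Submodule.span_le]
    rintro _ ⟨j, rfl⟩
    exact hyV j
  rw [h1, h2] at h3
  exact h3

end

end Pool.Agent.Helper909EA
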