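import Pool.Agent.Helper909_ea.Main

/-! Lattices with elementary abelian groups of automorphisms: all radii, unions of translates,
asymptotics. -/

set_option autoImplicit false

open MeasureTheory Metric Filter Set
open scoped Topology InnerProductSpace Pointwise

namespace Pool.Agent.Helper909EA

open Pool.Agent.H818R2

/-- `Λ` is a full lattice of `ℝ^n` (a discrete additive subgroup which spans `ℝ^n`) which is mapped
to itself by a group of linear isometries isomorphic to `(ℤ/p)^k`. -/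
def HasElemAbelian (p k n : ℕ) (Λ : AddSubgroup (EuclideanSpace ℝ (Fin n))) : Prop :=
  Submodule.span ℝ (Λ : Set (EuclideanSpace ℝ (Fin n))) = ⊤ ∧ DiscreteTopology Λ ∧
  ∃ f : Multiplicative (Fin k → ZMod p) →*
      (EuclideanSpace ℝ (Fin n) ≃ₗᵢ[ℝ] EuclideanSpace ℝ (Fin n)),
    Function.Injective f ∧ ∀ g, ∀ x ∈ Λ, f g x ∈ Λ

/-- `X` is the union of at most `N` translates of `Λ`. -/
def IsUnionOfTranslates {n : ℕ} (N : ℕ) (Λ : AddSubgroup (EuclideanSpace ℝ (Fin n)))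
    (X : Set (EuclideanSpace ℝ (Fin n))) : Prop :=
  ∃ S : Finset (EuclideanSpace ℝ (Fin n)), S.card ≤ N ∧ X = {x | ∃ y ∈ S, ∃ v ∈ Λ, x = y + v}

lemma upperDensity_empty {n : ℕ} (r : ℝ) :
    upperDensity (∅ : Set (EuclideanSpace ℝ (Fin n))) r = 0 := by
  unfold upperDensity body
  simp

lemma pow_le_rpow {n m : ℕ} (hn : 0 < n) {e : ℝ} (h : 2 * e ≤ m) :
    1 / √(n : ℝ) ^ m ≤ (n : ℝ) ^ (-e) := by
  have hnr : (1 : ℝ) ≤ n := by exact_mod_cast hn
  have h1 : √(n : ℝ) ^ m = (n : ℝ) ^ ((m : ℝ) / 2) := by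
    rw [Real.sqrt_eq_rpow, ← Real.rpow_natCast, ← Real.rpow_mul (by positivity)]
    congr 1; ring
  rw [h1, one_div, ← Real.rpow_neg (by positivity)]
  apply Real.rpow_le_rpow_of_exponent_le hnr
  linarith

/-- the explicit bound -/
theorem bound_all {p k : ℕ} (hp : p.Prime) {n : ℕ} (hn : 0 < n) (t N : ℕ)
    (Λ : AddSubgroup (EuclideanSpace ℝ (Fin n))) (hΛ : HasElemAbelian p k n Λ)
    (X : Set (EuclideanSpace ℝ (Fin n))) (r : ℝ) (hX : IsPacking X r)
    (hXN : IsUnionOfTranslates N Λ X) :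
    upperDensity X r ≤ N * (5 * √p * (p : ℝ) ^ (2 * t + 1)) ^ n *
      (n : ℝ) ^ (-(((p : ℝ) - 1) * (k - n / (t + 1)) / 2)) := by
  classical
  have : Fact p.Prime := ⟨hp⟩
  obtain ⟨hspan, -, f, hf, hfΛ⟩ := hΛ
  obtain ⟨S, hS, hXS⟩ := hXN
  have hr : 0 < r := hX.1
  have hp0 : (0 : ℝ) < p := by exact_mod_cast hp.pos
  have hnr : (0 : ℝ) < n := by exact_mod_cast hn
  rcases S.eq_empty_or_nonempty with he | ⟨y0, hy0⟩
  · have hX0 : X = ∅ := by
      rw [hXS, he]; simp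
    rw [hX0, upperDensity_empty]
    positivity
  · -- the group after scaling
    set Λ' : AddSubgroup (EuclideanSpace ℝ (Fin n)) :=
      Λ.comap (DistribSMul.toAddMonoidHom (EuclideanSpace ℝ (Fin n)) r) with hΛ'
    have hmem : ∀ x, x ∈ Λ' ↔ r • x ∈ Λ := fun x => Iff.rfl
    have hspan' : Submodule.span ℝ (Λ' : Set (EuclideanSpace ℝ (Fin n))) = ⊤ := by
      rw [eq_top_iff, ← hspan, Submodule.span_le]
      intro x hx
      have h1 : r⁻¹ • x ∈ Λ' := by
        rw [hmem, smul_inv_smul₀ hr.ne']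
        exact hx
      have h2 : x = r • (r⁻¹ • x) := (smul_inv_smul₀ hr.ne' x).symm
      rw [h2]
      exact Submodule.smul_mem _ _ (Submodule.subset_span h1)
    have hminΛ : ∀ v ∈ Λ, v ≠ 0 → 2 * r ≤ ‖v‖ := by
      intro v hv hv0
      have h1 : y0 ∈ X := by
        rw [hXS]; exact ⟨y0, hy0, 0, Λ.zero_mem, by simp⟩
      have h2 : y0 + v ∈ X := by
        rw [hXS]; exact ⟨y0, hy0, v, hv, rfl⟩
      have h3 : y0 ≠ y0 + v := by
        intro h
        apply hv0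
        simpa using h
      have h4 := hX.2 h1 h2 h3
      simp only [Function.onFun] at h4
      rw [disjoint_ball_ball_iff hr hr, dist_eq_norm] at h4
      have h5 : y0 - (y0 + v) = -v := by abel
      rw [h5, norm_neg] at h4
      linarith
    have hmin' : ∀ x ∈ Λ', x ≠ 0 → 2 ≤ ‖x‖ := by
      intro x hx hx0
      have h1 := hminΛ _ ((hmem x).1 hx) (by
        rw [Ne, smul_eq_zero, not_or]
        exact ⟨hr.ne', hx0⟩)
      rw [norm_smul, Real.norm_eq_abs, abs_of_pos hr] at h1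
      nlinarith
    have hfΛ' : ∀ g, ∀ x ∈ Λ', f g x ∈ Λ' := by
      intro g x hx
      rw [hmem] at hx ⊢
      have := hfΛ g _ hx
      rwa [map_smul] at this
    have hX1 : IsPacking (r⁻¹ • X) 1 := by
      have := isPacking_smul hX (inv_pos.2 hr)
      rwa [inv_mul_cancel₀ hr.ne'] at this
    have hdens : upperDensity (r⁻¹ • X) 1 = upperDensity X r := by
      have := upperDensity_smul (X := X) (r := r) (inv_pos.2 hr)
      rwa [inv_mul_cancel₀ hr.ne'] at this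
    have hXS' : ∀ x ∈ r⁻¹ • X, ∃ y ∈ S.image (fun y => r⁻¹ • y), x - y ∈ Λ' := by
      intro x hx
      obtain ⟨x0, hx0, rfl⟩ := mem_smul_set.1 hx
      rw [hXS] at hx0
      obtain ⟨y, hy, v, hv, rfl⟩ := hx0
      refine ⟨r⁻¹ • y, Finset.mem_image_of_mem _ hy, ?_⟩
      rw [hmem, ← smul_sub, smul_inv_smul₀ hr.ne']
      simpa using hv
    obtain ⟨m, -, hm, hb⟩ := bound_one hn t f hf Λ' hspan' hfΛ' hmin' _ hX1 _ hXS'
    rw [hdens] at hb
    have hcard : ((S.image (fun y => r⁻¹ • y)).card : ℝ) ≤ N := by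
      exact_mod_cast Finset.card_image_le.trans hS
    have he : 2 * ((((p : ℝ) - 1) * (k - n / (t + 1)) / 2)) ≤ m := by
      have h1 : ((t : ℝ) + 1) * (((p : ℝ) - 1) * k) ≤ ((t : ℝ) + 1) * m + ((p : ℝ) - 1) * n := by
        have h2 : ((p - 1 : ℕ) : ℝ) = (p : ℝ) - 1 := by
          rw [Nat.cast_sub hp.one_lt.le]; simp
        rw [← h2]
        exact_mod_cast hm
      have ht : (0 : ℝ) < t + 1 := by positivity
      have h3 : ((p : ℝ) - 1) * (k - n / (t + 1)) =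
          (((t : ℝ) + 1) * (((p : ℝ) - 1) * k) - ((p : ℝ) - 1) * n) / (t + 1) := by
        field_simp
      rw [mul_div_cancel₀ _ (two_ne_zero), h3, div_le_iff₀ ht]
      linarith
    calc upperDensity X r ≤ _ := hb
      _ ≤ N * ((5 * √p * (p : ℝ) ^ (2 * t + 1)) ^ n * (1 / √n ^ m)) := by
          rw [mul_one_div]
          apply mul_le_mul_of_nonneg_right hcard (by positivity)
      _ ≤ N * ((5 * √p * (p : ℝ) ^ (2 * t + 1)) ^ n *
            (n : ℝ) ^ (-(((p : ℝ) - 1) * (k - n / (t + 1)) / 2))) := by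
          gcongr
          exact pow_le_rpow hn he
      _ = _ := by ring

/-- the asymptotic form -/
theorem bound_asymp {p : ℕ} (hp : p.Prime) {ε : ℝ} (hε : 0 < ε) :
    ∃ n0 : ℕ, ∀ n ≥ n0, ∀ (k N : ℕ) (Λ : AddSubgroup (EuclideanSpace ℝ (Fin n)))
      (X : Set (EuclideanSpace ℝ (Fin n))) (r : ℝ), HasElemAbelian p k n Λ →
      IsUnionOfTranslates N Λ X → IsPacking X r →
      upperDensity X r ≤ N * (n : ℝ) ^ (-(((p : ℝ) - 1) * k / 2 - ε * n)) := by
  have hp0 : (0 : ℝ) < p := by exact_mod_cast hp.pos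
  have hp1 : (0 : ℝ) ≤ (p : ℝ) - 1 := by
    have : (1 : ℝ) ≤ p := by exact_mod_cast hp.one_lt.le
    linarith
  obtain ⟨t, ht⟩ := exists_nat_gt (((p : ℝ) - 1) / ε)
  set C : ℝ := 5 * √p * (p : ℝ) ^ (2 * t + 1) with hC
  have hC0 : 0 < C := by positivity
  have hlim : Tendsto (fun n : ℕ => (n : ℝ) ^ (ε / 2)) atTop atTop :=
    (tendsto_rpow_atTop (by positivity)).comp tendsto_natCast_atTop_atTop
  obtain ⟨n1, hn1⟩ := (hlim.eventually (eventually_ge_atTop C)).exists_forall_of_atTop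
  refine ⟨max n1 1, ?_⟩
  intro n hn k N Λ X r hΛ hXN hX
  have hn0 : 0 < n := lt_of_lt_of_le one_pos ((le_max_right _ _).trans hn)
  have hnr : (0 : ℝ) < n := by exact_mod_cast hn0
  have hnr1 : (1 : ℝ) ≤ n := by exact_mod_cast hn0
  have h1 := bound_all hp hn0 t N Λ hΛ X r hX hXN
  have h2 := hn1 n ((le_max_left _ _).trans hn)
  refine h1.trans ?_
  rw [mul_assoc]
  apply mul_le_mul_of_nonneg_left _ (by positivity)
  have h3 : C ^ n ≤ (n : ℝ) ^ (ε / 2 * n) := by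
    rw [Real.rpow_mul hnr.le, Real.rpow_natCast]
    exact pow_le_pow_left₀ hC0.le h2 n
  calc C ^ n * (n : ℝ) ^ (-(((p : ℝ) - 1) * (k - n / (t + 1)) / 2))
      ≤ (n : ℝ) ^ (ε / 2 * n) * (n : ℝ) ^ (-(((p : ℝ) - 1) * (k - n / (t + 1)) / 2)) := by
        gcongr
    _ = (n : ℝ) ^ (ε / 2 * n + -(((p : ℝ) - 1) * (k - n / (t + 1)) / 2)) := by
        rw [Real.rpow_add hnr]
    _ ≤ _ := by
        apply Real.rpow_le_rpow_of_exponent_le hnr1
        have h4 : ((p : ℝ) - 1) / (t + 1) ≤ ε := by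
          rw [div_le_iff₀ (by positivity)]
          rw [div_lt_iff₀ hε] at ht
          nlinarith
        have h5 : ((p : ℝ) - 1) * (k - n / (t + 1)) / 2
            = ((p : ℝ) - 1) * k / 2 - ((p : ℝ) - 1) / (t + 1) * n / 2 := by
          field_simp
        rw [h5]
        nlinarith

/-- a lattice of rank `n` has elementary abelian groups of automorphisms of rank at most
`n / (p - 1)` only -/
theorem rank_le {p k : ℕ} (hp : p.Prime) {n : ℕ} (hn : 0 < n)
    (Λ : AddSubgroup (EuclideanSpace ℝ (Fin n))) (hΛ : HasElemAbelian p k n Λ) :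
    (p - 1) * k ≤ n := by
  classical
  have : Fact p.Prime := ⟨hp⟩
  obtain ⟨hspan, hd, f, hf, hfΛ⟩ := hΛ
  obtain ⟨ε, hε, hball⟩ := Metric.exists_ball_inter_eq_singleton_of_mem_discrete
    (s := (Λ : Set (EuclideanSpace ℝ (Fin n)))) (x := 0) ⟨hd⟩ Λ.zero_mem
  set r : ℝ := ε / 2 with hrdef
  have hr : 0 < r := by positivity
  set Λ' : AddSubgroup (EuclideanSpace ℝ (Fin n)) :=
    Λ.comap (DistribSMul.toAddMonoidHom (EuclideanSpace ℝ (Fin n)) r) with hΛ'
  have hmem : ∀ x, x ∈ Λ' ↔ r • x ∈ Λ := fun x => Iff.rfl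
  have hspan' : Submodule.span ℝ (Λ' : Set (EuclideanSpace ℝ (Fin n))) = ⊤ := by
    rw [eq_top_iff, ← hspan, Submodule.span_le]
    intro x hx
    have h1 : r⁻¹ • x ∈ Λ' := by
      rw [hmem, smul_inv_smul₀ hr.ne']
      exact hx
    have h2 : x = r • (r⁻¹ • x) := (smul_inv_smul₀ hr.ne' x).symm
    rw [h2]
    exact Submodule.smul_mem _ _ (Submodule.subset_span h1)
  have hfΛ' : ∀ g, ∀ x ∈ Λ', f g x ∈ Λ' := by
    intro g x hx
    rw [hmem] at hx ⊢
    have := hfΛ g _ hx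
    rwa [map_smul] at this
  have hmin' : ∀ x ∈ Λ', x ≠ 0 → 2 ≤ ‖x‖ := by
    intro x hx hx0
    by_contra hlt
    push Not at hlt
    have h3 : r • x ∈ ball (0 : EuclideanSpace ℝ (Fin n)) ε ∩ Λ := by
      refine ⟨?_, hx⟩
      rw [mem_ball_zero_iff, norm_smul, Real.norm_eq_abs, abs_of_pos hr]
      nlinarith
    rw [hball, mem_singleton_iff, smul_eq_zero] at h3
    rcases h3 with h3 | h3
    · exact hr.ne' h3
    · exact hx0 h3
  have hpack : IsPacking (Λ' : Set (EuclideanSpace ℝ (Fin n))) 1 := by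
    refine ⟨one_pos, ?_⟩
    intro x hx y hy hxy
    simp only [Function.onFun]
    rw [disjoint_ball_ball_iff one_pos one_pos, dist_eq_norm]
    have := hmin' (x - y) (Λ'.sub_mem hx hy) (sub_ne_zero.2 hxy)
    linarith
  obtain ⟨m, hm, hrel, -⟩ := bound_one hn ((p - 1) * n) f hf Λ' hspan' hfΛ' hmin' _ hpack {0}
    (fun x hx => ⟨0, by simp, by simpa using hx⟩)
  by_contra hcon
  push Not at hcon
  have h1 : n + 1 ≤ (p - 1) * k := hcon
  have h2 : ((p - 1) * n + 1) * (n + 1) ≤ ((p - 1) * n + 1) * ((p - 1) * k) :=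
    Nat.mul_le_mul_left _ h1
  have h3 : ((p - 1) * n + 1) * m ≤ ((p - 1) * n + 1) * n := Nat.mul_le_mul_left _ hm
  have h4 : ((p - 1) * n + 1) * (n + 1) = ((p - 1) * n + 1) * n + ((p - 1) * n + 1) := by ring
  linarith

/-- the bound uniformly in the prime number, for groups of linear rank -/
theorem bound_uniform {κ ε : ℝ} (hκ : 0 < κ) (hε : 0 < ε) :
    ∃ n0 : ℕ, ∀ n ≥ n0, ∀ p : ℕ, p.Prime → ∀ (k N : ℕ)
      (Λ : AddSubgroup (EuclideanSpace ℝ (Fin n)))
      (X : Set (EuclideanSpace ℝ (Fin n))) (r : ℝ), κ * n ≤ k → HasElemAbelian p k n Λ →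
      IsUnionOfTranslates N Λ X → IsPacking X r →
      upperDensity X r ≤ N * (n : ℝ) ^ (-(((p : ℝ) - 1) * k / 2 - ε * n)) := by
  classical
  obtain ⟨P, hP⟩ := exists_nat_gt (1 / κ + 1)
  have hall : ∀ p : ℕ, ∃ n0 : ℕ, p.Prime → ∀ n ≥ n0, ∀ (k N : ℕ)
      (Λ : AddSubgroup (EuclideanSpace ℝ (Fin n)))
      (X : Set (EuclideanSpace ℝ (Fin n))) (r : ℝ), HasElemAbelian p k n Λ →
      IsUnionOfTranslates N Λ X → IsPacking X r →
      upperDensity X r ≤ N * (n : ℝ) ^ (-(((p : ℝ) - 1) * k / 2 - ε * n)) := by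
    intro p
    by_cases hp : p.Prime
    · obtain ⟨n0, h⟩ := bound_asymp hp hε
      exact ⟨n0, fun _ => h⟩
    · exact ⟨0, fun h => absurd h hp⟩
  choose n0 hn0 using hall
  refine ⟨max 1 ((Finset.range P).sup n0), ?_⟩
  intro n hn p hp k N Λ X r hk hΛ hXN hX
  have hn1 : 0 < n := lt_of_lt_of_le one_pos ((le_max_left _ _).trans hn)
  have hnr : (0 : ℝ) < n := by exact_mod_cast hn1
  have hrank := rank_le hp hn1 Λ hΛ
  have hpP : p < P := by
    have h1 : ((p - 1 : ℕ) : ℝ) * k ≤ n := by exact_mod_cast hrank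
    have h2 : ((p - 1 : ℕ) : ℝ) = (p : ℝ) - 1 := by
      rw [Nat.cast_sub hp.one_lt.le]; simp
    rw [h2] at h1
    have h3 : (0 : ℝ) ≤ (p : ℝ) - 1 := by
      have : (1 : ℝ) ≤ p := by exact_mod_cast hp.one_lt.le
      linarith
    have h4 : ((p : ℝ) - 1) * (κ * n) ≤ n := by nlinarith
    have h5 : ((p : ℝ) - 1) * κ ≤ 1 := by
      by_contra hlt
      push Not at hlt
      nlinarith
    have h6 : (p : ℝ) ≤ 1 / κ + 1 := by
      rw [div_add_one hκ.ne', le_div_iff₀ hκ]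
      linarith
    exact_mod_cast lt_of_le_of_lt h6 hP
  exact hn0 p hp n (((Finset.le_sup (Finset.mem_range.2 hpP)).trans (le_max_right _ _)).trans hn)
    k N Λ X r hΛ hXN hX

end Pool.Agent.Helper909EA
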