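import Pool.Agent.Helper909_ea.Dens2

/-! The sharper bound for all radii and unions of translates, for Hermite invariants, and for the
rank of the groups of good lattices. -/

set_option autoImplicit false

open MeasureTheory Metric Filter Set
open scoped Topology InnerProductSpace Pointwise

namespace Pool.Agent.Helper909EA

open Pool.Agent.H818R2
open Pool.Agent.H160R3.Herm (minSq hermite bsum det_bsum sum_bsum minSq_smul_le pow_value
  exists_lt_value hermite_ge minSq_le minSq_nonneg le_minSq)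

/-- the base of the power in the sharper bound -/
noncomputable def rat (p n t : ℕ) : ℝ :=
  (p : ℝ) ^ (4 * t + 2) * (((p : ℝ) - 1) * (t + 1)) / n

lemma rat_pos {p n : ℕ} (hp : p.Prime) (hn : 0 < n) (t : ℕ) : 0 < rat p n t := by
  have hp0 : (0 : ℝ) < p := by exact_mod_cast hp.pos
  have hnr : (0 : ℝ) < n := by exact_mod_cast hn
  have hp1 : (0 : ℝ) < (p : ℝ) - 1 := by
    have : (1 : ℝ) < p := by exact_mod_cast hp.one_lt
    linarith
  unfold rat
  positivity

lemma rat_le_one {p n t : ℕ} (hp : p.Prime) (hn : 0 < n)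
    (ht : p ^ (4 * t + 2) * ((p - 1) * (t + 1)) ≤ n) : rat p n t ≤ 1 := by
  have hnr : (0 : ℝ) < n := by exact_mod_cast hn
  unfold rat
  rw [div_le_one hnr]
  have h1 : ((p ^ (4 * t + 2) * ((p - 1) * (t + 1)) : ℕ) : ℝ) ≤ n := by exact_mod_cast ht
  rw [Nat.cast_mul, Nat.cast_mul, Nat.cast_sub hp.one_lt.le] at h1
  push_cast at h1
  exact h1

/-- the explicit bound -/
theorem bound_all2 {p k : ℕ} (hp : p.Prime) {n : ℕ} (hn : 0 < n) {t : ℕ}
    (ht : p ^ (4 * t + 2) * ((p - 1) * (t + 1)) ≤ n) (N : ℕ)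
    (Λ : AddSubgroup (EuclideanSpace ℝ (Fin n))) (hΛ : HasElemAbelian p k n Λ)
    (X : Set (EuclideanSpace ℝ (Fin n))) (r : ℝ) (hX : IsPacking X r)
    (hXN : IsUnionOfTranslates N Λ X) :
    upperDensity X r ≤ N * (5 ^ n *
      rat p n t ^ ((((p : ℝ) - 1) * k - p * n / (t + 1)) / 2)) := by
  classical
  have : Fact p.Prime := ⟨hp⟩
  obtain ⟨hspan, -, f, hf, hfΛ⟩ := hΛ
  obtain ⟨S, hS, hXS⟩ := hXN
  have hr : 0 < r := hX.1
  have hp0 : (0 : ℝ) < p := by exact_mod_cast hp.pos
  have hnr : (0 : ℝ) < n := by exact_mod_cast hn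
  have hρ := rat_pos hp hn t
  have hρ1 := rat_le_one hp hn ht
  rcases S.eq_empty_or_nonempty with he | ⟨y0, hy0⟩
  · have hX0 : X = ∅ := by
      rw [hXS, he]; simp
    rw [hX0, upperDensity_empty]
    positivity
  · -- the group after scaling
    set Λ' : AddSubgroup (EuclideanSpace ℝ (Fin n)) :=
      Λ.comap (DistribSMul.toAddMonoidHom (EuclideanSpace ℝ (Fin n)) r) with hΛ'
    have hmem : ∀ x, x ∈ Λ' ↔ r • x ∈ Λ := fun x => Iff.rfl
    have hspan' : Submodule.span ℝ (Λ' : Set (EuclideanSpace ℝ (Fin n))) = ⊤ := by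
      rw [eq_top_iff, ← hspan, Submodule.span_le]
      intro x hx
      have h1 : r⁻¹ • x ∈ Λ' := by
        rw [hmem, smul_inv_smul₀ hr.ne']
        exact hx
      have h2 : x = r • (r⁻¹ • x) := (smul_inv_smul₀ hr.ne' x).symm
      rw [h2]
      exact Submodule.smul_mem _ _ (Submodule.subset_span h1)
    have hminΛ : ∀ v ∈ Λ, v ≠ 0 → 2 * r ≤ ‖v‖ := by
      intro v hv hv0
      have h1 : y0 ∈ X := by
        rw [hXS]; exact ⟨y0, hy0, 0, Λ.zero_mem, by simp⟩
      have h2 : y0 + v ∈ X := by
        rw [hXS]; exact ⟨y0, hy0, v, hv, rfl⟩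
      have h3 : y0 ≠ y0 + v := by
        intro h
        apply hv0
        simpa using h
      have h4 := hX.2 h1 h2 h3
      simp only [Function.onFun] at h4
      rw [disjoint_ball_ball_iff hr hr, dist_eq_norm] at h4
      have h5 : y0 - (y0 + v) = -v := by abel
      rw [h5, norm_neg] at h4
      linarith
    have hmin' : ∀ x ∈ Λ', x ≠ 0 → 2 ≤ ‖x‖ := by
      intro x hx hx0
      have h1 := hminΛ _ ((hmem x).1 hx) (by
        rw [Ne, smul_eq_zero, not_or]
        exact ⟨hr.ne', hx0⟩)
      rw [norm_smul, Real.norm_eq_abs, abs_of_pos hr] at h1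
      nlinarith
    have hfΛ' : ∀ g, ∀ x ∈ Λ', f g x ∈ Λ' := by
      intro g x hx
      rw [hmem] at hx ⊢
      have := hfΛ g _ hx
      rwa [map_smul] at this
    have hX1 : IsPacking (r⁻¹ • X) 1 := by
      have := isPacking_smul hX (inv_pos.2 hr)
      rwa [inv_mul_cancel₀ hr.ne'] at this
    have hdens : upperDensity (r⁻¹ • X) 1 = upperDensity X r := by
      have := upperDensity_smul (X := X) (r := r) (inv_pos.2 hr)
      rwa [inv_mul_cancel₀ hr.ne'] at this
    have hXS' : ∀ x ∈ r⁻¹ • X, ∃ y ∈ S.image (fun y => r⁻¹ • y), x - y ∈ Λ' := by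
      intro x hx
      obtain ⟨x0, hx0, rfl⟩ := mem_smul_set.1 hx
      rw [hXS] at hx0
      obtain ⟨y, hy, v, hv, rfl⟩ := hx0
      refine ⟨r⁻¹ • y, Finset.mem_image_of_mem _ hy, ?_⟩
      rw [hmem, ← smul_sub, smul_inv_smul₀ hr.ne']
      simpa using hv
    obtain ⟨m, -, hm, hb⟩ := bound_one2 hn t f hf Λ' hspan' hfΛ' hmin' _ hX1 _ hXS'
    rw [hdens] at hb
    have hcard : ((S.image (fun y => r⁻¹ • y)).card : ℝ) ≤ N := by
      exact_mod_cast Finset.card_image_le.trans hS
    have he : (((p : ℝ) - 1) * k - p * n / (t + 1)) / 2 ≤ (m : ℝ) / 2 := by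
      have h1 : ((t : ℝ) + 1) * (((p : ℝ) - 1) * k) ≤ ((t : ℝ) + 1) * m + (p : ℝ) * n := by
        have h2 : ((p - 1 : ℕ) : ℝ) = (p : ℝ) - 1 := by
          rw [Nat.cast_sub hp.one_lt.le]; simp
        rw [← h2]
        exact_mod_cast hm
      have ht : (0 : ℝ) < t + 1 := by positivity
      have h3 : ((p : ℝ) - 1) * k - p * n / (t + 1) ≤ m := by
        rw [sub_le_iff_le_add, ← mul_le_mul_iff_right₀ ht]
        calc ((t : ℝ) + 1) * (((p : ℝ) - 1) * k) ≤ ((t : ℝ) + 1) * m + (p : ℝ) * n := h1
          _ = (t + 1) * (m + p * n / (t + 1)) := by field_simp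
      linarith
    have h5 : √(rat p n t) ^ m = rat p n t ^ ((m : ℝ) / 2) := by
      rw [Real.sqrt_eq_rpow, ← Real.rpow_natCast, ← Real.rpow_mul hρ.le]
      congr 1; ring
    calc upperDensity X r ≤ _ := hb
      _ ≤ N * (5 ^ n * √(rat p n t) ^ m) := by
          apply mul_le_mul_of_nonneg_right hcard (by positivity)
      _ ≤ _ := by
          rw [h5]
          gcongr ?_ * (?_ * ?_)
          exact Real.rpow_le_rpow_of_exponent_ge hρ hρ1 he

/-- Hermite invariants -/
theorem herm_bound2 {p k : ℕ} (hp : p.Prime) {n : ℕ} (hn : 0 < n) {t : ℕ}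
    (ht : p ^ (4 * t + 2) * ((p - 1) * (t + 1)) ≤ n)
    {A : Matrix (Fin n) (Fin n) ℝ} (hA : A.det ≠ 0) (h : HasElemAbelian p k n (latt A)) :
    herm A ≤ 25 * n * rat p n t ^ (((p : ℝ) - 1) * k / n - p / (t + 1)) := by
  have hnr : (0 : ℝ) < n := by exact_mod_cast hn
  have hρ := rat_pos hp hn t
  have hR : 0 ≤ 25 * n * rat p n t ^ (((p : ℝ) - 1) * k / n - p / (t + 1)) := by positivity
  rcases eq_or_lt_of_le (minSq_nonneg A) with h0 | h0
  · unfold herm
    rw [← h0, zero_div]
    exact hR
  · have h1 := herm_pow_le hn hA h0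
    have h2 := bound_all2 hp hn ht 1 (latt A) h _ _ (latt_packing h0) (union_one _)
    rw [Nat.cast_one, one_mul] at h2
    have hd0 : 0 ≤ upperDensity (latt A : Set (EuclideanSpace ℝ (Fin n))) (√(minSq A) / 2) :=
      upperDensity_nonneg _ _
    have h3 : herm A ^ n ≤
        (25 * n * rat p n t ^ (((p : ℝ) - 1) * k / n - p / (t + 1))) ^ n := by
      calc herm A ^ n ≤ _ := h1
        _ ≤ (5 ^ n * rat p n t ^ ((((p : ℝ) - 1) * k - p * n / (t + 1)) / 2)) ^ 2 *
              (n : ℝ) ^ n := by gcongr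
        _ = _ := by
            rw [mul_pow, mul_pow (25 * (n : ℝ)), mul_pow (25 : ℝ), ← pow_mul, mul_comm n 2, pow_mul,
              ← Real.rpow_natCast (rat p n t ^ ((((p : ℝ) - 1) * k - p * n / (t + 1)) / 2)),
              ← Real.rpow_mul hρ.le,
              ← Real.rpow_natCast (rat p n t ^ (((p : ℝ) - 1) * k / n - p / (t + 1))),
              ← Real.rpow_mul hρ.le]
            have e1 : (((p : ℝ) - 1) * k - p * n / (t + 1)) / 2 * ((2 : ℕ) : ℝ) =
                (((p : ℝ) - 1) * k / n - p / (t + 1)) * n := by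
              push_cast
              field_simp
            rw [e1]
            norm_num
            ring
    exact le_of_pow_le_pow_left₀ hn.ne' hR h3

/-- the rank of the groups of lattices with large Hermite invariant -/
theorem herm_rank2 {c : ℝ} (hc : 0 < c) (hc1 : c ≤ 1) {n : ℕ} (hn : 2 ≤ n) {p k : ℕ}
    (hp : p.Prime) {A : Matrix (Fin n) (Fin n) ℝ} (hA : A.det ≠ 0)
    (h : HasElemAbelian p k n (latt A)) (hh : c * n ≤ herm A) :
    (k : ℝ) ≤ (32 * Real.log p + 2 * Real.log (25 / c)) * n / Real.log n := by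
  have hn0 : 0 < n := by omega
  have hnr : (0 : ℝ) < n := by exact_mod_cast hn0
  have hp0 : (0 : ℝ) < p := by exact_mod_cast hp.pos
  have hp2 : (2 : ℝ) ≤ p := by exact_mod_cast hp.two_le
  have hL : 0 < Real.log n := Real.log_pos (by exact_mod_cast hn)
  have hlp : 0 < Real.log p := Real.log_pos (by linarith)
  have hlc : 0 ≤ Real.log (25 / c) := by
    apply Real.log_nonneg
    rw [le_div_iff₀ hc]
    linarith
  have hrank := rank_le hp hn0 _ h
  have hkn : (k : ℝ) ≤ n := by
    have h2 : 1 * k ≤ (p - 1) * k := Nat.mul_le_mul_right _ (by have := hp.two_le; omega)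
    have h3 : k ≤ n := by omega
    exact_mod_cast h3
  rw [le_div_iff₀ hL]
  rcases lt_or_ge (Real.log n) (16 * Real.log p) with hcase | hcase
  · calc (k : ℝ) * Real.log n ≤ n * (16 * Real.log p) := by gcongr
      _ ≤ (32 * Real.log p + 2 * Real.log (25 / c)) * n := by nlinarith
  · -- the parameter
    set y : ℝ := (Real.log n / (2 * Real.log p) - 3) / 5 with hy
    have hy0 : 0 ≤ y := by
      have : 8 ≤ Real.log n / (2 * Real.log p) := by
        rw [le_div_iff₀ (by positivity)]
        linarith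
      rw [hy]
      linarith
    set t := ⌊y⌋₊ with ht
    have ht1 : (t : ℝ) ≤ y := Nat.floor_le hy0
    have ht2 : y < t + 1 := Nat.lt_floor_add_one y
    have h5t : (5 * (t : ℝ) + 3) * Real.log p ≤ Real.log n / 2 := by
      have h1 : 5 * (t : ℝ) + 3 ≤ Real.log n / (2 * Real.log p) := by
        rw [hy] at ht1
        linarith
      calc (5 * (t : ℝ) + 3) * Real.log p ≤ Real.log n / (2 * Real.log p) * Real.log p := by gcongr
        _ = Real.log n / 2 := by field_simp
    have ht3 : Real.log n / (16 * Real.log p) ≤ t + 1 := by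
      refine le_trans ?_ ht2.le
      have h1 : Real.log n / (2 * Real.log p) = 8 * (Real.log n / (16 * Real.log p)) := by
        field_simp
        norm_num
      have h2 : 1 ≤ Real.log n / (16 * Real.log p) := by
        rw [le_div_iff₀ (by positivity)]
        linarith
      rw [hy, h1]
      linarith
    -- the base
    have hbase : (p : ℝ) ^ (4 * t + 2) * (((p : ℝ) - 1) * (t + 1)) ≤ (p : ℝ) ^ (5 * t + 3) := by
      have h1 : ((t : ℝ) + 1) ≤ (p : ℝ) ^ t := by
        have h2 : (t : ℝ) + 1 ≤ 2 ^ t := by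
          have : t + 1 ≤ 2 ^ t := Nat.lt_two_pow_self
          exact_mod_cast this
        exact h2.trans (pow_le_pow_left₀ (by norm_num) hp2 t)
      calc (p : ℝ) ^ (4 * t + 2) * (((p : ℝ) - 1) * (t + 1))
          ≤ (p : ℝ) ^ (4 * t + 2) * (p * (p : ℝ) ^ t) := by
            gcongr
            linarith
        _ = _ := by ring
    have hpow : (p : ℝ) ^ (5 * t + 3) ≤ √(n : ℝ) := by
      rw [← Real.log_le_log_iff (by positivity) (by positivity), Real.log_pow, Real.log_sqrt hnr.le]
      push_cast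
      exact h5t
    have hsn : √(n : ℝ) ≤ n := by
      rw [Real.sqrt_le_left hnr.le]
      have : (1 : ℝ) ≤ n := by exact_mod_cast hn0
      nlinarith
    have hnat : p ^ (4 * t + 2) * ((p - 1) * (t + 1)) ≤ n := by
      have h1 : ((p ^ (4 * t + 2) * ((p - 1) * (t + 1)) : ℕ) : ℝ) ≤ n := by
        rw [Nat.cast_mul, Nat.cast_mul, Nat.cast_sub hp.one_lt.le]
        push_cast
        exact hbase.trans (hpow.trans hsn)
      exact_mod_cast h1
    have hρ := rat_pos hp hn0 t
    have hρ1 := rat_le_one hp hn0 hnat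
    have hρlog : Real.log (rat p n t) ≤ -(Real.log n / 2) := by
      have h1 : rat p n t ≤ √(n : ℝ) / n := by
        unfold rat
        gcongr
        exact hbase.trans hpow
      have h2 := Real.log_le_log hρ h1
      rw [Real.log_div (by positivity) hnr.ne', Real.log_sqrt hnr.le] at h2
      linarith
    have h1 := hh.trans (herm_bound2 hp hn0 hnat hA h)
    set x : ℝ := ((p : ℝ) - 1) * k / n - p / (t + 1) with hx
    have h2 : c ≤ 25 * rat p n t ^ x := by
      have h3 : c * n ≤ (25 * rat p n t ^ x) * n := by linarith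
      exact le_of_mul_le_mul_right h3 hnr
    have h3 := Real.log_le_log hc h2
    rw [Real.log_mul (by norm_num) (by positivity), Real.log_rpow hρ] at h3
    have h4 : Real.log (25 / c) = Real.log 25 - Real.log c := Real.log_div (by norm_num) hc.ne'
    have h5 : x * Real.log n ≤ 2 * Real.log (25 / c) := by
      rcases le_or_gt x 0 with hx0 | hx0
      · have : x * Real.log n ≤ 0 := mul_nonpos_of_nonpos_of_nonneg hx0 hL.le
        linarith
      · have h6 : x * Real.log (rat p n t) ≤ x * (-(Real.log n / 2)) :=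
          mul_le_mul_of_nonneg_left hρlog hx0.le
        rw [h4]
        linarith
    have h6 : (p : ℝ) / (t + 1) * Real.log n ≤ 16 * p * Real.log p := by
      have ht0 : (0 : ℝ) < t + 1 := by positivity
      rw [div_mul_eq_mul_div, div_le_iff₀ ht0]
      rw [div_le_iff₀ (by positivity)] at ht3
      calc (p : ℝ) * Real.log n ≤ p * ((t + 1) * (16 * Real.log p)) := by gcongr
        _ = _ := by ring
    have h7 : ((p : ℝ) - 1) * k / n * Real.log n ≤ 2 * Real.log (25 / c) + 16 * p * Real.log p := by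
      have e1 : ((p : ℝ) - 1) * k / n = x + p / (t + 1) := by rw [hx]; ring
      rw [e1, add_mul]
      linarith
    have hp1 : 0 < (p : ℝ) - 1 := by linarith
    have h8 : ((p : ℝ) - 1) * (k * Real.log n) ≤
        ((p : ℝ) - 1) * ((32 * Real.log p + 2 * Real.log (25 / c)) * n) := by
      have e1 : ((p : ℝ) - 1) * k / n * Real.log n * n = ((p : ℝ) - 1) * (k * Real.log n) := by
        field_simp
      have e2 := mul_le_mul_of_nonneg_right h7 hnr.le
      rw [e1] at e2
      refine e2.trans ?_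
      have e3 : (2 * Real.log (25 / c) + 16 * p * Real.log p) ≤
          ((p : ℝ) - 1) * (32 * Real.log p + 2 * Real.log (25 / c)) := by
        nlinarith
      calc (2 * Real.log (25 / c) + 16 * p * Real.log p) * n
          ≤ (((p : ℝ) - 1) * (32 * Real.log p + 2 * Real.log (25 / c))) * n := by gcongr
        _ = _ := by ring
    exact le_of_mul_le_mul_left h8 hp1

end Pool.Agent.Helper909EA
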