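import Pool.Agent.Helper909_ea.Final

/-! The rank of elementary abelian groups of automorphisms of dense lattices. -/

set_option autoImplicit false

open Filter Set
open scoped Topology InnerProductSpace

namespace Pool.Agent.Helper909EA

open Pool.Agent.H818R2

theorem rank_dense {B : ℝ} (hB : 0 ≤ B) {n : ℕ} (hn : 2 ≤ n) {p k N : ℕ} (hp : p.Prime)
    (hN : 0 < N) (Λ : AddSubgroup (EuclideanSpace ℝ (Fin n))) (hΛ : HasElemAbelian p k n Λ)
    (X : Set (EuclideanSpace ℝ (Fin n))) (r : ℝ) (hXN : IsUnionOfTranslates N Λ X)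
    (hX : IsPacking X r) (hd : N * (2 : ℝ) ^ (-(B * n)) ≤ upperDensity X r) :
    (k : ℝ) ≤ (2 * B + 16) * n / √(Real.log n) := by
  have hn0 : 0 < n := by omega
  have hnr : (0 : ℝ) < n := by exact_mod_cast hn0
  have hp0 : (0 : ℝ) < p := by exact_mod_cast hp.pos
  have hp2 : (2 : ℝ) ≤ p := by exact_mod_cast hp.two_le
  have hNr : (0 : ℝ) < N := by exact_mod_cast hN
  have hrank : (k : ℝ) ≤ n := by
    have h1 := rank_le hp hn0 Λ hΛ
    have h2 : 1 * k ≤ (p - 1) * k := Nat.mul_le_mul_right _ (by have := hp.two_le; omega)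
    have h3 : k ≤ n := by omega
    exact_mod_cast h3
  have hL2 : 0 < Real.log n := Real.log_pos (by exact_mod_cast hn)
  set L := Real.log n with hL
  have hsL : 0 < √L := Real.sqrt_pos.2 hL2
  by_cases hn3 : n = 2
  · have h1 : √L ≤ 1 := by
      rw [Real.sqrt_le_one]
      rw [hL, hn3]
      have := Real.log_two_lt_d9
      push_cast
      linarith
    rw [le_div_iff₀ hsL]
    nlinarith
  · have hn3' : 3 ≤ n := by omega
    have hL1 : 1 ≤ L := by
      rw [hL, Real.le_log_iff_exp_le hnr]
      have := Real.exp_one_lt_d9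
      have h3 : (3 : ℝ) ≤ n := by exact_mod_cast hn3'
      linarith
    have hs1 : 1 ≤ √L := by rw [Real.one_le_sqrt]; exact hL1
    have hsq : √L * √L = L := Real.mul_self_sqrt hL2.le
    obtain ⟨t, ht1, ht2⟩ : ∃ t : ℕ, √L ≤ t ∧ (t : ℝ) ≤ √L + 1 :=
      ⟨⌈√L⌉₊, Nat.le_ceil _, (Nat.ceil_lt_add_one hsL.le).le⟩
    have h1 := hd.trans (bound_all hp hn0 t N Λ hΛ X r hX hXN)
    rw [mul_assoc, mul_le_mul_iff_right₀ hNr] at h1
    have h2 := Real.log_le_log (by positivity) h1
    rw [Real.log_rpow (by norm_num), Real.log_mul (by positivity) (by positivity), Real.log_pow,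
      Real.log_rpow hnr, Real.log_mul (by positivity) (by positivity),
      Real.log_mul (by positivity) (by positivity), Real.log_pow, Real.log_sqrt hp0.le, ← hL] at h2
    have hlp : Real.log p ≤ p - 1 := Real.log_le_sub_one_of_pos hp0
    have hlp0 : 0 ≤ Real.log p := Real.log_nonneg (by linarith)
    have hl2 : Real.log 2 ≤ 1 := by have := Real.log_two_lt_d9; linarith
    have hl20 : 0 ≤ Real.log 2 := Real.log_nonneg (by norm_num)
    have hl5 : Real.log 5 ≤ 2 := by
      have h5 : Real.log 5 ≤ Real.log (Real.exp 2) := by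
        apply Real.log_le_log (by norm_num)
        have : Real.exp 2 = Real.exp 1 * Real.exp 1 := by rw [← Real.exp_add]; norm_num
        rw [this]
        have := Real.exp_one_gt_d9
        nlinarith
      rwa [Real.log_exp] at h5
    -- the main inequality
    have h3 : ((p : ℝ) - 1) * (k - n / (t + 1)) / 2 * L ≤
        n * (B + 2 + (2 * t + 3 / 2) * Real.log p) := by
      push_cast at h2
      have h4 : B * n * Real.log 2 ≤ B * n := by
        have : 0 ≤ B * n := by positivity
        nlinarith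
      nlinarith
    have hp1 : 0 < (p : ℝ) - 1 := by linarith
    have h4 : (k - n / (t + 1)) * L ≤ 2 * n * (B + 2 + (2 * t + 3 / 2)) := by
      have h5 : n * (B + 2 + (2 * t + 3 / 2) * Real.log p) ≤
          ((p : ℝ) - 1) * (n * (B + 2 + (2 * t + 3 / 2))) := by
        have h6 : B + 2 + (2 * (t : ℝ) + 3 / 2) * Real.log p ≤
            ((p : ℝ) - 1) * (B + 2 + (2 * t + 3 / 2)) := by
          have h7 : (2 * (t : ℝ) + 3 / 2) * Real.log p ≤ (2 * t + 3 / 2) * (p - 1) := by gcongr
          have h8 : B + 2 ≤ ((p : ℝ) - 1) * (B + 2) := by nlinarith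
          linarith
        calc n * (B + 2 + (2 * t + 3 / 2) * Real.log p)
            ≤ n * (((p : ℝ) - 1) * (B + 2 + (2 * t + 3 / 2))) := by gcongr
          _ = _ := by ring
      have h6 : ((p : ℝ) - 1) * ((k - n / (t + 1)) * L / 2) ≤
          ((p : ℝ) - 1) * (n * (B + 2 + (2 * t + 3 / 2))) := by
        calc ((p : ℝ) - 1) * ((k - n / (t + 1)) * L / 2)
            = ((p : ℝ) - 1) * (k - n / (t + 1)) / 2 * L := by ring
          _ ≤ _ := h3.trans h5
      have h7 := le_of_mul_le_mul_left h6 hp1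
      linarith
    have h5 : (n : ℝ) / (t + 1) ≤ n / √L := by
      apply div_le_div_of_nonneg_left hnr.le hsL
      linarith
    have h6 : (k : ℝ) * L ≤ n / √L * L + 2 * n * (B + 2 + (2 * t + 3 / 2)) := by
      have : (n : ℝ) / (t + 1) * L ≤ n / √L * L := by gcongr
      linarith
    rw [le_div_iff₀ hsL]
    have h7 : n / √L * L = n * √L := by
      rw [div_mul_eq_mul_div, div_eq_iff hsL.ne', mul_assoc, hsq]
    rw [h7] at h6
    have h8 : (k : ℝ) * √L * √L ≤ (2 * B + 16) * n * √L := by
      calc (k : ℝ) * √L * √L = k * L := by rw [mul_assoc, hsq]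
        _ ≤ n * √L + 2 * n * (B + 2 + (2 * t + 3 / 2)) := h6
        _ ≤ n * √L + 2 * n * (B + 2 + (2 * (√L + 1) + 3 / 2)) := by gcongr
        _ = n * √L + (2 * B + 11) * n + 4 * n * √L := by ring
        _ ≤ n * √L + (2 * B + 11) * n * √L + 4 * n * √L := by
            have : (2 * B + 11) * n ≤ (2 * B + 11) * n * √L := le_mul_of_one_le_right (by positivity) hs1
            linarith
        _ = (2 * B + 16) * n * √L := by ring
    exact le_of_mul_le_mul_right h8 hsL

end Pool.Agent.Helper909EA
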