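import Pool.Agent.Helper909_ea.Sharp
import Pool.Agent.Helper909_ea.Rank

/-! Hermite invariants of lattices with elementary abelian groups of automorphisms. -/

set_option autoImplicit false

open MeasureTheory Metric Filter Set
open scoped Topology InnerProductSpace Pointwise

namespace Pool.Agent.Helper909EA

open Pool.Agent.H818R2
open Pool.Agent.H160R3.Herm (minSq hermite bsum det_bsum sum_bsum minSq_smul_le pow_value
  exists_lt_value hermite_ge minSq_le minSq_nonneg le_minSq)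

/-- Hermite's invariant of the lattice `A ℤ^n`. -/
noncomputable def herm {n : ℕ} (A : Matrix (Fin n) (Fin n) ℝ) : ℝ :=
  minSq A / |A.det| ^ ((2 : ℝ) / (n : ℝ))

lemma herm_nonneg {n : ℕ} (A : Matrix (Fin n) (Fin n) ℝ) : 0 ≤ herm A := by
  unfold herm
  have := minSq_nonneg A
  positivity

lemma smul_latt {n : ℕ} (c : ℝ) (B : Matrix (Fin n) (Fin n) ℝ) :
    c • (latt B : Set (EuclideanSpace ℝ (Fin n))) =
      (latt (c • B) : Set (EuclideanSpace ℝ (Fin n))) := by
  have hlin : ∀ w : Fin n → ℝ, amap (c • B) w = c • amap B w := by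
    intro w
    ext i
    rw [amap_apply, Matrix.smul_mulVec, Pi.smul_apply, PiLp.smul_apply, amap_apply]
  ext x
  constructor
  · intro hx
    obtain ⟨y, ⟨w, hw⟩, rfl⟩ := mem_smul_set.1 hx
    exact ⟨w, by rw [hw, hlin]⟩
  · rintro ⟨w, hw⟩
    refine mem_smul_set.2 ⟨amap B (fun j => (w j : ℝ)), ⟨w, rfl⟩, ?_⟩
    rw [hw, hlin]

/-- nonzero vectors have at least the minimal length -/
lemma latt_norm {n : ℕ} (A : Matrix (Fin n) (Fin n) ℝ) :
    ∀ x ∈ latt A, x ≠ 0 → √(minSq A) ≤ ‖x‖ := by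
  rintro _ ⟨w, rfl⟩ hx
  rw [← Real.sqrt_sq (norm_nonneg (amap A (fun j => (w j : ℝ)))), norm_sq_amap]
  apply Real.sqrt_le_sqrt
  apply minSq_le
  rintro rfl
  apply hx
  have : (fun j : Fin n => (((0 : Fin n → ℤ) j : ℤ) : ℝ)) = 0 := by funext j; simp
  rw [this, map_zero]

lemma latt_packing {n : ℕ} {A : Matrix (Fin n) (Fin n) ℝ} (h : 0 < minSq A) :
    IsPacking (latt A : Set (EuclideanSpace ℝ (Fin n))) (√(minSq A) / 2) := by
  have hr : 0 < √(minSq A) / 2 := by positivity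
  refine ⟨hr, ?_⟩
  intro x hx y hy hxy
  simp only [Function.onFun]
  rw [disjoint_ball_ball_iff hr hr, dist_eq_norm]
  have := latt_norm A (x - y) ((latt A).sub_mem hx hy) (sub_ne_zero.2 hxy)
  linarith

/-- the Hermite invariant is bounded by the density -/
lemma herm_pow_le {n : ℕ} (hn : 0 < n) {A : Matrix (Fin n) (Fin n) ℝ} (hA : A.det ≠ 0)
    (h : 0 < minSq A) :
    herm A ^ n ≤ upperDensity (latt A : Set (EuclideanSpace ℝ (Fin n))) (√(minSq A) / 2) ^ 2 *
      (n : ℝ) ^ n := by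
  have hnr : (0 : ℝ) < n := by exact_mod_cast hn
  have hs : 0 < √(minSq A) := Real.sqrt_pos.2 h
  have hsn : 0 < √(n : ℝ) := Real.sqrt_pos.2 hnr
  set r := √(minSq A) / 2 with hr
  have hr0 : 0 < r := by positivity
  have hdA : 0 < |A.det| := abs_pos.2 hA
  have hpk := latt_packing (A := A) h
  rw [← hr] at hpk
  have hdens : upperDensity (latt (r⁻¹ • A) : Set (EuclideanSpace ℝ (Fin n))) 1 =
      upperDensity (latt A : Set (EuclideanSpace ℝ (Fin n))) r := by
    have := upperDensity_smul (X := (latt A : Set (EuclideanSpace ℝ (Fin n))))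
      (r := r) (inv_pos.2 hr0)
    rwa [smul_latt, inv_mul_cancel₀ hr0.ne'] at this
  have hpk2 : IsPacking (latt (r⁻¹ • A) : Set (EuclideanSpace ℝ (Fin n))) 1 := by
    have := isPacking_smul hpk (inv_pos.2 hr0)
    rwa [smul_latt, inv_mul_cancel₀ hr0.ne'] at this
  have hdet2 : (r⁻¹ • A).det ≠ 0 := by
    rw [Matrix.det_smul]
    exact mul_ne_zero (by positivity) hA
  have h1 := lat_density_one hdet2 hpk2
  rw [hdens, Matrix.det_smul, Fintype.card_fin, abs_mul, abs_pow, abs_inv,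
    abs_of_pos hr0] at h1
  have h2 := vb_ge hn
  have h3 : √(minSq A) ^ n / (√(n : ℝ) ^ n * |A.det|) ≤
      upperDensity (latt A : Set (EuclideanSpace ℝ (Fin n))) r := by
    refine le_trans ?_ h1
    rw [div_le_div_iff₀ (by positivity) (by positivity)]
    calc √(minSq A) ^ n * (r⁻¹ ^ n * |A.det|)
        = (2 / √(n : ℝ)) ^ n * (√(n : ℝ) ^ n * |A.det|) := by
          rw [← mul_assoc, ← mul_assoc, ← mul_pow, ← mul_pow]
          congr 2
          rw [hr]
          field_simp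
      _ ≤ _ := by gcongr
  have hD : 0 ≤ √(minSq A) ^ n / (√(n : ℝ) ^ n * |A.det|) := by positivity
  have h4 := pow_le_pow_left₀ hD h3 2
  unfold herm
  rw [pow_value hn _ _ hdA]
  have h5 : (√(minSq A) ^ n) ^ 2 = minSq A ^ n := by
    rw [← pow_mul, mul_comm n 2, pow_mul, Real.sq_sqrt h.le]
  have h6 : (√(n : ℝ) ^ n) ^ 2 = (n : ℝ) ^ n := by
    rw [← pow_mul, mul_comm n 2, pow_mul, Real.sq_sqrt hnr.le]
  rw [div_pow, mul_pow, h5, h6] at h4
  have hnn : (0 : ℝ) < (n : ℝ) ^ n := by positivity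
  have hd2 : 0 < |A.det| ^ 2 := by positivity
  rw [div_le_iff₀ (by positivity)] at h4
  rw [div_le_iff₀ hd2]
  linarith

/-- `latt A` is a union of one translate of itself -/
lemma union_one {n : ℕ} (Λ : AddSubgroup (EuclideanSpace ℝ (Fin n))) :
    IsUnionOfTranslates 1 Λ (Λ : Set (EuclideanSpace ℝ (Fin n))) := by
  refine ⟨{0}, by simp, ?_⟩
  ext x
  simp

/-- from a density bound to a bound for the Hermite invariant -/
lemma herm_le_of_density {n : ℕ} (hn : 0 < n) {A : Matrix (Fin n) (Fin n) ℝ} (hA : A.det ≠ 0)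
    {C e : ℝ} (hC : 0 ≤ C)
    (h : 0 < minSq A → upperDensity (latt A : Set (EuclideanSpace ℝ (Fin n)))
      (√(minSq A) / 2) ≤ C ^ n * (n : ℝ) ^ (-e)) :
    herm A ≤ C ^ 2 * (n : ℝ) ^ (1 - 2 * e / n) := by
  have hnr : (0 : ℝ) < n := by exact_mod_cast hn
  have hR : 0 ≤ C ^ 2 * (n : ℝ) ^ (1 - 2 * e / n) := by positivity
  rcases eq_or_lt_of_le (minSq_nonneg A) with h0 | h0
  · unfold herm
    rw [← h0, zero_div]
    exact hR
  · have h1 := herm_pow_le hn hA h0
    have h2 := h h0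
    have hd0 : 0 ≤ upperDensity (latt A : Set (EuclideanSpace ℝ (Fin n))) (√(minSq A) / 2) :=
      upperDensity_nonneg _ _
    have h3 : herm A ^ n ≤ (C ^ 2 * (n : ℝ) ^ (1 - 2 * e / n)) ^ n := by
      calc herm A ^ n ≤ _ := h1
        _ ≤ (C ^ n * (n : ℝ) ^ (-e)) ^ 2 * (n : ℝ) ^ n := by gcongr
        _ = _ := by
            rw [mul_pow, mul_pow, ← pow_mul, ← pow_mul, mul_comm n 2, mul_assoc]
            congr 1
            rw [← Real.rpow_natCast, ← Real.rpow_mul hnr.le, ← Real.rpow_natCast,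
              ← Real.rpow_add hnr, ← Real.rpow_natCast, ← Real.rpow_mul hnr.le]
            congr 1
            push_cast
            field_simp
            ring
    exact le_of_pow_le_pow_left₀ hn.ne' hR h3

/-- explicit bound for Hermite invariants -/
theorem herm_bound {p k : ℕ} (hp : p.Prime) {n : ℕ} (hn : 0 < n) (t : ℕ)
    {A : Matrix (Fin n) (Fin n) ℝ} (hA : A.det ≠ 0) (h : HasElemAbelian p k n (latt A)) :
    herm A ≤ 25 * (p : ℝ) ^ (4 * t + 3) *
      (n : ℝ) ^ (1 - ((p : ℝ) - 1) * (k / n - 1 / (t + 1))) := by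
  have hnr : (0 : ℝ) < n := by exact_mod_cast hn
  have hp0 : (0 : ℝ) < p := by exact_mod_cast hp.pos
  have h1 := herm_le_of_density hn hA (C := 5 * √p * (p : ℝ) ^ (2 * t + 1))
    (e := ((p : ℝ) - 1) * (k - n / (t + 1)) / 2) (by positivity) (fun h0 => by
      have := bound_all hp hn t 1 (latt A) h _ _ (latt_packing h0) (union_one _)
      simpa using this)
  refine h1.trans (le_of_eq ?_)
  congr 1
  · rw [mul_pow, mul_pow, Real.sq_sqrt hp0.le, ← pow_mul]
    ring
  · congr 1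
    field_simp

/-- asymptotic bound, uniform in the prime -/
theorem herm_uniform {κ ε : ℝ} (hκ : 0 < κ) (hε : 0 < ε) :
    ∃ n0 : ℕ, ∀ n ≥ n0, ∀ p k : ℕ, p.Prime → κ * n ≤ k → ∀ A : Matrix (Fin n) (Fin n) ℝ,
      A.det ≠ 0 → HasElemAbelian p k n (latt A) →
      herm A ≤ (n : ℝ) ^ (1 - ((p : ℝ) - 1) * k / n + ε) := by
  obtain ⟨n0, h⟩ := bound_uniform hκ (ε := ε / 2) (by positivity)
  refine ⟨max n0 1, ?_⟩
  intro n hn p k hp hk A hA hΛ
  have hn0 : 0 < n := lt_of_lt_of_le one_pos ((le_max_right _ _).trans hn)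
  have hnr : (0 : ℝ) < n := by exact_mod_cast hn0
  have h1 := herm_le_of_density hn0 hA (C := 1)
    (e := ((p : ℝ) - 1) * k / 2 - ε / 2 * n) zero_le_one (fun h0 => by
      have := h n ((le_max_left _ _).trans hn) p hp k 1 (latt A) _ _ hk hΛ (union_one _)
        (latt_packing h0)
      simpa using this)
  refine h1.trans (le_of_eq ?_)
  rw [one_pow, one_mul]
  congr 1
  field_simp
  ring

/-- asymptotic bound for one prime, all ranks -/
theorem herm_asymp {p : ℕ} (hp : p.Prime) {ε : ℝ} (hε : 0 < ε) :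
    ∃ n0 : ℕ, ∀ n ≥ n0, ∀ k : ℕ, ∀ A : Matrix (Fin n) (Fin n) ℝ,
      A.det ≠ 0 → HasElemAbelian p k n (latt A) →
      herm A ≤ (n : ℝ) ^ (1 - ((p : ℝ) - 1) * k / n + ε) := by
  obtain ⟨n0, h⟩ := bound_asymp hp (ε := ε / 2) (by positivity)
  refine ⟨max n0 1, ?_⟩
  intro n hn k A hA hΛ
  have hn0 : 0 < n := lt_of_lt_of_le one_pos ((le_max_right _ _).trans hn)
  have hnr : (0 : ℝ) < n := by exact_mod_cast hn0
  have h1 := herm_le_of_density hn0 hA (C := 1)
    (e := ((p : ℝ) - 1) * k / 2 - ε / 2 * n) zero_le_one (fun h0 => by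
      have := h n ((le_max_left _ _).trans hn) k 1 (latt A) _ _ hΛ (union_one _)
        (latt_packing h0)
      simpa using this)
  refine h1.trans (le_of_eq ?_)
  rw [one_pow, one_mul]
  congr 1
  field_simp
  ring

end Pool.Agent.Helper909EA
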