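import Pool.Agent.Helper909_ea.Cyc

/-! The rank of elementary abelian groups of automorphisms of lattices with large Hermite
invariant. -/

set_option autoImplicit false

open MeasureTheory Metric Filter Set
open scoped Topology InnerProductSpace Pointwise

namespace Pool.Agent.Helper909EA

open Pool.Agent.H818R2
open Pool.Agent.H160R3.Herm (minSq hermite bsum det_bsum sum_bsum minSq_smul_le pow_value
  exists_lt_value hermite_ge minSq_le minSq_nonneg le_minSq)

/-- rank of the symmetry groups of good lattices -/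
theorem herm_rank {c : ℝ} (hc : 0 < c) (hc1 : c ≤ 1) {n : ℕ} (hn : 2 ≤ n) {p k : ℕ} (hp : p.Prime)
    {A : Matrix (Fin n) (Fin n) ℝ} (hA : A.det ≠ 0) (h : HasElemAbelian p k n (latt A))
    (hh : c * n ≤ herm A) :
    (k : ℝ) ≤ (Real.logb 2 (1 / c) + 16) * n / √(Real.log n) := by
  have hn0 : 0 < n := by omega
  have hnr : (0 : ℝ) < n := by exact_mod_cast hn0
  have hd : 0 < |A.det| := abs_pos.2 hA
  have hherm : 0 < herm A := lt_of_lt_of_le (by positivity) hh
  have hmin : 0 < minSq A := by
    rcases eq_or_lt_of_le (minSq_nonneg A) with h0 | h0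
    · exfalso
      unfold herm at hherm
      rw [← h0, zero_div] at hherm
      exact lt_irrefl _ hherm
    · exact h0
  have h1 := herm_pow_le hn0 hA hmin
  set δ := upperDensity (latt A : Set (EuclideanSpace ℝ (Fin n))) (√(minSq A) / 2) with hδ
  have hδ0 : 0 ≤ δ := upperDensity_nonneg _ _
  have h2 : (c * n) ^ n ≤ δ ^ 2 * (n : ℝ) ^ n :=
    (pow_le_pow_left₀ (by positivity) hh n).trans h1
  have hnn : (0 : ℝ) < (n : ℝ) ^ n := by positivity
  have h3 : c ^ n ≤ δ ^ 2 := by
    rw [mul_pow] at h2
    exact le_of_mul_le_mul_right h2 hnn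
  set B := Real.logb 2 (1 / c) / 2 with hB
  have hB0 : 0 ≤ B := by
    rw [hB]
    apply div_nonneg _ (by norm_num)
    apply Real.logb_nonneg (by norm_num)
    rw [le_div_iff₀ hc]
    linarith
  have h4 : ((2 : ℝ) ^ (-(B * n))) ^ 2 = c ^ n := by
    rw [← Real.rpow_natCast, ← Real.rpow_mul (by norm_num)]
    have h5 : -(B * n) * ((2 : ℕ) : ℝ) = Real.logb 2 c * n := by
      rw [hB, one_div, Real.logb_inv]
      push_cast
      ring
    rw [h5, Real.rpow_mul (by norm_num), Real.rpow_logb (by norm_num) (by norm_num) hc,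
      Real.rpow_natCast]
  have h5 : (2 : ℝ) ^ (-(B * n)) ≤ δ := by
    rw [← sq_le_sq₀ (by positivity) hδ0, h4]
    exact h3
  have h6 := rank_dense hB0 hn hp one_pos (latt A) h _ _ (union_one _) (latt_packing hmin)
    (by simpa using h5)
  refine h6.trans (le_of_eq ?_)
  rw [hB]
  ring

end Pool.Agent.Helper909EA
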