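import Pool.Agent.Helper909_ea.Sym
import Pool.Agent.H161R2.KissSym

/-! Shortest vectors of lattices: kissing numbers of lattices. -/

set_option autoImplicit false

open Filter Set
open scoped Topology InnerProductSpace

namespace Pool.Agent.Helper909EA

open Pool.Agent.H818R2 Pool.Agent.H161R2.KissSym

/-- The nonzero vectors of `Λ` have length at least `1`, and `X` is a finite set of vectors of
length `1` of `Λ`. -/
def IsMinSet {n : ℕ} (Λ : AddSubgroup (EuclideanSpace ℝ (Fin n)))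
    (X : Finset (EuclideanSpace ℝ (Fin n))) : Prop :=
  (∀ x ∈ Λ, x ≠ 0 → 1 ≤ ‖x‖) ∧ ∀ x ∈ X, x ∈ Λ ∧ ‖x‖ = 1

/-- The kissing number of lattices of `ℝ^n`: the largest number of vectors of length `1` in an
additive subgroup of `ℝ^n` with nonzero vectors of length at least `1`. -/
noncomputable def latKissing (n : ℕ) : ℕ :=
  sSup {m | ∃ (Λ : AddSubgroup (EuclideanSpace ℝ (Fin n))) (X : Finset (EuclideanSpace ℝ (Fin n))),
    IsMinSet Λ X ∧ X.card = m}

lemma sin_pos : 0 < Real.sin (Real.pi / 3 / 2) := by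
  rw [show Real.pi / 3 / 2 = Real.pi / 6 by ring, Real.sin_pi_div_six]
  norm_num

lemma isSph_of_min {n : ℕ} {Λ : AddSubgroup (EuclideanSpace ℝ (Fin n))}
    {X : Finset (EuclideanSpace ℝ (Fin n))} (h : IsMinSet Λ X) : IsSphCode n (Real.pi / 3) X := by
  refine ⟨fun x hx => (h.2 x hx).2, ?_⟩
  intro x hx y hy hxy
  have h1 := h.1 (x - y) (Λ.sub_mem (h.2 x hx).1 (h.2 y hy).1) (sub_ne_zero.2 hxy)
  have h2 := norm_sub_sq_real x y
  rw [(h.2 x hx).2, (h.2 y hy).2] at h2
  rw [Real.cos_pi_div_three]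
  nlinarith

lemma card_le_kissing {n : ℕ} {Λ : AddSubgroup (EuclideanSpace ℝ (Fin n))}
    {X : Finset (EuclideanSpace ℝ (Fin n))} (h : IsMinSet Λ X) : X.card ≤ kissing n := by
  have h1 := card_le_sub sin_pos ⊤ (isSph_of_min h) (fun x _ => Submodule.mem_top)
  rw [finrank_top, finrank_euclideanSpace_fin] at h1
  exact h1

lemma lat_bdd (n : ℕ) : BddAbove {m | ∃ (Λ : AddSubgroup (EuclideanSpace ℝ (Fin n)))
    (X : Finset (EuclideanSpace ℝ (Fin n))), IsMinSet Λ X ∧ X.card = m} :=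
  ⟨kissing n, by rintro m ⟨Λ, X, h, rfl⟩; exact card_le_kissing h⟩

lemma le_latKissing {n : ℕ} {Λ : AddSubgroup (EuclideanSpace ℝ (Fin n))}
    {X : Finset (EuclideanSpace ℝ (Fin n))} (h : IsMinSet Λ X) : X.card ≤ latKissing n :=
  le_csSup (lat_bdd n) ⟨Λ, X, h, rfl⟩

lemma isMin_bot (n : ℕ) : IsMinSet (⊥ : AddSubgroup (EuclideanSpace ℝ (Fin n))) ∅ := by
  refine ⟨?_, by simp⟩
  intro x hx h0
  exact absurd (AddSubgroup.mem_bot.1 hx) h0

lemma exists_latKissing (n : ℕ) : ∃ (Λ : AddSubgroup (EuclideanSpace ℝ (Fin n)))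
    (X : Finset (EuclideanSpace ℝ (Fin n))), IsMinSet Λ X ∧ X.card = latKissing n := by
  have h : sSup {m | ∃ (Λ : AddSubgroup (EuclideanSpace ℝ (Fin n)))
      (X : Finset (EuclideanSpace ℝ (Fin n))), IsMinSet Λ X ∧ X.card = m} ∈
      {m | ∃ (Λ : AddSubgroup (EuclideanSpace ℝ (Fin n)))
      (X : Finset (EuclideanSpace ℝ (Fin n))), IsMinSet Λ X ∧ X.card = m} :=
    Nat.sSup_mem ⟨0, ⊥, ∅, isMin_bot n, rfl⟩ (lat_bdd n)
  exact h

lemma latKissing_le (n : ℕ) : latKissing n ≤ kissing n := by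
  obtain ⟨Λ, X, h, h1⟩ := exists_latKissing n
  rw [← h1]
  exact card_le_kissing h

/-- transport along an injective linear isometry -/
lemma min_map {n d : ℕ} (J : EuclideanSpace ℝ (Fin n) →ₗᵢ[ℝ] EuclideanSpace ℝ (Fin d))
    {Λ : AddSubgroup (EuclideanSpace ℝ (Fin n))} {X : Finset (EuclideanSpace ℝ (Fin n))}
    (h : IsMinSet Λ X) : X.card ≤ latKissing d := by
  classical
  have h1 : IsMinSet (Λ.map J.toLinearMap.toAddMonoidHom) (X.image J) := by
    refine ⟨?_, ?_⟩
    · rintro _ ⟨x, hx, rfl⟩ h0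
      have h2 : x ≠ 0 := by
        rintro rfl
        apply h0
        simp
      have h3 := h.1 x hx h2
      change 1 ≤ ‖J x‖
      rw [J.norm_map]
      exact h3
    · intro y hy
      obtain ⟨x, hx, rfl⟩ := Finset.mem_image.1 hy
      refine ⟨⟨x, (h.2 x hx).1, rfl⟩, ?_⟩
      rw [J.norm_map]
      exact (h.2 x hx).2
  have h2 := le_latKissing h1
  rwa [Finset.card_image_of_injective _ J.injective] at h2

/-- the embedding of a space of one dimension less -/
noncomputable def step (n : ℕ) : EuclideanSpace ℝ (Fin n) →ₗᵢ[ℝ] EuclideanSpace ℝ (Fin (n + 1)) where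
  toFun x := WithLp.toLp 2 (Fin.cons 0 (WithLp.ofLp x) : Fin (n + 1) → ℝ)
  map_add' x y := by
    ext i
    refine Fin.cases ?_ (fun i => ?_) i
    · simp
    · simp
  map_smul' c x := by
    ext i
    refine Fin.cases ?_ (fun i => ?_) i
    · simp
    · simp
  norm_map' := by
    intro x
    rw [EuclideanSpace.norm_eq, EuclideanSpace.norm_eq]
    congr 1
    change ∑ i, ‖(Fin.cons 0 (WithLp.ofLp x) : Fin (n + 1) → ℝ) i‖ ^ 2 = _
    rw [Fin.sum_univ_succ]
    simp

lemma latKissing_mono : Monotone latKissing := by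
  apply monotone_nat_of_le_succ
  intro n
  obtain ⟨Λ, X, h, h1⟩ := exists_latKissing n
  rw [← h1]
  exact min_map (step n) h

/-- vectors in a subspace -/
lemma min_sub {n : ℕ} (W : Submodule ℝ (EuclideanSpace ℝ (Fin n)))
    {Λ : AddSubgroup (EuclideanSpace ℝ (Fin n))} {X : Finset (EuclideanSpace ℝ (Fin n))}
    (h : IsMinSet Λ X) (hW : ∀ x ∈ X, x ∈ W) : X.card ≤ latKissing (Module.finrank ℝ W) := by
  classical
  set b := (stdOrthonormalBasis ℝ W).repr with hb
  set f : {x // x ∈ X} → EuclideanSpace ℝ (Fin (Module.finrank ℝ W)) :=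
    fun x => b ⟨x.1, hW x.1 x.2⟩ with hf
  have hinj : Function.Injective f := by
    intro x y hxy
    have h1 := b.injective hxy
    exact Subtype.ext (congrArg (fun z : W => (z : EuclideanSpace ℝ (Fin n))) h1)
  have hcard : (X.attach.image f).card = X.card := by
    rw [Finset.card_image_of_injective _ hinj, Finset.card_attach]
  rw [← hcard]
  set L : EuclideanSpace ℝ (Fin (Module.finrank ℝ W)) →ₗ[ℝ] EuclideanSpace ℝ (Fin n) :=
    W.subtype ∘ₗ b.symm.toLinearEquiv.toLinearMap with hL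
  have hLn : ∀ y, ‖L y‖ = ‖y‖ := by
    intro y
    change ‖((b.symm y : W) : EuclideanSpace ℝ (Fin n))‖ = ‖y‖
    rw [← Submodule.coe_norm, b.symm.norm_map]
  have hLf : ∀ x : {x // x ∈ X}, L (f x) = x.1 := by
    intro x
    change ((b.symm (b ⟨x.1, hW x.1 x.2⟩) : W) : EuclideanSpace ℝ (Fin n)) = x.1
    rw [b.symm_apply_apply]
  apply le_latKissing (Λ := Λ.comap L.toAddMonoidHom)
  refine ⟨?_, ?_⟩
  · intro y hy h0
    have h1 : L y ∈ Λ := hy
    have h2 : L y ≠ 0 := by
      intro h3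
      apply h0
      rw [← norm_eq_zero, ← hLn, h3, norm_zero]
    have := h.1 _ h1 h2
    rwa [hLn] at this
  · intro y hy
    obtain ⟨x, -, rfl⟩ := Finset.mem_image.1 hy
    have h1 := h.2 x.1 x.2
    refine ⟨?_, ?_⟩
    · change L (f x) ∈ Λ
      rw [hLf]
      exact h1.1
    · rw [← hLn, hLf]
      exact h1.2

/-- the number of sets with at most `r` elements -/
lemma card_small {ι : Type} [Fintype ι] [DecidableEq ι] (r : ℕ) (F : Finset (Finset ι))
    (hF : ∀ T ∈ F, T.card ≤ r) : F.card ≤ (Fintype.card ι + 1) ^ r := by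
  classical
  have h1 : Fintype.card (Fin r → Option ι) = (Fintype.card ι + 1) ^ r := by
    rw [Fintype.card_fun, Fintype.card_option, Fintype.card_fin]
  rw [← h1, ← Finset.card_univ]
  set Φ : (Fin r → Option ι) → Finset ι := fun f => Finset.univ.filter (fun i => ∃ j, f j = some i)
    with hΦ
  have h2 : F ⊆ Finset.univ.image Φ := by
    intro T hT
    rw [Finset.mem_image]
    have hc := hF T hT
    refine ⟨fun j => if h : (j : ℕ) < T.card then some (T.equivFin.symm ⟨j, h⟩).1 else none,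
      Finset.mem_univ _, ?_⟩
    ext i
    rw [hΦ]
    simp only [Finset.mem_filter, Finset.mem_univ, true_and]
    constructor
    · rintro ⟨j, hj⟩
      by_cases h : (j : ℕ) < T.card
      · rw [dif_pos h, Option.some_inj] at hj
        rw [← hj]
        exact (T.equivFin.symm ⟨j, h⟩).2
      · rw [dif_neg h] at hj
        exact absurd hj (by simp)
    · intro hi
      have h3 := (T.equivFin ⟨i, hi⟩).2
      refine ⟨⟨(T.equivFin ⟨i, hi⟩ : ℕ), by omega⟩, ?_⟩
      rw [dif_pos h3]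
      simp
  exact (Finset.card_le_card h2).trans Finset.card_image_le

end Pool.Agent.Helper909EA
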