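import Pool.Agent.Helper909_ea.KissLat

/-! Kissing numbers of lattices with elementary abelian groups of automorphisms. -/

set_option autoImplicit false

open Filter Set Module
open scoped Topology InnerProductSpace

namespace Pool.Agent.Helper909EA

open Pool.Agent.H818R2 Pool.Agent.H161R2.KissSym
open Pool.Agent.H160R3.Herm (bsum det_bsum sum_bsum)

/-- The lattice kissing number: the largest number of vectors of length `1` in a lattice of `ℝ^n`
with nonzero vectors of length at least `1`. -/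
noncomputable def tauL (n : ℕ) : ℕ :=
  sSup {N | ∃ A : Matrix (Fin n) (Fin n) ℝ, HasShort A N}

/-- The same for the lattices with a group of automorphisms isomorphic to `(ℤ/p)^k`. -/
noncomputable def tauSym (p k n : ℕ) : ℕ :=
  sSup {N | ∃ A : Matrix (Fin n) (Fin n) ℝ, HasShort A N ∧ HasGroup p k A}

lemma short_le {n N : ℕ} {A : Matrix (Fin n) (Fin n) ℝ} (h : HasShort A N) : N ≤ latKissing n := by
  obtain ⟨X, hX, hN⟩ := min_of_short h
  rw [← hN]
  exact le_latKissing hX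

lemma tauL_bdd (n : ℕ) : BddAbove {N | ∃ A : Matrix (Fin n) (Fin n) ℝ, HasShort A N} :=
  ⟨latKissing n, by rintro N ⟨A, h⟩; exact short_le h⟩

lemma tauSym_bdd (p k n : ℕ) :
    BddAbove {N | ∃ A : Matrix (Fin n) (Fin n) ℝ, HasShort A N ∧ HasGroup p k A} :=
  ⟨latKissing n, by rintro N ⟨A, h, -⟩; exact short_le h⟩

lemma tauL_eq (n : ℕ) : tauL n = latKissing n := by
  apply le_antisymm
  · exact csSup_le' (by rintro N ⟨A, h⟩; exact short_le h)
  · obtain ⟨Λ, X, h, h1⟩ := exists_latKissing n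
    obtain ⟨A, hA⟩ := short_of_min h
    rw [← h1]
    exact le_csSup (tauL_bdd n) ⟨A, hA⟩

lemma tauL_mono : Monotone tauL := by
  intro a b hab
  rw [tauL_eq, tauL_eq]
  exact latKissing_mono hab

lemma tauL_le_kissing (n : ℕ) : tauL n ≤ kissing n := by
  rw [tauL_eq]
  exact latKissing_le n

/-- upper bound -/
theorem tauSym_le {p k n : ℕ} (hp : p.Prime) (t : ℕ) :
    tauSym p k n ≤ (n + 1) ^ (p ^ (4 * t + 2)) *
      tauL (n - (p - 1) * (k - n / (t + 1) - p ^ (4 * t + 2))) := by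
  have : Fact p.Prime := ⟨hp⟩
  apply csSup_le'
  rintro N ⟨A, h, hg⟩
  obtain ⟨hspan, -, f, hf, hfΛ⟩ := elem_of_group h.1 hg
  obtain ⟨X, hX, hN⟩ := min_of_short h
  rw [← hN, tauL_eq]
  exact kiss_upper t f hf (latt A) hspan hfΛ X hX

/-- block sums -/
lemma short_blocks {q : ℕ} (hq : 0 < q) {m N0 : ℕ} {A0 : Matrix (Fin m) (Fin m) ℝ}
    (h0 : HasShort A0 N0) : ∀ (k N : ℕ), N = m + q * k →
    ∃ A : Matrix (Fin N) (Fin N) ℝ, HasShort A N0 ∧ HasSym (q + 1) k A := by
  classical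
  intro k
  induction k with
  | zero =>
    intro N hN
    have hN' : N = m := by simpa using hN
    subst hN'
    exact ⟨A0, h0, hasSym_zero _ _⟩
  | succ k ih =>
    intro N hN
    obtain ⟨A, ⟨hA, hAmin, W, hW, hW1⟩, hAs⟩ := ih (m + q * k) rfl
    obtain ⟨B, hB, hBmin, -, hBs⟩ := good_block hq
    have hN' : N = (m + q * k) + q := by rw [hN]; ring
    subst hN'
    refine ⟨bsum A B, ⟨?_, ?_, ?_⟩, hasSym_bsum hAs hBs⟩
    · rw [det_bsum]; exact mul_ne_zero hA hB
    · intro w hw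
      rw [sum_bsum]
      have h1 : 0 ≤ ∑ i, (A.mulVec (fun j => ((w (Fin.castAdd q j) : ℤ) : ℝ))) i ^ 2 := by
        positivity
      have h2 : 0 ≤ ∑ i, (B.mulVec (fun j => ((w (Fin.natAdd (m + q * k) j) : ℤ) : ℝ))) i ^ 2 := by
        positivity
      by_cases hw1 : (fun j => w (Fin.castAdd q j)) = 0
      · have hw2 : (fun j => w (Fin.natAdd (m + q * k) j)) ≠ 0 := by
          intro hcon
          apply hw
          funext j
          refine Fin.addCases (fun i => ?_) (fun j => ?_) j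
          · exact congrFun hw1 i
          · exact congrFun hcon j
        have h3 := hBmin _ hw2
        linarith
      · have h3 := hAmin _ hw1
        linarith
    · have hinj : Function.Injective (fun w : Fin (m + q * k) → ℤ =>
          (Fin.append w 0 : Fin (m + q * k + q) → ℤ)) := by
        intro u v huv
        funext i
        have := congrFun huv (Fin.castAdd q i)
        simpa using this
      refine ⟨W.image (fun w => (Fin.append w 0 : Fin (m + q * k + q) → ℤ)), ?_, ?_⟩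
      · rw [Finset.card_image_of_injective _ hinj, hW]
      · intro z hz
        obtain ⟨w, hw, rfl⟩ := Finset.mem_image.1 hz
        rw [sum_bsum]
        simp only [Fin.append_left, Fin.append_right]
        rw [hW1 w hw]
        simp [Matrix.mulVec, dotProduct]

/-- lower bound -/
theorem le_tauSym {p k n : ℕ} (hp : p.Prime) (hk : (p - 1) * k ≤ n) :
    tauL (n - (p - 1) * k) ≤ tauSym p k n := by
  obtain ⟨q, rfl⟩ : ∃ q, p = q + 1 := ⟨p - 1, by have := hp.pos; omega⟩
  have hq : 0 < q := by have := hp.two_le; omega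
  rw [Nat.add_sub_cancel] at hk ⊢
  set m := n - q * k with hm
  have hn : n = m + q * k := by omega
  apply csSup_le'
  rintro N ⟨A0, h0⟩
  obtain ⟨A, hA, hs⟩ := short_blocks hq h0 k n hn
  exact le_csSup (tauSym_bdd _ _ _) ⟨A, hA, group_of_sym hA.1 hs⟩

/-- the upper exponent of the lattice kissing numbers -/
noncomputable def cL : ℝ := limsup (fun n : ℕ => Real.logb 2 (tauL n) / n) atTop

lemma logb_nat_nonneg (N : ℕ) : 0 ≤ Real.logb 2 (N : ℝ) := by
  rcases Nat.eq_zero_or_pos N with h | h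
  · rw [h]; simp
  · exact Real.logb_nonneg (by norm_num) (by exact_mod_cast h)

lemma logb_nat_mono {M N : ℕ} (h : M ≤ N) : Real.logb 2 (M : ℝ) ≤ Real.logb 2 (N : ℝ) := by
  rcases Nat.eq_zero_or_pos M with h0 | h0
  · rw [h0]
    simpa using logb_nat_nonneg N
  · exact Real.logb_le_logb_of_le (by norm_num) (by exact_mod_cast h0) (by exact_mod_cast h)

lemma rate_bdd : IsBoundedUnder (· ≤ ·) atTop (fun n : ℕ => Real.logb 2 (tauL n) / n) := by
  refine ⟨Real.logb 2 ((1 + 2 * Real.sin (Real.pi / 3 / 2)) / Real.sin (Real.pi / 3 / 2)), ?_⟩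
  rw [eventually_map]
  refine Eventually.of_forall fun d => ?_
  refine le_trans ?_ (codeRate_le sin_pos d)
  unfold codeRate
  apply div_le_div_of_nonneg_right _ (Nat.cast_nonneg d)
  exact logb_nat_mono (tauL_le_kissing d)

lemma rate_nonneg (n : ℕ) : 0 ≤ Real.logb 2 (tauL n) / n :=
  div_nonneg (logb_nat_nonneg _) (Nat.cast_nonneg n)

lemma cL_nonneg : 0 ≤ cL := by
  unfold cL
  apply le_limsup_of_frequently_le _ rate_bdd
  exact Eventually.frequently (Eventually.of_forall rate_nonneg)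

/-- uniform bound for the dimensions up to `n` -/
theorem unif {ε : ℝ} (hε : 0 < ε) : ∀ᶠ n : ℕ in atTop, ∀ K : ℕ, K ≤ n →
    (tauL K : ℝ) ≤ (2 : ℝ) ^ (cL * K + ε * n) := by
  have hc := cL_nonneg
  have hlt : ∀ᶠ d : ℕ in atTop, Real.logb 2 (tauL d) / d < cL + ε :=
    eventually_lt_of_limsup_lt (by unfold cL; linarith) rate_bdd
  obtain ⟨k0, hk0⟩ := eventually_atTop.1 hlt
  have hr : (1 : ℝ) < 2 ^ ε := Real.one_lt_rpow (by norm_num) hε
  have h1 : Tendsto (fun n : ℕ => ((2 : ℝ) ^ ε) ^ n) atTop atTop :=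
    tendsto_pow_atTop_atTop_of_one_lt hr
  have h2 := h1.eventually (eventually_ge_atTop (tauL (k0 + 1) : ℝ))
  filter_upwards [h2] with n hn K hK
  rcases le_or_gt K (k0 + 1) with hK1 | hK1
  · have h3 : (tauL K : ℝ) ≤ tauL (k0 + 1) := by exact_mod_cast tauL_mono hK1
    calc (tauL K : ℝ) ≤ tauL (k0 + 1) := h3
      _ ≤ ((2 : ℝ) ^ ε) ^ n := hn
      _ = (2 : ℝ) ^ (ε * n) := by rw [Real.rpow_mul (by norm_num), Real.rpow_natCast]
      _ ≤ _ := by
          apply Real.rpow_le_rpow_of_exponent_le (by norm_num)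
          have : 0 ≤ cL * K := by positivity
          linarith
  · have hd' : (0 : ℝ) < K := by
      have : 0 < K := by omega
      exact_mod_cast this
    have h3 := hk0 K (by omega)
    rw [div_lt_iff₀ hd'] at h3
    have hKn : (K : ℝ) ≤ n := by exact_mod_cast hK
    rcases Nat.eq_zero_or_pos (tauL K) with h | h
    · rw [h]
      simp only [Nat.cast_zero]
      positivity
    · rw [← Real.logb_le_iff_le_rpow (by norm_num) (by exact_mod_cast h)]
      nlinarith

lemma poly_le {a : ℝ} (ha : 0 < a) (r : ℕ) :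
    ∀ᶠ n : ℕ in atTop, ((n : ℝ) + 1) ^ r ≤ (2 : ℝ) ^ (a * n) := by
  have hr : (1 : ℝ) < 2 ^ a := Real.one_lt_rpow (by norm_num) ha
  have h := tendsto_pow_const_div_const_pow_of_one_lt r hr
  have h2 := h.eventually (gt_mem_nhds (show (0 : ℝ) < 1 / 2 ^ r by positivity))
  filter_upwards [h2, eventually_ge_atTop 1] with n hn hn1
  have hp : (0 : ℝ) < (2 ^ a) ^ n := by positivity
  rw [div_lt_iff₀ hp] at hn
  have h5 : (1 : ℝ) ≤ n := by exact_mod_cast hn1
  have h3 : ((n : ℝ) + 1) ^ r ≤ (2 * n) ^ r := by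
    apply pow_le_pow_left₀ (by positivity)
    linarith
  have h4 : (2 : ℝ) ^ (a * n) = (2 ^ a) ^ n := by
    rw [Real.rpow_mul (by norm_num), Real.rpow_natCast]
  rw [h4]
  rw [mul_pow] at h3
  have h6 : (0 : ℝ) < 2 ^ r := by positivity
  have h7 : (2 : ℝ) ^ r * (n : ℝ) ^ r ≤ (2 ^ a) ^ n := by
    have := mul_lt_mul_of_pos_left hn h6
    rw [← mul_assoc, mul_one_div_cancel h6.ne', one_mul] at this
    exact this.le
  linarith

/-- the asymptotic upper bound for one prime -/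
theorem asymp {p : ℕ} (hp : p.Prime) {ε : ℝ} (hε : 0 < ε) : ∃ n0 : ℕ, ∀ n ≥ n0, ∀ k : ℕ,
    (p - 1) * k ≤ n →
    (tauSym p k n : ℝ) ≤ (2 : ℝ) ^ (cL * (n - ((p : ℝ) - 1) * k) + ε * n) := by
  have hc := cL_nonneg
  have hp1 : (0 : ℝ) ≤ (p : ℝ) - 1 := by
    have : (1 : ℝ) ≤ p := by exact_mod_cast hp.one_lt.le
    linarith
  obtain ⟨t, ht⟩ := exists_nat_gt (cL * ((p : ℝ) - 1) / (ε / 4))
  set r := p ^ (4 * t + 2) with hr
  obtain ⟨n1, hn1⟩ := (poly_le (a := ε / 4) (by positivity) r).exists_forall_of_atTop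
  obtain ⟨n2, hn2⟩ := (unif (ε := ε / 4) (by positivity)).exists_forall_of_atTop
  obtain ⟨n3, hn3⟩ := exists_nat_gt (cL * ((p : ℝ) - 1) * r / (ε / 4))
  refine ⟨max (max n1 n2) (max n3 1), ?_⟩
  intro n hn k hk
  have hn1' : n1 ≤ n := (le_max_left _ _).trans ((le_max_left _ _).trans hn)
  have hn2' : n2 ≤ n := (le_max_right _ _).trans ((le_max_left _ _).trans hn)
  have hn3' : n3 ≤ n := (le_max_left _ _).trans ((le_max_right _ _).trans hn)
  have hn0 : 0 < n := lt_of_lt_of_le one_pos ((le_max_right _ _).trans ((le_max_right _ _).trans hn))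
  have hnr : (0 : ℝ) < n := by exact_mod_cast hn0
  have h1 := tauSym_le (k := k) (n := n) hp t
  rw [← hr] at h1
  set K := n - (p - 1) * (k - n / (t + 1) - r) with hK
  have h2 := hn2 n hn2' K (Nat.sub_le _ _)
  have h3 : (tauSym p k n : ℝ) ≤ ((n : ℝ) + 1) ^ r * tauL K := by exact_mod_cast h1
  have hKr : (K : ℝ) ≤ n - ((p : ℝ) - 1) * k + ((p : ℝ) - 1) * (n / (t + 1)) +
      ((p : ℝ) - 1) * r := by
    have h4 : ((k - n / (t + 1) - r : ℕ) : ℝ) ≥ (k : ℝ) - n / (t + 1) - r := by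
      have h5 : (k : ℝ) ≤ ((k - n / (t + 1) - r : ℕ) : ℝ) + ((n / (t + 1) : ℕ) : ℝ) + r := by
        have : k ≤ (k - n / (t + 1) - r) + n / (t + 1) + r := by omega
        exact_mod_cast this
      have h6 : ((n / (t + 1) : ℕ) : ℝ) ≤ (n : ℝ) / (t + 1) := by
        have := Nat.cast_div_le (α := ℝ) (m := n) (n := t + 1)
        push_cast at this
        exact this
      linarith
    have h5 : (K : ℝ) = n - ((p : ℝ) - 1) * ((k - n / (t + 1) - r : ℕ) : ℝ) := by
      have h : (p - 1) * (k - n / (t + 1) - r) ≤ n :=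
        (Nat.mul_le_mul_left _ ((Nat.sub_le _ _).trans (Nat.sub_le _ _))).trans hk
      rw [hK, Nat.cast_sub h, Nat.cast_mul, Nat.cast_sub hp.one_lt.le]
      simp
    rw [h5]
    nlinarith
  have h4 : cL * ((p : ℝ) - 1) * (n / (t + 1)) ≤ ε / 4 * n := by
    rw [div_lt_iff₀ (by positivity)] at ht
    have h5 : cL * ((p : ℝ) - 1) ≤ ε / 4 * (t + 1) := by nlinarith
    calc cL * ((p : ℝ) - 1) * (n / (t + 1)) ≤ (ε / 4 * (t + 1)) * (n / (t + 1)) := by gcongr
      _ = ε / 4 * n := by field_simp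
  have h5 : cL * ((p : ℝ) - 1) * r ≤ ε / 4 * n := by
    rw [div_lt_iff₀ (by positivity)] at hn3
    have h6 : (n3 : ℝ) ≤ n := by exact_mod_cast hn3'
    nlinarith
  calc (tauSym p k n : ℝ) ≤ ((n : ℝ) + 1) ^ r * tauL K := h3
    _ ≤ (2 : ℝ) ^ (ε / 4 * n) * (2 : ℝ) ^ (cL * K + ε / 4 * n) := by
        apply mul_le_mul (hn1 n hn1') h2 (Nat.cast_nonneg _) (by positivity)
    _ = (2 : ℝ) ^ (cL * K + ε / 2 * n) := by
        rw [← Real.rpow_add (by norm_num)]
        congr 1
        ring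
    _ ≤ _ := by
        apply Real.rpow_le_rpow_of_exponent_le (by norm_num)
        have h6 := mul_le_mul_of_nonneg_left hKr hc
        nlinarith

/-- the asymptotic upper bound, uniformly in the prime -/
theorem asymp_uniform {κ ε : ℝ} (hκ : 0 < κ) (hε : 0 < ε) : ∃ n0 : ℕ, ∀ n ≥ n0, ∀ p k : ℕ,
    p.Prime → κ * n ≤ k → (p - 1) * k ≤ n →
    (tauSym p k n : ℝ) ≤ (2 : ℝ) ^ (cL * (n - ((p : ℝ) - 1) * k) + ε * n) := by
  classical
  obtain ⟨P, hP⟩ := exists_nat_gt (1 / κ + 1)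
  have hall : ∀ p : ℕ, ∃ n0 : ℕ, p.Prime → ∀ n ≥ n0, ∀ k : ℕ, (p - 1) * k ≤ n →
      (tauSym p k n : ℝ) ≤ (2 : ℝ) ^ (cL * (n - ((p : ℝ) - 1) * k) + ε * n) := by
    intro p
    by_cases hp : p.Prime
    · obtain ⟨n0, h⟩ := asymp hp hε
      exact ⟨n0, fun _ => h⟩
    · exact ⟨0, fun h => absurd h hp⟩
  choose n0 hn0 using hall
  refine ⟨max 1 ((Finset.range P).sup n0), ?_⟩
  intro n hn p k hp hk hrank
  have hn1 : 0 < n := lt_of_lt_of_le one_pos ((le_max_left _ _).trans hn)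
  have hnr : (0 : ℝ) < n := by exact_mod_cast hn1
  have hpP : p < P := by
    have h1 : ((p - 1 : ℕ) : ℝ) * k ≤ n := by exact_mod_cast hrank
    have h2 : ((p - 1 : ℕ) : ℝ) = (p : ℝ) - 1 := by
      rw [Nat.cast_sub hp.one_lt.le]; simp
    rw [h2] at h1
    have h3 : (0 : ℝ) ≤ (p : ℝ) - 1 := by
      have : (1 : ℝ) ≤ p := by exact_mod_cast hp.one_lt.le
      linarith
    have h4 : ((p : ℝ) - 1) * (κ * n) ≤ n := by nlinarith
    have h5 : ((p : ℝ) - 1) * κ ≤ 1 := by
      by_contra hlt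
      push Not at hlt
      nlinarith
    have h6 : (p : ℝ) ≤ 1 / κ + 1 := by
      rw [div_add_one hκ.ne', le_div_iff₀ hκ]
      linarith
    exact_mod_cast lt_of_le_of_lt h6 hP
  exact hn0 p hp n (((Finset.le_sup (Finset.mem_range.2 hpP)).trans (le_max_right _ _)).trans hn)
    k hrank

/-- the exact exponent -/
theorem exponent {p : ℕ} (hp : p.Prime) {κ : ℝ} (hκ : 0 ≤ κ) (hκ1 : ((p : ℝ) - 1) * κ ≤ 1) :
    limsup (fun n : ℕ => Real.logb 2 (tauSym p ⌊κ * n⌋₊ n) / n) atTop =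
      (1 - ((p : ℝ) - 1) * κ) * cL := by
  have hc := cL_nonneg
  have hp1 : (0 : ℝ) ≤ (p : ℝ) - 1 := by
    have : (1 : ℝ) ≤ p := by exact_mod_cast hp.one_lt.le
    linarith
  set s : ℝ := 1 - ((p : ℝ) - 1) * κ with hs
  have hs0 : 0 ≤ s := by linarith
  have hs1 : s ≤ 1 := by
    have : 0 ≤ ((p : ℝ) - 1) * κ := by positivity
    linarith
  have hpc : ((p - 1 : ℕ) : ℝ) = (p : ℝ) - 1 := by
    rw [Nat.cast_sub hp.one_lt.le]; simp
  have hfl : ∀ n : ℕ, ((⌊κ * n⌋₊ : ℕ) : ℝ) ≤ κ * n := fun n => Nat.floor_le (by positivity)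
  have hk : ∀ n : ℕ, (p - 1) * ⌊κ * n⌋₊ ≤ n := by
    intro n
    have h1 : (((p - 1) * ⌊κ * n⌋₊ : ℕ) : ℝ) ≤ n := by
      push_cast
      rw [hpc]
      calc ((p : ℝ) - 1) * (⌊κ * n⌋₊ : ℕ) ≤ ((p : ℝ) - 1) * (κ * n) := by
            gcongr
            exact hfl n
        _ = (((p : ℝ) - 1) * κ) * n := by ring
        _ ≤ 1 * n := by gcongr
        _ = n := one_mul _
    exact_mod_cast h1
  have hnn : ∀ n : ℕ, 0 ≤ Real.logb 2 (tauSym p ⌊κ * n⌋₊ n) / n := fun n =>
    div_nonneg (logb_nat_nonneg _) (Nat.cast_nonneg n)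
  have hupper : ∀ ε : ℝ, 0 < ε → ∀ᶠ n : ℕ in atTop,
      Real.logb 2 (tauSym p ⌊κ * n⌋₊ n) / n ≤ s * cL + ε := by
    intro ε hε
    obtain ⟨n1, hn1⟩ := asymp hp (ε := ε / 2) (by positivity)
    obtain ⟨n2, hn2⟩ := exists_nat_gt (cL * ((p : ℝ) - 1) / (ε / 2))
    filter_upwards [eventually_ge_atTop (max (max n1 n2) 1)] with n hn
    have hn1' : n1 ≤ n := (le_max_left _ _).trans ((le_max_left _ _).trans hn)
    have hn2' : n2 ≤ n := (le_max_right _ _).trans ((le_max_left _ _).trans hn)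
    have hn0 : 0 < n := lt_of_lt_of_le one_pos ((le_max_right _ _).trans hn)
    have hnr : (0 : ℝ) < n := by exact_mod_cast hn0
    rw [div_le_iff₀ hnr]
    have hRHS : 0 ≤ (s * cL + ε) * n := by positivity
    rcases Nat.eq_zero_or_pos (tauSym p ⌊κ * n⌋₊ n) with h0 | h0
    · rw [h0]
      simpa using hRHS
    · have h1 := hn1 n hn1' ⌊κ * n⌋₊ (hk n)
      rw [← Real.logb_le_iff_le_rpow (by norm_num) (by exact_mod_cast h0)] at h1
      refine h1.trans ?_
      have h2 : κ * n - 1 ≤ ((⌊κ * n⌋₊ : ℕ) : ℝ) := (Nat.sub_one_lt_floor (κ * n)).le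
      have h3 : cL * (n - ((p : ℝ) - 1) * (⌊κ * n⌋₊ : ℕ)) ≤
          cL * (n - ((p : ℝ) - 1) * (κ * n - 1)) := by gcongr
      have h4 : cL * ((p : ℝ) - 1) ≤ ε / 2 * n := by
        rw [div_lt_iff₀ (by positivity)] at hn2
        have h6 : (n2 : ℝ) ≤ n := by exact_mod_cast hn2'
        nlinarith
      have h5 : cL * (n - ((p : ℝ) - 1) * (κ * n - 1)) = s * cL * n + cL * ((p : ℝ) - 1) := by
        rw [hs]; ring
      linarith
  have hbdd : IsBoundedUnder (· ≤ ·) atTop
      (fun n : ℕ => Real.logb 2 (tauSym p ⌊κ * n⌋₊ n) / n) :=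
    ⟨s * cL + 1, eventually_map.2 (hupper 1 one_pos)⟩
  have hcobdd : IsCoboundedUnder (· ≤ ·) atTop
      (fun n : ℕ => Real.logb 2 (tauSym p ⌊κ * n⌋₊ n) / n) :=
    isCoboundedUnder_le_of_le atTop hnn
  apply le_antisymm
  · apply le_of_forall_pos_le_add
    intro ε hε
    exact limsup_le_of_le hcobdd (hupper ε hε)
  · rcases eq_or_lt_of_le hs0 with h0 | h0
    · rw [← h0, zero_mul]
      apply le_limsup_of_frequently_le _ hbdd
      exact Eventually.frequently (Eventually.of_forall hnn)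
    · apply le_of_forall_pos_sub_le
      intro δ hδ
      apply le_limsup_of_frequently_le _ hbdd
      have h1 : ∃ᶠ d : ℕ in atTop, cL - δ / s < Real.logb 2 (tauL d) / d := by
        apply frequently_lt_of_lt_limsup
        · exact isCoboundedUnder_le_of_le atTop rate_nonneg
        · have : 0 < δ / s := by positivity
          unfold cL
          linarith
      have h2 : Tendsto (fun d : ℕ => ⌊(d : ℝ) / s⌋₊) atTop atTop := by
        apply tendsto_nat_floor_atTop.comp
        exact (tendsto_natCast_atTop_atTop).atTop_div_const h0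
      apply h2.frequently
      refine (h1.and_eventually (eventually_ge_atTop 1)).mono ?_
      rintro d ⟨hd, hd1⟩
      have hdr : (0 : ℝ) < d := by exact_mod_cast (lt_of_lt_of_le one_pos hd1)
      have hdr1 : (1 : ℝ) ≤ d := by exact_mod_cast hd1
      set n := ⌊(d : ℝ) / s⌋₊ with hn
      have hn1 : (n : ℝ) ≤ d / s := Nat.floor_le (by positivity)
      have hn2 : (d : ℝ) / s - 1 < n := Nat.sub_one_lt_floor _
      have hn0 : 0 < n := by
        apply Nat.floor_pos.2
        rw [le_div_iff₀ h0]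
        linarith
      have hnr : (0 : ℝ) < n := by exact_mod_cast hn0
      have h3 : d ≤ n - (p - 1) * ⌊κ * n⌋₊ := by
        have h4 : (d : ℝ) < ((n - (p - 1) * ⌊κ * n⌋₊ : ℕ) : ℝ) + 1 := by
          rw [Nat.cast_sub (hk n), Nat.cast_mul, hpc]
          have h5 : ((p : ℝ) - 1) * (⌊κ * n⌋₊ : ℕ) ≤ ((p : ℝ) - 1) * (κ * n) := by
            gcongr
            exact hfl n
          have h6 : (d : ℝ) - s < s * n := by
            have := mul_lt_mul_of_pos_left hn2 h0
            rw [mul_sub, mul_div_cancel₀ _ h0.ne'] at this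
            linarith
          have h7 : s * n = n - ((p : ℝ) - 1) * (κ * n) := by rw [hs]; ring
          linarith
        have h5 : d < (n - (p - 1) * ⌊κ * n⌋₊) + 1 := by exact_mod_cast h4
        omega
      have h4 : tauL d ≤ tauSym p ⌊κ * n⌋₊ n := (tauL_mono h3).trans (le_tauSym hp (hk n))
      have h5 := logb_nat_mono h4
      have h6 : Real.logb 2 (tauL d) * (s / d) ≤ Real.logb 2 (tauL d) * (1 / n) := by
        apply mul_le_mul_of_nonneg_left _ (logb_nat_nonneg _)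
        rw [div_le_div_iff₀ hdr hnr]
        rw [le_div_iff₀ h0] at hn1
        linarith
      calc s * cL - δ = (cL - δ / s) * s := by field_simp
        _ ≤ (Real.logb 2 (tauL d) / d) * s := by gcongr
        _ = Real.logb 2 (tauL d) * (s / d) := by ring
        _ ≤ Real.logb 2 (tauL d) * (1 / n) := h6
        _ ≤ Real.logb 2 (tauSym p ⌊κ * n⌋₊ n) * (1 / n) := by gcongr
        _ = _ := by ring

end Pool.Agent.Helper909EA
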