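import Pool.Agent.Helper909_ea.KissFin

/-! The lower exponent of the kissing numbers of lattices with elementary abelian groups. -/

set_option autoImplicit false

open Filter Set Module
open scoped Topology InnerProductSpace

namespace Pool.Agent.Helper909EA

open Pool.Agent.H818R2 Pool.Agent.H161R2.KissSym

/-- the lower exponent of the lattice kissing numbers -/
noncomputable def cLm : ℝ := liminf (fun n : ℕ => Real.logb 2 (tauL n) / n) atTop

lemma rate_cobdd : IsCoboundedUnder (· ≥ ·) atTop (fun n : ℕ => Real.logb 2 (tauL n) / n) :=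
  rate_bdd.isCoboundedUnder_ge

lemma cLm_nonneg : 0 ≤ cLm :=
  le_liminf_of_le rate_cobdd (Eventually.of_forall rate_nonneg)

lemma log_le {p k n : ℕ} (hp : p.Prime) (t : ℕ) :
    Real.logb 2 (tauSym p k n) ≤ (p ^ (4 * t + 2) : ℕ) * Real.logb 2 ((n : ℝ) + 1) +
      Real.logb 2 (tauL (n - (p - 1) * (k - n / (t + 1) - p ^ (4 * t + 2)))) := by
  have h1 := tauSym_le (k := k) (n := n) hp t
  set r := p ^ (4 * t + 2) with hr
  set K := n - (p - 1) * (k - n / (t + 1) - r) with hK
  have hn1 : (1 : ℝ) ≤ (n : ℝ) + 1 := by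
    have : (0 : ℝ) ≤ n := Nat.cast_nonneg n
    linarith
  have h0 : 0 ≤ Real.logb 2 ((n : ℝ) + 1) := Real.logb_nonneg (by norm_num) hn1
  rcases Nat.eq_zero_or_pos (tauL K) with h | h
  · rw [h, mul_zero, Nat.le_zero] at h1
    rw [h1, h]
    simp only [Nat.cast_zero, Real.logb_zero, add_zero]
    positivity
  · refine (logb_nat_mono h1).trans (le_of_eq ?_)
    push_cast
    rw [Real.logb_mul (by positivity) (by exact_mod_cast h.ne'), Real.logb_pow]

/-- the exact lower exponent -/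
theorem exponent_inf {p : ℕ} (hp : p.Prime) {κ : ℝ} (hκ : 0 ≤ κ) (hκ1 : ((p : ℝ) - 1) * κ ≤ 1) :
    liminf (fun n : ℕ => Real.logb 2 (tauSym p ⌊κ * n⌋₊ n) / n) atTop =
      (1 - ((p : ℝ) - 1) * κ) * cLm := by
  have hc := cLm_nonneg
  have hp1 : (0 : ℝ) ≤ (p : ℝ) - 1 := by
    have : (1 : ℝ) ≤ p := by exact_mod_cast hp.one_lt.le
    linarith
  set s : ℝ := 1 - ((p : ℝ) - 1) * κ with hs
  have hs0 : 0 ≤ s := by linarith
  have hs1 : s ≤ 1 := by
    have : 0 ≤ ((p : ℝ) - 1) * κ := by positivity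
    linarith
  have hpc : ((p - 1 : ℕ) : ℝ) = (p : ℝ) - 1 := by
    rw [Nat.cast_sub hp.one_lt.le]; simp
  have hfl : ∀ n : ℕ, ((⌊κ * n⌋₊ : ℕ) : ℝ) ≤ κ * n := fun n => Nat.floor_le (by positivity)
  have hk : ∀ n : ℕ, (p - 1) * ⌊κ * n⌋₊ ≤ n := by
    intro n
    have h1 : (((p - 1) * ⌊κ * n⌋₊ : ℕ) : ℝ) ≤ n := by
      push_cast
      rw [hpc]
      calc ((p : ℝ) - 1) * (⌊κ * n⌋₊ : ℕ) ≤ ((p : ℝ) - 1) * (κ * n) := by
            gcongr
            exact hfl n
        _ = (((p : ℝ) - 1) * κ) * n := by ring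
        _ ≤ 1 * n := by gcongr
        _ = n := one_mul _
    exact_mod_cast h1
  have hnn : ∀ n : ℕ, 0 ≤ Real.logb 2 (tauSym p ⌊κ * n⌋₊ n) / n := fun n =>
    div_nonneg (logb_nat_nonneg _) (Nat.cast_nonneg n)
  have hbelow : IsBoundedUnder (· ≥ ·) atTop
      (fun n : ℕ => Real.logb 2 (tauSym p ⌊κ * n⌋₊ n) / n) :=
    ⟨0, eventually_map.2 (Eventually.of_forall hnn)⟩
  have hfreq : ∀ ε : ℝ, 0 < ε → ∃ᶠ n : ℕ in atTop,
      Real.logb 2 (tauSym p ⌊κ * n⌋₊ n) / n ≤ s * cLm + ε := by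
    intro ε hε
    set η : ℝ := min 1 (ε / (4 * (cLm + 2))) with hη
    have hη0 : 0 < η := lt_min one_pos (by positivity)
    have hη1 : η ≤ 1 := min_le_left _ _
    have hη2 : η * (cLm + 2) ≤ ε / 4 := by
      have : η ≤ ε / (4 * (cLm + 2)) := min_le_right _ _
      rw [le_div_iff₀ (by positivity)] at this
      linarith
    obtain ⟨t, ht⟩ := exists_nat_gt (((p : ℝ) - 1) / (η / 2))
    set r := p ^ (4 * t + 2) with hr
    obtain ⟨n1, hn1⟩ := (poly_le (a := ε / 4) (by positivity) r).exists_forall_of_atTop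
    obtain ⟨n2, hn2⟩ := exists_nat_gt (((p : ℝ) - 1) * (1 + r) / (η / 2))
    obtain ⟨n3, hn3⟩ := exists_nat_gt (2 * (cLm + 1) / (ε / 4))
    have h1 : ∃ᶠ d : ℕ in atTop, Real.logb 2 (tauL d) / d < cLm + η := by
      apply frequently_lt_of_liminf_lt rate_cobdd
      unfold cLm at hη0 ⊢
      linarith
    have hsη : 0 < s + η := by linarith
    have h2 : Tendsto (fun d : ℕ => ⌊(d : ℝ) / (s + η)⌋₊) atTop atTop := by
      apply tendsto_nat_floor_atTop.comp
      exact (tendsto_natCast_atTop_atTop).atTop_div_const hsη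
    apply h2.frequently
    have h3 := h2.eventually (eventually_ge_atTop (max (max n1 n2) (max n3 1)))
    refine (h1.and_eventually (h3.and (eventually_ge_atTop 1))).mono ?_
    rintro d ⟨hd, hn, hd1⟩
    have hdr : (0 : ℝ) < d := by exact_mod_cast (lt_of_lt_of_le one_pos hd1)
    set n := ⌊(d : ℝ) / (s + η)⌋₊ with hndef
    have hn1' : n1 ≤ n := (le_max_left _ _).trans ((le_max_left _ _).trans hn)
    have hn2' : n2 ≤ n := (le_max_right _ _).trans ((le_max_left _ _).trans hn)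
    have hn3' : n3 ≤ n := (le_max_left _ _).trans ((le_max_right _ _).trans hn)
    have hn0 : 0 < n :=
      lt_of_lt_of_le one_pos ((le_max_right _ _).trans ((le_max_right _ _).trans hn))
    have hnr : (0 : ℝ) < n := by exact_mod_cast hn0
    have hna : (n : ℝ) ≤ d / (s + η) := Nat.floor_le (by positivity)
    have hnb : (d : ℝ) / (s + η) < n + 1 := Nat.lt_floor_add_one _
    rw [le_div_iff₀ hsη] at hna
    rw [div_lt_iff₀ hsη] at hnb
    have h4 := log_le (k := ⌊κ * n⌋₊) (n := n) hp t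
    rw [← hr] at h4
    set K := n - (p - 1) * (⌊κ * n⌋₊ - n / (t + 1) - r) with hK
    -- the dimension
    have hKr : (K : ℝ) ≤ n - ((p : ℝ) - 1) * (⌊κ * n⌋₊ : ℕ) + ((p : ℝ) - 1) * (n / (t + 1)) +
        ((p : ℝ) - 1) * r := by
      have h4 : ((⌊κ * n⌋₊ - n / (t + 1) - r : ℕ) : ℝ) ≥
          ((⌊κ * n⌋₊ : ℕ) : ℝ) - n / (t + 1) - r := by
        have h5 : ((⌊κ * n⌋₊ : ℕ) : ℝ) ≤ ((⌊κ * n⌋₊ - n / (t + 1) - r : ℕ) : ℝ) +
            ((n / (t + 1) : ℕ) : ℝ) + r := by
          have : ⌊κ * n⌋₊ ≤ (⌊κ * n⌋₊ - n / (t + 1) - r) + n / (t + 1) + r := by omega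
          exact_mod_cast this
        have h6 : ((n / (t + 1) : ℕ) : ℝ) ≤ (n : ℝ) / (t + 1) := by
          have := Nat.cast_div_le (α := ℝ) (m := n) (n := t + 1)
          push_cast at this
          exact this
        linarith
      have h5 : (K : ℝ) = n - ((p : ℝ) - 1) * ((⌊κ * n⌋₊ - n / (t + 1) - r : ℕ) : ℝ) := by
        have h : (p - 1) * (⌊κ * n⌋₊ - n / (t + 1) - r) ≤ n :=
          (Nat.mul_le_mul_left _ ((Nat.sub_le _ _).trans (Nat.sub_le _ _))).trans (hk n)
        rw [hK, Nat.cast_sub h, Nat.cast_mul, Nat.cast_sub hp.one_lt.le]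
        simp
      rw [h5]
      nlinarith
    have hKd : K ≤ d := by
      have h5 : (K : ℝ) ≤ d := by
        have h6 : κ * n - 1 ≤ ((⌊κ * n⌋₊ : ℕ) : ℝ) := (Nat.sub_one_lt_floor (κ * n)).le
        have h7 : ((p : ℝ) - 1) * (κ * n - 1) ≤ ((p : ℝ) - 1) * (⌊κ * n⌋₊ : ℕ) := by gcongr
        have h8 : ((p : ℝ) - 1) * (n / (t + 1)) ≤ η / 2 * n := by
          rw [div_lt_iff₀ (by positivity)] at ht
          have h9 : (p : ℝ) - 1 ≤ η / 2 * (t + 1) := by nlinarith
          calc ((p : ℝ) - 1) * (n / (t + 1)) ≤ (η / 2 * (t + 1)) * (n / (t + 1)) := by gcongr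
            _ = η / 2 * n := by field_simp
        have h9 : ((p : ℝ) - 1) * (1 + r) ≤ η / 2 * n := by
          rw [div_lt_iff₀ (by positivity)] at hn2
          have h10 : (n2 : ℝ) ≤ n := by exact_mod_cast hn2'
          nlinarith
        have h10 : s * n = n - ((p : ℝ) - 1) * (κ * n) := by rw [hs]; ring
        nlinarith
      exact_mod_cast h5
    have h5 : (r : ℝ) * Real.logb 2 ((n : ℝ) + 1) ≤ ε / 4 * n := by
      have h6 := hn1 n hn1'
      rw [← Real.logb_le_iff_le_rpow (by norm_num) (by positivity), Real.logb_pow] at h6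
      exact h6
    have h6 : Real.logb 2 (tauL K) ≤ Real.logb 2 (tauL d) := logb_nat_mono (tauL_mono hKd)
    rw [div_lt_iff₀ hdr] at hd
    have h7 : 2 * (cLm + 1) ≤ ε / 4 * n := by
      rw [div_lt_iff₀ (by positivity)] at hn3
      have h10 : (n3 : ℝ) ≤ n := by exact_mod_cast hn3'
      nlinarith
    rw [div_le_iff₀ hnr]
    have h8 : (cLm + η) * d ≤ (cLm + η) * ((n + 1) * (s + η)) :=
      mul_le_mul_of_nonneg_left hnb.le (by linarith)
    have h9 : (cLm + η) * (s + η) ≤ s * cLm + ε / 4 := by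
      have e1 : (cLm + η) * (s + η) = s * cLm + η * (s + cLm + η) := by ring
      have e2 : η * (s + cLm + η) ≤ η * (cLm + 2) := by
        apply mul_le_mul_of_nonneg_left _ hη0.le
        linarith
      linarith
    have h10 : (cLm + η) * (s + η) ≤ 2 * (cLm + 1) := by
      have e1 : (cLm + η) * (s + η) ≤ (cLm + 1) * 2 := by
        apply mul_le_mul (by linarith) (by linarith) hsη.le (by linarith)
      linarith
    have h11 : (cLm + η) * ((n + 1) * (s + η)) =
        (cLm + η) * (s + η) * n + (cLm + η) * (s + η) := by ring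
    have h12 : (cLm + η) * (s + η) * n ≤ (s * cLm + ε / 4) * n := by gcongr
    nlinarith
  have hcobdd : IsCoboundedUnder (· ≥ ·) atTop
      (fun n : ℕ => Real.logb 2 (tauSym p ⌊κ * n⌋₊ n) / n) :=
    IsCoboundedUnder.of_frequently_le (hfreq 1 one_pos)
  apply le_antisymm
  · apply le_of_forall_pos_le_add
    intro ε hε
    exact liminf_le_of_frequently_le (hfreq ε hε) hbelow
  · apply le_of_forall_pos_sub_le
    intro δ hδ
    apply le_liminf_of_le hcobdd
    rcases eq_or_lt_of_le hs0 with h0 | h0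
    · rw [← h0, zero_mul]
      exact Eventually.of_forall fun n => by have := hnn n; linarith
    · have h1 : ∀ᶠ d : ℕ in atTop, cLm - δ < Real.logb 2 (tauL d) / d := by
        apply eventually_lt_of_lt_liminf
        · unfold cLm; linarith
        · exact ⟨0, eventually_map.2 (Eventually.of_forall rate_nonneg)⟩
      obtain ⟨d0, hd0⟩ := h1.exists_forall_of_atTop
      obtain ⟨n0, hn0⟩ := exists_nat_gt (((d0 : ℝ) + 1) / s)
      filter_upwards [eventually_ge_atTop (max n0 1)] with n hn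
      have hn1 : 0 < n := lt_of_lt_of_le one_pos ((le_max_right _ _).trans hn)
      have hnr : (0 : ℝ) < n := by exact_mod_cast hn1
      set d := n - (p - 1) * ⌊κ * n⌋₊ with hd
      have hdr : s * n ≤ (d : ℝ) := by
        rw [hd, Nat.cast_sub (hk n), Nat.cast_mul, hpc]
        have h5 : ((p : ℝ) - 1) * (⌊κ * n⌋₊ : ℕ) ≤ ((p : ℝ) - 1) * (κ * n) := by
          gcongr
          exact hfl n
        have h7 : s * n = n - ((p : ℝ) - 1) * (κ * n) := by rw [hs]; ring
        linarith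
      have hd1 : (d0 : ℝ) + 1 ≤ d := by
        rw [div_lt_iff₀ h0] at hn0
        have h5 : (n0 : ℝ) ≤ n := by exact_mod_cast (le_max_left _ _).trans hn
        nlinarith
      have hd2 : d0 ≤ d := by
        have : (d0 : ℝ) ≤ d := by linarith
        exact_mod_cast this
      have hdp : (0 : ℝ) < d := by
        have : (0 : ℝ) ≤ d0 := Nat.cast_nonneg _
        linarith
      have h2 := hd0 d hd2
      rw [lt_div_iff₀ hdp] at h2
      have h3 := logb_nat_mono (le_tauSym hp (hk n))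
      rw [← hd] at h3
      rw [le_div_iff₀ hnr]
      rcases le_or_gt (cLm - δ) 0 with h4 | h4
      · have h5 := logb_nat_nonneg (tauSym p ⌊κ * n⌋₊ n)
        have h6 : s * cLm - δ ≤ 0 := by
          have : s * cLm ≤ 1 * cLm := by gcongr
          linarith
        have h7 : (s * cLm - δ) * n ≤ 0 := mul_nonpos_of_nonpos_of_nonneg h6 hnr.le
        linarith
      · have h5 : (cLm - δ) * (s * n) ≤ (cLm - δ) * d := mul_le_mul_of_nonneg_left hdr h4.le
        have h6 : (s * cLm - δ) * n ≤ (cLm - δ) * (s * n) := by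
          have : s * δ ≤ 1 * δ := by gcongr
          nlinarith
        linarith

end Pool.Agent.Helper909EA
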