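import Pool.Agent.Helper909_ea.KissUp

/-! Lattices and matrices: every discrete group is contained in one of the form `A ℤ^n`. -/

set_option autoImplicit false

open Filter Set Module
open scoped Topology InnerProductSpace

namespace Pool.Agent.Helper909EA

open Pool.Agent.H818R2 Pool.Agent.H161R2.KissSym

/-- extension to a group which spans the space -/
lemma exists_spanning {n : ℕ} {Λ : AddSubgroup (EuclideanSpace ℝ (Fin n))}
    {X : Finset (EuclideanSpace ℝ (Fin n))} (h : IsMinSet Λ X) :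
    ∃ Λ' : AddSubgroup (EuclideanSpace ℝ (Fin n)), IsMinSet Λ' X ∧
      Submodule.span ℝ (Λ' : Set (EuclideanSpace ℝ (Fin n))) = ⊤ := by
  classical
  set W := Submodule.span ℝ (Λ : Set (EuclideanSpace ℝ (Fin n))) with hW
  set b := stdOrthonormalBasis ℝ Wᗮ with hb
  set r := finrank ℝ Wᗮ with hr
  set s : (Fin r → ℤ) → EuclideanSpace ℝ (Fin n) :=
    fun c => ∑ j, (c j : ℝ) • ((b j : Wᗮ) : EuclideanSpace ℝ (Fin n)) with hs
  have hsadd : ∀ c d, s (c + d) = s c + s d := by
    intro c d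
    simp only [hs, Pi.add_apply, Int.cast_add, add_smul, Finset.sum_add_distrib]
  have hsneg : ∀ c, s (-c) = - s c := by
    intro c
    simp only [hs, Pi.neg_apply, Int.cast_neg, neg_smul, Finset.sum_neg_distrib]
  have hs0 : s 0 = 0 := by simp [hs]
  have hsW : ∀ c, s c ∈ Wᗮ := by
    intro c
    apply Submodule.sum_mem
    intro j _
    exact Submodule.smul_mem _ _ (Submodule.coe_mem _)
  have hsn : ∀ c, c ≠ 0 → 1 ≤ ‖s c‖ ^ 2 := by
    intro c hc
    obtain ⟨j, hj⟩ := Function.ne_iff.1 hc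
    have h1 : s c = ((∑ j, (c j : ℝ) • b j : Wᗮ) : EuclideanSpace ℝ (Fin n)) := by
      rw [hs]
      simp
    have h2 : ‖s c‖ ^ 2 = ∑ j, (c j : ℝ) ^ 2 := by
      rw [h1, ← Submodule.coe_norm, ← real_inner_self_eq_norm_sq, b.orthonormal.inner_sum]
      apply Finset.sum_congr rfl
      intro j _
      simp [sq]
    rw [h2]
    have hj' : c j ≠ 0 := hj
    have h3 : (1 : ℝ) ≤ (c j : ℝ) ^ 2 := by
      have : (1 : ℤ) ≤ (c j) ^ 2 := by
        have := sq_pos_of_ne_zero hj'
        omega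
      exact_mod_cast this
    exact h3.trans (Finset.single_le_sum (f := fun i => ((c i : ℤ) : ℝ) ^ 2)
      (fun i _ => sq_nonneg _) (Finset.mem_univ j))
  set Λ' : AddSubgroup (EuclideanSpace ℝ (Fin n)) :=
    { carrier := {z | ∃ x ∈ Λ, ∃ c : Fin r → ℤ, z = x + s c}
      add_mem' := by
        rintro _ _ ⟨x, hx, c, rfl⟩ ⟨y, hy, d, rfl⟩
        refine ⟨x + y, Λ.add_mem hx hy, c + d, ?_⟩
        rw [hsadd]
        abel
      zero_mem' := ⟨0, Λ.zero_mem, 0, by rw [hs0, add_zero]⟩
      neg_mem' := by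
        rintro _ ⟨x, hx, c, rfl⟩
        refine ⟨-x, Λ.neg_mem hx, -c, ?_⟩
        rw [hsneg]
        abel } with hΛ'
  have hmem : ∀ z, z ∈ Λ' ↔ ∃ x ∈ Λ, ∃ c : Fin r → ℤ, z = x + s c := fun z => Iff.rfl
  refine ⟨Λ', ⟨?_, ?_⟩, ?_⟩
  · intro z hz hz0
    obtain ⟨x, hx, c, rfl⟩ := (hmem z).1 hz
    have hin : ⟪x, s c⟫_ℝ = 0 :=
      (Submodule.mem_orthogonal _ _).1 (hsW c) x (Submodule.subset_span hx)
    have h1 : ‖x + s c‖ ^ 2 = ‖x‖ ^ 2 + ‖s c‖ ^ 2 := by
      rw [norm_add_sq_real, hin]; ring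
    rw [← one_le_sq_iff₀ (norm_nonneg _), h1]
    by_cases hx0 : x = 0
    · have hc : c ≠ 0 := by
        rintro rfl
        apply hz0
        rw [hx0, hs0, add_zero]
      have := hsn c hc
      have := sq_nonneg ‖x‖
      linarith
    · have h2 := h.1 x hx hx0
      have h3 : 1 ≤ ‖x‖ ^ 2 := one_le_pow₀ h2
      have := sq_nonneg ‖s c‖
      linarith
  · intro x hx
    exact ⟨⟨x, (h.2 x hx).1, 0, by rw [hs0, add_zero]⟩, (h.2 x hx).2⟩
  · rw [eq_top_iff, ← Submodule.sup_orthogonal_of_hasOrthogonalProjection (K := W)]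
    apply sup_le
    · rw [hW, Submodule.span_le]
      intro x hx
      apply Submodule.subset_span
      exact ⟨x, hx, 0, by rw [hs0, add_zero]⟩
    · intro y hy
      have h1 : y = ∑ j, (b.repr ⟨y, hy⟩ j) • ((b j : Wᗮ) : EuclideanSpace ℝ (Fin n)) := by
        have h2 := congrArg (fun z : Wᗮ => (z : EuclideanSpace ℝ (Fin n))) (b.sum_repr ⟨y, hy⟩)
        simp only [Submodule.coe_sum, Submodule.coe_smul] at h2
        exact h2.symm
      rw [h1]
      apply Submodule.sum_mem
      intro j _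
      apply Submodule.smul_mem
      apply Submodule.subset_span
      refine ⟨0, Λ.zero_mem, Pi.single j 1, ?_⟩
      rw [zero_add, hs]
      simp only
      rw [Finset.sum_eq_single j]
      · simp
      · intro i _ hij
        simp [Pi.single_apply, hij]
      · simp

/-- spanning groups with nonzero vectors of length at least one are of the form `A ℤ^n` -/
lemma exists_matrix {n : ℕ} {Λ : AddSubgroup (EuclideanSpace ℝ (Fin n))}
    (hmin : ∀ x ∈ Λ, x ≠ 0 → 1 ≤ ‖x‖)
    (hspan : Submodule.span ℝ (Λ : Set (EuclideanSpace ℝ (Fin n))) = ⊤) :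
    ∃ A : Matrix (Fin n) (Fin n) ℝ, A.det ≠ 0 ∧ latt A = Λ := by
  classical
  set L : Submodule ℤ (EuclideanSpace ℝ (Fin n)) := AddSubgroup.toIntSubmodule Λ with hL
  have hmem : ∀ x, x ∈ L ↔ x ∈ Λ := fun x => Iff.rfl
  have hd : DiscreteTopology L := by
    apply DiscreteTopology.of_forall_le_norm (r := 1) one_pos
    intro x hx
    exact hmin _ x.2 (fun h => hx (Subtype.ext h))
  have hz : IsZLattice ℝ L := ⟨hspan⟩
  have hfin : Module.Finite ℤ L := ZLattice.module_finite ℝ L
  have hfree : Module.Free ℤ L := ZLattice.module_free ℝ L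
  have hrank : finrank ℤ L = n := by
    rw [ZLattice.rank ℝ L, finrank_euclideanSpace_fin]
  set b : Basis (Fin n) ℤ L := (Module.finBasisOfFinrankEq ℤ L hrank) with hb
  set B := b.ofZLatticeBasis ℝ L with hB
  have hBb : ∀ i, B i = ((b i : L) : EuclideanSpace ℝ (Fin n)) :=
    fun i => b.ofZLatticeBasis_apply ℝ L i
  set A : Matrix (Fin n) (Fin n) ℝ := Matrix.of fun i j => (B j) i with hA
  have hAm : ∀ w : Fin n → ℝ, amap A w = ∑ j, w j • B j := by
    intro w
    ext i
    rw [amap_apply, WithLp.ofLp_sum, Finset.sum_apply]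
    simp only [Matrix.mulVec, dotProduct, hA, Matrix.of_apply, PiLp.smul_apply, smul_eq_mul]
    exact Finset.sum_congr rfl fun j _ => mul_comm _ _
  refine ⟨A, ?_, ?_⟩
  · have h1 : Function.Injective (A.mulVec) := by
      intro u v huv
      have h2 : amap A u = amap A v := by
        ext i
        rw [amap_apply, amap_apply, huv]
      rw [hAm, hAm] at h2
      have h3 := B.linearIndependent
      rw [Fintype.linearIndependent_iff] at h3
      funext i
      have h4 := h3 (fun j => u j - v j) (by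
        simp only [sub_smul, Finset.sum_sub_distrib]
        rw [h2, sub_self]) i
      linarith
    rw [Matrix.mulVec_injective_iff_isUnit, Matrix.isUnit_iff_isUnit_det] at h1
    exact h1.ne_zero
  · ext x
    rw [mem_latt, ← hmem]
    constructor
    · rintro ⟨w, rfl⟩
      rw [hAm]
      apply Submodule.sum_mem
      intro j _
      rw [hBb, Int.cast_smul_eq_zsmul]
      exact L.smul_mem _ (b j).2
    · intro hx
      refine ⟨fun j => b.repr ⟨x, hx⟩ j, ?_⟩
      rw [hAm]
      have h2 := congrArg (fun z : L => (z : EuclideanSpace ℝ (Fin n))) (b.sum_repr ⟨x, hx⟩)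
      simp only [Submodule.coe_sum, Submodule.coe_smul] at h2
      refine h2.symm.trans ?_
      apply Finset.sum_congr rfl
      intro j _
      rw [hBb, Int.cast_smul_eq_zsmul]

/-- The lattice `A ℤ^n` has nonzero vectors of length at least `1` only, and at least `N` vectors
of length `1`. -/
def HasShort {n : ℕ} (A : Matrix (Fin n) (Fin n) ℝ) (N : ℕ) : Prop :=
  A.det ≠ 0 ∧ (∀ w : Fin n → ℤ, w ≠ 0 → 1 ≤ ∑ i, (A.mulVec (fun j => (w j : ℝ))) i ^ 2) ∧
  ∃ W : Finset (Fin n → ℤ), W.card = N ∧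
    ∀ w ∈ W, ∑ i, (A.mulVec (fun j => (w j : ℝ))) i ^ 2 = 1

lemma cast_inj {n : ℕ} : Function.Injective (fun (w : Fin n → ℤ) => (fun j => (w j : ℝ))) := by
  intro u v h
  funext j
  have := congrFun h j
  simp only [Int.cast_inj] at this
  exact this

/-- from matrices to groups -/
lemma min_of_short {n N : ℕ} {A : Matrix (Fin n) (Fin n) ℝ} (h : HasShort A N) :
    ∃ X : Finset (EuclideanSpace ℝ (Fin n)), IsMinSet (latt A) X ∧ X.card = N := by
  classical
  obtain ⟨hA, hmin, W, hW, hW1⟩ := h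
  refine ⟨W.image (fun w => amap A (fun j => (w j : ℝ))), ⟨?_, ?_⟩, ?_⟩
  · rintro _ ⟨w, rfl⟩ hx
    rw [← one_le_sq_iff₀ (norm_nonneg _), norm_sq_amap]
    apply hmin
    rintro rfl
    apply hx
    have : (fun j : Fin n => (((0 : Fin n → ℤ) j : ℤ) : ℝ)) = 0 := by funext j; simp
    rw [this, map_zero]
  · intro x hx
    obtain ⟨w, hw, rfl⟩ := Finset.mem_image.1 hx
    refine ⟨⟨w, rfl⟩, ?_⟩
    have h1 := hW1 w hw
    rw [← norm_sq_amap] at h1
    rw [← Real.sqrt_sq (norm_nonneg (amap A _)), h1, Real.sqrt_one]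
  · have hinj : Function.Injective (fun w : Fin n → ℤ => amap A (fun j => (w j : ℝ))) :=
      (amap_inj hA).comp cast_inj
    rw [Finset.card_image_of_injective _ hinj, hW]

/-- from groups to matrices -/
lemma short_of_min {n : ℕ} {Λ : AddSubgroup (EuclideanSpace ℝ (Fin n))}
    {X : Finset (EuclideanSpace ℝ (Fin n))} (h : IsMinSet Λ X) :
    ∃ A : Matrix (Fin n) (Fin n) ℝ, HasShort A X.card := by
  classical
  obtain ⟨Λ', h', hspan⟩ := exists_spanning h
  obtain ⟨A, hA, hAL⟩ := exists_matrix h'.1 hspan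
  have hmem : ∀ x, x ∈ Λ' → ∃ w : Fin n → ℤ, x = amap A (fun j => (w j : ℝ)) := by
    intro x hx
    rw [← hAL] at hx
    exact hx
  refine ⟨A, hA, ?_, ?_⟩
  · intro w hw
    rw [← norm_sq_amap]
    apply one_le_pow₀
    apply h'.1
    · rw [← hAL]; exact ⟨w, rfl⟩
    · intro h0
      apply hw
      apply cast_inj
      apply amap_inj hA
      rw [h0]
      have : (fun j : Fin n => (((0 : Fin n → ℤ) j : ℤ) : ℝ)) = 0 := by funext j; simp
      simp only [this, map_zero]
  · choose! g hg using hmem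
    refine ⟨X.image g, ?_, ?_⟩
    · apply Finset.card_image_of_injOn
      intro x hx y hy hxy
      rw [hg x (h'.2 x hx).1, hg y (h'.2 y hy).1, hxy]
    · intro w hw
      obtain ⟨x, hx, rfl⟩ := Finset.mem_image.1 hw
      rw [← norm_sq_amap, ← hg x (h'.2 x hx).1, (h'.2 x hx).2, one_pow]

end Pool.Agent.Helper909EA
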