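import Pool.Agent.Helper909_ea.KissBase

/-! Shortest vectors of lattices with elementary abelian groups of automorphisms: upper bound. -/

set_option autoImplicit false

open Filter Set
open scoped Topology InnerProductSpace

namespace Pool.Agent.Helper909EA

open Pool.Agent.H818R2 Pool.Agent.H161R2.KissSym

/-- Bessel's inequality for the components -/
lemma comp_bessel {E : Type*} [NormedAddCommGroup E] [InnerProductSpace ℝ E] {ι : Type}
    [Fintype ι] (y : ι → E) (hy : ∀ i j, i ≠ j → ⟪y i, y j⟫_ℝ = 0) (x : E)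
    {q : ℝ} (hq : 0 < q) (h : ∀ i, ⟪y i, y i⟫_ℝ = q * ⟪y i, x⟫_ℝ) :
    ∑ i, ‖y i‖ ^ 2 ≤ q ^ 2 * ‖x‖ ^ 2 := by
  classical
  set s := ∑ i, y i with hs
  have h1 : ⟪s, s⟫_ℝ = ∑ i, ‖y i‖ ^ 2 := by
    rw [hs, sum_inner]
    apply Finset.sum_congr rfl
    intro i _
    rw [inner_sum, Finset.sum_eq_single i]
    · exact real_inner_self_eq_norm_sq (y i)
    · intro j _ hji
      exact hy i j hji.symm
    · simp
  have h2 : q * ⟪s, x⟫_ℝ = ∑ i, ‖y i‖ ^ 2 := by
    rw [hs, sum_inner, Finset.mul_sum]
    apply Finset.sum_congr rfl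
    intro i _
    rw [← h i]
    exact real_inner_self_eq_norm_sq (y i)
  have h3 : 0 ≤ ‖q • x - s‖ ^ 2 := sq_nonneg _
  rw [norm_sub_sq_real, real_inner_smul_left, real_inner_comm s x, h2, norm_smul,
    Real.norm_eq_abs, abs_of_pos hq, mul_pow, ← real_inner_self_eq_norm_sq s, h1] at h3
  linarith

theorem kiss_upper {p k : ℕ} [hp : Fact p.Prime] {n : ℕ} (t : ℕ)
    (f : Multiplicative (Fin k → ZMod p) →*
      (EuclideanSpace ℝ (Fin n) ≃ₗᵢ[ℝ] EuclideanSpace ℝ (Fin n)))
    (hf : Function.Injective f) (Λ : AddSubgroup (EuclideanSpace ℝ (Fin n)))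
    (hspan : Submodule.span ℝ (Λ : Set (EuclideanSpace ℝ (Fin n))) = ⊤)
    (hΛ : ∀ g, ∀ x ∈ Λ, f g x ∈ Λ)
    (X : Finset (EuclideanSpace ℝ (Fin n))) (hX : IsMinSet Λ X) :
    X.card ≤ (n + 1) ^ (p ^ (4 * t + 2)) *
      latKissing (n - (p - 1) * (k - n / (t + 1) - p ^ (4 * t + 2))) := by
  classical
  obtain ⟨ι, _, _, V, M, hcard, hne, horth, hMn, hM1, hM0, hM2, hMΛ, hMV, hVN, hVU⟩ :=
    rep_structure f hf t
  rw [finrank_euclideanSpace_fin] at hcard
  have hp1 : 0 < p - 1 := by have := hp.out.two_le; omega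
  have hp0 := p_pos (p := p)
  have hmin := hX.1
  -- dimensions
  have hdim : ∀ i, p - 1 ≤ Module.finrank ℝ (V i) := by
    intro i
    obtain ⟨v, hv, hv0⟩ := Submodule.exists_mem_ne_zero_of_ne_bot (hne i)
    have h1 : ∃ x ∈ Λ, M i x ≠ 0 := by
      by_contra hcon
      push Not at hcon
      have h2 : Submodule.span ℝ (Λ : Set (EuclideanSpace ℝ (Fin n))) ≤ LinearMap.ker (M i) := by
        rw [Submodule.span_le]
        intro x hx
        exact LinearMap.mem_ker.2 (hcon x hx)
      rw [hspan] at h2
      have h3 := LinearMap.mem_ker.1 (h2 (Submodule.mem_top (x := v)))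
      rw [hM1 i v hv] at h3
      exact hv0 ((smul_eq_zero.1 h3).resolve_left (by positivity))
    obtain ⟨x, hx, hx0⟩ := h1
    obtain ⟨a, ha⟩ := hVN i
    set Λ' : AddSubgroup (EuclideanSpace ℝ (Fin n)) :=
      Λ.comap (DistribSMul.toAddMonoidHom (EuclideanSpace ℝ (Fin n)) (1 / 2 : ℝ)) with hΛ'
    have hmem : ∀ x, x ∈ Λ' ↔ (1 / 2 : ℝ) • x ∈ Λ := fun x => Iff.rfl
    have hf' : ∀ g, ∀ x ∈ Λ', f g x ∈ Λ' := by
      intro g x hx
      rw [hmem] at hx ⊢
      have := hΛ g _ hx
      rwa [map_smul] at this
    have hmin' : ∀ x ∈ Λ', x ≠ 0 → 2 ≤ ‖x‖ := by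
      intro x hx hx0
      have h1 := hmin _ ((hmem x).1 hx) (by
        rw [Ne, smul_eq_zero, not_or]
        exact ⟨by norm_num, hx0⟩)
      rw [norm_smul, Real.norm_eq_abs, abs_of_pos (by norm_num : (0 : ℝ) < 1 / 2)] at h1
      linarith
    have hw : (2 : ℝ) • M i x ∈ Λ' := by
      rw [hmem, smul_smul]
      norm_num
      exact hMΛ Λ hΛ i x hx
    exact dim_ge f Λ' hf' hmin' (V i) a ha (hVU i) hw ((V i).smul_mem _ (hMV i x))
      (by rw [Ne, smul_eq_zero, not_or]; exact ⟨by norm_num, hx0⟩)
  set m := Fintype.card ι with hm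
  set r := p ^ (4 * t + 2) with hr
  -- numbering of the components
  set e := Fintype.equivFin ι with he
  set V' : Fin m → Submodule ℝ (EuclideanSpace ℝ (Fin n)) := fun j => V (e.symm j) with hV'
  have hV'o : ∀ i j, i ≠ j → V' i ⟂ V' j := by
    intro i j hij
    rw [Submodule.isOrtho_iff_inner_eq]
    intro v hv w hw
    exact horth _ _ (fun h => hij (e.symm.injective h)) v hv w hw
  have hdimS : ∀ S : Finset (Fin m),
      Module.finrank ℝ ↥(S.sup V')ᗮ ≤ n - (p - 1) * S.card := by
    intro S
    rw [finrank_orth V' hV'o S]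
    apply Nat.sub_le_sub_left
    calc (p - 1) * S.card = ∑ _i ∈ S, (p - 1) := by rw [Finset.sum_const, smul_eq_mul, mul_comm]
      _ ≤ _ := Finset.sum_le_sum fun i _ => hdim _
  have hmn : m ≤ n := by
    have h1 := finrank_sup V' hV'o Finset.univ
    have h2 : Module.finrank ℝ ↥((Finset.univ : Finset (Fin m)).sup V') ≤ n := by
      have := Submodule.finrank_le ((Finset.univ : Finset (Fin m)).sup V')
      rwa [finrank_euclideanSpace_fin] at this
    have h3 : m ≤ ∑ i : Fin m, Module.finrank ℝ (V' i) := by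
      calc m = ∑ _i : Fin m, 1 := by simp
        _ ≤ _ := Finset.sum_le_sum fun i _ => le_trans hp1 (hdim _)
    rw [h1] at h2
    exact h3.trans h2
  -- the supports
  set q : ℝ := (p : ℝ) ^ (2 * t + 1) with hq
  have hq0 : 0 < q := by positivity
  set supp : EuclideanSpace ℝ (Fin n) → Finset ι :=
    fun x => Finset.univ.filter (fun i => M i x ≠ 0) with hsupp
  have hs : ∀ x ∈ X, (supp x).card ≤ r := by
    intro x hx
    have h1 := comp_bessel (fun i => M i x)
      (fun i j hij => horth i j hij _ (hMV i x) _ (hMV j x)) x hq0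
      (fun i => hM2 i _ (hMV i x) x)
    rw [(hX.2 x hx).2, one_pow, mul_one] at h1
    have h2 : ((supp x).card : ℝ) ≤ ∑ i, ‖M i x‖ ^ 2 := by
      calc ((supp x).card : ℝ) = ∑ _i ∈ supp x, (1 : ℝ) := by simp
        _ ≤ ∑ i ∈ supp x, ‖M i x‖ ^ 2 := by
            apply Finset.sum_le_sum
            intro i hi
            have h3 : M i x ≠ 0 := by
              rw [hsupp] at hi
              exact (Finset.mem_filter.1 hi).2
            have h4 := hmin _ (hMΛ Λ hΛ i x (hX.2 x hx).1) h3
            exact one_le_pow₀ h4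
        _ ≤ _ := Finset.sum_le_sum_of_subset_of_nonneg (Finset.subset_univ _)
            fun i _ _ => sq_nonneg _
    have h3 : q ^ 2 = ((r : ℕ) : ℝ) := by
      rw [hq, hr, ← pow_mul]
      push_cast
      congr 1
      ring
    rw [h3] at h1
    exact_mod_cast h2.trans h1
  -- the number of vectors with a given support
  set K := n - (p - 1) * (k - n / (t + 1) - r) with hK
  have hkm : k - n / (t + 1) ≤ m := by
    have h1 : k ≤ m + n / (t + 1) := by
      have h2 : (t + 1) * (k - m) ≤ n := by
        rw [Nat.mul_sub]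
        omega
      have h3 : k - m ≤ n / (t + 1) := by
        rw [Nat.le_div_iff_mul_le (by omega), mul_comm]
        exact h2
      omega
    omega
  have hfib : ∀ T : Finset ι, T.card ≤ r → (X.filter (fun x => supp x = T)).card ≤
      latKissing K := by
    intro T hT
    set S : Finset (Fin m) := Finset.univ.filter (fun j => e.symm j ∉ T) with hS
    have hScard : m - r ≤ S.card := by
      have h1 : (Finset.univ.filter (fun j : Fin m => e.symm j ∈ T)).card = T.card := by
        rw [← Finset.card_map e.toEmbedding]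
        congr 1
        ext j
        simp only [Finset.mem_filter, Finset.mem_univ, true_and, Finset.mem_map,
          Equiv.coe_toEmbedding]
        constructor
        · intro h
          exact ⟨e.symm j, h, e.apply_symm_apply j⟩
        · rintro ⟨i, hi, rfl⟩
          rwa [e.symm_apply_apply]
      have h2 := Finset.card_filter_add_card_filter_not (s := (Finset.univ : Finset (Fin m)))
        (fun j : Fin m => e.symm j ∈ T)
      rw [h1, Finset.card_univ, Fintype.card_fin] at h2
      have h3 : S.card = (Finset.univ.filter (fun j : Fin m => ¬ e.symm j ∈ T)).card := rfl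
      omega
    have h1 : (X.filter (fun x => supp x = T)).card ≤
        latKissing (Module.finrank ℝ ↥(S.sup V')ᗮ) := by
      apply min_sub (S.sup V')ᗮ (Λ := Λ)
      · exact ⟨hmin, fun x hx => hX.2 x (Finset.mem_filter.1 hx).1⟩
      · intro x hx
        have hxT := (Finset.mem_filter.1 hx).2
        rw [Submodule.mem_orthogonal]
        intro u hu
        have h2 : S.sup V' ≤ (ℝ ∙ x)ᗮ := by
          apply Finset.sup_le
          intro j hj v hv
          rw [Submodule.mem_orthogonal_singleton_iff_inner_left]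
          have h3 : e.symm j ∉ supp x := by
            rw [hxT]
            exact (Finset.mem_filter.1 hj).2
          have h4 : M (e.symm j) x = 0 := by
            by_contra hcon
            exact h3 (Finset.mem_filter.2 ⟨Finset.mem_univ _, hcon⟩)
          have h5 := hM2 (e.symm j) v hv x
          rw [h4, inner_zero_right] at h5
          exact (mul_eq_zero.1 h5.symm).resolve_left hq0.ne'
        exact (Submodule.mem_orthogonal_singleton_iff_inner_left.1 (h2 hu))
    refine h1.trans (latKissing_mono ?_)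
    refine (hdimS S).trans ?_
    apply Nat.sub_le_sub_left
    apply Nat.mul_le_mul_left
    omega
  -- conclusion
  calc X.card = ∑ T ∈ X.image supp, (X.filter (fun x => supp x = T)).card :=
        Finset.card_eq_sum_card_image supp X
    _ ≤ ∑ _T ∈ X.image supp, latKissing K := by
        apply Finset.sum_le_sum
        intro T hT
        obtain ⟨x, hx, rfl⟩ := Finset.mem_image.1 hT
        exact hfib _ (hs x hx)
    _ = (X.image supp).card * latKissing K := by rw [Finset.sum_const, smul_eq_mul]
    _ ≤ (n + 1) ^ r * latKissing K := by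
        apply Nat.mul_le_mul_right
        have h1 := card_small r (X.image supp) (by
          intro T hT
          obtain ⟨x, hx, rfl⟩ := Finset.mem_image.1 hT
          exact hs x hx)
        refine h1.trans (Nat.pow_le_pow_left ?_ _)
        omega

end Pool.Agent.Helper909EA
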