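import Pool.Agent.H818R2.Base2

/-! The density of a lattice packing is at least the volume of a ball divided by the determinant. -/

set_option autoImplicit false

open MeasureTheory Metric Filter Set
open scoped Topology InnerProductSpace Pointwise

namespace Pool.Agent.Helper909EA

open Pool.Agent.H818R2

variable {n : ℕ}

/-- the map `w ↦ A w` into Euclidean space -/
noncomputable def amap (A : Matrix (Fin n) (Fin n) ℝ) :
    (Fin n → ℝ) →ₗ[ℝ] EuclideanSpace ℝ (Fin n) :=
  (WithLp.linearEquiv 2 ℝ (Fin n → ℝ)).symm.toLinearMap ∘ₗ A.mulVecLin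

lemma amap_apply (A : Matrix (Fin n) (Fin n) ℝ) (w : Fin n → ℝ) (i : Fin n) :
    amap A w i = A.mulVec w i := rfl

/-- the lattice `A ℤ^n` -/
noncomputable def latt (A : Matrix (Fin n) (Fin n) ℝ) : AddSubgroup (EuclideanSpace ℝ (Fin n)) where
  carrier := {x | ∃ w : Fin n → ℤ, x = amap A (fun j => (w j : ℝ))}
  add_mem' := by
    rintro _ _ ⟨w, rfl⟩ ⟨w', rfl⟩
    refine ⟨w + w', ?_⟩
    rw [← map_add]
    congr 1
    funext j
    simp
  zero_mem' := ⟨0, by
    have : (fun j : Fin n => (((0 : Fin n → ℤ) j : ℤ) : ℝ)) = 0 := by funext j; simp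
    rw [this, map_zero]⟩
  neg_mem' := by
    rintro _ ⟨w, rfl⟩
    refine ⟨-w, ?_⟩
    rw [← map_neg]
    congr 1
    funext j
    simp

lemma mem_latt (A : Matrix (Fin n) (Fin n) ℝ) (x : EuclideanSpace ℝ (Fin n)) :
    x ∈ latt A ↔ ∃ w : Fin n → ℤ, x = amap A (fun j => (w j : ℝ)) := Iff.rfl

lemma amap_surj {A : Matrix (Fin n) (Fin n) ℝ} (hA : A.det ≠ 0) (z : EuclideanSpace ℝ (Fin n)) :
    ∃ u : Fin n → ℝ, z = amap A u := by
  refine ⟨A⁻¹.mulVec (WithLp.ofLp z), ?_⟩
  ext i
  rw [amap_apply, Matrix.mulVec_mulVec, Matrix.mul_nonsing_inv _ (isUnit_iff_ne_zero.2 hA),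
    Matrix.one_mulVec]

/-- the half open parallelepiped -/
def cell (A : Matrix (Fin n) (Fin n) ℝ) : Set (EuclideanSpace ℝ (Fin n)) :=
  amap A '' (Set.pi Set.univ fun _ => Ico (0 : ℝ) 1)

lemma cell_vol {A : Matrix (Fin n) (Fin n) ℝ} : volume (cell A) = ENNReal.ofReal |A.det| := by
  have h1 : cell A = WithLp.ofLp ⁻¹' (A.mulVecLin '' (Set.pi Set.univ fun _ => Ico (0 : ℝ) 1)) := by
    ext z
    constructor
    · rintro ⟨u, hu, rfl⟩
      exact ⟨u, hu, rfl⟩
    · rintro ⟨u, hu, h⟩
      refine ⟨u, hu, ?_⟩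
      ext i
      rw [amap_apply]
      exact congrFun h i
  have hnull : NullMeasurableSet (A.mulVecLin '' (Set.pi Set.univ fun _ => Ico (0 : ℝ) 1))
      (volume : Measure (Fin n → ℝ)) := by
    by_cases hA : A.det = 0
    · apply NullMeasurableSet.of_null
      rw [Measure.addHaar_image_linearMap]
      have : LinearMap.det A.mulVecLin = 0 := by
        rw [← Matrix.toLin'_apply', LinearMap.det_toLin', hA]
      rw [this]; simp
    · have hinj : Function.Injective (A.mulVecLin) := by
        rw [Matrix.coe_mulVecLin]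
        exact Matrix.mulVec_injective_of_isUnit ((Matrix.isUnit_iff_isUnit_det _).2
          (isUnit_iff_ne_zero.2 hA))
      apply MeasurableSet.nullMeasurableSet
      have hm : MeasurableSet (Set.pi (Set.univ : Set (Fin n)) fun _ => Ico (0 : ℝ) 1) :=
        MeasurableSet.univ_pi fun _ => measurableSet_Ico
      exact hm.image_of_continuousOn_injOn
        ((LinearMap.continuous_of_finiteDimensional _).continuousOn) (hinj.injOn)
  rw [h1, (PiLp.volume_preserving_ofLp (Fin n)).measure_preimage hnull,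
    Measure.addHaar_image_linearMap, Real.volume_pi_Ico]
  have h2 : LinearMap.det A.mulVecLin = A.det := by
    rw [← Matrix.toLin'_apply', LinearMap.det_toLin']
  rw [h2]
  simp

lemma cell_bounded (A : Matrix (Fin n) (Fin n) ℝ) : ∃ d : ℝ, 0 ≤ d ∧ cell A ⊆ closedBall 0 d := by
  have hb : Bornology.IsBounded (cell A) := by
    have h1 : IsCompact (amap A '' (Set.pi Set.univ fun _ => Icc (0 : ℝ) 1)) := by
      apply IsCompact.image
      · exact isCompact_univ_pi fun _ => isCompact_Icc
      · exact LinearMap.continuous_of_finiteDimensional _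
    apply h1.isBounded.subset
    apply image_mono
    exact Set.pi_mono fun _ _ => Ico_subset_Icc_self
  obtain ⟨d, hd⟩ := hb.subset_closedBall 0
  exact ⟨max d 0, le_max_right _ _, hd.trans (closedBall_subset_closedBall (le_max_left _ _))⟩

lemma cell_cover {A : Matrix (Fin n) (Fin n) ℝ} (hA : A.det ≠ 0)
    (z : EuclideanSpace ℝ (Fin n)) : ∃ x ∈ latt A, z - x ∈ cell A := by
  obtain ⟨u, hu⟩ := amap_surj hA z
  refine ⟨_, ⟨fun j => ⌊u j⌋, rfl⟩, ?_⟩
  rw [hu, ← map_sub]
  refine ⟨_, ?_, rfl⟩
  intro j _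
  simp only [Pi.sub_apply]
  exact ⟨sub_nonneg.2 (Int.floor_le _), by linarith [Int.lt_floor_add_one (u j)]⟩

/-- density of a lattice packing, radius one -/
theorem lat_density_one {A : Matrix (Fin n) (Fin n) ℝ} (hA : A.det ≠ 0)
    (hX : IsPacking (latt A : Set (EuclideanSpace ℝ (Fin n))) 1) :
    vb (EuclideanSpace ℝ (Fin n)) / |A.det| ≤
      upperDensity (latt A : Set (EuclideanSpace ℝ (Fin n))) 1 := by
  classical
  obtain ⟨d, hd0, hd⟩ := cell_bounded A
  have hdet : 0 < |A.det| := abs_pos.2 hA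
  have hvb := vb_pos (E := EuclideanSpace ℝ (Fin n))
  have h1 : ∀ᶠ R : ℝ in atTop,
      vb (EuclideanSpace ℝ (Fin n)) / |A.det| * ((R - d - 1) / R) ^ n ≤
      volume.real (ball (0 : EuclideanSpace ℝ (Fin n)) R ∩
        body (latt A : Set (EuclideanSpace ℝ (Fin n))) 1) /
        volume.real (ball (0 : EuclideanSpace ℝ (Fin n)) R) := by
    filter_upwards [eventually_gt_atTop (d + 1)] with R hR
    have hR0 : 0 < R - d - 1 := by linarith
    have hRp : 0 < R := by linarith
    set F := (finite_inter hX (R - 1)).toFinset with hF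
    have h2 := le_body hX (T := R - 1) (F := F) (by
      intro x hx
      have := Finset.mem_coe.1 hx
      rw [hF, Finite.mem_toFinset] at this
      exact this.1) (by
      intro x hx
      rw [hF, Finite.mem_toFinset] at hx
      exact mem_closedBall_zero_iff.1 hx.2)
    rw [sub_add_cancel] at h2
    have h3 : volume.real (ball (0 : EuclideanSpace ℝ (Fin n)) (R - d - 1)) ≤ F.card * |A.det| := by
      have h4 : ball (0 : EuclideanSpace ℝ (Fin n)) (R - d - 1) ⊆
          ⋃ x ∈ F, (fun z => x + z) '' cell A := by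
        intro z hz
        obtain ⟨x, hx, hzx⟩ := cell_cover hA z
        have h5 : ‖x‖ ≤ R - 1 := by
          have h6 := mem_closedBall_zero_iff.1 (hd hzx)
          rw [mem_ball_zero_iff] at hz
          calc ‖x‖ = ‖z - (z - x)‖ := by congr 1; abel
            _ ≤ ‖z‖ + ‖z - x‖ := norm_sub_le _ _
            _ ≤ R - 1 := by linarith
        simp only [mem_iUnion, exists_prop]
        refine ⟨x, ?_, z - x, hzx, by simp⟩
        rw [hF, Finite.mem_toFinset]
        exact ⟨hx, mem_closedBall_zero_iff.2 h5⟩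
      have h5 : volume (⋃ x ∈ F, (fun z => x + z) '' cell A) ≤ F.card * ENNReal.ofReal |A.det| := by
        calc volume (⋃ x ∈ F, (fun z => x + z) '' cell A)
            ≤ ∑ x ∈ F, volume ((fun z => x + z) '' cell A) := measure_biUnion_finset_le _ _
          _ = ∑ x ∈ F, ENNReal.ofReal |A.det| := by
              apply Finset.sum_congr rfl
              intro x _
              rw [← cell_vol, image_add_left, measure_preimage_add]
          _ = _ := by simp
      have h6 := ENNReal.toReal_mono (ENNReal.mul_ne_top (ENNReal.natCast_ne_top _)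
        ENNReal.ofReal_ne_top) ((measure_mono h4).trans h5)
      rw [ENNReal.toReal_mul, ENNReal.toReal_natCast, ENNReal.toReal_ofReal hdet.le,
        ← measureReal_def] at h6
      exact h6
    rw [vol_ball _ hR0, finrank_euclideanSpace_fin] at h3
    rw [vol_ball _ hRp, finrank_euclideanSpace_fin, le_div_iff₀ (by positivity)]
    calc vb (EuclideanSpace ℝ (Fin n)) / |A.det| * ((R - d - 1) / R) ^ n *
          (R ^ n * vb (EuclideanSpace ℝ (Fin n)))
        = ((R - d - 1) ^ n * vb (EuclideanSpace ℝ (Fin n))) / |A.det| *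
            vb (EuclideanSpace ℝ (Fin n)) := by
          rw [div_pow]; field_simp
      _ ≤ F.card * vb (EuclideanSpace ℝ (Fin n)) := by
          apply mul_le_mul_of_nonneg_right _ hvb.le
          rw [div_le_iff₀ hdet]
          exact h3
      _ ≤ _ := h2
  have h5 : Tendsto (fun R : ℝ =>
      vb (EuclideanSpace ℝ (Fin n)) / |A.det| * ((R - d - 1) / R) ^ n) atTop
      (𝓝 (vb (EuclideanSpace ℝ (Fin n)) / |A.det| * 1 ^ n)) := by
    apply Tendsto.const_mul
    apply Tendsto.pow
    have : Tendsto (fun R : ℝ => 1 - (d + 1) / R) atTop (𝓝 (1 - 0)) :=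
      tendsto_const_nhds.sub (tendsto_const_nhds.div_atTop tendsto_id)
    rw [sub_zero] at this
    refine this.congr' ?_
    filter_upwards [eventually_gt_atTop 0] with R hR
    field_simp
    ring
  rw [one_pow, mul_one] at h5
  calc vb (EuclideanSpace ℝ (Fin n)) / |A.det|
      = limsup (fun R : ℝ =>
        vb (EuclideanSpace ℝ (Fin n)) / |A.det| * ((R - d - 1) / R) ^ n) atTop := h5.limsup_eq.symm
    _ ≤ _ := limsup_le_limsup h1 h5.isCoboundedUnder_le (ratio_bdd _ _)

end Pool.Agent.Helper909EA
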