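import Pool.Agent.Helper909_ea.DimGe
import Pool.Agent.Helper909_ea.Dens

/-! Lattices with elementary abelian groups of automorphisms: the explicit density bound. -/

set_option autoImplicit false

open MeasureTheory Metric Filter Set
open scoped Topology InnerProductSpace Pointwise

namespace Pool.Agent.Helper909EA

open Pool.Agent.H818R2

/-- elementary lower bound for the Gamma function at half integers (as in the starting file
`W967/LI/Dens.lean`) -/
theorem gamma_half_lower (n : ℕ) :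
    (√((n : ℝ) / (2 * Real.exp 1))) ^ n ≤ Real.Gamma ((n : ℝ) / 2 + 1) := by
  induction n using Nat.twoStepInduction with
  | zero => simp
  | one =>
    have h1 : Real.Gamma (((1 : ℕ) : ℝ) / 2 + 1) = √Real.pi / 2 := by
      rw [Nat.cast_one, Real.Gamma_add_one (by norm_num), Real.Gamma_one_half_eq]
      ring
    rw [h1, pow_one]
    have h2 : 1 ≤ √Real.pi := by
      rw [Real.le_sqrt' (by norm_num)]
      linarith [Real.pi_gt_three]
    have h3 : √(((1 : ℕ) : ℝ) / (2 * Real.exp 1)) ≤ 1 / 2 := by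
      rw [Real.sqrt_le_left (by norm_num)]
      have := Real.exp_one_gt_d9
      rw [Nat.cast_one, div_le_iff₀ (by positivity)]
      nlinarith
    linarith
  | more n ih _ =>
    have he : 0 < Real.exp 1 := Real.exp_pos 1
    have hG : Real.Gamma (((n + 2 : ℕ) : ℝ) / 2 + 1)
        = ((n : ℝ) / 2 + 1) * Real.Gamma ((n : ℝ) / 2 + 1) := by
      have : (((n + 2 : ℕ) : ℝ) / 2 + 1) = ((n : ℝ) / 2 + 1) + 1 := by push_cast; ring
      rw [this, Real.Gamma_add_one (by positivity)]
    rw [hG, pow_add, Real.sq_sqrt (by positivity)]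
    have key : √(((n + 2 : ℕ) : ℝ) / (2 * Real.exp 1)) ^ n
        ≤ √((n : ℝ) / (2 * Real.exp 1)) ^ n * Real.exp 1 := by
      rcases Nat.eq_zero_or_pos n with h0 | hn
      · subst h0
        simp
      · have hn' : (0 : ℝ) < n := by exact_mod_cast hn
        have h1 : √(((n + 2 : ℕ) : ℝ) / (2 * Real.exp 1))
            ≤ √((n : ℝ) / (2 * Real.exp 1)) * Real.exp (1 / n) := by
          rw [Real.sqrt_le_left (by positivity), mul_pow, Real.sq_sqrt (by positivity),
            ← Real.exp_nat_mul]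
          have h2 : 2 / (n : ℝ) + 1 ≤ Real.exp (2 / n) := Real.add_one_le_exp _
          have e : (((2 : ℕ) : ℝ) * (1 / n)) = 2 / (n : ℝ) := by push_cast; ring
          rw [e]
          calc (((n + 2 : ℕ) : ℝ) / (2 * Real.exp 1))
              = (n : ℝ) / (2 * Real.exp 1) * (2 / n + 1) := by push_cast; field_simp; ring
            _ ≤ _ := mul_le_mul_of_nonneg_left h2 (by positivity)
        have h3 := pow_le_pow_left₀ (by positivity) h1 n
        rw [mul_pow, ← Real.exp_nat_mul] at h3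
        rwa [show (n : ℝ) * (1 / n) = 1 by field_simp] at h3
    calc √(((n + 2 : ℕ) : ℝ) / (2 * Real.exp 1)) ^ n * (((n + 2 : ℕ) : ℝ) / (2 * Real.exp 1))
        ≤ √((n : ℝ) / (2 * Real.exp 1)) ^ n * Real.exp 1
          * (((n + 2 : ℕ) : ℝ) / (2 * Real.exp 1)) :=
          mul_le_mul_of_nonneg_right key (by positivity)
      _ = ((n : ℝ) / 2 + 1) * √((n : ℝ) / (2 * Real.exp 1)) ^ n := by
          push_cast
          field_simp
      _ ≤ _ := mul_le_mul_of_nonneg_left ih (by positivity)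

/-- volume of the unit ball times `√n ^ n` -/
lemma vb_le {n : ℕ} (hn : 0 < n) : vb (EuclideanSpace ℝ (Fin n)) * √n ^ n ≤ 5 ^ n := by
  have hne : Nonempty (Fin n) := ⟨⟨0, hn⟩⟩
  have hnr : (0 : ℝ) < n := by exact_mod_cast hn
  have hG : 0 < Real.Gamma ((n : ℝ) / 2 + 1) := Real.Gamma_pos_of_pos (by positivity)
  have h1 : vb (EuclideanSpace ℝ (Fin n)) = √Real.pi ^ n / Real.Gamma ((n : ℝ) / 2 + 1) := by
    unfold vb
    rw [measureReal_def, EuclideanSpace.volume_ball, Fintype.card_fin]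
    simp only [ENNReal.ofReal_one, one_pow, one_mul]
    rw [ENNReal.toReal_ofReal (by positivity)]
  have h2 := gamma_half_lower n
  have he : 0 < Real.exp 1 := Real.exp_pos 1
  have h3 : 0 < √((n : ℝ) / (2 * Real.exp 1)) ^ n := by positivity
  rw [h1]
  calc √Real.pi ^ n / Real.Gamma ((n : ℝ) / 2 + 1) * √n ^ n
      ≤ √Real.pi ^ n / √((n : ℝ) / (2 * Real.exp 1)) ^ n * √n ^ n := by gcongr
    _ = (√Real.pi / √((n : ℝ) / (2 * Real.exp 1)) * √n) ^ n := by
        rw [mul_pow, div_pow]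
    _ ≤ 5 ^ n := by
        apply pow_le_pow_left₀ (by positivity)
        rw [← Real.sqrt_div' _ (by positivity), ← Real.sqrt_mul' _ (by positivity),
          Real.sqrt_le_left (by norm_num)]
        have h4 : Real.pi / (n / (2 * Real.exp 1)) * n = 2 * Real.pi * Real.exp 1 := by
          field_simp
        rw [h4]
        have h5 := Real.pi_lt_d2
        have h6 := Real.exp_one_lt_d9
        nlinarith [Real.pi_pos]

/-- the bound for packings of radius one -/
theorem bound_one {p k : ℕ} [hp : Fact p.Prime] {n : ℕ} (hn : 0 < n) (t : ℕ)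
    (f : Multiplicative (Fin k → ZMod p) →*
      (EuclideanSpace ℝ (Fin n) ≃ₗᵢ[ℝ] EuclideanSpace ℝ (Fin n)))
    (hf : Function.Injective f) (Λ : AddSubgroup (EuclideanSpace ℝ (Fin n)))
    (hspan : Submodule.span ℝ (Λ : Set (EuclideanSpace ℝ (Fin n))) = ⊤)
    (hΛ : ∀ g, ∀ x ∈ Λ, f g x ∈ Λ) (hmin : ∀ x ∈ Λ, x ≠ 0 → 2 ≤ ‖x‖)
    (X : Set (EuclideanSpace ℝ (Fin n))) (hX : IsPacking X 1)
    (S : Finset (EuclideanSpace ℝ (Fin n))) (hXS : ∀ x ∈ X, ∃ y ∈ S, x - y ∈ Λ) :
    ∃ m : ℕ, m ≤ n ∧ (t + 1) * ((p - 1) * k) ≤ (t + 1) * m + (p - 1) * n ∧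
      upperDensity X 1 ≤ S.card * ((5 * √p * (p : ℝ) ^ (2 * t + 1)) ^ n / √n ^ m) := by
  classical
  obtain ⟨ι, _, _, V, M, hcard, hne, horth, hMn, hM1, hM0, hM2, hMΛ, hMV, hVN, hVU⟩ :=
    rep_structure f hf t
  rw [finrank_euclideanSpace_fin] at hcard
  have hp1 : 0 < p - 1 := by have := hp.out.two_le; omega
  have hp0 := p_pos (p := p)
  have hnr : (0 : ℝ) < n := by exact_mod_cast hn
  have hdim : ∀ i, p - 1 ≤ Module.finrank ℝ (V i) := by
    intro i
    obtain ⟨v, hv, hv0⟩ := Submodule.exists_mem_ne_zero_of_ne_bot (hne i)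
    have h1 : ∃ x ∈ Λ, M i x ≠ 0 := by
      by_contra hcon
      push Not at hcon
      have h2 : Submodule.span ℝ (Λ : Set (EuclideanSpace ℝ (Fin n))) ≤ LinearMap.ker (M i) := by
        rw [Submodule.span_le]
        intro x hx
        exact LinearMap.mem_ker.2 (hcon x hx)
      rw [hspan] at h2
      have h3 := LinearMap.mem_ker.1 (h2 (Submodule.mem_top (x := v)))
      rw [hM1 i v hv] at h3
      exact hv0 ((smul_eq_zero.1 h3).resolve_left (by positivity))
    obtain ⟨x, hx, hx0⟩ := h1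
    obtain ⟨a, ha⟩ := hVN i
    exact dim_ge f Λ hΛ hmin (V i) a ha (hVU i) (hMΛ Λ hΛ i x hx) (hMV i x) hx0
  set u : ι × Fin (p - 1) → EuclideanSpace ℝ (Fin n) := fun j =>
    ((stdOrthonormalBasis ℝ (V j.1)) (Fin.castLE (hdim j.1) j.2) : V j.1) with hu
  have huV : ∀ j, u j ∈ V j.1 := fun j => Submodule.coe_mem _
  have hortho : Orthonormal ℝ u := by
    constructor
    · intro j
      rw [hu]
      simp only [Submodule.coe_norm]
      exact (stdOrthonormalBasis ℝ (V j.1)).norm_eq_one _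
    · intro j l hjl
      by_cases h1 : j.1 = l.1
      · obtain ⟨j1, j2⟩ := j
        obtain ⟨l1, l2⟩ := l
        simp only at h1
        subst h1
        have h2 : j2 ≠ l2 := fun h => hjl (by rw [h])
        rw [hu]
        simp only
        rw [← Submodule.coe_inner]
        apply (stdOrthonormalBasis ℝ (V j1)).orthonormal.2
        intro h3
        exact h2 (Fin.castLE_injective _ h3)
      · exact horth j.1 l.1 h1 _ (huV j) _ (huV l)
  have hq : (1 : ℝ) ≤ (p : ℝ) ^ (2 * t + 1) := by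
    apply one_le_pow₀
    exact_mod_cast hp.out.one_lt.le
  obtain ⟨hm, hb⟩ := packing_bound u hortho (fun j => j.1) (p - 1) hp1
    (fun i => by
      have : (Finset.univ.filter (fun j : ι × Fin (p - 1) => j.1 = i)) =
          Finset.univ.image (fun l : Fin (p - 1) => (i, l)) := by
        ext ⟨a, b⟩
        simp only [Finset.mem_filter, Finset.mem_univ, true_and, Finset.mem_image,
          Prod.mk.injEq]
        constructor
        · intro h
          exact ⟨b, h.symm, rfl⟩
        · rintro ⟨_, h, _⟩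
          exact h.symm
      rw [this]
      exact Finset.card_image_le.trans (by simp)) M ((p : ℝ) ^ (2 * t + 1)) hq hMn
    (fun j => hM1 j.1 _ (huV j)) (fun i j hij => hM0 i j.1 (Ne.symm hij) _ (huV j))
    (fun j x => hM2 j.1 _ (huV j) x) Λ (hMΛ Λ hΛ) hmin n finrank_euclideanSpace_fin hn X hX S hXS
  rw [Fintype.card_prod, Fintype.card_fin] at hm hb
  set m := Fintype.card ι * (p - 1) with hmdef
  refine ⟨m, hm, ?_, hb.trans ?_⟩
  · calc (t + 1) * ((p - 1) * k) = (p - 1) * ((t + 1) * k) := by ring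
      _ ≤ (p - 1) * ((t + 1) * Fintype.card ι + n) := Nat.mul_le_mul_left _ hcard
      _ = _ := by rw [hmdef]; ring
  · rw [mul_assoc]
    apply mul_le_mul_of_nonneg_left _ (by positivity)
    have h1 := vb_le hn
    have hvb : 0 < vb (EuclideanSpace ℝ (Fin n)) := vb_pos
    have h2 : √((p - 1 : ℕ) : ℝ) ^ m ≤ √p ^ n := by
      have h3 : (1 : ℝ) ≤ √p := by
        rw [Real.one_le_sqrt]
        exact_mod_cast hp.out.one_lt.le
      calc √((p - 1 : ℕ) : ℝ) ^ m ≤ √p ^ m := by
            apply pow_le_pow_left₀ (by positivity)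
            apply Real.sqrt_le_sqrt
            exact_mod_cast Nat.sub_le _ _
        _ ≤ √p ^ n := pow_le_pow_right₀ h3 hm
    have h4 : √(n : ℝ) ^ n = √(n : ℝ) ^ m * √(n : ℝ) ^ (n - m) := by
      rw [← pow_add]; congr 1; omega
    rw [le_div_iff₀ (by positivity)]
    calc vb (EuclideanSpace ℝ (Fin n)) *
          (((p : ℝ) ^ (2 * t + 1)) ^ n * √((p - 1 : ℕ) : ℝ) ^ m * √n ^ (n - m)) * √n ^ m
        = (vb (EuclideanSpace ℝ (Fin n)) * √n ^ n) * √((p - 1 : ℕ) : ℝ) ^ m *
            ((p : ℝ) ^ (2 * t + 1)) ^ n := by rw [h4]; ring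
      _ ≤ 5 ^ n * √p ^ n * ((p : ℝ) ^ (2 * t + 1)) ^ n := by gcongr
      _ = _ := by rw [mul_pow, mul_pow]

end Pool.Agent.Helper909EA
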