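import Pool.Agent.Helper909_ea.Comb

/-! Orthogonal representations of elementary abelian groups: norm operators and the joint
eigenspaces. -/

set_option autoImplicit false

open Module Module.End LinearMap
open scoped InnerProductSpace

namespace Pool.Agent.Helper909EA

section
variable {E : Type*} [NormedAddCommGroup E] [InnerProductSpace ℝ E]
variable {p k : ℕ} [hp : Fact p.Prime]

/-- the operator of a group element -/
noncomputable def U (f : Multiplicative (Fin k → ZMod p) →* (E ≃ₗᵢ[ℝ] E)) (a : Fin k → ZMod p) :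
    E →ₗ[ℝ] E := (f (Multiplicative.ofAdd a)).toLinearEquiv.toLinearMap

/-- the norm operator of a group element -/
noncomputable def N (f : Multiplicative (Fin k → ZMod p) →* (E ≃ₗᵢ[ℝ] E)) (a : Fin k → ZMod p) :
    E →ₗ[ℝ] E := ∑ j : ZMod p, U f (j • a)

/-- `p` minus the norm operator -/
noncomputable def T (f : Multiplicative (Fin k → ZMod p) →* (E ≃ₗᵢ[ℝ] E)) (a : Fin k → ZMod p) :
    E →ₗ[ℝ] E := (p : ℝ) • LinearMap.id - N f a

variable (f : Multiplicative (Fin k → ZMod p) →* (E ≃ₗᵢ[ℝ] E))

lemma U_apply (a : Fin k → ZMod p) (x : E) : U f a x = f (Multiplicative.ofAdd a) x := rfl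

lemma U_add (a b : Fin k → ZMod p) (x : E) : U f (a + b) x = U f a (U f b x) := by
  simp only [U_apply, ofAdd_add, map_mul]
  rfl

lemma U_zero (x : E) : U f 0 x = x := by
  simp only [U_apply, ofAdd_zero, map_one]
  rfl

lemma U_inner (a : Fin k → ZMod p) (x y : E) : ⟪U f a x, y⟫_ℝ = ⟪x, U f (-a) y⟫_ℝ := by
  have h : y = U f a (U f (-a) y) := by
    rw [← U_add, add_neg_cancel, U_zero]
  conv_lhs => rw [h]
  rw [U_apply, U_apply]
  exact LinearIsometryEquiv.inner_map_map _ _ _

lemma N_apply (a : Fin k → ZMod p) (x : E) : N f a x = ∑ j : ZMod p, U f (j • a) x := by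
  simp [N]

lemma T_apply (a : Fin k → ZMod p) (x : E) : T f a x = (p : ℝ) • x - N f a x := by
  simp [T]

lemma U_N (a : Fin k → ZMod p) (i : ZMod p) (x : E) : U f (i • a) (N f a x) = N f a x := by
  rw [N_apply, map_sum]
  have h : ∀ j : ZMod p, U f (i • a) (U f (j • a) x) = U f ((i + j) • a) x := by
    intro j
    rw [← U_add, add_smul]
  simp only [h]
  exact Fintype.sum_equiv (Equiv.addLeft i) _ _ (fun j => rfl)

lemma N_N (a : Fin k → ZMod p) (x : E) : N f a (N f a x) = (p : ℝ) • N f a x := by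
  rw [N_apply]
  simp only [U_N, Finset.sum_const, Finset.card_univ, ZMod.card]
  rw [Nat.cast_smul_eq_nsmul ℝ]

lemma N_symm (a : Fin k → ZMod p) : (N f a).IsSymmetric := by
  intro x y
  rw [N_apply, N_apply, sum_inner, inner_sum]
  refine Fintype.sum_equiv (Equiv.neg (ZMod p)) _ _ (fun j => ?_)
  rw [U_inner]
  simp

lemma U_comm (a b : Fin k → ZMod p) (x : E) : U f a (U f b x) = U f b (U f a x) := by
  rw [← U_add, ← U_add, add_comm]

lemma N_comm (a b : Fin k → ZMod p) : Commute (N f a) (N f b) := by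
  apply LinearMap.ext
  intro x
  simp only [Module.End.mul_apply, N_apply, map_sum]
  rw [Finset.sum_comm]
  refine Finset.sum_congr rfl fun i _ => Finset.sum_congr rfl fun j _ => ?_
  rw [U_comm]

lemma p_pos : (0 : ℝ) < p := by exact_mod_cast hp.out.pos

lemma eig_cases {a : Fin k → ZMod p} {v : E} (hv : v ≠ 0) {μ : ℝ} (h : N f a v = μ • v) :
    μ = 0 ∨ μ = p := by
  have h1 := N_N f a v
  rw [h, map_smul, h, smul_smul, smul_smul, ← sub_eq_zero, ← sub_smul, smul_eq_zero] at h1
  rcases h1 with h1 | h1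
  · have : μ * (μ - p) = 0 := by linarith
    rcases mul_eq_zero.1 this with h2 | h2
    · exact Or.inl h2
    · exact Or.inr (by linarith)
  · exact absurd h1 hv

lemma N_eq_iff (a : Fin k → ZMod p) (v : E) : N f a v = (p : ℝ) • v ↔ U f a v = v := by
  constructor
  · intro h
    have h1 := U_N f a 1 v
    rw [one_smul, h, map_smul] at h1
    exact smul_right_injective E (p_pos (p := p)).ne' h1
  · intro h
    have h1 : ∀ m : ℕ, U f ((m : ZMod p) • a) v = v := by
      intro m
      induction m with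
      | zero => rw [Nat.cast_zero, zero_smul, U_zero]
      | succ m ih => rw [Nat.cast_succ, add_smul, one_smul, U_add, h, ih]
    rw [N_apply]
    have h2 : ∀ j : ZMod p, U f (j • a) v = v := by
      intro j
      have := h1 j.val
      rwa [ZMod.natCast_zmod_val] at this
    simp only [h2, Finset.sum_const, Finset.card_univ, ZMod.card]
    rw [Nat.cast_smul_eq_nsmul ℝ]

/-- two elements without fixed vectors, all of whose combinations have none, kill everything -/
lemma line_arg {a b : Fin k → ZMod p} {v : E} (hb : N f b v = 0)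
    (h : ∀ m : ZMod p, N f (a + m • b) v = 0) : v = 0 := by
  have h1 : ∑ m : ZMod p, N f (a + m • b) v = 0 := Finset.sum_eq_zero fun m _ => h m
  simp only [N_apply] at h1
  rw [Finset.sum_comm] at h1
  have h2 : ∀ j : ZMod p, j ≠ 0 → ∑ m : ZMod p, U f (j • (a + m • b)) v = 0 := by
    intro j hj
    have e : ∀ m : ZMod p, U f (j • (a + m • b)) v = U f (j • a) (U f ((j * m) • b) v) := by
      intro m
      rw [← U_add, smul_add, smul_smul]
    simp only [e, ← map_sum]
    have e2 : ∑ m : ZMod p, U f ((j * m) • b) v = N f b v := by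
      rw [N_apply]
      exact Fintype.sum_equiv (Equiv.mulLeft₀ j hj) _ _ (fun m => rfl)
    rw [e2, hb, map_zero]
  rw [Finset.sum_eq_single 0 (fun j _ hj => h2 j hj) (by simp)] at h1
  simp only [zero_smul, U_zero, Finset.sum_const, Finset.card_univ, ZMod.card] at h1
  have hp0 : p ≠ 0 := hp.out.ne_zero
  rw [← Nat.cast_smul_eq_nsmul ℝ] at h1
  exact (smul_eq_zero.1 h1).resolve_left (p_pos (p := p)).ne'

lemma T_norm (a : Fin k → ZMod p) (x : E) : ‖T f a x‖ ≤ p * ‖x‖ := by
  have hT2 : T f a (T f a x) = (p : ℝ) • T f a x := by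
    simp only [T_apply, map_sub, map_smul, N_N]
    module
  have hs : ⟪T f a x, T f a x⟫_ℝ = p * ⟪T f a x, x⟫_ℝ := by
    have h1 : ⟪T f a (T f a x), x⟫_ℝ = ⟪T f a x, T f a x⟫_ℝ := by
      rw [T_apply f a (T f a x), T_apply f a x, inner_sub_left, inner_sub_right,
        real_inner_smul_left, real_inner_smul_right, N_symm f a]
    rw [← h1, hT2, real_inner_smul_left]
  rw [real_inner_self_eq_norm_sq] at hs
  have h2 : ⟪T f a x, x⟫_ℝ ≤ ‖T f a x‖ * ‖x‖ := real_inner_le_norm _ _
  by_contra hlt
  push Not at hlt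
  have h3 : 0 < ‖T f a x‖ := lt_of_le_of_lt (by have := p_pos (p := p); positivity) hlt
  have hp' := p_pos (p := p)
  nlinarith

/-- the joint eigenspace -/
noncomputable def W (α : (Fin k → ZMod p) → ℝ) : Submodule ℝ E :=
  ⨅ a, eigenspace (N f a) (α a)

lemma mem_W {α : (Fin k → ZMod p) → ℝ} {v : E} : v ∈ W f α ↔ ∀ a, N f a v = α a • v := by
  unfold W
  rw [Submodule.mem_iInf]
  simp only [mem_eigenspace_iff]

lemma W_orth {α β : (Fin k → ZMod p) → ℝ} (hαβ : α ≠ β) {v w : E} (hv : v ∈ W f α)
    (hw : w ∈ W f β) : ⟪v, w⟫_ℝ = 0 := by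
  have h := LinearMap.IsSymmetric.orthogonalFamily_iInf_eigenspaces (T := fun a => N f a)
    (fun a => N_symm f a)
  exact h hαβ ⟨v, hv⟩ ⟨w, hw⟩

variable [FiniteDimensional ℝ E]

lemma W_top : ⨆ α : (Fin k → ZMod p) → ℝ, W f α = ⊤ :=
  LinearMap.IsSymmetric.iSup_iInf_eq_top_of_commute (T := fun a => N f a)
    (fun a => N_symm f a) (fun a b _ => N_comm f a b)

lemma W_indep : iSupIndep (fun α : (Fin k → ZMod p) → ℝ => W f α) :=
  (LinearMap.IsSymmetric.orthogonalFamily_iInf_eigenspaces (T := fun a => N f a)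
    (fun a => N_symm f a)).independent

/-- the character of a nonzero joint eigenspace -/
lemma exists_char {α : (Fin k → ZMod p) → ℝ} (hα : W f α ≠ ⊥) :
    ∃ χ : Dual (ZMod p) (Fin k → ZMod p),
      ∀ a, (χ a = 0 → α a = p) ∧ (χ a ≠ 0 → α a = 0) := by
  obtain ⟨v, hv, hv0⟩ := Submodule.exists_mem_ne_zero_of_ne_bot hα
  rw [mem_W] at hv
  have hcases : ∀ a, α a = 0 ∨ α a = p := fun a => eig_cases f hv0 (hv a)
  have hU : ∀ a, α a = p ↔ U f a v = v := by
    intro a
    rw [← N_eq_iff, hv a]
    constructor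
    · intro h; rw [h]
    · intro h
      exact smul_left_injective ℝ hv0 h
  let H : AddSubgroup (Fin k → ZMod p) :=
    { carrier := {a | U f a v = v}
      add_mem' := by
        intro a b ha hb
        simp only [Set.mem_ofPred_eq] at ha hb ⊢
        rw [U_add, hb, ha]
      zero_mem' := U_zero f v
      neg_mem' := by
        intro a ha
        simp only [Set.mem_ofPred_eq] at ha ⊢
        conv_lhs => rw [← ha]
        rw [← U_add, neg_add_cancel, U_zero] }
  let H' : Submodule (ZMod p) (Fin k → ZMod p) := AddSubgroup.toZModSubmodule p H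
  have hH : ∀ a, a ∈ H' ↔ U f a v = v := fun a => Iff.rfl
  by_cases htop : ∀ a, a ∈ H'
  · exact ⟨0, fun a => ⟨fun _ => (hU a).2 ((hH a).1 (htop a)), fun h => absurd rfl h⟩⟩
  · push Not at htop
    obtain ⟨b, hb⟩ := htop
    obtain ⟨χ, hχb, hχ⟩ := exists_functional H' hb
    have hb0 : N f b v = 0 := by
      rcases hcases b with h | h
      · rw [hv b, h, zero_smul]
      · exact absurd ((hH b).2 ((hU b).1 h)) hb
    have key : ∀ a, χ a = 0 → a ∈ H' := by
      intro a ha
      by_contra hna
      have h1 : ∃ m : ZMod p, N f (a + m • b) v ≠ 0 := by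
        by_contra hcon
        push Not at hcon
        exact hv0 (line_arg f hb0 hcon)
      obtain ⟨m, hm⟩ := h1
      have h2 : a + m • b ∈ H' := by
        rw [hH, ← hU]
        rcases hcases (a + m • b) with h | h
        · exact absurd (by rw [hv, h, zero_smul]) hm
        · exact h
      have h3 := hχ _ h2
      rw [map_add, map_smul, ha, zero_add, smul_eq_mul, mul_eq_zero] at h3
      rcases h3 with h3 | h3
      · rw [h3, zero_smul, add_zero] at h2
        exact hna h2
      · exact hχb h3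
    refine ⟨χ, fun a => ⟨fun h => (hU a).2 ((hH a).1 (key a h)), fun h => ?_⟩⟩
    rcases hcases a with h1 | h1
    · exact h1
    · exact absurd (hχ a ((hH a).2 ((hU a).1 h1))) h

end

end Pool.Agent.Helper909EA
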