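import Pool.Agent.Helper909_ea.LatDens
import Pool.Agent.Helper909_ea.Final
import Pool.Agent.H160R3.Herm.Lower

/-! Dense lattices with large elementary abelian 2-groups of automorphisms. -/

set_option autoImplicit false

open MeasureTheory Metric Filter Set
open scoped Topology InnerProductSpace Pointwise

namespace Pool.Agent.Helper909EA

open Pool.Agent.H818R2
open Pool.Agent.H160R3.Herm (minSq hermite bsum det_bsum sum_bsum minSq_smul_le pow_value
  exists_lt_value hermite_ge)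

lemma good_lattice (m : ℕ) : ∃ A : Matrix (Fin m) (Fin m) ℝ, A.det ≠ 0 ∧
    (∀ w : Fin m → ℤ, w ≠ 0 → 1 ≤ ∑ i, (A.mulVec (fun j => (w j : ℝ))) i ^ 2) ∧
    |A.det| ^ 2 * (m : ℝ) ^ m ≤ 145 ^ m := by
  rcases Nat.eq_zero_or_pos m with h0 | hm
  · subst h0
    refine ⟨1, by simp, ?_, by simp⟩
    intro w hw
    exact absurd (Subsingleton.elim w 0) hw
  · have hmr : (0 : ℝ) < m := by exact_mod_cast hm
    have h1 : (m : ℝ) / 145 < hermite m := by
      refine lt_of_lt_of_le ?_ (hermite_ge hm)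
      apply div_lt_div_of_pos_left hmr (by norm_num) (by norm_num)
    obtain ⟨A, hA, hA1⟩ := exists_lt_value h1
    have hdet : 0 < |A.det| := abs_pos.2 hA
    have hmin : 0 < minSq A := by
      have h2 : 0 < minSq A / |A.det| ^ ((2 : ℝ) / (m : ℝ)) := lt_trans (by positivity) hA1
      rw [div_pos_iff] at h2
      rcases h2 with h2 | h2
      · exact h2.1
      · exfalso
        have : 0 < |A.det| ^ ((2 : ℝ) / (m : ℝ)) := by positivity
        linarith [h2.2]
    have hs : 0 < √(minSq A) := Real.sqrt_pos.2 hmin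
    refine ⟨(1 / √(minSq A)) • A, ?_, ?_, ?_⟩
    · rw [Matrix.det_smul]
      exact mul_ne_zero (by positivity) hA
    · intro w hw
      have h2 := minSq_smul_le A (1 / √(minSq A)) w hw
      rw [div_pow, one_pow, Real.sq_sqrt hmin.le, one_div, inv_mul_cancel₀ hmin.ne'] at h2
      exact h2
    · have h3 := pow_value hm (minSq A) |A.det| hdet
      have h4 : ((m : ℝ) / 145) ^ m ≤ minSq A ^ m / |A.det| ^ 2 := by
        rw [← h3]
        exact pow_le_pow_left₀ (by positivity) hA1.le m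
      rw [div_pow, div_le_div_iff₀ (by positivity) (by positivity)] at h4
      rw [Matrix.det_smul, Fintype.card_fin, abs_mul, mul_pow, abs_pow, ← pow_mul, mul_comm m 2,
        pow_mul, sq_abs, div_pow, one_pow, Real.sq_sqrt hmin.le, div_pow, one_pow]
      have hmm : 0 < minSq A ^ m := by positivity
      rw [show 1 / minSq A ^ m * |A.det| ^ 2 * (m : ℝ) ^ m
        = ((m : ℝ) ^ m * |A.det| ^ 2) / minSq A ^ m by ring, div_le_iff₀ hmm]
      linarith

/-- multiplication of the coordinates by signs -/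
noncomputable def sgnLin {n : ℕ} (e : Fin n → ℝ) : EuclideanSpace ℝ (Fin n) →ₗ[ℝ] EuclideanSpace ℝ (Fin n) where
  toFun x := WithLp.toLp 2 (fun i => e i * x i)
  map_add' x y := by
    ext i
    simp only [PiLp.add_apply]
    ring
  map_smul' c x := by
    ext i
    simp only [PiLp.smul_apply, smul_eq_mul, RingHom.id_apply]
    ring

lemma sgnLin_apply {n : ℕ} (e : Fin n → ℝ) (x : EuclideanSpace ℝ (Fin n)) (i : Fin n) :
    sgnLin e x i = e i * x i := rfl

/-- the isometry -/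
noncomputable def sgnIso {n : ℕ} (e : Fin n → ℝ) (he : ∀ i, e i * e i = 1) :
    EuclideanSpace ℝ (Fin n) ≃ₗᵢ[ℝ] EuclideanSpace ℝ (Fin n) where
  toLinearEquiv := LinearEquiv.ofInvolutive (sgnLin e) (by
    intro x
    ext i
    rw [sgnLin_apply, sgnLin_apply, ← mul_assoc, he, one_mul])
  norm_map' := by
    intro x
    rw [EuclideanSpace.norm_eq, EuclideanSpace.norm_eq]
    congr 1
    apply Finset.sum_congr rfl
    intro i _
    have h1 : (LinearEquiv.ofInvolutive (sgnLin e) (by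
      intro x
      ext i
      rw [sgnLin_apply, sgnLin_apply, ← mul_assoc, he, one_mul]) x) i = e i * x i := rfl
    rw [h1, Real.norm_eq_abs, Real.norm_eq_abs, sq_abs, sq_abs, mul_pow, sq (e i), he, one_mul]

lemma sgnIso_apply {n : ℕ} (e : Fin n → ℝ) (he : ∀ i, e i * e i = 1)
    (x : EuclideanSpace ℝ (Fin n)) (i : Fin n) : sgnIso e he x i = e i * x i := rfl

/-- the sign of an element of `ℤ/2` -/
def sg (z : ZMod 2) : ℤ := if z = 0 then 1 else -1

lemma sg_add (x y : ZMod 2) : sg (x + y) = sg x * sg y := by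
  revert x y; decide

lemma sg_sq (x : ZMod 2) : sg x * sg x = 1 := by
  revert x; decide

lemma sg_inj {x y : ZMod 2} (h : sg x = sg y) : x = y := by
  revert x y; decide

/-- signs on the last `k` coordinates -/
def eps (m k : ℕ) (a : Fin k → ZMod 2) : Fin (m + k) → ℤ :=
  Fin.addCases (fun _ => 1) (fun j => sg (a j))

lemma eps_cast {m k : ℕ} (a : Fin k → ZMod 2) (i : Fin m) : eps m k a (Fin.castAdd k i) = 1 := by
  simp [eps]

lemma eps_nat {m k : ℕ} (a : Fin k → ZMod 2) (j : Fin k) :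
    eps m k a (Fin.natAdd m j) = sg (a j) := by
  simp [eps]

lemma eps_sq {m k : ℕ} (a : Fin k → ZMod 2) (i : Fin (m + k)) :
    ((eps m k a i : ℤ) : ℝ) * ((eps m k a i : ℤ) : ℝ) = 1 := by
  refine Fin.addCases (fun i => ?_) (fun j => ?_) i
  · rw [eps_cast]; simp
  · rw [eps_nat]; exact_mod_cast sg_sq (a j)

/-- the group of the sign changes of the last `k` coordinates -/
noncomputable def sgnHom (m k : ℕ) : Multiplicative (Fin k → ZMod 2) →*
    (EuclideanSpace ℝ (Fin (m + k)) ≃ₗᵢ[ℝ] EuclideanSpace ℝ (Fin (m + k))) where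
  toFun a := sgnIso (fun i => ((eps m k (Multiplicative.toAdd a) i : ℤ) : ℝ)) (eps_sq _)
  map_one' := by
    ext x i
    rw [sgnIso_apply]
    refine Fin.addCases (fun i => ?_) (fun j => ?_) i
    · rw [eps_cast]; simp
    · rw [eps_nat]; simp [sg]
  map_mul' a b := by
    ext x i
    rw [sgnIso_apply]
    have h1 : (sgnIso (fun i => ((eps m k (Multiplicative.toAdd a) i : ℤ) : ℝ)) (eps_sq _) *
        sgnIso (fun i => ((eps m k (Multiplicative.toAdd b) i : ℤ) : ℝ)) (eps_sq _)) x i =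
        ((eps m k (Multiplicative.toAdd a) i : ℤ) : ℝ) *
        (((eps m k (Multiplicative.toAdd b) i : ℤ) : ℝ) * x i) := rfl
    rw [h1]
    refine Fin.addCases (fun i => ?_) (fun j => ?_) i
    · rw [eps_cast, eps_cast, eps_cast]; simp
    · rw [eps_nat, eps_nat, eps_nat, toAdd_mul, Pi.add_apply, sg_add]
      push_cast
      ring

lemma sgnHom_apply (m k : ℕ) (a : Multiplicative (Fin k → ZMod 2))
    (x : EuclideanSpace ℝ (Fin (m + k))) (i : Fin (m + k)) :
    sgnHom m k a x i = ((eps m k (Multiplicative.toAdd a) i : ℤ) : ℝ) * x i := rfl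

lemma sgnHom_inj (m k : ℕ) : Function.Injective (sgnHom m k) := by
  intro a b hab
  apply Multiplicative.toAdd.injective
  funext j
  apply sg_inj
  have h1 := congrArg (fun g => g (EuclideanSpace.single (Fin.natAdd m j) (1 : ℝ))
    (Fin.natAdd m j)) hab
  simp only [sgnHom_apply, eps_nat] at h1
  simpa using h1

lemma bsum_cast {m k : ℕ} (A : Matrix (Fin m) (Fin m) ℝ) (B : Matrix (Fin k) (Fin k) ℝ)
    (w : Fin (m + k) → ℝ) (i : Fin m) :
    (bsum A B).mulVec w (Fin.castAdd k i) = A.mulVec (fun j => w (Fin.castAdd k j)) i := by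
  simp [bsum, Matrix.mulVec, dotProduct, Fin.sum_univ_add]

lemma bsum_nat {m k : ℕ} (A : Matrix (Fin m) (Fin m) ℝ) (B : Matrix (Fin k) (Fin k) ℝ)
    (w : Fin (m + k) → ℝ) (i : Fin k) :
    (bsum A B).mulVec w (Fin.natAdd m i) = B.mulVec (fun j => w (Fin.natAdd m j)) i := by
  simp [bsum, Matrix.mulVec, dotProduct, Fin.sum_univ_add]

/-- the lattice has many commuting involutions -/
lemma latt_elem (m k : ℕ) (A : Matrix (Fin m) (Fin m) ℝ) (hA : A.det ≠ 0)
    (hmin : ∀ x ∈ latt (bsum A (1 : Matrix (Fin k) (Fin k) ℝ)), x ≠ 0 → 1 ≤ ‖x‖) :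
    HasElemAbelian 2 k (m + k) (latt (bsum A (1 : Matrix (Fin k) (Fin k) ℝ))) := by
  have hdet : (bsum A (1 : Matrix (Fin k) (Fin k) ℝ)).det ≠ 0 := by
    rw [det_bsum, Matrix.det_one, mul_one]; exact hA
  refine ⟨?_, ?_, sgnHom m k, sgnHom_inj m k, ?_⟩
  · rw [eq_top_iff]
    intro z _
    obtain ⟨u, hu⟩ := amap_surj hdet z
    have h1 : u = ∑ j, u j • (fun i => (((Pi.single j 1 : Fin (m + k) → ℤ) i : ℤ) : ℝ)) := by
      funext i
      rw [Finset.sum_apply, Finset.sum_eq_single i]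
      · simp
      · intro j _ hji
        simp [Pi.single_apply, hji.symm]
      · simp
    rw [hu, h1, map_sum]
    apply Submodule.sum_mem
    intro j _
    rw [map_smul]
    apply Submodule.smul_mem
    apply Submodule.subset_span
    exact ⟨Pi.single j 1, rfl⟩
  · apply DiscreteTopology.of_forall_le_norm (r := 1) one_pos
    intro x hx
    exact hmin _ x.2 (fun h => hx (Subtype.ext h))
  · rintro a _ ⟨w, rfl⟩
    refine ⟨fun i => eps m k (Multiplicative.toAdd a) i * w i, ?_⟩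
    ext i
    rw [sgnHom_apply, amap_apply, amap_apply]
    refine Fin.addCases (fun i => ?_) (fun j => ?_) i
    · rw [bsum_cast, bsum_cast, eps_cast]
      simp only [eps_cast]
      simp
    · rw [bsum_nat, bsum_nat, eps_nat, Matrix.one_mulVec, Matrix.one_mulVec]
      simp only [eps_nat]
      push_cast
      ring

lemma norm_sq_amap {n : ℕ} (A : Matrix (Fin n) (Fin n) ℝ) (w : Fin n → ℝ) :
    ‖amap A w‖ ^ 2 = ∑ i, (A.mulVec w) i ^ 2 := by
  rw [EuclideanSpace.norm_sq_eq]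
  apply Finset.sum_congr rfl
  intro i _
  rw [amap_apply, Real.norm_eq_abs, sq_abs]

lemma latt_min (m k : ℕ) (A : Matrix (Fin m) (Fin m) ℝ)
    (hA : ∀ w : Fin m → ℤ, w ≠ 0 → 1 ≤ ∑ i, (A.mulVec (fun j => (w j : ℝ))) i ^ 2) :
    ∀ x ∈ latt (bsum A (1 : Matrix (Fin k) (Fin k) ℝ)), x ≠ 0 → 1 ≤ ‖x‖ := by
  rintro _ ⟨w, rfl⟩ hx
  have h0 : 0 ≤ ‖amap (bsum A (1 : Matrix (Fin k) (Fin k) ℝ)) (fun j => (w j : ℝ))‖ :=
    norm_nonneg _
  rw [← one_le_sq_iff₀ h0, norm_sq_amap, sum_bsum]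
  have h1 : 0 ≤ ∑ i, (A.mulVec (fun j => ((w (Fin.castAdd k j) : ℤ) : ℝ))) i ^ 2 := by positivity
  have h2 : 0 ≤ ∑ i, ((1 : Matrix (Fin k) (Fin k) ℝ).mulVec
      (fun j => ((w (Fin.natAdd m j) : ℤ) : ℝ))) i ^ 2 := by positivity
  by_cases hw1 : (fun j => w (Fin.castAdd k j)) = 0
  · have hw2 : ∃ j, w (Fin.natAdd m j) ≠ 0 := by
      by_contra hcon
      push Not at hcon
      apply hx
      have : (fun j => ((w j : ℤ) : ℝ)) = 0 := by
        funext j
        refine Fin.addCases (fun i => ?_) (fun j => ?_) j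
        · have := congrFun hw1 i
          simp only [Pi.zero_apply] at this
          simp [this]
        · simp [hcon j]
      rw [this, map_zero]
    obtain ⟨j, hj⟩ := hw2
    have h3 : (1 : ℝ) ≤ (((w (Fin.natAdd m j) : ℤ) : ℝ)) ^ 2 := by
      have : (1 : ℤ) ≤ (w (Fin.natAdd m j)) ^ 2 := by
        have := sq_pos_of_ne_zero hj
        omega
      exact_mod_cast this
    have h4 : (((w (Fin.natAdd m j) : ℤ) : ℝ)) ^ 2 ≤ ∑ i, ((1 : Matrix (Fin k) (Fin k) ℝ).mulVec
      (fun j => ((w (Fin.natAdd m j) : ℤ) : ℝ))) i ^ 2 := by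
      rw [Matrix.one_mulVec]
      exact Finset.single_le_sum
        (f := fun i => (((w (Fin.natAdd m i) : ℤ) : ℝ)) ^ 2) (fun i _ => sq_nonneg _)
        (Finset.mem_univ j)
    linarith
  · have h3 := hA _ hw1
    linarith

/-- a lower bound for the volume of the unit ball: the inscribed cube -/
lemma vb_ge {n : ℕ} (hn : 0 < n) : (2 / √n) ^ n ≤ vb (EuclideanSpace ℝ (Fin n)) := by
  have hnr : (0 : ℝ) < n := by exact_mod_cast hn
  have hs : 0 < √(n : ℝ) := Real.sqrt_pos.2 hnr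
  set b := EuclideanSpace.basisFun (Fin n) ℝ with hb
  have h1 := box_volume b (fun _ => 1 / √(n : ℝ)) (fun _ => by positivity)
  rw [Finset.prod_const, Finset.card_univ, Fintype.card_fin] at h1
  have h2 : (2 / √(n : ℝ)) ^ n = volume.real (box b (fun _ => 1 / √(n : ℝ))) := by
    rw [h1]; congr 1; ring
  rw [h2]
  unfold vb
  apply measureReal_mono _ measure_ball_lt_top.ne
  intro z hz
  rw [mem_ball_zero_iff]
  have h3 : ‖z‖ ^ 2 < 1 := by
    rw [EuclideanSpace.norm_sq_eq]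
    have hne : (Finset.univ : Finset (Fin n)).Nonempty := ⟨⟨0, hn⟩, Finset.mem_univ _⟩
    calc ∑ i, ‖z i‖ ^ 2 < ∑ _i : Fin n, (1 / √(n : ℝ)) ^ 2 := by
          apply Finset.sum_lt_sum_of_nonempty hne
          intro i _
          have h4 := hz i
          have h5 : ⟪b i, z⟫_ℝ = z i := by
            rw [hb]
            simp [EuclideanSpace.inner_single_left]
          rw [h5] at h4
          rw [Real.norm_eq_abs, sq_abs, sq_lt_sq, abs_of_pos (show 0 < 1 / √(n : ℝ) by positivity)]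
          exact h4
      _ = 1 := by
          rw [Finset.sum_const, Finset.card_univ, Fintype.card_fin, div_pow, Real.sq_sqrt hnr.le]
          simp
          field_simp
  have h6 := norm_nonneg z
  nlinarith

lemma pow_le_exp (m k : ℕ) (hm : 0 < m) :
    ((m + k : ℕ) : ℝ) ^ m ≤ (m : ℝ) ^ m * Real.exp k := by
  have hmr : (0 : ℝ) < m := by exact_mod_cast hm
  have h1 := Real.add_one_le_exp ((k : ℝ) / m)
  have h2 : ((m + k : ℕ) : ℝ) ≤ m * Real.exp ((k : ℝ) / m) := by
    have h3 : ((m + k : ℕ) : ℝ) = m * ((k : ℝ) / m + 1) := by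
      push_cast
      field_simp
      ring
    rw [h3]
    exact mul_le_mul_of_nonneg_left h1 hmr.le
  calc ((m + k : ℕ) : ℝ) ^ m ≤ (m * Real.exp ((k : ℝ) / m)) ^ m :=
        pow_le_pow_left₀ (by positivity) h2 m
    _ = (m : ℝ) ^ m * Real.exp k := by
        rw [mul_pow, ← Real.exp_nat_mul]
        congr 2
        field_simp

lemma det_bound {m k : ℕ} (d : ℝ) (h : d ^ 2 * (m : ℝ) ^ m ≤ 145 ^ m) :
    d ^ 2 * ((m + k : ℕ) : ℝ) ^ m ≤ 400 ^ (m + k) := by
  rcases Nat.eq_zero_or_pos m with h0 | hm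
  · subst h0
    simp only [pow_zero, mul_one] at h ⊢
    exact h.trans (one_le_pow₀ (by norm_num))
  · have h1 := pow_le_exp m k hm
    have he : Real.exp k ≤ (2.7182818286 : ℝ) ^ k := by
      rw [← Real.exp_one_rpow, Real.rpow_natCast]
      exact pow_le_pow_left₀ (Real.exp_pos 1).le Real.exp_one_lt_d9.le k
    calc d ^ 2 * ((m + k : ℕ) : ℝ) ^ m ≤ d ^ 2 * ((m : ℝ) ^ m * Real.exp k) := by gcongr
      _ = (d ^ 2 * (m : ℝ) ^ m) * Real.exp k := by ring
      _ ≤ 145 ^ m * (2.7182818286 : ℝ) ^ k := by gcongr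
      _ ≤ 400 ^ m * 400 ^ k := by
          gcongr
          · norm_num
          · norm_num
      _ = _ := by rw [pow_add]

/-- sharpness for the prime number two -/
theorem sharp {n k : ℕ} (hn : 0 < n) (hk : k ≤ n) :
    ∃ Λ : AddSubgroup (EuclideanSpace ℝ (Fin n)), HasElemAbelian 2 k n Λ ∧
      IsPacking (Λ : Set (EuclideanSpace ℝ (Fin n))) (1 / 2) ∧
      (1 / 20 : ℝ) ^ n * (n : ℝ) ^ (-((k : ℝ) / 2)) ≤
        upperDensity (Λ : Set (EuclideanSpace ℝ (Fin n))) (1 / 2) := by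
  obtain ⟨m, rfl⟩ : ∃ m, n = m + k := ⟨n - k, by omega⟩
  obtain ⟨A, hA, hAmin, hAdet⟩ := good_lattice m
  set B := bsum A (1 : Matrix (Fin k) (Fin k) ℝ) with hB
  have hBdet : B.det = A.det := by rw [hB, det_bsum, Matrix.det_one, mul_one]
  have hmin := latt_min m k A hAmin
  have hpack : ∀ (r : ℝ), 0 < r → 2 * r ≤ 1 →
      IsPacking (latt B : Set (EuclideanSpace ℝ (Fin (m + k)))) r := by
    intro r hr hr1
    refine ⟨hr, ?_⟩
    intro x hx y hy hxy
    simp only [Function.onFun]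
    rw [disjoint_ball_ball_iff hr hr, dist_eq_norm]
    have := hmin (x - y) ((latt B).sub_mem hx hy) (sub_ne_zero.2 hxy)
    linarith
  have hpk := hpack (1 / 2) (by norm_num) (by norm_num)
  refine ⟨latt B, latt_elem m k A hA hmin, hpk, ?_⟩
  have hset : ((2 : ℝ) • (latt B : Set (EuclideanSpace ℝ (Fin (m + k))))) =
      (latt ((2 : ℝ) • B) : Set (EuclideanSpace ℝ (Fin (m + k)))) := by
    have hlin : ∀ w : Fin (m + k) → ℝ, amap ((2 : ℝ) • B) w = (2 : ℝ) • amap B w := by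
      intro w
      ext i
      rw [amap_apply, Matrix.smul_mulVec, Pi.smul_apply, PiLp.smul_apply, amap_apply]
    ext x
    constructor
    · intro hx
      obtain ⟨y, ⟨w, hw⟩, rfl⟩ := mem_smul_set.1 hx
      exact ⟨w, by rw [hw, hlin]⟩
    · rintro ⟨w, hw⟩
      refine mem_smul_set.2 ⟨amap B (fun j => (w j : ℝ)), ⟨w, rfl⟩, ?_⟩
      rw [hw, hlin]
  have hdens : upperDensity (latt ((2 : ℝ) • B) : Set (EuclideanSpace ℝ (Fin (m + k)))) 1 =
      upperDensity (latt B : Set (EuclideanSpace ℝ (Fin (m + k)))) (1 / 2) := by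
    have := upperDensity_smul (X := (latt B : Set (EuclideanSpace ℝ (Fin (m + k)))))
      (r := 1 / 2) (c := 2) (by norm_num)
    rw [hset] at this
    norm_num at this
    rw [this]
  have hpk2 : IsPacking (latt ((2 : ℝ) • B) : Set (EuclideanSpace ℝ (Fin (m + k)))) 1 := by
    have := isPacking_smul hpk (c := 2) (by norm_num)
    rw [hset] at this
    norm_num at this
    exact this
  have hdet2 : ((2 : ℝ) • B).det ≠ 0 := by
    rw [Matrix.det_smul, hBdet]
    exact mul_ne_zero (by positivity) hA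
  have h1 := lat_density_one hdet2 hpk2
  rw [hdens] at h1
  refine le_trans ?_ h1
  have hdA : 0 < |A.det| := abs_pos.2 hA
  have hnr : (0 : ℝ) < ((m + k : ℕ) : ℝ) := by exact_mod_cast hn
  rw [Matrix.det_smul, hBdet, Fintype.card_fin, abs_mul, abs_pow, abs_two]
  have h2 := vb_ge hn
  have h3 : (1 / √((m + k : ℕ) : ℝ)) ^ (m + k) / |A.det| ≤
      vb (EuclideanSpace ℝ (Fin (m + k))) / (2 ^ (m + k) * |A.det|) := by
    rw [div_le_div_iff₀ hdA (by positivity)]
    calc (1 / √((m + k : ℕ) : ℝ)) ^ (m + k) * (2 ^ (m + k) * |A.det|)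
        = (2 / √((m + k : ℕ) : ℝ)) ^ (m + k) * |A.det| := by
          rw [← mul_assoc, ← mul_pow]; congr 2; ring
      _ ≤ _ := by gcongr
  refine le_trans ?_ h3
  have h4 := det_bound (k := k) |A.det| hAdet
  rw [le_div_iff₀ hdA]
  have h5 : 0 ≤ (1 / 20 : ℝ) ^ (m + k) * ((m + k : ℕ) : ℝ) ^ (-((k : ℝ) / 2)) * |A.det| := by
    positivity
  rw [← sq_le_sq₀ h5 (by positivity)]
  have h6 : (((m + k : ℕ) : ℝ) ^ (-((k : ℝ) / 2))) ^ 2 = (((m + k : ℕ) : ℝ) ^ k)⁻¹ := by
    rw [← Real.rpow_natCast, ← Real.rpow_mul hnr.le, ← Real.rpow_natCast,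
      ← Real.rpow_neg hnr.le]
    congr 1
    push_cast
    ring
  have h7 : ((1 / √((m + k : ℕ) : ℝ)) ^ (m + k)) ^ 2 = (((m + k : ℕ) : ℝ) ^ (m + k))⁻¹ := by
    rw [← pow_mul, mul_comm (m + k) 2, pow_mul, div_pow, one_pow, Real.sq_sqrt hnr.le, one_div,
      inv_pow]
  rw [mul_pow, mul_pow, h6, h7, ← pow_mul, mul_comm (m + k) 2, pow_mul]
  rw [show ((1 / 20 : ℝ) ^ 2) ^ (m + k) = (400 ^ (m + k))⁻¹ by
    rw [← inv_pow]; norm_num]
  rw [pow_add ((m + k : ℕ) : ℝ) m k, mul_inv]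
  have hk0 : 0 < (((m + k : ℕ) : ℝ) ^ k) := by positivity
  have hm0 : 0 < (((m + k : ℕ) : ℝ) ^ m) := by positivity
  have h400 : (0 : ℝ) < 400 ^ (m + k) := by positivity
  have h8 : |A.det| ^ 2 * (400 ^ (m + k))⁻¹ ≤ (((m + k : ℕ) : ℝ) ^ m)⁻¹ := by
    rw [← div_eq_mul_inv, div_le_iff₀ h400, inv_mul_eq_div, le_div_iff₀ hm0]
    exact h4
  calc (400 ^ (m + k))⁻¹ * (((m + k : ℕ) : ℝ) ^ k)⁻¹ * |A.det| ^ 2
      = (|A.det| ^ 2 * (400 ^ (m + k))⁻¹) * (((m + k : ℕ) : ℝ) ^ k)⁻¹ := by ring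
    _ ≤ (((m + k : ℕ) : ℝ) ^ m)⁻¹ * (((m + k : ℕ) : ℝ) ^ k)⁻¹ := by gcongr

end Pool.Agent.Helper909EA
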