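import Mathlib

/-! Annihilators of sets of linear functionals on `𝔽_p^k`: ranks, a maximal set. -/

set_option autoImplicit false

open Module

namespace Pool.Agent.Helper909EA.Sph

variable {F G ι : Type} [Field F] [AddCommGroup G] [Module F G] [FiniteDimensional F G]
  [Fintype ι] [DecidableEq ι] (χ : ι → Dual F G)

/-- the common kernel of the functionals of `S` -/
def Kn (S : Finset ι) : Submodule F G := ⨅ i ∈ S, LinearMap.ker (χ i)

lemma mem_Kn {S : Finset ι} {a : G} : a ∈ Kn χ S ↔ ∀ i ∈ S, χ i a = 0 := by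
  simp [Kn, Submodule.mem_iInf]

/-- its dimension -/
noncomputable def kd (S : Finset ι) : ℕ := finrank F (Kn χ S)

lemma Kn_anti {S T : Finset ι} (h : S ⊆ T) : Kn χ T ≤ Kn χ S := by
  intro a ha
  rw [mem_Kn] at ha ⊢
  exact fun i hi => ha i (h hi)

lemma kd_anti {S T : Finset ι} (h : S ⊆ T) : kd χ T ≤ kd χ S :=
  Submodule.finrank_mono (Kn_anti χ h)

lemma Kn_insert (i : ι) (S : Finset ι) : Kn χ (insert i S) = Kn χ S ⊓ LinearMap.ker (χ i) := by
  ext a
  rw [Submodule.mem_inf, mem_Kn, mem_Kn, LinearMap.mem_ker]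
  simp only [Finset.mem_insert, forall_eq_or_imp]
  tauto

lemma kd_insert (i : ι) (S : Finset ι) : kd χ S ≤ kd χ (insert i S) + 1 := by
  unfold kd
  rw [Kn_insert]
  have h1 := Submodule.finrank_sup_add_finrank_inf_eq (Kn χ S) (LinearMap.ker (χ i))
  have h2 : finrank F G ≤ finrank F (LinearMap.ker (χ i)) + 1 := by
    have h3 := LinearMap.finrank_range_add_finrank_ker (χ i)
    have h4 : finrank F (LinearMap.range (χ i)) ≤ 1 := by
      have := Submodule.finrank_le (LinearMap.range (χ i))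
      simpa using this
    omega
  have h5 := Submodule.finrank_le (Kn χ S ⊔ LinearMap.ker (χ i))
  omega

lemma kd_insert_lt {i : ι} {S : Finset ι} {a : G} (ha : a ∈ Kn χ S) (hi : χ i a ≠ 0) :
    kd χ (insert i S) + 1 ≤ kd χ S := by
  have h : Kn χ (insert i S) < Kn χ S := by
    refine lt_of_le_of_ne (Kn_anti χ (Finset.subset_insert _ _)) ?_
    intro h
    rw [← h, mem_Kn] at ha
    exact hi (ha i (Finset.mem_insert_self _ _))
  exact Submodule.finrank_lt_finrank_of_lt h

lemma kd_union (S T : Finset ι) : kd χ S ≤ kd χ (S ∪ T) + T.card := by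
  induction T using Finset.induction_on with
  | empty => simp
  | insert i T hi ih =>
    rw [Finset.union_insert, Finset.card_insert_of_notMem hi]
    have := kd_insert χ i (S ∪ T)
    omega

/-- the maximal set -/
lemma exists_max (D : ι → ℕ) {β : ℝ} (hβ : 0 < β) {c : ℕ} (hD : ∀ i, χ i ≠ 0 → c ≤ D i)
    (hpos : ∀ i, 0 < D i) (htriv : kd χ Finset.univ = 0) :
    ∃ S0 : Finset ι, (∀ i, χ i = 0 → i ∈ S0) ∧
      ((∑ i ∈ S0, D i : ℕ) : ℝ) * (1 - c * β) ≤ ((∑ i, D i : ℕ) : ℝ) - c * finrank F G ∧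
      ∀ T : Finset ι, Disjoint S0 T →
        β * (∑ i ∈ T, D i : ℕ) + kd χ (S0 ∪ T) ≤ kd χ S0 := by
  obtain ⟨S0, -, hS0⟩ := Finset.exists_max_image (Finset.univ : Finset (Finset ι))
    (fun S => (kd χ S : ℝ) + β * (∑ i ∈ S, D i : ℕ)) ⟨∅, Finset.mem_univ _⟩
  have hT : ∀ T : Finset ι, Disjoint S0 T →
      β * (∑ i ∈ T, D i : ℕ) + kd χ (S0 ∪ T) ≤ kd χ S0 := by
    intro T hd
    have h := hS0 (S0 ∪ T) (Finset.mem_univ _)
    simp only [Finset.sum_union hd] at h
    rw [Nat.cast_add, mul_add] at h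
    linarith
  have htr : ∀ i, χ i = 0 → i ∈ S0 := by
    intro i hi
    by_contra hn
    have h := hT {i} (by simpa using hn)
    have h1 : kd χ (S0 ∪ {i}) = kd χ S0 := by
      have h2 : Kn χ (S0 ∪ {i}) = Kn χ S0 := by
        rw [Finset.union_comm, ← Finset.insert_eq, Kn_insert, hi, LinearMap.ker_zero, inf_top_eq]
      unfold kd
      rw [h2]
    rw [h1, Finset.sum_singleton] at h
    have h3 : (0 : ℝ) < D i := by exact_mod_cast hpos i
    have : 0 < β * D i := by positivity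
    linarith
  refine ⟨S0, htr, ?_, hT⟩
  have h := hS0 ∅ (Finset.mem_univ _)
  have h1 : kd χ (∅ : Finset ι) = finrank F G := by
    unfold kd
    rw [show Kn χ (∅ : Finset ι) = ⊤ by simp [Kn]]
    exact finrank_top F G
  simp only [h1, Finset.sum_empty, Nat.cast_zero, mul_zero, add_zero] at h
  have h2 : kd χ S0 ≤ S0ᶜ.card := by
    have h3 := kd_union χ S0 S0ᶜ
    rw [Finset.union_compl, htriv] at h3
    omega
  have h4 : S0ᶜ.card * c ≤ ∑ i ∈ S0ᶜ, D i := by
    have h5 := Finset.card_nsmul_le_sum S0ᶜ D c (by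
      intro i hi
      apply hD i
      intro h0
      exact (Finset.mem_compl.1 hi) (htr i h0))
    rwa [smul_eq_mul] at h5
  have h6 : c * kd χ S0 + ∑ i ∈ S0, D i ≤ ∑ i, D i := by
    rw [← Finset.sum_add_sum_compl S0]
    have : c * kd χ S0 ≤ S0ᶜ.card * c := by
      rw [mul_comm]
      exact Nat.mul_le_mul_right _ h2
    omega
  have h7 : (c : ℝ) * kd χ S0 + (∑ i ∈ S0, D i : ℕ) ≤ (∑ i, D i : ℕ) := by exact_mod_cast h6
  have h8 := mul_le_mul_of_nonneg_left h (Nat.cast_nonneg (α := ℝ) c)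
  linarith

end Pool.Agent.Helper909EA.Sph
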