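import Pool.Agent.Helper909_ea.SphRep
import Pool.Agent.Helper909_ea.KissBase
import Pool.Agent.H161R2.KissSym2

/-! Kissing configurations invariant under elementary abelian groups: upper bound. -/

set_option autoImplicit false

open Module
open scoped InnerProductSpace

namespace Pool.Agent.Helper909EA.Sph

open Pool.Agent.Helper909EA Pool.Agent.H818R2 Pool.Agent.H161R2.KissSym

lemma kissing_mono {a b : ℕ} (h : a ≤ b) : kissing a ≤ kissing b := sphMax_mono sin_pos h

variable {p k n : ℕ} [hp : Fact p.Prime]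
variable {f : Multiplicative (Fin k → ZMod p) →*
      (EuclideanSpace ℝ (Fin n) ≃ₗᵢ[ℝ] EuclideanSpace ℝ (Fin n))}
variable {ι : Type} [Fintype ι] [DecidableEq ι]
variable {V : ι → Submodule ℝ (EuclideanSpace ℝ (Fin n))}
  {χ : ι → Dual (ZMod p) (Fin k → ZMod p)}

lemma cp_pos (p : ℕ) : 1 ≤ cp p ∧ cp p ≤ 2 := by
  unfold cp
  split_ifs <;> omega

/-- dimensions of sums of components, numbered -/
lemma dims (h : Dec f V χ) (S : Finset ι) :
    ∑ i ∈ S, finrank ℝ (V i) ≤ n ∧ ∑ i, finrank ℝ (V i) = n ∧
    ∀ X : Finset (EuclideanSpace ℝ (Fin n)), IsSphCode n (Real.pi / 3) X →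
      (∀ x ∈ X, ∀ i ∈ S, (V i).starProjection x = 0) →
      X.card ≤ kissing (n - ∑ i ∈ S, finrank ℝ (V i)) := by
  classical
  set e := Fintype.equivFin ι with he
  set V' : Fin (Fintype.card ι) → Submodule ℝ (EuclideanSpace ℝ (Fin n)) :=
    fun j => V (e.symm j) with hV'
  have hV'o : ∀ i j, i ≠ j → V' i ⟂ V' j := by
    intro i j hij
    rw [Submodule.isOrtho_iff_inner_eq]
    intro v hv w hw
    exact h.orth _ _ (fun h => hij (e.symm.injective h)) v hv w hw
  set S' : Finset (Fin (Fintype.card ι)) := S.map e.toEmbedding with hS'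
  have hsum : ∑ j ∈ S', finrank ℝ (V' j) = ∑ i ∈ S, finrank ℝ (V i) := by
    rw [hS', Finset.sum_map]
    apply Finset.sum_congr rfl
    intro i _
    change finrank ℝ (V (e.symm (e i))) = finrank ℝ (V i)
    rw [e.symm_apply_apply]
  refine ⟨?_, ?_, ?_⟩
  · have h1 := finrank_sup V' hV'o S'
    have h2 := Submodule.finrank_le (S'.sup V')
    rw [finrank_euclideanSpace_fin, h1, hsum] at h2
    exact h2
  · have h1 := finrank_sup V' hV'o Finset.univ
    have h2 : (Finset.univ : Finset (Fin (Fintype.card ι))).sup V' = ⊤ := by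
      rw [eq_top_iff, ← h.top]
      apply iSup_le
      intro i
      have h3 : V' (e i) ≤ (Finset.univ : Finset (Fin (Fintype.card ι))).sup V' :=
        Finset.le_sup (Finset.mem_univ _)
      have h4 : V' (e i) = V i := by
        change V (e.symm (e i)) = V i
        rw [e.symm_apply_apply]
      rwa [h4] at h3
    rw [h2, finrank_top, finrank_euclideanSpace_fin] at h1
    refine Eq.trans ?_ h1.symm
    exact (Fintype.sum_equiv e.symm _ _ (fun j => rfl)).symm
  · intro X hX hXS
    rw [← hsum, ← finrank_orth V' hV'o S']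
    apply card_le_sub sin_pos _ hX
    intro x hx
    rw [Submodule.mem_orthogonal]
    intro u hu
    have h2 : S'.sup V' ≤ (ℝ ∙ x)ᗮ := by
      apply Finset.sup_le
      intro j hj v hv
      rw [Submodule.mem_orthogonal_singleton_iff_inner_left]
      rw [hS', Finset.mem_map] at hj
      obtain ⟨i, hi, rfl⟩ := hj
      simp only [hV', Equiv.coe_toEmbedding, Equiv.symm_apply_apply] at hv
      have h4 : (V i).starProjection x = 0 := hXS x hx i hi
      have h5 : (V i).starProjection v = v := Submodule.starProjection_eq_self_iff.2 hv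
      rw [← h5, Submodule.inner_starProjection_left_eq_right, h4, inner_zero_right]
    exact (Submodule.mem_orthogonal_singleton_iff_inner_left.1 (h2 hu))

/-- the number of the components and the rank -/
lemma numbers (h : Dec f V χ) :
    cp p * Fintype.card ι ≤ n + cp p - 1 ∧ cp p * k ≤ n ∧ k ≤ Fintype.card ι := by
  classical
  obtain ⟨hc1, hc2⟩ := cp_pos p
  have hk0 : kd χ (∅ : Finset ι) = k := by
    unfold kd
    rw [show Kn χ (∅ : Finset ι) = ⊤ by simp [Kn], finrank_top]
    simp
  have hpos : ∀ i, 1 ≤ finrank ℝ (V i) := by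
    intro i
    rw [Nat.one_le_iff_ne_zero]
    intro h0
    exact h.ne i (Submodule.finrank_eq_zero.1 h0)
  have hkI : k ≤ Fintype.card ι := by
    have h1 := kd_union χ ∅ Finset.univ
    rw [hk0, Finset.empty_union, h.triv, zero_add, Finset.card_univ] at h1
    exact h1
  by_cases htr : ∃ i, χ i = 0
  · obtain ⟨i0, hi0⟩ := htr
    have hother : ∀ i ∈ Finset.univ.erase i0, cp p ≤ finrank ℝ (V i) := by
      intro i hi
      exact h.dim i (fun h0 => (Finset.mem_erase.1 hi).1 (h.one i i0 h0 hi0))
    have h1 := (dims h Finset.univ).1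
    rw [← Finset.add_sum_erase _ _ (Finset.mem_univ i0)] at h1
    have h2 : (Fintype.card ι - 1) * cp p ≤ ∑ i ∈ Finset.univ.erase i0, finrank ℝ (V i) := by
      have h3 := Finset.card_nsmul_le_sum (Finset.univ.erase i0) _ (cp p) hother
      rwa [Finset.card_erase_of_mem (Finset.mem_univ _), Finset.card_univ, smul_eq_mul] at h3
    have hI : 0 < Fintype.card ι := Fintype.card_pos_iff.2 ⟨i0⟩
    have h4 := hpos i0
    obtain ⟨I, hIe⟩ : ∃ I, Fintype.card ι = I + 1 := ⟨Fintype.card ι - 1, by omega⟩
    have hkI1 : k ≤ I := by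
      have h5 : kd χ ({i0} : Finset ι) = k := by
        have h6 : Kn χ ({i0} : Finset ι) = ⊤ := by simp [Kn, hi0]
        unfold kd
        rw [h6, finrank_top]
        simp
      have h7 := kd_union χ {i0} (Finset.univ.erase i0)
      have h8 : ({i0} : Finset ι) ∪ Finset.univ.erase i0 = Finset.univ := by
        ext y
        simp [em]
      rw [h8, h.triv, h5, Finset.card_erase_of_mem (Finset.mem_univ _), Finset.card_univ] at h7
      omega
    rw [hIe, Nat.add_sub_cancel] at h2
    refine ⟨?_, ?_, hkI⟩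
    · rw [hIe, mul_add, mul_one]
      have : I * cp p = cp p * I := mul_comm _ _
      omega
    · calc cp p * k ≤ cp p * I := Nat.mul_le_mul_left _ hkI1
        _ = I * cp p := mul_comm _ _
        _ ≤ n := by omega
  · push Not at htr
    have h1 := (dims h Finset.univ).1
    have h2 : Fintype.card ι * cp p ≤ ∑ i, finrank ℝ (V i) := by
      have h3 := Finset.card_nsmul_le_sum Finset.univ (fun i => finrank ℝ (V i)) (cp p)
        (fun i _ => h.dim i (htr i))
      rwa [Finset.card_univ, smul_eq_mul] at h3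
    have h3 : cp p * Fintype.card ι ≤ n := by rw [mul_comm]; exact h2.trans h1
    exact ⟨by omega, (Nat.mul_le_mul_left _ hkI).trans h3, hkI⟩

/-- the orbit of a point under the subgroup fixing the components of `S` -/
lemma orbit (h : Dec f V χ) (S T : Finset ι) {x : EuclideanSpace ℝ (Fin n)} (hx : ‖x‖ = 1)
    (hsep : ∀ a, U f a x ≠ x → 1 ≤ ‖x - U f a x‖)
    (hT : ∀ i, i ∈ T ↔ i ∉ S ∧ (V i).starProjection x ≠ 0) {r : ℕ} (hr : 0 < r)
    (hk : kd χ (S ∪ T) + r ≤ kd χ S) :
    p ^ r ≤ kissing (∑ i ∈ T, finrank ℝ (V i)) := by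
  classical
  set x' := ∑ i ∈ T, (V i).starProjection x with hx'
  set K := els (Kn χ S) with hK
  -- the difference is fixed
  have hdiff : ∀ a ∈ K, U f a x = U f a x' + (x - x') := by
    intro a ha
    rw [hK, mem_els] at ha
    have h1 : x = x' + ∑ i ∈ Tᶜ, (V i).starProjection x := by
      rw [hx', Finset.sum_add_sum_compl, h.sum x]
    have h2 : U f a (∑ i ∈ Tᶜ, (V i).starProjection x) = ∑ i ∈ Tᶜ, (V i).starProjection x := by
      rw [map_sum]
      apply Finset.sum_congr rfl
      intro i hi
      rw [Finset.mem_compl, hT] at hi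
      by_cases hiS : i ∈ S
      · exact h.fix i _ (Submodule.starProjection_apply_mem _ _) a ((mem_Kn χ).1 ha i hiS)
      · have h3 : (V i).starProjection x = 0 := by
          by_contra hne
          exact hi ⟨hiS, hne⟩
        rw [h3, map_zero]
    have h4 : x - x' = ∑ i ∈ Tᶜ, (V i).starProjection x := by
      conv_lhs => rw [h1]
      abel
    rw [h4]
    conv_lhs => rw [h1]
    rw [map_add, h2]
  have hstab : ∀ a ∈ K, ∀ b ∈ K, U f a x' = U f b x' → a - b ∈ Kn χ (S ∪ T) := by
    intro a ha b hb hab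
    have h1 : U f a x = U f b x := by rw [hdiff a ha, hdiff b hb, hab]
    have h2 : U f (a - b) x = x := by
      have h3 : a - b = -b + a := by abel
      rw [h3, U_add, h1, ← U_add, neg_add_cancel, U_zero]
    rw [hK, mem_els] at ha hb
    rw [mem_Kn]
    intro i hi
    rcases Finset.mem_union.1 hi with h4 | h4
    · exact (mem_Kn χ).1 ((Kn χ S).sub_mem ha hb) i h4
    · exact h.char_zero h2 ((hT i).1 h4).2
  have hsep' : ∀ a ∈ K, ∀ b ∈ K, U f a x' ≠ U f b x' → 1 ≤ ‖U f a x' - U f b x'‖ := by
    intro a ha b hb hab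
    have h1 : U f a x' - U f b x' = U f a x - U f b x := by rw [hdiff a ha, hdiff b hb]; abel
    have h2 : U f b (U f (a - b) x) = U f a x := by
      rw [← U_add]
      congr 2
      abel
    have h3 : U f (a - b) x ≠ x := by
      intro h4
      rw [h4] at h2
      apply hab
      rw [← sub_eq_zero, h1, h2, sub_self]
    rw [h1, ← h2, ← map_sub, U_apply, LinearIsometryEquiv.norm_map, norm_sub_rev]
    exact hsep _ h3
  -- the norm
  have hρ1 : ‖x'‖ ≤ 1 := by
    have h1 : ‖x'‖ ^ 2 ≤ 1 ^ 2 := by
      have h2 := h.sum_sq x'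
      have h3 : ∀ i, ‖(V i).starProjection x'‖ ^ 2 ≤ ‖(V i).starProjection x‖ ^ 2 := by
        intro i
        have h4 : (V i).starProjection x' = if i ∈ T then (V i).starProjection x else 0 := by
          rw [hx', map_sum]
          have h5 : ∀ j ∈ T, (V i).starProjection ((V j).starProjection x) =
              if i = j then (V i).starProjection x else 0 := by
            intro j _
            split_ifs with hij
            · subst hij
              exact Submodule.starProjection_eq_self_iff.2 (Submodule.starProjection_apply_mem _ _)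
            · rw [Submodule.starProjection_apply_eq_zero_iff, Submodule.mem_orthogonal]
              intro u hu
              exact h.orth i j hij u hu _ (Submodule.starProjection_apply_mem _ _)
          rw [Finset.sum_congr rfl h5, Finset.sum_ite_eq]
        rw [h4]
        split_ifs
        · exact le_rfl
        · rw [norm_zero, zero_pow two_ne_zero]
          positivity
      rw [← h2, one_pow]
      refine (Finset.sum_le_sum fun i _ => h3 i).trans ?_
      rw [h.sum_sq x, hx, one_pow]
    exact le_of_sq_le_sq h1 zero_le_one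
  have hcardK : K.card = p ^ kd χ S := by rw [hK, card_els]; rfl
  have hρ0 : 0 < ‖x'‖ := by
    rw [norm_pos_iff]
    intro h0
    have h1 : K.card ≤ p ^ kd χ (S ∪ T) := by
      have h2 : K ⊆ els (Kn χ (S ∪ T)) := by
        intro a ha
        have h0K : (0 : Fin k → ZMod p) ∈ K := by rw [hK, mem_els]; exact Submodule.zero_mem _
        have h3 := hstab a ha 0 h0K (by rw [h0, map_zero, map_zero])
        rw [sub_zero] at h3
        exact mem_els.2 h3
      refine (Finset.card_le_card h2).trans ?_
      rw [card_els]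
      exact le_rfl
    rw [hcardK] at h1
    have h2 := (Nat.pow_le_pow_iff_right hp.out.one_lt).1 h1
    omega
  set ρ := ‖x'‖ with hρ
  set Y := K.image (fun a => ρ⁻¹ • U f a x') with hY
  have hYcard : p ^ r ≤ Y.card := by
    have h1 := Finset.card_le_mul_card_image (f := fun a => ρ⁻¹ • U f a x') K (p ^ kd χ (S ∪ T)) (by
      intro y hy
      obtain ⟨a0, ha0, rfl⟩ := Finset.mem_image.1 hy
      have h2 : Set.InjOn (fun a : Fin k → ZMod p => a - a0)
          (K.filter (fun a => ρ⁻¹ • U f a x' = ρ⁻¹ • U f a0 x') : Set (Fin k → ZMod p)) := by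
        intro a _ b _ hab
        exact sub_left_injective hab
      rw [← Finset.card_image_of_injOn h2, show p ^ kd χ (S ∪ T) =
        (els (Kn χ (S ∪ T))).card by rw [card_els]; rfl]
      apply Finset.card_le_card
      intro b hb
      obtain ⟨a, ha, rfl⟩ := Finset.mem_image.1 hb
      obtain ⟨haK, hae⟩ := Finset.mem_filter.1 ha
      rw [mem_els]
      exact hstab a haK a0 ha0 (smul_right_injective _ (inv_ne_zero hρ0.ne') hae))
    rw [hcardK, ← hY] at h1
    have h2 : p ^ (kd χ (S ∪ T) + r) ≤ p ^ kd χ S := Nat.pow_le_pow_right hp.out.pos hk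
    rw [pow_add] at h2
    exact Nat.le_of_mul_le_mul_left (h2.trans h1) (Nat.pow_pos hp.out.pos)
  refine hYcard.trans ?_
  have hnT : n - ∑ i ∈ Tᶜ, finrank ℝ (V i) = ∑ i ∈ T, finrank ℝ (V i) := by
    have h1 := (dims h T).2.1
    rw [← Finset.sum_add_sum_compl T] at h1
    omega
  rw [← hnT]
  apply (dims h Tᶜ).2.2
  · refine ⟨?_, ?_⟩
    · intro y hy
      obtain ⟨a, ha, rfl⟩ := Finset.mem_image.1 hy
      rw [norm_smul, U_apply, LinearIsometryEquiv.norm_map, norm_inv, norm_norm, ← hρ]
      exact inv_mul_cancel₀ hρ0.ne'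
    · intro y hy z hz hyz
      obtain ⟨a, ha, rfl⟩ := Finset.mem_image.1 hy
      obtain ⟨b, hb, rfl⟩ := Finset.mem_image.1 hz
      have h1 : U f a x' ≠ U f b x' := fun h0 => hyz (by simp only [h0])
      have h2 := hsep' a ha b hb h1
      have h3 := norm_sub_sq_real (U f a x') (U f b x')
      rw [U_apply, U_apply, LinearIsometryEquiv.norm_map, LinearIsometryEquiv.norm_map, ← hρ] at h3
      rw [U_apply, U_apply] at h2
      have h4 : (1 : ℝ) ≤ ‖f (Multiplicative.ofAdd a) x' - f (Multiplicative.ofAdd b) x'‖ ^ 2 :=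
        one_le_pow₀ h2
      rw [real_inner_smul_left, real_inner_smul_right, Real.cos_pi_div_three, U_apply, U_apply]
      have h5 : ρ ^ 2 ≤ 1 := by nlinarith
      have h6 : ⟪f (Multiplicative.ofAdd a) x', f (Multiplicative.ofAdd b) x'⟫_ℝ ≤ ρ ^ 2 / 2 := by
        nlinarith
      have h7 : ρ⁻¹ * (ρ⁻¹ * ⟪f (Multiplicative.ofAdd a) x', f (Multiplicative.ofAdd b) x'⟫_ℝ) ≤
          ρ⁻¹ * (ρ⁻¹ * (ρ ^ 2 / 2)) := by
        have : 0 < ρ⁻¹ := inv_pos.2 hρ0
        exact mul_le_mul_of_nonneg_left (mul_le_mul_of_nonneg_left h6 this.le) this.le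
      refine h7.trans (le_of_eq ?_)
      field_simp
  · intro y hy i hi
    obtain ⟨a, ha, rfl⟩ := Finset.mem_image.1 hy
    rw [map_smul, hx', map_sum, map_sum]
    rw [Finset.sum_eq_zero, smul_zero]
    intro j hj
    rw [Submodule.starProjection_apply_eq_zero_iff, Submodule.mem_orthogonal]
    intro u hu
    refine h.orth i j (fun hij => (Finset.mem_compl.1 hi) (hij ▸ hj)) u hu _ ?_
    exact h.inv j _ (Submodule.starProjection_apply_mem _ _) a

end Pool.Agent.Helper909EA.Sph
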