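import Pool.Agent.Helper909_ea.SphLow

/-! Kissing configurations invariant under elementary abelian groups: growth rates. -/

set_option autoImplicit false

open Module Filter
open scoped InnerProductSpace Topology

namespace Pool.Agent.Helper909EA.Sph

open Pool.Agent.Helper909EA Pool.Agent.H818R2 Pool.Agent.H161R2.KissSym

/-- `c_p / log_2 p` -/
noncomputable def ap (p : ℕ) : ℝ := cp p / Real.logb 2 p

lemma ap_pos {p : ℕ} (hp : p.Prime) : 0 < ap p := by
  have h1 := log_pos hp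
  have h2 : (0 : ℝ) < cp p := by exact_mod_cast (cp_pos p).1
  unfold ap
  positivity

lemma ap_le {p : ℕ} (hp : p.Prime) : ap p ≤ 13 / 10 := by
  have hL := log_pos hp
  unfold ap
  rw [div_le_iff₀ (by linarith)]
  by_cases h2 : p = 2
  · have hc : cp p = 1 := by unfold cp; rw [if_pos h2]
    rw [hc]
    push_cast
    linarith
  · have hc : cp p = 2 := by unfold cp; rw [if_neg h2]
    have hp3 : 3 ≤ p := by
      have := hp.two_le
      omega
    have h3 : (20 : ℝ) ≤ 13 * Real.logb 2 p := by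
      have h4 : (13 : ℝ) * Real.logb 2 p = Real.logb 2 ((p : ℝ) ^ 13) := by
        rw [Real.logb_pow]
        norm_num
      have hp0 : (0 : ℝ) < p := by exact_mod_cast hp.pos
      rw [h4, Real.le_logb_iff_rpow_le (by norm_num) (by positivity)]
      calc (2 : ℝ) ^ (20 : ℝ) = (2 : ℝ) ^ (20 : ℕ) := by
            rw [← Real.rpow_natCast]; norm_num
        _ ≤ (3 : ℝ) ^ 13 := by norm_num
        _ ≤ (p : ℝ) ^ 13 := pow_le_pow_left₀ (by norm_num) (by exact_mod_cast hp3) 13
    rw [hc]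
    push_cast
    linarith

lemma ap_eq (p : ℕ) (c : ℝ) : (cp p : ℝ) * (c / Real.logb 2 p) = ap p * c := by
  unfold ap
  ring

lemma cplus_le' : cplus ≤ 397 / 1000 := cplus_le

/-- the growth rate -/
theorem rate {ε : ℝ} (hε : 0 < ε) : ∃ n0 : ℕ, ∀ n ≥ n0, ∀ p k : ℕ, p.Prime → cp p * k ≤ n →
    (kissSym p k n : ℝ) ≤
      (2 : ℝ) ^ (cplus * (n - cp p * k) / (1 - ap p * cplus) + ε * n) := by
  have hc0 := cplus_nonneg
  have hc1 := cplus_le'
  set δ := min (1 / 10) (ε / 32) with hδ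
  have hδ0 : 0 < δ := lt_min (by norm_num) (by positivity)
  have hδ1 : δ ≤ 1 / 10 := min_le_left _ _
  have hδ2 : δ ≤ ε / 32 := min_le_right _ _
  obtain ⟨C, hC⟩ := upper hδ0
  obtain ⟨N, hN⟩ := exists_nat_gt ((C : ℝ) * (4 / ε))
  have h3 := unif' (ε := ε / 4) (by positivity)
  have h4 := poly_le (a := ε / 4) (by positivity) C
  obtain ⟨n0, hn0⟩ := eventually_atTop.1 (h3.and h4)
  refine ⟨max n0 N, ?_⟩
  intro n hn p k hp hk
  obtain ⟨h5, h6⟩ := hn0 n ((le_max_left _ _).trans hn)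
  have hnN : (N : ℝ) ≤ n := by exact_mod_cast (le_max_right _ _).trans hn
  have hnr : (0 : ℝ) ≤ n := Nat.cast_nonneg n
  have ha0 := ap_pos hp
  have ha1 := ap_le hp
  have hL := log_pos hp
  set A := 1 - ap p * cplus with hA
  have hA1 : 12 / 25 ≤ A := by
    have : ap p * cplus ≤ 13 / 10 * (397 / 1000) := mul_le_mul ha1 hc1 hc0 (by norm_num)
    linarith
  set A' := 1 - (cp p : ℝ) * ((cplus + δ) / Real.logb 2 p) with hA'
  have hA'e : A' = A - ap p * δ := by
    rw [hA', ap_eq, hA]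
    ring
  have hA'1 : 7 / 20 ≤ A' := by
    have : ap p * δ ≤ 13 / 10 * (1 / 10) := mul_le_mul ha1 hδ1 hδ0.le (by norm_num)
    rw [hA'e]
    linarith
  have hβ : (cp p : ℝ) * (cplus + δ) < Real.logb 2 p := by
    have h7 : 0 < 1 - (cp p : ℝ) * ((cplus + δ) / Real.logb 2 p) := by
      rw [← hA']; linarith
    rw [← mul_div_assoc, sub_pos, div_lt_one (by linarith)] at h7
    exact h7
  have h7 : kissSym p k n ≤ (n + 1) ^ C * kissing
      (min n (⌊((n : ℝ) - cp p * k) / A'⌋₊ + C)) :=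
    kissSym_le fun X hX hs => hC p k n hp hβ X hX hs
  set K := min n (⌊((n : ℝ) - cp p * k) / A'⌋₊ + C) with hK
  have h8 := h5 K (min_le_left _ _)
  have hkr : ((cp p * k : ℕ) : ℝ) ≤ n := by exact_mod_cast hk
  push_cast at hkr
  set M := (n : ℝ) - cp p * k with hM
  have hM0 : 0 ≤ M := by rw [hM]; linarith
  have hMn : M ≤ n := by
    have : (0 : ℝ) ≤ (cp p : ℝ) * k := by positivity
    rw [hM]; linarith
  have hKr : (K : ℝ) ≤ M / A + ε / 4 * n + ε / 4 * n := by
    have h9 : (K : ℝ) ≤ ((⌊M / A'⌋₊ + C : ℕ) : ℝ) := by exact_mod_cast min_le_right _ _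
    have h10 : ((⌊M / A'⌋₊ : ℕ) : ℝ) ≤ M / A' := Nat.floor_le (by positivity)
    have h11 : M / A' ≤ M / A + ε / 4 * n := by
      rw [div_le_iff₀ (by linarith)]
      have h12 : M / A * A = M := by
        field_simp
      have h13 : M / A * (ap p * δ) ≤ ε / 4 * n * A' := by
        have h14 : M / A ≤ n * (25 / 12) := by
          rw [div_le_iff₀ (by linarith)]
          nlinarith
        have h15 : ap p * δ ≤ 13 / 10 * (ε / 32) := mul_le_mul ha1 hδ2 hδ0.le (by norm_num)
        calc M / A * (ap p * δ) ≤ (n * (25 / 12)) * (13 / 10 * (ε / 32)) :=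
              mul_le_mul h14 h15 (by positivity) (by positivity)
          _ ≤ ε / 4 * n * (7 / 20) := by nlinarith [mul_nonneg hε.le hnr]
          _ ≤ _ := mul_le_mul_of_nonneg_left hA'1 (by positivity)
      have h16 : (M / A + ε / 4 * n) * A' = M - M / A * (ap p * δ) + ε / 4 * n * A' := by
        rw [add_mul, hA'e, mul_sub (M / A), h12]
      rw [h16]
      linarith
    have h15 : (C : ℝ) ≤ ε / 4 * n := by
      have h16 : (C : ℝ) * (4 / ε) ≤ n := hN.le.trans hnN
      rw [← mul_div_assoc, div_le_iff₀ hε] at h16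
      linarith
    push_cast at h9
    linarith
  calc (kissSym p k n : ℝ) ≤ ((n : ℝ) + 1) ^ C * kissing K := by exact_mod_cast h7
    _ ≤ (2 : ℝ) ^ (ε / 4 * n) * (2 : ℝ) ^ (cplus * K + ε / 4 * n) :=
        mul_le_mul h6 h8 (Nat.cast_nonneg _) (by positivity)
    _ = (2 : ℝ) ^ (ε / 4 * n + (cplus * K + ε / 4 * n)) := by
        rw [← Real.rpow_add (by norm_num)]
    _ ≤ _ := by
        apply Real.rpow_le_rpow_of_exponent_le (by norm_num)
        have h17 : cplus * K ≤ cplus * (M / A) + (ε / 4 * n + ε / 4 * n) := by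
          calc cplus * K ≤ cplus * (M / A + ε / 4 * n + ε / 4 * n) :=
                mul_le_mul_of_nonneg_left hKr hc0
            _ = cplus * (M / A) + cplus * (ε / 4 * n + ε / 4 * n) := by ring
            _ ≤ _ := by
                have : cplus * (ε / 4 * n + ε / 4 * n) ≤ 1 * (ε / 4 * n + ε / 4 * n) :=
                  mul_le_mul_of_nonneg_right (by linarith) (by positivity)
                linarith
        rw [mul_div_assoc]
        linarith

lemma small_aux {ε : ℝ} {n p k : ℕ} (hn : 0 < n)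
    (h : (kissSym p k n : ℝ) ≤ (2 : ℝ) ^ (cplus * (n - cp p * k) / (1 - ap p * cplus) + ε * n))
    (h2 : cplus * (n - cp p * k) / (1 - ap p * cplus) + ε * n ≤ (83 / 400 - 1 / 1000 : ℝ) * n) :
    (kissSym p k n : ℝ) ≤ (2 : ℝ) ^ (-(n : ℝ) / 1000) * kissing n := by
  refine h.trans ?_
  calc (2 : ℝ) ^ (cplus * (n - cp p * k) / (1 - ap p * cplus) + ε * n)
      ≤ (2 : ℝ) ^ (-(n : ℝ) / 1000 + (83 / 400 : ℝ) * n) := by
        apply Real.rpow_le_rpow_of_exponent_le (by norm_num)
        linarith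
    _ = (2 : ℝ) ^ (-(n : ℝ) / 1000) * (2 : ℝ) ^ ((83 / 400 : ℝ) * n) := by
        rw [← Real.rpow_add (by norm_num)]
    _ ≤ _ := mul_le_mul_of_nonneg_left (wyner' n hn) (by positivity)

/-- groups of large rank -/
theorem small : ∃ n0 : ℕ, ∀ n ≥ n0, ∀ p k : ℕ, p.Prime → cp p * k ≤ n →
    (3 * n ≤ 4 * (cp p * k) ∨ p = 2 ∧ 7 * n ≤ 10 * k) →
    (kissSym p k n : ℝ) ≤ (2 : ℝ) ^ (-(n : ℝ) / 1000) * kissing n := by
  obtain ⟨n0, h⟩ := rate (ε := 1 / 1000) (by norm_num)
  refine ⟨max n0 1, ?_⟩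
  intro n hn p k hp hk hk3
  have hn0 : 0 < n := lt_of_lt_of_le one_pos ((le_max_right _ _).trans hn)
  have h1 := h n ((le_max_left _ _).trans hn) p k hp hk
  have hc1 := cplus_le'
  have hc0 := cplus_nonneg
  have ha0 := ap_pos hp
  have ha1 := ap_le hp
  have hnr : (0 : ℝ) ≤ n := Nat.cast_nonneg n
  have hkr : ((cp p * k : ℕ) : ℝ) ≤ n := by exact_mod_cast hk
  push_cast at hkr
  apply small_aux hn0 h1
  have hA1 : 4839 / 10000 ≤ 1 - ap p * cplus := by
    have : ap p * cplus ≤ 13 / 10 * (397 / 1000) := mul_le_mul ha1 hc1 hc0 (by norm_num)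
    linarith
  suffices hs : cplus * (n - cp p * k) / (1 - ap p * cplus) ≤ (2055 / 10000 : ℝ) * n by linarith
  rcases hk3 with hk3 | ⟨h2, hk3⟩
  · have hkr3 : (3 : ℝ) * n ≤ 4 * (cp p * k) := by exact_mod_cast hk3
    rw [div_le_iff₀ (by linarith)]
    calc cplus * (n - cp p * k) ≤ 397 / 1000 * ((n : ℝ) / 4) :=
          mul_le_mul hc1 (by linarith) (by linarith) (by norm_num)
      _ ≤ 2055 / 10000 * n * (4839 / 10000) := by nlinarith
      _ ≤ _ := mul_le_mul_of_nonneg_left hA1 (by positivity)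
  · have hc : cp p = 1 := by unfold cp; rw [if_pos h2]
    have ha : ap p = 1 := by
      unfold ap
      rw [hc, h2]
      simp
    rw [hc] at hkr ⊢
    rw [ha]
    push_cast at hkr ⊢
    have hkr3 : (7 : ℝ) * n ≤ 10 * k := by exact_mod_cast hk3
    rw [div_le_iff₀ (by linarith)]
    calc cplus * (n - 1 * k) ≤ 397 / 1000 * ((n : ℝ) * (3 / 10)) :=
          mul_le_mul hc1 (by linarith) (by linarith) (by norm_num)
      _ ≤ 2055 / 10000 * n * (603 / 1000) := by nlinarith
      _ ≤ _ := mul_le_mul_of_nonneg_left (by linarith) (by positivity)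

end Pool.Agent.Helper909EA.Sph
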