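import Pool.Agent.Helper909_ea.SphRate

/-! Kissing configurations invariant under elementary abelian groups: lower bound. -/

set_option autoImplicit false

open Module Filter
open scoped InnerProductSpace Topology

namespace Pool.Agent.Helper909EA.Sph

open Pool.Agent.Helper909EA Pool.Agent.H818R2 Pool.Agent.H161R2.KissSym

section
variable {p k r : ℕ} {B : Type} [NormedAddCommGroup B] [InnerProductSpace ℝ B]
  [FiniteDimensional ℝ B]

/-- the space of the construction -/
abbrev Sp (B : Type) [NormedAddCommGroup B] [InnerProductSpace ℝ B] (k r : ℕ) : Type :=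
  WithLp 2 ((PiLp 2 (fun _ : Fin k => B)) × EuclideanSpace ℝ (Fin r))

/-- the action -/
noncomputable def act (ρ : Multiplicative (ZMod p) →* (B ≃ₗᵢ[ℝ] B))
    (g : Multiplicative (Fin k → ZMod p)) : Sp B k r ≃ₗᵢ[ℝ] Sp B k r :=
  LinearIsometryEquiv.withLpProdCongr 2
    (LinearIsometryEquiv.piLpCongrRight 2
      (fun i => ρ (Multiplicative.ofAdd (Multiplicative.toAdd g i))))
    (LinearIsometryEquiv.refl ℝ (EuclideanSpace ℝ (Fin r)))

lemma act_fst (ρ : Multiplicative (ZMod p) →* (B ≃ₗᵢ[ℝ] B))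
    (g : Multiplicative (Fin k → ZMod p)) (x : Sp B k r) (i : Fin k) :
    (act ρ g x).fst i = ρ (Multiplicative.ofAdd (Multiplicative.toAdd g i)) (x.fst i) := rfl

lemma act_snd (ρ : Multiplicative (ZMod p) →* (B ≃ₗᵢ[ℝ] B))
    (g : Multiplicative (Fin k → ZMod p)) (x : Sp B k r) :
    (act ρ g x).snd = x.snd := rfl

lemma sp_ext {x y : Sp B k r} (h1 : ∀ i, x.fst i = y.fst i) (h2 : x.snd = y.snd) : x = y := by
  apply WithLp.ofLp_injective 2
  apply Prod.ext
  · exact PiLp.ext h1
  · exact h2

noncomputable def actHom (ρ : Multiplicative (ZMod p) →* (B ≃ₗᵢ[ℝ] B)) :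
    Multiplicative (Fin k → ZMod p) →* (Sp B k r ≃ₗᵢ[ℝ] Sp B k r) where
  toFun := act ρ
  map_one' := by
    apply LinearIsometryEquiv.ext
    intro x
    apply sp_ext
    · intro i
      rw [act_fst]
      simp
    · rw [act_snd]
      rfl
  map_mul' := by
    intro g h
    apply LinearIsometryEquiv.ext
    intro x
    apply sp_ext
    · intro i
      change (act ρ (g * h) x).fst i = (act ρ g (act ρ h x)).fst i
      rw [act_fst, act_fst, act_fst, toAdd_mul, Pi.add_apply, ofAdd_add, map_mul]
      rfl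
    · rfl

lemma actHom_inj {ρ : Multiplicative (ZMod p) →* (B ≃ₗᵢ[ℝ] B)} (hρ : Function.Injective ρ) :
    Function.Injective (actHom (k := k) (r := r) ρ) := by
  intro g h hgh
  apply Multiplicative.toAdd.injective
  funext i
  apply Multiplicative.ofAdd.injective
  apply hρ
  apply LinearIsometryEquiv.ext
  intro b
  have h1 := congrArg (fun F : Sp B k r ≃ₗᵢ[ℝ] Sp B k r =>
    (F (WithLp.toLp 2 (WithLp.toLp 2 (fun _ => b), 0))).fst i) hgh
  exact h1

lemma act_fix (ρ : Multiplicative (ZMod p) →* (B ≃ₗᵢ[ℝ] B)) (g : Multiplicative (Fin k → ZMod p))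
    (y : EuclideanSpace ℝ (Fin r)) :
    actHom (r := r) ρ g (WithLp.toLp 2 (0, y)) = WithLp.toLp 2 (0, y) := by
  apply sp_ext
  · intro i
    change (act ρ g _).fst i = _
    rw [act_fst]
    simp
  · rfl

/-- the construction in `ℝⁿ` -/
theorem exists_action {n : ℕ} {ρ : Multiplicative (ZMod p) →* (B ≃ₗᵢ[ℝ] B)}
    (hρ : Function.Injective ρ) (hn : finrank ℝ B * k ≤ n) :
    ∃ (f : Multiplicative (Fin k → ZMod p) →* Isom n) (W : Submodule ℝ (E n)),
      Function.Injective f ∧ n - finrank ℝ B * k ≤ finrank ℝ W ∧ ∀ g, ∀ x ∈ W, f g x = x := by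
  obtain ⟨r, hr⟩ := Nat.exists_eq_add_of_le hn
  have hfin : finrank ℝ (Sp B k r) = n := by
    have h1 : finrank ℝ (Sp B k r) =
        finrank ℝ ((PiLp 2 (fun _ : Fin k => B)) × EuclideanSpace ℝ (Fin r)) :=
      (WithLp.linearEquiv 2 ℝ _).finrank_eq
    have h2 : finrank ℝ (PiLp 2 (fun _ : Fin k => B)) = k * finrank ℝ B := by
      rw [(WithLp.linearEquiv 2 ℝ (Fin k → B)).finrank_eq, finrank_pi_fintype]
      simp
    rw [h1, finrank_prod, h2, finrank_euclideanSpace_fin, hr]
    ring
  set Φ : Sp B k r ≃ₗᵢ[ℝ] E n := ((stdOrthonormalBasis ℝ (Sp B k r)).reindex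
    (finCongr hfin)).repr with hΦ
  set f : Multiplicative (Fin k → ZMod p) →* Isom n :=
    { toFun := fun g => (Φ.symm.trans (actHom ρ g)).trans Φ
      map_one' := by
        ext x
        simp
      map_mul' := by
        intro g h
        apply LinearIsometryEquiv.ext
        intro x
        simp } with hf
  have hfa : ∀ g x, f g x = Φ (actHom ρ g (Φ.symm x)) := fun g x => rfl
  set J : EuclideanSpace ℝ (Fin r) →ₗ[ℝ] E n :=
    { toFun := fun y => Φ (WithLp.toLp 2 (0, y))
      map_add' := by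
        intro x y
        rw [← map_add]
        congr 1
        apply sp_ext
        · intro i; simp
        · rfl
      map_smul' := by
        intro c x
        rw [RingHom.id_apply, ← map_smul]
        congr 1
        apply sp_ext
        · intro i; simp
        · rfl } with hJ
  have hJinj : Function.Injective J := by
    intro x y hxy
    have h1 : (WithLp.toLp 2 (0, x) : Sp B k r) = WithLp.toLp 2 (0, y) := Φ.injective hxy
    exact congrArg (fun z : Sp B k r => z.snd) h1
  refine ⟨f, LinearMap.range J, ?_, ?_, ?_⟩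
  · intro g h hgh
    apply actHom_inj (r := r) hρ
    apply LinearIsometryEquiv.ext
    intro x
    have h1 := congrArg (fun F : Isom n => F (Φ x)) hgh
    simp only [hfa, LinearIsometryEquiv.symm_apply_apply] at h1
    exact Φ.injective h1
  · rw [LinearMap.finrank_range_of_inj hJinj, finrank_euclideanSpace_fin]
    omega
  · rintro g _ ⟨y, rfl⟩
    rw [hfa]
    change Φ (actHom ρ g (Φ.symm (Φ (WithLp.toLp 2 (0, y))))) = Φ (WithLp.toLp 2 (0, y))
    rw [LinearIsometryEquiv.symm_apply_apply, act_fix]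

end

/-- the reflection group of the line -/
noncomputable def rho2 : Multiplicative (ZMod 2) →* (ℝ ≃ₗᵢ[ℝ] ℝ) where
  toFun g := if Multiplicative.toAdd g = 0 then 1 else LinearIsometryEquiv.neg ℝ
  map_one' := by simp
  map_mul' := by
    intro g h
    have h0 : ∀ a : ZMod 2, a = 0 ∨ a = 1 := by decide
    have h1 : (LinearIsometryEquiv.neg ℝ : ℝ ≃ₗᵢ[ℝ] ℝ) * LinearIsometryEquiv.neg ℝ = 1 := by
      apply LinearIsometryEquiv.ext
      intro x
      change - -x = x
      rw [neg_neg]
    have h2 : (1 : ZMod 2) ≠ 0 := by decide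
    have h3 : (1 : ZMod 2) + 1 = 0 := by decide
    rw [toAdd_mul]
    rcases h0 (Multiplicative.toAdd g) with hg | hg <;>
      rcases h0 (Multiplicative.toAdd h) with hh | hh <;>
      simp [hg, hh, h1, h2, h3]

lemma rho2_inj : Function.Injective rho2 := by
  rw [injective_iff_map_eq_one]
  intro g hg
  by_contra hne
  have h1 : Multiplicative.toAdd g ≠ 0 := hne
  have h2 : rho2 g = LinearIsometryEquiv.neg ℝ := by
    change (if Multiplicative.toAdd g = 0 then 1 else LinearIsometryEquiv.neg ℝ) = _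
    rw [if_neg h1]
  rw [h2] at hg
  have h3 := congrArg (fun F : ℝ ≃ₗᵢ[ℝ] ℝ => F 1) hg
  have h4 : (-1 : ℝ) = 1 := h3
  norm_num at h4

/-- the cyclic group of rotations of the plane -/
noncomputable def rhoC (p : ℕ) [NeZero p] : Multiplicative (ZMod p) →* (ℂ ≃ₗᵢ[ℝ] ℂ) :=
  rotation.comp (ZMod.toCircle (N := p)).toMonoidHom

lemma rhoC_inj (p : ℕ) [NeZero p] : Function.Injective (rhoC p) := by
  intro a b hab
  have h1 : ZMod.toCircle (Multiplicative.toAdd a) = ZMod.toCircle (Multiplicative.toAdd b) :=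
    rotation_injective hab
  exact ZMod.injective_toCircle h1

theorem exists_act {p k n : ℕ} (hp : p.Prime) (hk : cp p * k ≤ n) :
    ∃ (f : Multiplicative (Fin k → ZMod p) →* Isom n) (W : Submodule ℝ (E n)),
      Function.Injective f ∧ n - cp p * k ≤ finrank ℝ W ∧ ∀ g, ∀ x ∈ W, f g x = x := by
  have : NeZero p := ⟨hp.ne_zero⟩
  by_cases h2 : p = 2
  · subst h2
    have hc : cp 2 = 1 := rfl
    have h := exists_action (k := k) (n := n) rho2_inj (by rw [finrank_self]; rwa [hc] at hk)
    rwa [finrank_self, ← hc] at h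
  · have hc : cp p = 2 := by unfold cp; rw [if_neg h2]
    have h := exists_action (k := k) (n := n) (rhoC_inj p)
      (by rw [Complex.finrank_real_complex]; rwa [hc] at hk)
    rwa [Complex.finrank_real_complex, ← hc] at h

theorem lower {p k n : ℕ} (hp : p.Prime) (hk : cp p * k ≤ n) :
    kissing (n - cp p * k) ≤ kissSym p k n := by
  obtain ⟨f, W, hf, hW, hfW⟩ := exists_act hp hk
  obtain ⟨X, hX, hXW, hXc⟩ := exists_code_sub (θ := Real.pi / 3) sin_pos W
  have h1 : kissing (n - cp p * k) ≤ X.card := by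
    rw [hXc]
    exact kissing_mono hW
  refine h1.trans (le_kissSym hX ⟨f, hf, fun g x hx => ?_⟩)
  rw [hfW g x (hXW x hx)]
  exact hx

end Pool.Agent.Helper909EA.Sph
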