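import Pool.Agent.Helper909_ea.SphCount
import Pool.Agent.Helper909_ea.KissFin
import Pool.Agent.H161R2.KissStat

/-! Kissing configurations invariant under elementary abelian groups: growth rates. -/

set_option autoImplicit false

open Module Filter
open scoped InnerProductSpace Topology

namespace Pool.Agent.Helper909EA.Sph

open Pool.Agent.Helper909EA Pool.Agent.H818R2 Pool.Agent.H161R2.KissSym

/-- `(ℤ/p)^k` acts faithfully on `ℝⁿ` by linear isometries which map `X` into itself -/
def HasSym (p k : ℕ) {n : ℕ} (X : Finset (E n)) : Prop :=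
  ∃ f : Multiplicative (Fin k → ZMod p) →* Isom n, Function.Injective f ∧ ∀ g, ∀ x ∈ X, f g x ∈ X

/-- the largest size of a kissing configuration of `ℝⁿ` with a group `(ℤ/p)^k` of symmetries -/
noncomputable def kissSym (p k n : ℕ) : ℕ :=
  sSup {N | ∃ X : Finset (E n), IsSphCode n (Real.pi / 3) X ∧ HasSym p k X ∧ X.card = N}

lemma code_le {n : ℕ} {X : Finset (E n)} (hX : IsSphCode n (Real.pi / 3) X) : X.card ≤ kissing n := by
  have h1 := card_le_sub sin_pos ⊤ hX (fun x _ => Submodule.mem_top)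
  rw [finrank_top, finrank_euclideanSpace_fin] at h1
  exact h1

lemma sym_bdd (p k n : ℕ) : BddAbove
    {N | ∃ X : Finset (E n), IsSphCode n (Real.pi / 3) X ∧ HasSym p k X ∧ X.card = N} :=
  ⟨kissing n, by rintro N ⟨X, hX, -, rfl⟩; exact code_le hX⟩

lemma le_kissSym {p k n : ℕ} {X : Finset (E n)} (hX : IsSphCode n (Real.pi / 3) X)
    (h : HasSym p k X) : X.card ≤ kissSym p k n :=
  le_csSup (sym_bdd p k n) ⟨X, hX, h, rfl⟩

lemma kissSym_le {p k n C : ℕ} (h : ∀ X : Finset (E n), IsSphCode n (Real.pi / 3) X →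
    HasSym p k X → X.card ≤ C) : kissSym p k n ≤ C := by
  rcases Set.eq_empty_or_nonempty
    {N | ∃ X : Finset (E n), IsSphCode n (Real.pi / 3) X ∧ HasSym p k X ∧ X.card = N} with h0 | h0
  · unfold kissSym
    rw [h0]
    simp
  · apply csSup_le h0
    rintro N ⟨X, hX, hs, rfl⟩
    exact h X hX hs

theorem rank_le {p k n : ℕ} (hp : p.Prime) {X : Finset (E n)} (h : HasSym p k X) :
    cp p * k ≤ n := by
  have : Fact p.Prime := ⟨hp⟩
  obtain ⟨f, hf, -⟩ := h
  obtain ⟨ι, _, _, V, χ, hd⟩ := exists_dec f hf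
  exact (numbers hd).2.1

lemma cplus_nonneg : 0 ≤ cplus := by
  unfold cplus
  apply le_limsup_of_frequently_le
  · exact Eventually.frequently (Eventually.of_forall fun d =>
      div_nonneg (logb_nat_nonneg _) (Nat.cast_nonneg d))
  · refine ⟨Real.logb 2 ((1 + 2 * Real.sin (Real.pi / 3 / 2)) / Real.sin (Real.pi / 3 / 2)), ?_⟩
    rw [eventually_map]
    exact Eventually.of_forall fun d => codeRate_le sin_pos d

lemma rate_bdd' : IsBoundedUnder (· ≤ ·) atTop (fun d : ℕ => Real.logb 2 (kissing d) / d) := by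
  refine ⟨Real.logb 2 ((1 + 2 * Real.sin (Real.pi / 3 / 2)) / Real.sin (Real.pi / 3 / 2)), ?_⟩
  rw [eventually_map]
  exact Eventually.of_forall fun d => codeRate_le sin_pos d

/-- uniform bound for the dimensions up to `n` -/
theorem unif' {ε : ℝ} (hε : 0 < ε) : ∀ᶠ n : ℕ in atTop, ∀ K : ℕ, K ≤ n →
    (kissing K : ℝ) ≤ (2 : ℝ) ^ (cplus * K + ε * n) := by
  have hc := cplus_nonneg
  have hlt : ∀ᶠ d : ℕ in atTop, Real.logb 2 (kissing d) / d < cplus + ε :=
    eventually_lt_of_limsup_lt (by unfold cplus; linarith) rate_bdd'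
  obtain ⟨k0, hk0⟩ := eventually_atTop.1 hlt
  have hr : (1 : ℝ) < 2 ^ ε := Real.one_lt_rpow (by norm_num) hε
  have h1 : Tendsto (fun n : ℕ => ((2 : ℝ) ^ ε) ^ n) atTop atTop :=
    tendsto_pow_atTop_atTop_of_one_lt hr
  have h2 := h1.eventually (eventually_ge_atTop (kissing (k0 + 1) : ℝ))
  filter_upwards [h2] with n hn K hK
  rcases le_or_gt K (k0 + 1) with hK1 | hK1
  · have h3 : (kissing K : ℝ) ≤ kissing (k0 + 1) := by exact_mod_cast kissing_mono hK1
    calc (kissing K : ℝ) ≤ kissing (k0 + 1) := h3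
      _ ≤ ((2 : ℝ) ^ ε) ^ n := hn
      _ = (2 : ℝ) ^ (ε * n) := by rw [Real.rpow_mul (by norm_num), Real.rpow_natCast]
      _ ≤ _ := by
          apply Real.rpow_le_rpow_of_exponent_le (by norm_num)
          have : 0 ≤ cplus * K := by positivity
          linarith
  · have hd' : (0 : ℝ) < K := by
      have : 0 < K := by omega
      exact_mod_cast this
    have h3 := hk0 K (by omega)
    rw [div_lt_iff₀ hd'] at h3
    have hKn : (K : ℝ) ≤ n := by exact_mod_cast hK
    rcases Nat.eq_zero_or_pos (kissing K) with h | h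
    · rw [h]
      simp only [Nat.cast_zero]
      positivity
    · rw [← Real.logb_le_iff_le_rpow (by norm_num) (by exact_mod_cast h)]
      nlinarith

/-- a bound for all dimensions -/
theorem kiss_const {δ : ℝ} (hδ : 0 < δ) : ∃ C : ℝ, 0 ≤ C ∧ ∀ d : ℕ,
    (kissing d : ℝ) ≤ (2 : ℝ) ^ ((cplus + δ) * d + C) := by
  have hc := cplus_nonneg
  have hlt : ∀ᶠ d : ℕ in atTop, Real.logb 2 (kissing d) / d < cplus + δ :=
    eventually_lt_of_limsup_lt (by unfold cplus; linarith) rate_bdd'
  obtain ⟨k0, hk0⟩ := eventually_atTop.1 hlt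
  refine ⟨kissing (k0 + 1), Nat.cast_nonneg _, fun d => ?_⟩
  rcases le_or_gt d (k0 + 1) with hd | hd
  · have h1 : kissing d ≤ 2 ^ kissing (k0 + 1) :=
      (kissing_mono hd).trans Nat.lt_two_pow_self.le
    calc (kissing d : ℝ) ≤ (2 : ℝ) ^ kissing (k0 + 1) := by exact_mod_cast h1
      _ = (2 : ℝ) ^ ((kissing (k0 + 1) : ℕ) : ℝ) := by rw [Real.rpow_natCast]
      _ ≤ _ := by
          apply Real.rpow_le_rpow_of_exponent_le (by norm_num)
          have : 0 ≤ (cplus + δ) * d := by positivity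
          linarith
  · have hd' : (0 : ℝ) < d := by
      have : 0 < d := by omega
      exact_mod_cast this
    have h3 := hk0 d (by omega)
    rw [div_lt_iff₀ hd'] at h3
    rcases Nat.eq_zero_or_pos (kissing d) with h | h
    · rw [h]
      simp only [Nat.cast_zero]
      positivity
    · rw [← Real.logb_le_iff_le_rpow (by norm_num) (by exact_mod_cast h)]
      have : (0 : ℝ) ≤ kissing (k0 + 1) := Nat.cast_nonneg _
      linarith

lemma log_pos {p : ℕ} (hp : p.Prime) : 1 ≤ Real.logb 2 p := by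
  rw [Real.le_logb_iff_rpow_le (by norm_num) (by exact_mod_cast hp.pos), Real.rpow_one]
  exact_mod_cast hp.two_le

/-- the upper bound -/
theorem upper {δ : ℝ} (hδ : 0 < δ) : ∃ C : ℕ, ∀ p k n : ℕ, p.Prime →
    cp p * (cplus + δ) < Real.logb 2 p → ∀ X : Finset (E n), IsSphCode n (Real.pi / 3) X →
    HasSym p k X → X.card ≤ (n + 1) ^ C * kissing
      (min n (⌊((n : ℝ) - cp p * k) / (1 - cp p * ((cplus + δ) / Real.logb 2 p))⌋₊ + C)) := by
  obtain ⟨C1, hC1, hkc⟩ := kiss_const (δ := δ / 2) (by positivity)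
  refine ⟨⌈2 * C1 / δ⌉₊, ?_⟩
  set C := ⌈2 * C1 / δ⌉₊ with hC
  have hc0 := cplus_nonneg
  intro p k n hp hβ X hX hsym
  have : Fact p.Prime := ⟨hp⟩
  classical
  obtain ⟨f, hf, hinv⟩ := hsym
  obtain ⟨ι, _, _, V, χ, h⟩ := exists_dec f hf
  obtain ⟨-, hck, hkI⟩ := numbers h
  have hL := log_pos hp
  have hL0 : 0 < Real.logb 2 p := lt_of_lt_of_le one_pos hL
  set L := Real.logb 2 p with hLdef
  set β := (cplus + δ) / L with hβdef
  have hβ0 : 0 < β := by positivity
  have hcβ : 0 < 1 - (cp p : ℝ) * β := by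
    rw [hβdef, ← mul_div_assoc, sub_pos, div_lt_one hL0]
    exact hβ
  have hpos : ∀ i, 0 < finrank ℝ (V i) := by
    intro i
    rw [Nat.pos_iff_ne_zero]
    intro h0
    exact h.ne i (Submodule.finrank_eq_zero.1 h0)
  obtain ⟨S0, hS0t, hS0c, hS0⟩ := exists_max χ (fun i => finrank ℝ (V i)) hβ0 (c := cp p)
    (fun i hi => h.dim i hi) hpos h.triv
  have hfk : finrank (ZMod p) (Fin k → ZMod p) = k := by simp
  rw [hfk, (dims h ∅).2.1] at hS0c
  set supp : EuclideanSpace ℝ (Fin n) → Finset ι :=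
    fun x => Finset.univ.filter (fun i => i ∉ S0 ∧ (V i).starProjection x ≠ 0) with hsupp
  have hs : ∀ x ∈ X, ∑ i ∈ supp x, finrank ℝ (V i) ≤ C := by
    intro x hx
    have hd : Disjoint S0 (supp x) := by
      rw [Finset.disjoint_left]
      intro i hi hiT
      exact (Finset.mem_filter.1 hiT).2.1 hi
    have h1 := hS0 (supp x) hd
    have hle : kd χ (S0 ∪ supp x) ≤ kd χ S0 := kd_anti χ Finset.subset_union_left
    obtain ⟨r, hr⟩ := Nat.exists_eq_add_of_le hle
    set D := ∑ i ∈ supp x, finrank ℝ (V i) with hD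
    have h2 : β * D ≤ r := by
      rw [hr, Nat.cast_add] at h1
      linarith
    rcases Nat.eq_zero_or_pos r with hr0 | hr0
    · rw [hr0, Nat.cast_zero] at h2
      have h3 : (D : ℝ) ≤ 0 := by
        by_contra hlt
        push Not at hlt
        have : 0 < β * D := mul_pos hβ0 hlt
        linarith
      have h4 : D = 0 := by
        have : (D : ℝ) = 0 := le_antisymm h3 (Nat.cast_nonneg _)
        exact_mod_cast this
      rw [h4]
      exact Nat.zero_le _
    · have h3 := orbit h S0 (supp x) (hX.1 x hx) (by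
        intro a ha
        have h1 := hX.2 x hx (U f a x) (hinv _ x hx) (fun h0 => ha h0.symm)
        rw [Real.cos_pi_div_three] at h1
        have h2 := norm_sub_sq_real x (U f a x)
        rw [hX.1 x hx, U_apply, LinearIsometryEquiv.norm_map, hX.1 x hx] at h2
        rw [U_apply] at h1
        have h3 : (1 : ℝ) ^ 2 ≤ ‖x - f (Multiplicative.ofAdd a) x‖ ^ 2 := by rw [h2]; linarith
        exact le_of_sq_le_sq h3 (norm_nonneg _)) (by intro i; simp [hsupp]) hr0 (by omega)
      have h4 : ((p : ℝ)) ^ r ≤ (2 : ℝ) ^ ((cplus + δ / 2) * D + C1) := by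
        calc (p : ℝ) ^ r ≤ kissing D := by exact_mod_cast h3
          _ ≤ _ := hkc D
      have h5 : (2 : ℝ) ^ (L * r) ≤ (2 : ℝ) ^ ((cplus + δ / 2) * D + C1) := by
        rw [Real.rpow_mul (by norm_num), Real.rpow_natCast, hLdef,
          Real.rpow_logb (by norm_num) (by norm_num) (by exact_mod_cast hp.pos)]
        exact h4
      have h6 : L * r ≤ (cplus + δ / 2) * D + C1 :=
        (Real.rpow_le_rpow_left_iff (by norm_num)).1 h5
      have h7 : (cplus + δ) * D ≤ L * r := by
        calc (cplus + δ) * D = L * (β * D) := by rw [hβdef]; field_simp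
          _ ≤ _ := mul_le_mul_of_nonneg_left h2 hL0.le
      have h8 : (D : ℝ) ≤ 2 * C1 / δ := by
        rw [le_div_iff₀ hδ]
        linarith
      have h9 : (D : ℝ) ≤ C := h8.trans (Nat.le_ceil _)
      exact_mod_cast h9
  have hs' : ∀ x ∈ X, (supp x).card ≤ C := by
    intro x hx
    refine le_trans ?_ (hs x hx)
    calc (supp x).card = ∑ _i ∈ supp x, 1 := by simp
      _ ≤ _ := Finset.sum_le_sum fun i _ => hpos i
  set K := min n (⌊((n : ℝ) - cp p * k) / (1 - cp p * β)⌋₊ + C) with hK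
  have hS0D : ∑ i ∈ S0, finrank ℝ (V i) ≤ ⌊((n : ℝ) - cp p * k) / (1 - cp p * β)⌋₊ := by
    apply Nat.le_floor
    rw [le_div_iff₀ hcβ]
    exact hS0c
  have hfib : ∀ T ∈ X.image supp, (X.filter (fun x => supp x = T)).card ≤ kissing K := by
    intro T hT
    obtain ⟨x0, hx0, rfl⟩ := Finset.mem_image.1 hT
    set T := supp x0 with hTdef
    have hTc : ∑ i ∈ T, finrank ℝ (V i) ≤ C := hs x0 hx0
    have hdis : Disjoint S0 T := by
      rw [Finset.disjoint_left]
      intro i hi hiT
      exact (Finset.mem_filter.1 hiT).2.1 hi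
    set R := (S0 ∪ T)ᶜ with hR
    have h1 := (dims h R).2.2 (X.filter (fun x => supp x = T))
      ⟨fun x hx => hX.1 x (Finset.mem_filter.1 hx).1, fun x hx y hy hxy =>
        hX.2 x (Finset.mem_filter.1 hx).1 y (Finset.mem_filter.1 hy).1 hxy⟩
      (by
        intro x hx i hi
        by_contra hne
        rw [hR, Finset.mem_compl, Finset.mem_union, not_or] at hi
        apply hi.2
        rw [← (Finset.mem_filter.1 hx).2]
        exact Finset.mem_filter.2 ⟨Finset.mem_univ _, hi.1, hne⟩)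
    refine h1.trans (kissing_mono ?_)
    have h2 : ∑ i ∈ R, finrank ℝ (V i) +
        (∑ i ∈ S0, finrank ℝ (V i) + ∑ i ∈ T, finrank ℝ (V i)) = n := by
      rw [← Finset.sum_union hdis, hR, add_comm, Finset.sum_add_sum_compl]
      exact (dims h ∅).2.1
    refine le_min (Nat.sub_le _ _) ?_
    omega
  have hI : Fintype.card ι ≤ n := by
    have h2 : ∑ _i : ι, 1 ≤ ∑ i, finrank ℝ (V i) := Finset.sum_le_sum fun i _ => hpos i
    rw [(dims h ∅).2.1] at h2
    simpa using h2
  calc X.card = ∑ T ∈ X.image supp, (X.filter (fun x => supp x = T)).card :=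
        Finset.card_eq_sum_card_image supp X
    _ ≤ ∑ _T ∈ X.image supp, kissing K := Finset.sum_le_sum hfib
    _ = (X.image supp).card * kissing K := by rw [Finset.sum_const, smul_eq_mul]
    _ ≤ (n + 1) ^ C * kissing K := by
        apply Nat.mul_le_mul_right
        have h1 := Pool.Agent.Helper909EA.card_small C (X.image supp) (by
          intro T hT
          obtain ⟨x, hx, rfl⟩ := Finset.mem_image.1 hT
          exact hs' x hx)
        have h2 : (Fintype.card ι + 1) ^ C ≤ (n + 1) ^ C := Nat.pow_le_pow_left (by omega) C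
        exact h1.trans h2

end Pool.Agent.Helper909EA.Sph
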