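import Pool.Agent.Helper909_ea.Struct
import Pool.Agent.Helper909_ea.SphComb

/-! Points whose orbit under an elementary abelian group is separated: the number of components. -/

set_option autoImplicit false

open Module Module.End LinearMap
open scoped InnerProductSpace

namespace Pool.Agent.Helper909EA.Sph

open Pool.Agent.Helper909EA

section
variable {E : Type} [NormedAddCommGroup E] [InnerProductSpace ℝ E] [FiniteDimensional ℝ E]
variable {p k : ℕ} [hp : Fact p.Prime]
variable (f : Multiplicative (Fin k → ZMod p) →* (E ≃ₗᵢ[ℝ] E))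
variable {ι : Type} [Fintype ι] [DecidableEq ι]

/-- a decomposition into isotypic components -/
structure Dec (V : ι → Submodule ℝ E) (χ : ι → Dual (ZMod p) (Fin k → ZMod p)) : Prop where
  orth : ∀ i j, i ≠ j → ∀ v ∈ V i, ∀ w ∈ V j, ⟪v, w⟫_ℝ = 0
  top : iSup V = ⊤
  fix : ∀ i, ∀ v ∈ V i, ∀ a, χ i a = 0 → U f a v = v
  mov : ∀ i, ∀ v ∈ V i, ∀ a, χ i a ≠ 0 → N f a v = 0
  inv : ∀ i, ∀ v ∈ V i, ∀ a, U f a v ∈ V i
  ne : ∀ i, V i ≠ ⊥
  triv : kd χ Finset.univ = 0
  one : ∀ i j, χ i = 0 → χ j = 0 → i = j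

variable {f} {V : ι → Submodule ℝ E} {χ : ι → Dual (ZMod p) (Fin k → ZMod p)}

lemma Dec.sum (h : Dec f V χ) (x : E) : ∑ i, (V i).starProjection x = x := by
  have hV : OrthogonalFamily ℝ (fun i => V i) fun i => (V i).subtypeₗᵢ := by
    intro i j hij v w
    exact h.orth i j hij v v.2 w w.2
  exact hV.sum_projection_of_mem_iSup x (by rw [h.top]; exact Submodule.mem_top)

lemma inner_proj (W : Submodule ℝ E) (x : E) : ⟪x, W.starProjection x⟫_ℝ = ‖W.starProjection x‖ ^ 2 := by
  rw [← real_inner_self_eq_norm_sq, Submodule.inner_starProjection_left_eq_right,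
    Submodule.starProjection_eq_self_iff.2 (Submodule.starProjection_apply_mem W x)]

lemma Dec.sum_sq (h : Dec f V χ) (x : E) : ∑ i, ‖(V i).starProjection x‖ ^ 2 = ‖x‖ ^ 2 := by
  have h1 : ⟪x, ∑ i, (V i).starProjection x⟫_ℝ = ‖x‖ ^ 2 := by
    rw [h.sum x, real_inner_self_eq_norm_sq]
  rw [← h1, inner_sum]
  exact Finset.sum_congr rfl fun i _ => (inner_proj _ _).symm

/-- a group element fixing a point fixes its components -/
lemma Dec.char_zero (h : Dec f V χ) {x : E} {a : Fin k → ZMod p} (ha : U f a x = x) {i : ι}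
    (hi : (V i).starProjection x ≠ 0) : χ i a = 0 := by
  by_contra hne
  have hN : N f a x = (p : ℝ) • x := (N_eq_iff f a x).2 ha
  have h1 : N f a ((V i).starProjection x) = 0 :=
    h.mov i _ (Submodule.starProjection_apply_mem _ _) a hne
  have h2 : ⟪N f a x, (V i).starProjection x⟫_ℝ = ⟪x, N f a ((V i).starProjection x)⟫_ℝ :=
    N_symm f a _ _
  rw [hN, h1, inner_zero_right, real_inner_smul_left, inner_proj] at h2
  have h3 : (0 : ℝ) < ‖(V i).starProjection x‖ ^ 2 := by positivity
  have h4 := p_pos (p := p)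
  have : (0 : ℝ) < p * ‖(V i).starProjection x‖ ^ 2 := by positivity
  linarith

open Classical in
/-- the elements of a subspace -/
noncomputable def els (K : Submodule (ZMod p) (Fin k → ZMod p)) : Finset (Fin k → ZMod p) :=
  Finset.univ.filter (fun a => a ∈ K)

omit [FiniteDimensional ℝ E] in
lemma mem_els {K : Submodule (ZMod p) (Fin k → ZMod p)} {a : Fin k → ZMod p} :
    a ∈ els K ↔ a ∈ K := by
  simp [els]

lemma card_els (K : Submodule (ZMod p) (Fin k → ZMod p)) : (els K).card = p ^ finrank (ZMod p) K := by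
  classical
  have h1 : (els K).card = Nat.card K := by
    rw [Nat.card_eq_fintype_card, ← Fintype.card_coe]
    exact Fintype.card_congr (Equiv.subtypeEquivRight fun a => mem_els)
  rw [h1, Module.natCard_eq_pow_finrank (K := ZMod p), Nat.card_zmod]

omit [Fintype ι] [DecidableEq ι] in
variable (f) in
/-- the decomposition exists -/
theorem exists_dec (hf : Function.Injective f) :
    ∃ (ι : Type) (_ : Fintype ι) (_ : DecidableEq ι) (V : ι → Submodule ℝ E)
      (χ : ι → Dual (ZMod p) (Fin k → ZMod p)), Dec f V χ := by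
  classical
  have hfin : Fintype {α : (Fin k → ZMod p) → ℝ // W f α ≠ ⊥} :=
    (W_indep f).fintypeNeBotOfFiniteDimensional
  choose χ hχ using fun α : {α : (Fin k → ZMod p) → ℝ // W f α ≠ ⊥} => exists_char f α.2
  have hp0 := p_pos (p := p)
  have htop : ⨆ α : {α : (Fin k → ZMod p) → ℝ // W f α ≠ ⊥}, W f α.1 = ⊤ := by
    rw [← W_top f]
    exact iSup_ne_bot_subtype _
  have hfix : ∀ α : {α : (Fin k → ZMod p) → ℝ // W f α ≠ ⊥}, ∀ v ∈ W f α.1, ∀ a,
      χ α a = 0 → U f a v = v := by
    intro α v hv a ha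
    rw [← N_eq_iff, (mem_W f).1 hv a, (hχ α a).1 ha]
  refine ⟨{α : (Fin k → ZMod p) → ℝ // W f α ≠ ⊥}, hfin, inferInstance, fun α => W f α.1, χ,
    ?_, htop, hfix, ?_, ?_, fun α => α.2, ?_, ?_⟩
  · intro α β hαβ v hv w hw
    exact W_orth f (fun h => hαβ (Subtype.ext h)) hv hw
  · intro α v hv a ha
    rw [(mem_W f).1 hv a, (hχ α a).2 ha, zero_smul]
  · intro α v hv a
    exact W_U f hv a
  · have h1 : Kn χ Finset.univ = ⊥ := by
      rw [eq_bot_iff]
      intro a ha
      rw [mem_Kn] at ha
      have hU : ∀ x : E, U f a x = x := by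
        have h2 : ⨆ α : {α : (Fin k → ZMod p) → ℝ // W f α ≠ ⊥}, W f α.1 ≤
            LinearMap.eqLocus (U f a) LinearMap.id := by
          apply iSup_le
          intro α v hv
          rw [LinearMap.mem_eqLocus]
          exact hfix α v hv a (ha α (Finset.mem_univ _))
        rw [htop] at h2
        intro x
        exact LinearMap.mem_eqLocus.1 (h2 (Submodule.mem_top (x := x)))
      have h2 : f (Multiplicative.ofAdd a) = f 1 := by
        rw [map_one]
        ext x
        exact hU x
      have h3 := hf h2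
      have h4 : a = 0 := by
        have := congrArg Multiplicative.toAdd h3
        simpa using this
      rw [h4]
      exact Submodule.zero_mem _
    unfold kd
    rw [h1, finrank_bot]
  · intro α β hα hβ
    apply Subtype.ext
    funext a
    rw [(hχ α a).1 (by rw [hα]; rfl), (hχ β a).1 (by rw [hβ]; rfl)]

/-- the smallest dimension of a faithful component -/
def cp (p : ℕ) : ℕ := if p = 2 then 1 else 2

lemma Dec.dim (h : Dec f V χ) (i : ι) (hi : χ i ≠ 0) : cp p ≤ finrank ℝ (V i) := by
  have hpos : 0 < finrank ℝ (V i) := by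
    rw [Nat.pos_iff_ne_zero]
    intro h0
    exact h.ne i (Submodule.finrank_eq_zero.1 h0)
  unfold cp
  split_ifs with h2
  · exact hpos
  · by_contra hlt
    have h1 : finrank ℝ (V i) = 1 := by omega
    obtain ⟨v, hv, hv0⟩ := Submodule.exists_mem_ne_zero_of_ne_bot (h.ne i)
    have hsp := (finrank_eq_one_iff_of_nonzero' (⟨v, hv⟩ : V i)
      (fun h0 => hv0 (congrArg Subtype.val h0))).1 h1
    obtain ⟨a, ha⟩ : ∃ a, χ i a ≠ 0 := by
      by_contra hcon
      push Not at hcon
      exact hi (LinearMap.ext hcon)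
    obtain ⟨c, hc⟩ := hsp ⟨U f a v, h.inv i v hv a⟩
    have hc' : c • v = U f a v := congrArg Subtype.val hc
    have hpow : ∀ r : ℕ, U f ((r : ZMod p) • a) v = c ^ r • v := by
      intro r
      induction r with
      | zero => rw [Nat.cast_zero, zero_smul, U_zero, pow_zero, one_smul]
      | succ r ih =>
        rw [Nat.cast_succ, add_smul, one_smul, U_add, ← hc', map_smul, ih, smul_smul, pow_succ,
          mul_comm]
    have hcp := hpow p
    rw [ZMod.natCast_self, zero_smul, U_zero] at hcp
    have hcp1 : c ^ p = 1 := by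
      have h3 : (c ^ p - 1) • v = 0 := by rw [sub_smul, one_smul, ← hcp, sub_self]
      have := (smul_eq_zero.1 h3).resolve_right hv0
      linarith
    have hodd : Odd p := hp.out.odd_of_ne_two h2
    have hc1 : c = 1 := by
      have h3 : c ^ p = 1 ^ p := by rw [hcp1, one_pow]
      exact hodd.strictMono_pow.injective h3
    have h4 : U f a v = v := by rw [← hc', hc1, one_smul]
    have h5 := h.mov i v hv a ha
    rw [(N_eq_iff f a v).2 h4] at h5
    exact hv0 ((smul_eq_zero.1 h5).resolve_left (p_pos (p := p)).ne')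

end

end Pool.Agent.Helper909EA.Sph
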