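import Pool.Agent.Helper909_ea.Rep

/-! Many pairwise orthogonal vectors which are separated by short products of norm operators. -/

set_option autoImplicit false

open Module Module.End LinearMap
open scoped InnerProductSpace

namespace Pool.Agent.Helper909EA

section
variable {E : Type*} [NormedAddCommGroup E] [InnerProductSpace ℝ E]
variable {p k : ℕ} [hp : Fact p.Prime]
variable (f : Multiplicative (Fin k → ZMod p) →* (E ≃ₗᵢ[ℝ] E))

/-- the product of the operators `p - N a`, `a ∈ l` -/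
noncomputable def prodT : List (Fin k → ZMod p) → (E →ₗ[ℝ] E)
  | [] => LinearMap.id
  | a :: l => (T f a).comp (prodT l)

lemma prodT_nil (x : E) : prodT f [] x = x := rfl

lemma prodT_cons (a : Fin k → ZMod p) (l : List (Fin k → ZMod p)) (x : E) :
    prodT f (a :: l) x = T f a (prodT f l x) := rfl

lemma prodT_W {α : (Fin k → ZMod p) → ℝ} {v : E} (hv : v ∈ W f α) (l : List (Fin k → ZMod p)) :
    prodT f l v = (l.map (fun a => (p : ℝ) - α a)).prod • v := by
  induction l with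
  | nil => simp [prodT_nil]
  | cons a l ih =>
    rw [prodT_cons, ih, map_smul, T_apply, (mem_W f).1 hv a, List.map_cons, List.prod_cons,
      ← sub_smul, smul_smul, mul_comm]

lemma prodT_norm (l : List (Fin k → ZMod p)) (x : E) :
    ‖prodT f l x‖ ≤ (p : ℝ) ^ l.length * ‖x‖ := by
  induction l with
  | nil => simp [prodT_nil]
  | cons a l ih =>
    rw [prodT_cons, List.length_cons, pow_succ']
    calc ‖T f a (prodT f l x)‖ ≤ p * ‖prodT f l x‖ := T_norm f a _
      _ ≤ p * ((p : ℝ) ^ l.length * ‖x‖) := by gcongr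
      _ = _ := by ring

lemma prodT_inner {α : (Fin k → ZMod p) → ℝ} {v : E} (hv : v ∈ W f α)
    (l : List (Fin k → ZMod p)) (hl : ∀ a ∈ l, α a = 0) (x : E) :
    ⟪v, prodT f l x⟫_ℝ = (p : ℝ) ^ l.length * ⟪v, x⟫_ℝ := by
  induction l with
  | nil => simp [prodT_nil]
  | cons a l ih =>
    have h1 : ∀ y : E, ⟪v, T f a y⟫_ℝ = p * ⟪v, y⟫_ℝ := by
      intro y
      rw [T_apply, inner_sub_right, real_inner_smul_right, ← N_symm f a v y,
        (mem_W f).1 hv a, hl a (by simp), zero_smul, inner_zero_left, sub_zero]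
    rw [prodT_cons, h1, ih (fun b hb => hl b (by simp [hb])), List.length_cons, pow_succ']
    ring

lemma prodT_mem (Λ : AddSubgroup E) (hΛ : ∀ g, ∀ x ∈ Λ, f g x ∈ Λ)
    (l : List (Fin k → ZMod p)) {x : E} (hx : x ∈ Λ) : prodT f l x ∈ Λ := by
  induction l with
  | nil => exact hx
  | cons a l ih =>
    rw [prodT_cons, T_apply]
    apply Λ.sub_mem
    · rw [Nat.cast_smul_eq_nsmul ℝ]
      exact Λ.nsmul_mem ih _
    · rw [N_apply]
      exact Λ.sum_mem fun j _ => hΛ _ _ ih

lemma W_U {α : (Fin k → ZMod p) → ℝ} {v : E} (hv : v ∈ W f α) (b : Fin k → ZMod p) :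
    U f b v ∈ W f α := by
  rw [mem_W] at hv ⊢
  intro a
  have h1 : N f a (U f b v) = U f b (N f a v) := by
    rw [N_apply, N_apply, map_sum]
    exact Finset.sum_congr rfl fun j _ => U_comm f _ _ _
  rw [h1, hv a, map_smul]

variable [FiniteDimensional ℝ E]

/-- The structure theorem. -/
theorem rep_structure (hf : Function.Injective f) (t : ℕ) :
    ∃ (ι : Type) (_ : Fintype ι) (_ : DecidableEq ι) (V : ι → Submodule ℝ E)
      (M : ι → (E →ₗ[ℝ] E)),
      (t + 1) * k ≤ (t + 1) * Fintype.card ι + finrank ℝ E ∧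
      (∀ i, V i ≠ ⊥) ∧
      (∀ i j, i ≠ j → ∀ v ∈ V i, ∀ w ∈ V j, ⟪v, w⟫_ℝ = 0) ∧
      (∀ i x, ‖M i x‖ ≤ (p : ℝ) ^ (2 * t + 1) * ‖x‖) ∧
      (∀ i, ∀ v ∈ V i, M i v = (p : ℝ) ^ (2 * t + 1) • v) ∧
      (∀ i j, i ≠ j → ∀ v ∈ V j, M i v = 0) ∧
      (∀ i, ∀ v ∈ V i, ∀ x, ⟪v, M i x⟫_ℝ = (p : ℝ) ^ (2 * t + 1) * ⟪v, x⟫_ℝ) ∧
      (∀ Λ : AddSubgroup E, (∀ g, ∀ x ∈ Λ, f g x ∈ Λ) → ∀ i, ∀ x ∈ Λ, M i x ∈ Λ) ∧
      (∀ i x, M i x ∈ V i) ∧
      (∀ i, ∃ a, ∀ v ∈ V i, N f a v = 0) ∧
      (∀ i, ∀ v ∈ V i, ∀ a, U f a v ∈ V i) := by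
  classical
  have hp0 := p_pos (p := p)
  have hfin : Fintype {α : (Fin k → ZMod p) → ℝ // W f α ≠ ⊥} :=
    (W_indep f).fintypeNeBotOfFiniteDimensional
  have hcard : Fintype.card {α : (Fin k → ZMod p) → ℝ // W f α ≠ ⊥} ≤ finrank ℝ E :=
    (W_indep f).subtype_ne_bot_le_finrank
  choose χ hχ using fun α : {α : (Fin k → ZMod p) → ℝ // W f α ≠ ⊥} => exists_char f α.2
  have hdiff : ∀ α β : {α : (Fin k → ZMod p) → ℝ // W f α ≠ ⊥}, α ≠ β →
      ∃ a, (χ α a = 0 ∧ χ β a ≠ 0) ∨ (χ α a ≠ 0 ∧ χ β a = 0) := by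
    intro α β hαβ
    by_contra hcon
    push Not at hcon
    apply hαβ
    apply Subtype.ext
    funext a
    by_cases ha : χ α a = 0
    · have hb : χ β a = 0 := (hcon a).1 ha
      rw [(hχ α a).1 ha, (hχ β a).1 hb]
    · have hb : χ β a ≠ 0 := (hcon a).2 ha
      rw [(hχ α a).2 ha, (hχ β a).2 hb]
  set X : Finset (Dual (ZMod p) (Fin k → ZMod p)) := Finset.univ.image χ with hXdef
  have hXcard : X.card ≤ finrank ℝ E := (Finset.card_image_le.trans (by simp)).trans hcard
  have hXspan : Submodule.span (ZMod p) (X : Set (Dual (ZMod p) (Fin k → ZMod p))) = ⊤ := by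
    by_contra hne
    obtain ⟨φ, hφ0, hφ⟩ := Submodule.exists_dual_map_eq_bot_of_lt_top (lt_top_iff_ne_top.2 hne)
      inferInstance
    apply hφ0
    set a := (Module.evalEquiv (ZMod p) (Fin k → ZMod p)).symm φ with ha
    have haφ : ∀ c : Dual (ZMod p) (Fin k → ZMod p), φ c = c a := by
      intro c
      have h1 : (Module.evalEquiv (ZMod p) (Fin k → ZMod p)) a = φ := by
        rw [ha, LinearEquiv.apply_symm_apply]
      rw [← h1]
      simp
    have hz : ∀ α : {α : (Fin k → ZMod p) → ℝ // W f α ≠ ⊥}, χ α a = 0 := by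
      intro α
      rw [← haφ]
      have h1 : φ (χ α) ∈ (Submodule.span (ZMod p)
          (X : Set (Dual (ZMod p) (Fin k → ZMod p)))).map φ := by
        apply Submodule.mem_map_of_mem
        apply Submodule.subset_span
        simp [hXdef]
      exact (Submodule.mem_bot (ZMod p)).1 (hφ ▸ h1)
    have hN : ∀ x : E, N f a x = (p : ℝ) • x := by
      have h1 : ⨆ α : (Fin k → ZMod p) → ℝ, W f α ≤ eigenspace (N f a) (p : ℝ) := by
        apply iSup_le
        intro α
        by_cases hα : W f α = ⊥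
        · rw [hα]; exact bot_le
        · intro v hv
          have h2 : α a = p := (hχ ⟨α, hα⟩ a).1 (hz ⟨α, hα⟩)
          rw [mem_eigenspace_iff, (mem_W f).1 hv a, h2]
      rw [W_top f] at h1
      intro x
      exact mem_eigenspace_iff.1 (h1 (Submodule.mem_top (x := x)))
    have hU : ∀ x : E, U f a x = x := fun x => (N_eq_iff f a x).1 (hN x)
    have h2 : f (Multiplicative.ofAdd a) = f 1 := by
      rw [map_one]
      ext x
      exact hU x
    have h3 := hf h2
    have h4 : a = 0 := by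
      have := congrArg Multiplicative.toAdd h3
      simpa using this
    rw [ha] at h4
    exact (LinearEquiv.map_eq_zero_iff _).1 h4
  have hXprop : ∀ x ∈ X, ∀ y ∈ X, x ≠ y → x ≠ 0 → x ∉ Submodule.span (ZMod p) {y} := by
    intro x hx y hy hxy hx0 hmem
    obtain ⟨α, -, rfl⟩ := Finset.mem_image.1 hx
    obtain ⟨β, -, rfl⟩ := Finset.mem_image.1 hy
    obtain ⟨c, hc⟩ := Submodule.mem_span_singleton.1 hmem
    have hc0 : c ≠ 0 := by
      rintro rfl
      rw [zero_smul] at hc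
      exact hx0 hc.symm
    have hαβ : α ≠ β := fun h => hxy (by rw [h])
    obtain ⟨a, ha⟩ := hdiff α β hαβ
    have h1 : χ α a = c * χ β a := by rw [← hc]; rfl
    rcases ha with ⟨h2, h3⟩ | ⟨h2, h3⟩
    · rw [h2] at h1
      rcases mul_eq_zero.1 h1.symm with h | h
      · exact hc0 h
      · exact h3 h
    · rw [h3, mul_zero] at h1
      exact h2 h1
  obtain ⟨Y, hYX, hYcard, hY⟩ := isolating X hXspan hXprop t
  have hβ : ∀ b : Y, ∃ β : {α : (Fin k → ZMod p) → ℝ // W f α ≠ ⊥}, χ β = b := by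
    intro b
    obtain ⟨β, -, h⟩ := Finset.mem_image.1 (hYX b.2)
    exact ⟨β, h⟩
  choose β hβ using hβ
  have hl : ∀ b : Y, ∃ l : List (Fin k → ZMod p), l.length = 2 * t + 1 ∧
      (∀ a ∈ l, (β b).1 a = 0) ∧
      ∀ α : {α : (Fin k → ZMod p) → ℝ // W f α ≠ ⊥}, α ≠ β b → ∃ a ∈ l, α.1 a = p := by
    intro b
    obtain ⟨l, hl1, hl2, hl3⟩ := hY b.1 b.2
    have haφ : ∀ (φ : Dual (ZMod p) (Dual (ZMod p) (Fin k → ZMod p)))
        (c : Dual (ZMod p) (Fin k → ZMod p)),
        c ((Module.evalEquiv (ZMod p) (Fin k → ZMod p)).symm φ) = φ c := by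
      intro φ c
      have h1 : (Module.evalEquiv (ZMod p) (Fin k → ZMod p))
          ((Module.evalEquiv (ZMod p) (Fin k → ZMod p)).symm φ) = φ := by
        rw [LinearEquiv.apply_symm_apply]
      conv_rhs => rw [← h1]
      simp
    refine ⟨l.map (Module.evalEquiv (ZMod p) (Fin k → ZMod p)).symm, by simp [hl1], ?_, ?_⟩
    · intro a ha
      obtain ⟨φ, hφ, rfl⟩ := List.mem_map.1 ha
      apply (hχ (β b) _).2
      rw [haφ, hβ b]
      exact hl2 φ hφ
    · intro α hα
      have h1 : χ α ∈ X := by simp [hXdef]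
      have h2 : χ α ≠ b.1 := by
        intro h
        rw [← hβ b] at h
        obtain ⟨a, ha⟩ := hdiff α (β b) hα
        rw [h] at ha
        rcases ha with ⟨h3, h4⟩ | ⟨h3, h4⟩
        · exact h4 h3
        · exact h3 h4
      obtain ⟨φ, hφ, hφ0⟩ := hl3 _ h1 h2
      refine ⟨_, List.mem_map.2 ⟨φ, hφ, rfl⟩, (hχ α _).1 ?_⟩
      rw [haφ, hφ0]
  choose l hl1 hl2 hl3 using hl
  have hβinj : ∀ b c : Y, b ≠ c → β b ≠ β c := by
    intro b c hbc h
    apply hbc
    apply Subtype.ext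
    rw [← hβ b, ← hβ c, h]
  have hself : ∀ b : Y, ∀ v ∈ W f (β b).1, prodT f (l b) v = (p : ℝ) ^ (2 * t + 1) • v := by
    intro b v hv
    rw [prodT_W f hv]
    congr 1
    have h1 : (l b).map (fun a => (p : ℝ) - (β b).1 a) = (l b).map (fun _ => (p : ℝ)) := by
      apply List.map_congr_left
      intro a ha
      rw [hl2 b a ha, sub_zero]
    rw [h1]
    simp [hl1 b]
  have hother : ∀ (b : Y) (α : {α : (Fin k → ZMod p) → ℝ // W f α ≠ ⊥}), α ≠ β b →
      ∀ v ∈ W f α.1, prodT f (l b) v = 0 := by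
    intro b α hα v hv
    rw [prodT_W f hv]
    obtain ⟨a, ha, hab⟩ := hl3 b α hα
    have h1 : ((l b).map (fun a => (p : ℝ) - α.1 a)).prod = 0 := by
      apply List.prod_eq_zero
      rw [List.mem_map]
      exact ⟨a, ha, by rw [hab, sub_self]⟩
    rw [h1, zero_smul]
  refine ⟨Y, inferInstance, inferInstance, fun b => W f (β b).1, fun b => prodT f (l b),
    ?_, ?_, ?_, ?_, ?_, ?_, ?_, ?_, ?_, ?_, ?_⟩
  · have h1 : finrank (ZMod p) (Dual (ZMod p) (Fin k → ZMod p)) = k := by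
      rw [Subspace.dual_finrank_eq]; simp
    rw [h1] at hYcard
    rw [Fintype.card_coe]
    omega
  · exact fun b => (β b).2
  · intro b c hbc v hv w hw
    exact W_orth f (fun h => hβinj b c hbc (Subtype.ext h)) hv hw
  · intro b x
    have := prodT_norm f (l b) x
    rwa [hl1 b] at this
  · exact hself
  · intro b c hbc v hv
    exact hother b (β c) (hβinj c b hbc.symm) v hv
  · intro b v hv x
    have := prodT_inner f hv (l b) (hl2 b) x
    rwa [hl1 b] at this
  · intro Λ hΛ b x hx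
    exact prodT_mem f Λ hΛ (l b) hx
  · intro b x
    have h1 : ⨆ α : (Fin k → ZMod p) → ℝ, W f α ≤ (W f (β b).1).comap (prodT f (l b)) := by
      apply iSup_le
      intro α
      by_cases hα : W f α = ⊥
      · rw [hα]; exact bot_le
      · intro v hv
        rw [Submodule.mem_comap]
        by_cases hαβ : (⟨α, hα⟩ : {α : (Fin k → ZMod p) → ℝ // W f α ≠ ⊥}) = β b
        · have h2 : v ∈ W f (β b).1 := by rw [← hαβ]; exact hv
          rw [hself b v h2]
          exact Submodule.smul_mem _ _ h2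
        · rw [hother b ⟨α, hα⟩ hαβ v hv]
          exact Submodule.zero_mem _
    rw [W_top f] at h1
    exact h1 (Submodule.mem_top (x := x))
  · intro b
    have hne : l b ≠ [] := by
      intro h
      have := hl1 b
      rw [h] at this
      simp at this
    obtain ⟨a, ha⟩ := List.exists_mem_of_ne_nil _ hne
    refine ⟨a, fun v hv => ?_⟩
    rw [(mem_W f).1 hv a, hl2 b a ha, zero_smul]
  · intro b v hv a
    exact W_U f hv a

end

end Pool.Agent.Helper909EA
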