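import Pool.Agent.Helper909_ea.HermRank

/-! Groups of orthogonal matrices which map a lattice to itself. -/

set_option autoImplicit false

open MeasureTheory Metric Filter Set
open scoped Topology InnerProductSpace Pointwise

namespace Pool.Agent.Helper909EA

open Pool.Agent.H160R3.Herm (minSq hermite bsum det_bsum sum_bsum minSq_smul_le pow_value
  exists_lt_value hermite_ge minSq_le minSq_nonneg le_minSq)

/-- `Q` is an automorphism of the lattice `A ℤ^n`: an orthogonal matrix which maps the lattice to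
itself. -/
def IsAuto {n : ℕ} (A Q : Matrix (Fin n) (Fin n) ℝ) : Prop :=
  Q ∈ Matrix.orthogonalGroup (Fin n) ℝ ∧
    ∃ U : Matrix (Fin n) (Fin n) ℤ, Q * A = A * U.map (fun z : ℤ => (z : ℝ))

/-- The lattice `A ℤ^n` has a group of automorphisms isomorphic to `(ℤ/p)^k`. -/
def HasGroup (p k : ℕ) {n : ℕ} (A : Matrix (Fin n) (Fin n) ℝ) : Prop :=
  ∃ ρ : Multiplicative (Fin k → ZMod p) →* Matrix (Fin n) (Fin n) ℝ,
    Function.Injective ρ ∧ ∀ g, IsAuto A (ρ g)

lemma sum_sq_orth {n : ℕ} {Q : Matrix (Fin n) (Fin n) ℝ} (hQ : Q ∈ Matrix.orthogonalGroup (Fin n) ℝ)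
    (v : Fin n → ℝ) : ∑ i, (Q.mulVec v) i ^ 2 = ∑ i, v i ^ 2 := by
  have h1 : ∀ u : Fin n → ℝ, ∑ i, u i ^ 2 = u ⬝ᵥ u := by
    intro u
    simp [dotProduct, sq]
  rw [Matrix.mem_orthogonalGroup_iff'] at hQ
  rw [h1, h1, Matrix.dotProduct_mulVec, Matrix.vecMul_mulVec, hQ, Matrix.vecMul_one]

lemma orth_of_sum_sq {n : ℕ} {Q : Matrix (Fin n) (Fin n) ℝ}
    (h : ∀ v : Fin n → ℝ, ∑ i, (Q.mulVec v) i ^ 2 = ∑ i, v i ^ 2) :
    Q ∈ Matrix.orthogonalGroup (Fin n) ℝ := by
  rw [Matrix.mem_orthogonalGroup_iff']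
  have h1 : ∀ u : Fin n → ℝ, ∑ i, u i ^ 2 = u ⬝ᵥ u := by
    intro u
    simp [dotProduct, sq]
  have h2 : ∀ u v : Fin n → ℝ, (Q.mulVec u) ⬝ᵥ (Q.mulVec v) = u ⬝ᵥ v := by
    intro u v
    have h3 := h (u + v)
    have h4 := h u
    have h5 := h v
    rw [h1, h1] at h3 h4 h5
    rw [Matrix.mulVec_add, add_dotProduct, dotProduct_add, dotProduct_add, add_dotProduct,
      dotProduct_add, dotProduct_add, dotProduct_comm (Q.mulVec v) (Q.mulVec u),
      dotProduct_comm v u] at h3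
    linarith
  ext i j
  have h3 := h2 (Pi.single i 1) (Pi.single j 1)
  rw [Matrix.mulVec_single_one, Matrix.mulVec_single_one, single_one_dotProduct] at h3
  rw [Matrix.mul_apply, Matrix.one_apply]
  simp only [Matrix.transpose_apply]
  simp only [dotProduct, Matrix.col_apply, Pi.single_apply] at h3
  exact h3

/-- from groups of orthogonal matrices to integral symmetries -/
lemma sym_of_group {p k n : ℕ} {A : Matrix (Fin n) (Fin n) ℝ} (hA : A.det ≠ 0)
    (h : HasGroup p k A) : HasSym p k A := by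
  obtain ⟨ρ, hinj, hauto⟩ := h
  have hu : IsUnit A.det := isUnit_iff_ne_zero.2 hA
  have hconj : ∀ Q R : Matrix (Fin n) (Fin n) ℝ,
      (A⁻¹ * Q * A) * (A⁻¹ * R * A) = A⁻¹ * (Q * R) * A := by
    intro Q R
    calc (A⁻¹ * Q * A) * (A⁻¹ * R * A) = A⁻¹ * Q * (A * A⁻¹) * R * A := by noncomm_ring
      _ = _ := by rw [Matrix.mul_nonsing_inv _ hu]; noncomm_ring
  refine ⟨{
    toFun := fun g => Matrix.toLin' (A⁻¹ * ρ g * A)
    map_one' := by
      rw [map_one, mul_one, Matrix.nonsing_inv_mul _ hu, Matrix.toLin'_one]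
      rfl
    map_mul' := by
      intro g h
      rw [map_mul ρ, ← hconj, Matrix.toLin'_mul]
      rfl }, ?_, ?_, ?_⟩
  · intro g h hgh
    apply hinj
    have h1 : A⁻¹ * ρ g * A = A⁻¹ * ρ h * A := Matrix.toLin'.injective hgh
    have h2 := congrArg (fun M => A * M * A⁻¹) h1
    have h3 : ∀ Q : Matrix (Fin n) (Fin n) ℝ, A * (A⁻¹ * Q * A) * A⁻¹ = Q := by
      intro Q
      calc A * (A⁻¹ * Q * A) * A⁻¹ = (A * A⁻¹) * Q * (A * A⁻¹) := by noncomm_ring
        _ = Q := by rw [Matrix.mul_nonsing_inv _ hu]; simp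
    rwa [h3, h3] at h2
  · intro g w
    obtain ⟨-, U, hU⟩ := hauto g
    refine ⟨U.mulVec w, ?_⟩
    change (Matrix.toLin' (A⁻¹ * ρ g * A)) _ = _
    have h1 : A⁻¹ * ρ g * A = U.map (fun z : ℤ => (z : ℝ)) := by
      rw [mul_assoc, hU, ← mul_assoc, Matrix.nonsing_inv_mul _ hu, one_mul]
    rw [h1, Matrix.toLin'_apply]
    funext i
    simp [Matrix.mulVec, dotProduct]
  · intro g v
    change ∑ i, (A.mulVec ((Matrix.toLin' (A⁻¹ * ρ g * A)) v)) i ^ 2 = _
    rw [Matrix.toLin'_apply, Matrix.mulVec_mulVec]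
    have h1 : A * (A⁻¹ * ρ g * A) = ρ g * A := by
      calc A * (A⁻¹ * ρ g * A) = (A * A⁻¹) * ρ g * A := by noncomm_ring
        _ = _ := by rw [Matrix.mul_nonsing_inv _ hu, one_mul]
    rw [h1, ← Matrix.mulVec_mulVec, sum_sq_orth (hauto g).1]

/-- from integral symmetries to groups of orthogonal matrices -/
lemma group_of_sym {p k n : ℕ} {A : Matrix (Fin n) (Fin n) ℝ} (hA : A.det ≠ 0)
    (h : HasSym p k A) : HasGroup p k A := by
  obtain ⟨S, hinj, hint, hform⟩ := h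
  have hu : IsUnit A.det := isUnit_iff_ne_zero.2 hA
  have hconj : ∀ Q R : Matrix (Fin n) (Fin n) ℝ,
      (A * Q * A⁻¹) * (A * R * A⁻¹) = A * (Q * R) * A⁻¹ := by
    intro Q R
    calc (A * Q * A⁻¹) * (A * R * A⁻¹) = A * Q * (A⁻¹ * A) * R * A⁻¹ := by noncomm_ring
      _ = _ := by rw [Matrix.nonsing_inv_mul _ hu]; noncomm_ring
  refine ⟨{
    toFun := fun g => A * LinearMap.toMatrix' (S g) * A⁻¹
    map_one' := by
      rw [map_one, LinearMap.toMatrix'_one, mul_one, Matrix.mul_nonsing_inv _ hu]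
    map_mul' := by
      intro g h
      rw [map_mul, LinearMap.toMatrix'_mul, hconj] }, ?_, ?_⟩
  · intro g h hgh
    apply hinj
    have h1 : A * LinearMap.toMatrix' (S g) * A⁻¹ = A * LinearMap.toMatrix' (S h) * A⁻¹ := hgh
    have h2 := congrArg (fun M => A⁻¹ * M * A) h1
    have h3 : ∀ Q : Matrix (Fin n) (Fin n) ℝ, A⁻¹ * (A * Q * A⁻¹) * A = Q := by
      intro Q
      calc A⁻¹ * (A * Q * A⁻¹) * A = (A⁻¹ * A) * Q * (A⁻¹ * A) := by noncomm_ring
        _ = Q := by rw [Matrix.nonsing_inv_mul _ hu]; simp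
    rw [h3, h3] at h2
    exact LinearMap.toMatrix'.injective h2
  · intro g
    change IsAuto A (A * LinearMap.toMatrix' (S g) * A⁻¹)
    refine ⟨orth_of_sum_sq fun v => ?_, ?_⟩
    · have h1 : (A * LinearMap.toMatrix' (S g) * A⁻¹).mulVec v =
          A.mulVec (S g (A⁻¹.mulVec v)) := by
        rw [← Matrix.mulVec_mulVec, ← Matrix.mulVec_mulVec, LinearMap.toMatrix'_mulVec]
      rw [h1, hform, Matrix.mulVec_mulVec, Matrix.mul_nonsing_inv _ hu, Matrix.one_mulVec]
    · choose W hW using fun j : Fin n => hint g (Pi.single j 1)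
      refine ⟨Matrix.of fun i j => W j i, ?_⟩
      rw [mul_assoc, Matrix.nonsing_inv_mul _ hu, mul_one]
      congr 1
      ext i j
      rw [LinearMap.toMatrix'_apply, Matrix.map_apply, Matrix.of_apply]
      have h2 := congrFun (hW j) i
      rw [← h2]
      have h3 : (Pi.single j 1 : Fin n → ℝ) =
          fun l => (((Pi.single j 1 : Fin n → ℤ) l : ℤ) : ℝ) := by
        funext l
        simp [Pi.single_apply]
      rw [h3]

/-- from groups of orthogonal matrices to groups of isometries -/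
lemma elem_of_group {p k n : ℕ} {A : Matrix (Fin n) (Fin n) ℝ} (hA : A.det ≠ 0)
    (h : HasGroup p k A) : HasElemAbelian p k n (latt A) :=
  elem_of_sym hA (sym_of_group hA h)

end Pool.Agent.Helper909EA
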