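import Pool.Agent.H818R2.Base2

/-! Density of packings in which every translate of a box contains few centres. -/

set_option autoImplicit false

open MeasureTheory Metric Filter Set
open scoped Topology InnerProductSpace

namespace Pool.Agent.Helper909EA

open Pool.Agent.H818R2

section
variable {E : Type*} [NormedAddCommGroup E] [InnerProductSpace ℝ E] [FiniteDimensional ℝ E]
  [MeasurableSpace E] [BorelSpace E]

open Classical in
/-- Averaging over the translates of `G`. -/
lemma region_count' {G : Set E} (hGm : MeasurableSet G) {a : ℝ} (ha : 0 ≤ a)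
    (hG : G ⊆ closedBall 0 a) {N : ℕ} {F : Finset E}
    (hN : ∀ z : E, (F.filter (fun x => x - z ∈ G)).card ≤ N)
    {T : ℝ} (hT : 0 ≤ T) (hFT : ∀ x ∈ F, ‖x‖ ≤ T) :
    F.card * volume.real G ≤ N * ((T + a) ^ Module.finrank ℝ E * vb E) := by
  have key : ∑ x ∈ F, ∫⁻ z, indicator {z | x - z ∈ G} (fun _ => (1 : ENNReal)) z
      ≤ ∫⁻ z, indicator (closedBall (0 : E) (T + a)) (fun _ => (N : ENNReal)) z := by
    rw [← lintegral_finsetSum]
    · apply lintegral_mono
      intro z
      have e1 : ∑ x ∈ F, indicator {z | x - z ∈ G} (fun _ => (1 : ENNReal)) z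
          = ((F.filter (fun x => x - z ∈ G)).card : ENNReal) := by
        rw [Finset.card_filter, Nat.cast_sum]
        apply Finset.sum_congr rfl
        intro x _
        by_cases h : x - z ∈ G <;> simp [indicator, h]
      simp only [e1]
      by_cases hz : z ∈ closedBall (0 : E) (T + a)
      · rw [indicator_of_mem hz]
        exact_mod_cast hN z
      · have : F.filter (fun x => x - z ∈ G) = ∅ := by
          apply Finset.filter_eq_empty_iff.2
          intro x hx hxz
          apply hz
          have h3 := hG hxz
          rw [mem_closedBall_zero_iff] at h3 ⊢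
          have h4 := hFT x hx
          calc ‖z‖ = ‖x - (x - z)‖ := by congr 1; abel
            _ ≤ ‖x‖ + ‖x - z‖ := norm_sub_le _ _
            _ ≤ T + a := by linarith
        rw [this]; simp
    · intro x _
      apply Measurable.indicator measurable_const
      exact (measurable_const.sub measurable_id) hGm
  have e2 : ∀ x ∈ F, ∫⁻ z, indicator {z | x - z ∈ G} (fun _ => (1 : ENNReal)) z = volume G := by
    intro x _
    have hm : MeasurableSet {z : E | x - z ∈ G} := (measurable_const.sub measurable_id) hGm
    rw [lintegral_indicator_const hm, one_mul]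
    exact (Measure.measurePreserving_sub_left volume x).measure_preimage hGm.nullMeasurableSet
  rw [Finset.sum_congr rfl e2, Finset.sum_const, lintegral_indicator_const measurableSet_closedBall,
    nsmul_eq_mul] at key
  have h5 := ENNReal.toReal_mono (by
    exact ENNReal.mul_ne_top (ENNReal.natCast_ne_top N) measure_closedBall_lt_top.ne) key
  rw [ENNReal.toReal_mul, ENNReal.toReal_mul, ENNReal.toReal_natCast, ENNReal.toReal_natCast,
    ← measureReal_def, ← measureReal_def, vol_closedBall _ (by linarith)] at h5
  exact h5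

/-- If every translate of `G` contains at most `N` centres then the density is at most
`N vol(B) / vol(G)`. -/
lemma upperDensity_le' {X : Set E} (hX : IsPacking X 1) {G : Set E} (hGm : MeasurableSet G)
    {a : ℝ} (ha : 0 ≤ a) (hG : G ⊆ closedBall 0 a) (hG0 : 0 < volume.real G) {N : ℕ}
    (hN : ∀ z : E, ∀ P : Finset E, (P : Set E) ⊆ X → (∀ x ∈ P, x - z ∈ G) → P.card ≤ N) :
    upperDensity X 1 ≤ N * vb E / volume.real G := by
  classical
  set n := Module.finrank ℝ E with hn
  have h1 : ∀ᶠ R : ℝ in atTop,
      volume.real (ball (0 : E) R ∩ body X 1) / volume.real (ball (0 : E) R)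
      ≤ N * vb E / volume.real G * ((R + 1 + a) / R) ^ n := by
    filter_upwards [eventually_gt_atTop 0] with R hR
    have h2 := body_le hX R
    have h3 := region_count' hGm ha hG (N := N) (F := (finite_inter hX (R + 1)).toFinset)
      (fun z => hN z _ (by
        intro x hx
        have hx' := Finset.mem_coe.1 hx
        simp only [Finset.mem_filter, Finite.mem_toFinset] at hx'
        exact hx'.1.1) (by
        intro x hx
        exact (Finset.mem_filter.1 hx).2)) (T := R + 1) (by linarith)
      (fun x hx => by
        simp only [Finite.mem_toFinset, mem_inter_iff, mem_closedBall_zero_iff] at hx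
        exact hx.2)
    rw [vol_ball 0 hR]
    have h4 : ((finite_inter hX (R + 1)).toFinset.card : ℝ)
        ≤ N * ((R + 1 + a) ^ n * vb E) / volume.real G := by
      rw [le_div_iff₀ hG0]; exact h3
    calc volume.real (ball (0 : E) R ∩ body X 1) / (R ^ n * vb E)
        ≤ (N * ((R + 1 + a) ^ n * vb E) / volume.real G * vb E) / (R ^ n * vb E) := by
          apply div_le_div_of_nonneg_right _ (by have := vb_pos (E := E); positivity)
          exact h2.trans (mul_le_mul_of_nonneg_right h4 vb_pos.le)
      _ = N * vb E / volume.real G * ((R + 1 + a) / R) ^ n := by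
          have := (vb_pos (E := E)).ne'
          rw [div_pow]; field_simp
  have h5 : Tendsto (fun R : ℝ => N * vb E / volume.real G * ((R + 1 + a) / R) ^ n) atTop
      (𝓝 (N * vb E / volume.real G * 1 ^ n)) := by
    apply Tendsto.const_mul
    apply Tendsto.pow
    have : Tendsto (fun R : ℝ => 1 + (1 + a) / R) atTop (𝓝 (1 + 0)) :=
      tendsto_const_nhds.add (tendsto_const_nhds.div_atTop tendsto_id)
    rw [add_zero] at this
    refine this.congr' ?_
    filter_upwards [eventually_gt_atTop 0] with R hR
    field_simp
    ring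
  rw [one_pow, mul_one] at h5
  calc upperDensity X 1 ≤ limsup (fun R : ℝ => N * vb E / volume.real G * ((R + 1 + a) / R) ^ n)
        atTop := limsup_le_limsup h1 (ratio_cobdd X 1) h5.isBoundedUnder_le
    _ = _ := h5.limsup_eq

/-- the box with half sides `h` in an orthonormal basis -/
def box {ι : Type*} [Fintype ι] (b : OrthonormalBasis ι ℝ E) (h : ι → ℝ) : Set E :=
  {z | ∀ i, |⟪b i, z⟫_ℝ| < h i}

lemma box_eq {ι : Type*} [Fintype ι] (b : OrthonormalBasis ι ℝ E) (h : ι → ℝ) :
    box b h = b.repr ⁻¹' (WithLp.ofLp ⁻¹' (Set.pi Set.univ fun i => Ioo (-h i) (h i))) := by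
  ext z
  simp only [box, mem_ofPred_eq, mem_preimage, Set.mem_pi, mem_univ, forall_true_left, mem_Ioo,
    abs_lt, b.repr_apply_apply]

lemma box_meas {ι : Type*} [Fintype ι] (b : OrthonormalBasis ι ℝ E) (h : ι → ℝ) :
    MeasurableSet (box b h) := by
  rw [box_eq]
  apply b.measurePreserving_repr.measurable
  apply (PiLp.volume_preserving_ofLp ι).measurable
  exact MeasurableSet.univ_pi fun i => measurableSet_Ioo

lemma box_volume {ι : Type*} [Fintype ι] (b : OrthonormalBasis ι ℝ E) (h : ι → ℝ)
    (hh : ∀ i, 0 < h i) : volume.real (box b h) = ∏ i, (2 * h i) := by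
  have hm : MeasurableSet (Set.pi Set.univ fun i => Ioo (-h i) (h i)) :=
    MeasurableSet.univ_pi fun i => measurableSet_Ioo
  rw [measureReal_def, box_eq, b.measurePreserving_repr.measure_preimage
    (((PiLp.volume_preserving_ofLp ι).measurable hm).nullMeasurableSet),
    (PiLp.volume_preserving_ofLp ι).measure_preimage hm.nullMeasurableSet, Real.volume_pi_Ioo,
    ENNReal.toReal_prod]
  apply Finset.prod_congr rfl
  intro i _
  rw [ENNReal.toReal_ofReal (by linarith [hh i])]
  ring

lemma box_bounded {ι : Type*} [Fintype ι] (b : OrthonormalBasis ι ℝ E) (h : ι → ℝ) :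
    box b h ⊆ closedBall 0 (∑ i, |h i|) := by
  intro z hz
  rw [mem_closedBall_zero_iff]
  calc ‖z‖ = ‖∑ i, ⟪b i, z⟫_ℝ • b i‖ := by rw [b.sum_repr']
    _ ≤ ∑ i, ‖⟪b i, z⟫_ℝ • b i‖ := norm_sum_le _ _
    _ ≤ ∑ i, |h i| := by
        apply Finset.sum_le_sum
        intro i _
        rw [norm_smul, b.norm_eq_one i, mul_one, Real.norm_eq_abs]
        exact (hz i).le.trans (le_abs_self _)

end

end Pool.Agent.Helper909EA
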